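import Pool.Agent.VCD.CritB

/-!
# VCD-Crit: a saturated algebra which is not good has a critical object
-/

open Set FirstOrder

namespace VCD

variable {L : FirstOrder.Language.{0, 0}} {ι : Type} {S : ι → Type} [∀ i, L.Structure (S i)]

theorem Good_biUnion (D : HasSw L S) [Finite ι] [∀ i, Finite (S i)] {P : PA L S} {κ : Type}
    (B : κ → Set P.Ω) (cB : ∀ i, P.Cl (B i)) (s : Finset κ) (hB : ∀ i ∈ s, P.Good (B i)) :
    P.Cl (⋃ i ∈ s, B i) ∧ P.Good (⋃ i ∈ s, B i) := by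
  classical
  induction s using Finset.induction_on with
  | empty =>
    simp only [Finset.notMem_empty, iUnion_of_empty, iUnion_empty]
    exact ⟨cl_empty D P, Good_empty D P⟩
  | insert j s hj ih =>
    rw [Finset.set_biUnion_insert]
    obtain ⟨h1, h2⟩ := ih fun i hi => hB i (Finset.mem_insert_of_mem hi)
    exact ⟨cl_union D P (cB j) h1, Good_union D (cB j) (hB j (Finset.mem_insert_self _ _)) h2⟩

/-- the class of the empty tuple -/
private theorem class_zero (κ : Set (L.Term (Fin 0) × L.Term (Fin 0))) (h : κ ∈ KK L S 0) :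
    ∃ q : Q L S, q.len = 0 ∧ ∀ (i : ι) (v : ℕ → S i), ker L 0 v = κ → ker L q.len v = q.ker :=
  ⟨⟨0, κ, h, fun j => j.elim0⟩, rfl, fun _ _ h => h⟩

private theorem exists_bad (D : HasSw L S) [Finite ι] [∀ i, Finite (S i)] {P : PA L S}
    (hb : ¬ P.Good univ) : ∃ (q : Q L S) (e : Set P.Ω) (a : ℕ → P.A), P.Ob q e a ∧ ¬ P.Good e := by
  classical
  obtain ⟨x⟩ := nonempty_el D P
  by_contra hc
  push Not at hc
  apply hb
  have h1 := (Good_biUnion D (fun κ => {w | ker L 0 (fun _ => x.1 w) = κ})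
    (fun κ => cl_ker D P 0 (fun _ => x) κ) (KK_finite (L := L) (S := S) 0).toFinset ?_).2
  · refine Good_mono h1 fun w _ => ?_
    rw [mem_iUnion₂]
    refine ⟨ker L 0 (fun _ => x.1 w), ?_, rfl⟩
    rw [Set.Finite.mem_toFinset]
    exact ⟨P.f w, _, rfl⟩
  · intro κ hκ
    rw [Set.Finite.mem_toFinset] at hκ
    obtain ⟨q, _, hq⟩ := class_zero κ hκ
    exact hc q _ (fun _ => x) ⟨cl_ker D P 0 (fun _ => x) κ, fun w hw => hq _ _ hw⟩

/-- a bad object whose longer subobjects are good -/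
private theorem exists_long (D : HasSw L S) [Finite ι] [∀ i, Finite (S i)] {P : PA L S}
    (hb : ¬ P.Good univ) : ∃ (q : Q L S) (e : Set P.Ω) (a : ℕ → P.A), P.Ob q e a ∧ ¬ P.Good e ∧
      ∀ q' e' a', P.Ob q' e' a' → q.len < q'.len → P.Good e' := by
  classical
  by_contra hc
  push Not at hc
  have h : ∀ n : ℕ, ∃ (q : Q L S) (e : Set P.Ω) (a : ℕ → P.A), P.Ob q e a ∧ ¬ P.Good e ∧ n ≤ q.len := by
    intro n
    induction n with
    | zero =>
      obtain ⟨q, e, a, h1, h2⟩ := exists_bad D hb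
      exact ⟨q, e, a, h1, h2, Nat.zero_le _⟩
    | succ n ih =>
      obtain ⟨q, e, a, h1, h2, h3⟩ := ih
      obtain ⟨q', e', a', h4, h5, h6⟩ := hc q e a h1 h2
      exact ⟨q', e', a', h4, h6, by omega⟩
  obtain ⟨q, _, _, _, _, h3⟩ := h (Nat.card (Σ i, S i) + 1)
  have := Q_len_le q
  omega

/-- the types of level `k` of the clopen subsets of `g` -/
private def Tk (P : PA L S) (q : Q L S) (a : ℕ → P.A) (k : ℕ) (g : Set P.Ω) :
    Set (TT (Q L S) k) := {t | ∃ h, P.Cl h ∧ h ⊆ g ∧ t = P.tau k q h a}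

private theorem Tk_mono {P : PA L S} {q : Q L S} {a : ℕ → P.A} {k : ℕ} {g g' : Set P.Ω}
    (h : g ⊆ g') : Tk P q a k g ⊆ Tk P q a k g' := by
  rintro t ⟨u, h1, h2, h3⟩
  exact ⟨u, h1, h2.trans h, h3⟩

private theorem exists_step {P : PA L S} (q : Q L S) (a : ℕ → P.A) (k : ℕ) (g : Set P.Ω)
    (hc : P.Cl g) (hb : ¬ P.Good g) : ∃ g', P.Cl g' ∧ ¬ P.Good g' ∧ g' ⊆ g ∧
      ∀ g'', P.Cl g'' → ¬ P.Good g'' → g'' ⊆ g → (Tk P q a k g').ncard ≤ (Tk P q a k g'').ncard := by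
  classical
  have h : ∃ n : ℕ, ∃ g', P.Cl g' ∧ ¬ P.Good g' ∧ g' ⊆ g ∧ (Tk P q a k g').ncard = n :=
    ⟨_, g, hc, hb, Subset.rfl, rfl⟩
  obtain ⟨g', h1, h2, h3, h4⟩ := Nat.find_spec h
  refine ⟨g', h1, h2, h3, fun g'' h5 h6 h7 => ?_⟩
  rw [h4]
  exact Nat.find_min' h ⟨g'', h5, h6, h7, rfl⟩

theorem exists_crit (D : HasSw L S) [Finite ι] [∀ i, Finite (S i)] {P : PA L S} (hS : SatP P)
    (hb : ¬ P.Good univ) : ∃ (q : Q L S) (e : Set P.Ω) (a : ℕ → P.A), Crit P q e a := by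
  classical
  obtain ⟨q, e₀, a, ob₀, bad₀, hlong⟩ := exists_long D hb
  -- the sequence
  obtain ⟨E, hE0, hE1⟩ : ∃ E : ℕ → {g : Set P.Ω // P.Cl g ∧ ¬ P.Good g}, (E 0).1 = e₀ ∧
      ∀ k, (E (k + 1)).1 ⊆ (E k).1 ∧ ∀ g'', P.Cl g'' → ¬ P.Good g'' → g'' ⊆ (E k).1 →
        (Tk P q a k (E (k + 1)).1).ncard ≤ (Tk P q a k g'').ncard := by
    have hstep : ∀ (k : ℕ) (g : {g : Set P.Ω // P.Cl g ∧ ¬ P.Good g}),
        ∃ g' : {g : Set P.Ω // P.Cl g ∧ ¬ P.Good g}, g'.1 ⊆ g.1 ∧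
          ∀ g'', P.Cl g'' → ¬ P.Good g'' → g'' ⊆ g.1 →
            (Tk P q a k g'.1).ncard ≤ (Tk P q a k g'').ncard := by
      intro k g
      obtain ⟨g', h1, h2, h3, h4⟩ := exists_step q a k g.1 g.2.1 g.2.2
      exact ⟨⟨g', h1, h2⟩, h3, h4⟩
    choose F hF using hstep
    exact ⟨fun n => Nat.rec ⟨e₀, ob₀.1, bad₀⟩ F n, rfl, fun k => hF k _⟩
  have hanti : ∀ i j, i ≤ j → (E j).1 ⊆ (E i).1 := by
    intro i j h
    induction h with
    | refl => exact Subset.rfl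
    | step _ ih => exact (hE1 _).1.trans ih
  have obE : ∀ i, P.Ob q (E i).1 a := fun i =>
    PA.Ob.mono ob₀ (E i).2.1 (by rw [← hE0]; exact hanti 0 i (Nat.zero_le _))
  obtain ⟨e, ob, hsub, htau⟩ := hS q a (fun i => (E i).1) (fun i => (E i).1) obE
    (fun i => (E i).2.1) fun k i h => hanti k i h
  have bad : ¬ P.Good e := by
    intro hg
    obtain ⟨k, hk⟩ := Good_tau D ob hg
    obtain ⟨i, _, hi⟩ := htau k 0
    exact (E i).2.2 (Good_of_V (hk P (E i).1 a (obE i) hi).1 hg)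
  have long : ∀ q' e' a', P.Sub q e a q' e' a' → q.len < q'.len → P.Good e' :=
    fun q' e' a' h h' => hlong q' e' a' h.1 h'
  have min : ∀ e', P.Cl e' → e' ⊆ e → ¬ P.Good e' → ∀ k, P.tau k q e' a = P.tau k q e a := by
    intro e' ce' se' be' k
    have h1 : (Tk P q a k e).ncard ≤ (Tk P q a k e').ncard := by
      refine (Set.ncard_le_ncard (Tk_mono (hsub (k + 1))) (Set.toFinite _)).trans ?_
      exact (hE1 k).2 e' ce' be' (se'.trans (hsub k))
    have h2 : Tk P q a k e' = Tk P q a k e :=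
      Set.eq_of_subset_of_ncard_le (Tk_mono se') h1 (Set.toFinite _)
    have h3 : P.tau k q e a ∈ Tk P q a k e := ⟨e, ob.1, Subset.rfl, rfl⟩
    rw [← h2] at h3
    obtain ⟨g, cg, sg, hg⟩ := h3
    exact (tau_antisymm D ob (PA.Ob.mono ob ce' se') ce' cg se' sg rfl hg.symm).symm
  refine ⟨q, e, a, ob, bad, long, min, ?_⟩
  intro k
  obtain ⟨t, ht⟩ : ∃ t : ℕ → ∀ k, TT (Q L S) k, Function.Injective t ∧ ∀ i, t i ∈
      {t : ∀ k, TT (Q L S) k | ∃ g, P.Cl g ∧ g ⊆ e ∧ P.Good g ∧ t = fun k => P.tau k q g a} := by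
    have h := (good_types_infinite D ob bad long min).natEmbedding
    exact ⟨fun i => (h i).1, fun i j hij => h.injective (Subtype.ext hij), fun i => (h i).2⟩
  choose g hg1 hg2 hg3 hg4 using ht.2
  obtain ⟨e', ob', sub', tau'⟩ := hS q a g (fun _ => e) (fun i => PA.Ob.mono ob (hg1 i) (hg2 i))
    (fun _ => ob.1) fun _ i _ => hg2 i
  have bad' : ¬ P.Good e' := by
    intro hg
    obtain ⟨k, hk⟩ := Good_tau D ob' hg
    obtain ⟨i1, _, h1⟩ := tau' k 0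
    obtain ⟨i2, h2, h3⟩ := tau' k (i1 + 1)
    have h4 := (hk P (g i1) a (PA.Ob.mono ob (hg1 i1) (hg2 i1)) h1).2
    have h5 := (hk P (g i2) a (PA.Ob.mono ob (hg1 i2) (hg2 i2)) h3).2
    have h6 : t i1 = t i2 := by
      rw [hg4 i1, hg4 i2]
      funext j
      rw [← h4 j, ← h5 j]
    have := ht.1 h6
    omega
  obtain ⟨i, _, hi⟩ := tau' k 0
  exact ⟨g i, hg1 i, hg2 i, hg3 i, hi.symm.trans (min e' ob'.1 (sub' 0) bad' k)⟩

end VCD
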