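import Pool.Agent.VCD.ERel

/-!
# VCD-EFo: matched tuples satisfy the same formulas
-/

open Set FirstOrder

namespace VCD

variable {L : FirstOrder.Language.{0, 0}} {ι : Type} {S : ι → Type} [∀ i, L.Structure (S i)]

private theorem snoc_upd {M : Type} {n : ℕ} (c : ℕ → M) (x : M) :
    (Fin.snoc (fun i : Fin n => c i) x : Fin (n + 1) → M) =
      fun i : Fin (n + 1) => (Function.update c n x) i := by
  funext i
  refine Fin.lastCases ?_ (fun i => ?_) i
  · rw [Fin.snoc_last, Fin.val_last, Function.update_self]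
  · rw [Fin.snoc_castSucc, Fin.val_castSucc, Function.update_of_ne i.2.ne]

private theorem eq_iff (P : PA L S) {n : ℕ} (t1 t2 : L.Term (Empty ⊕ Fin n)) (c : ℕ → P.A) :
    t1.realize (Sum.elim (default : Empty → P.A) fun i : Fin n => c i) =
        t2.realize (Sum.elim (default : Empty → P.A) fun i : Fin n => c i) ↔
      ∀ w, (t1.relabel (Sum.elim Empty.elim id), t2.relabel (Sum.elim Empty.elim id)) ∈
        ker L n (fun j => (c j).1 w) := by
  have h : ∀ (t : L.Term (Empty ⊕ Fin n)) (w : P.Ω),
      (t.realize (Sum.elim (default : Empty → P.A) fun i : Fin n => c i) : P.A).1 w =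
        (t.relabel (Sum.elim Empty.elim id)).realize (fun j : Fin n => (c j).1 w) := by
    intro t w
    rw [realize_val, FirstOrder.Language.Term.realize_relabel]
    congr 1
    funext i
    rcases i with i | i
    · exact i.elim
    · rfl
  constructor
  · intro h1 w
    rw [mem_ker, ← h, ← h, h1]
  · intro h1
    apply Subtype.ext
    funext w
    rw [h, h]
    exact h1 w

theorem ER.fo (D : HasSw L S) (hrel : ∀ n, IsEmpty (L.Relations n)) [Finite ι]
    [∀ i, Finite (S i)] : ∀ {r : ℕ} (φ : L.BoundedFormula Empty r), ∃ k, ∀ (P P' : PA L S)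
    (c : ℕ → P.A) (d : ℕ → P'.A), ER k r P P' c d univ univ →
    (φ.Realize (default : Empty → P.A) (fun i : Fin r => c i) ↔
      φ.Realize (default : Empty → P'.A) (fun i : Fin r => d i)) := by
  intro r φ
  induction φ with
  | falsum => exact ⟨0, fun P P' c d _ => Iff.rfl⟩
  | @equal n t1 t2 =>
    refine ⟨0, fun P P' c d h => ?_⟩
    have key : ∀ (P P' : PA L S) (c : ℕ → P.A) (d : ℕ → P'.A), ER 0 n P P' c d univ univ →
        t1.realize (Sum.elim (default : Empty → P.A) fun i : Fin n => c i) =
          t2.realize (Sum.elim (default : Empty → P.A) fun i : Fin n => c i) →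
        t1.realize (Sum.elim (default : Empty → P'.A) fun i : Fin n => d i) =
          t2.realize (Sum.elim (default : Empty → P'.A) fun i : Fin n => d i) := by
      intro P P' c d h h1
      rw [eq_iff] at h1 ⊢
      intro w
      obtain ⟨w', _, h2⟩ := h.point D w (mem_univ _)
      rw [← h2]
      exact h1 w'
    exact ⟨key P P' c d h, key P' P d c h.symm⟩
  | rel R ts => exact ((hrel _).false R).elim
  | imp φ ψ ih1 ih2 =>
    obtain ⟨k1, h1⟩ := ih1
    obtain ⟨k2, h2⟩ := ih2
    refine ⟨max k1 k2, fun P P' c d h => ?_⟩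
    rw [FirstOrder.Language.BoundedFormula.realize_imp, FirstOrder.Language.BoundedFormula.realize_imp,
      h1 P P' c d (h.mono D (le_max_left _ _) le_rfl), h2 P P' c d (h.mono D (le_max_right _ _) le_rfl)]
  | @all n φ ih =>
    obtain ⟨k, h1⟩ := ih
    obtain ⟨c₀, h2⟩ := ER.forth (L := L) (S := S) D
    refine ⟨k + c₀, fun P P' c d h => ?_⟩
    rw [FirstOrder.Language.BoundedFormula.realize_all, FirstOrder.Language.BoundedFormula.realize_all]
    have key : ∀ (P P' : PA L S) (c : ℕ → P.A) (d : ℕ → P'.A), ER (k + c₀) n P P' c d univ univ →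
        (∀ x : P.A, φ.Realize (default : Empty → P.A) (Fin.snoc (fun i : Fin n => c i) x)) →
        ∀ y : P'.A, φ.Realize (default : Empty → P'.A) (Fin.snoc (fun i : Fin n => d i) y) := by
      intro P P' c d h h3 y
      obtain ⟨x, hx⟩ := h2 k _ P' P d c univ univ h.symm y
      have h4 := h3 x
      rw [snoc_upd] at h4 ⊢
      exact (h1 P P' _ _ hx.symm).1 h4
    exact ⟨key P P' c d h, key P' P d c h.symm⟩

/-- sentences -/
theorem ER.sentence (D : HasSw L S) (hrel : ∀ n, IsEmpty (L.Relations n)) [Finite ι]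
    [∀ i, Finite (S i)] {P P' : PA L S} (c : ℕ → P.A) (d : ℕ → P'.A)
    (h : ∀ k, ER k 0 P P' c d univ univ) (φ : L.Sentence) : P.A ⊨ φ ↔ P'.A ⊨ φ := by
  obtain ⟨k, hk⟩ := ER.fo D hrel φ
  have h1 := hk P P' c d (h k)
  have e1 : (fun i : Fin 0 => c i) = (default : Fin 0 → P.A) := Subsingleton.elim _ _
  have e2 : (fun i : Fin 0 => d i) = (default : Fin 0 → P'.A) := Subsingleton.elim _ _
  rw [e1, e2] at h1
  exact h1

end VCD
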