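import Pool.Agent.VCD.GIso

/-!
# VCD-Emb: a structure on `ℕ` in which all identities of the `S i` hold is a reduced algebra of
functions
-/

open Set FirstOrder

namespace VCD

variable {L : FirstOrder.Language.{0, 0}} {ι : Type} {S : ι → Type} [∀ i, L.Structure (S i)]

/-- all identities of the algebras `S i` hold in `M` -/
def Ids (S : ι → Type) [∀ i, L.Structure (S i)] (M : Type) [L.Structure M] : Prop :=
  ∀ p q : L.Term ℕ, (∀ (i : ι) (v : ℕ → S i), p.realize v = q.realize v) →
    ∀ v : ℕ → M, p.realize v = q.realize v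

/-- nested switching terms -/
private def nest (sw : L.Term (Fin 4)) (a b : ℕ) : List (L.Term ℕ × L.Term ℕ) → L.Term ℕ
  | [] => FirstOrder.Language.Term.var a
  | p :: l => sw.subst ![p.1, p.2, nest sw a b l, FirstOrder.Language.Term.var b]

private theorem nest_cons {M : Type} [L.Structure M] (sw : L.Term (Fin 4)) (a b : ℕ)
    (p : L.Term ℕ × L.Term ℕ) (l : List (L.Term ℕ × L.Term ℕ)) (h : ℕ → M) :
    (nest sw a b (p :: l)).realize h =
      sw.realize ![p.1.realize h, p.2.realize h, (nest sw a b l).realize h, h b] := by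
  show (sw.subst ![p.1, p.2, nest sw a b l, FirstOrder.Language.Term.var b]).realize h = _
  rw [FirstOrder.Language.Term.realize_subst]
  congr 1
  funext i
  fin_cases i <;> rfl

private theorem nest_S {M : Type} [L.Structure M] {sw : L.Term (Fin 4)}
    (h1 : ∀ x z w : M, sw.realize ![x, x, z, w] = z)
    (h2 : ∀ x y z w : M, x ≠ y → sw.realize ![x, y, z, w] = w) {a b : ℕ} (h : ℕ → M) :
    ∀ l : List (L.Term ℕ × L.Term ℕ), ((∀ p ∈ l, p.1.realize h = p.2.realize h) → h a = h b) →
      (nest sw a b l).realize h = h b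
  | [], hl => hl (by simp)
  | p :: l, hl => by
    rw [nest_cons]
    by_cases hp : p.1.realize h = p.2.realize h
    · rw [hp, h1]
      refine nest_S h1 h2 h l fun h3 => hl fun p' hp' => ?_
      rcases List.mem_cons.1 hp' with h4 | h4
      · rw [h4]
        exact hp
      · exact h3 p' h4
    · rw [h2 _ _ _ _ hp]

private theorem nest_M {M : Type} [L.Structure M] {sw : L.Term (Fin 4)}
    (h1 : ∀ x z w : M, sw.realize ![x, x, z, w] = z) {a b : ℕ} (h : ℕ → M) :
    ∀ l : List (L.Term ℕ × L.Term ℕ), (∀ p ∈ l, p.1.realize h = p.2.realize h) →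
      (nest sw a b l).realize h = h a
  | [], _ => rfl
  | p :: l, hl => by
    rw [nest_cons, hl p (List.mem_cons_self), h1]
    exact nest_M h1 h l fun p' hp' => hl p' (List.mem_cons_of_mem _ hp')

/-- homomorphisms into the `S i` separate points -/
private theorem exists_hom [Finite ι] [∀ i, Finite (S i)] {sw : L.Term (Fin 4)}
    (D : SwO S sw) [L.Structure ℕ] (hid : Ids (L := L) S ℕ)
    {a b : ℕ} (hab : a ≠ b) : ∃ (i : ι) (h : ℕ → S i), (∀ (n : ℕ) (F : L.Functions n) (x : Fin n → ℕ),
      h (FirstOrder.Language.Structure.funMap F x) =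
        FirstOrder.Language.Structure.funMap F fun j => h (x j)) ∧ h a ≠ h b := by
  classical
  by_contra hcon
  push Not at hcon
  have hfin : ∀ i : ι, ∃ E : Finset (Σ n : ℕ, L.Functions n × (Fin n → ℕ)), ∀ h : ℕ → S i,
      (∀ k ∈ E, h (FirstOrder.Language.Structure.funMap k.2.1 k.2.2) =
        FirstOrder.Language.Structure.funMap k.2.1 fun j => h (k.2.2 j)) → h a = h b := by
    intro i
    let _ : TopologicalSpace (S i) := ⊥
    have : DiscreteTopology (S i) := ⟨rfl⟩
    obtain ⟨t, ht⟩ : ∃ t : Option (Σ n : ℕ, L.Functions n × (Fin n → ℕ)) → Set (ℕ → S i),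
        t none = {h | h a ≠ h b} ∧ ∀ k, t (some k) =
          {h | h (FirstOrder.Language.Structure.funMap k.2.1 k.2.2) =
            FirstOrder.Language.Structure.funMap k.2.1 fun j => h (k.2.2 j)} :=
      ⟨fun o => Option.casesOn o {h | h a ≠ h b} fun k =>
        {h | h (FirstOrder.Language.Structure.funMap k.2.1 k.2.2) =
            FirstOrder.Language.Structure.funMap k.2.1 fun j => h (k.2.2 j)}, rfl, fun _ => rfl⟩
    have hcl : ∀ o, IsClosed (t o) := by
      intro o
      cases o with
      | none =>
        rw [ht.1]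
        have h1 : Continuous fun h : ℕ → S i => (h a, h b) := by fun_prop
        exact (isClosed_discrete {p : S i × S i | p.1 ≠ p.2}).preimage h1
      | some k =>
        rw [ht.2]
        have h1 : Continuous fun h : ℕ → S i => fun j => h (k.2.2 j) := by fun_prop
        have h2 : Continuous fun v : Fin k.1 → S i =>
          FirstOrder.Language.Structure.funMap k.2.1 v := continuous_of_discreteTopology
        exact isClosed_eq (continuous_apply _) (h2.comp h1)
    by_contra hE
    push Not at hE
    have h3 := CompactSpace.iInter_nonempty hcl fun s => by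
      obtain ⟨h, h4, h5⟩ := hE s.eraseNone
      refine ⟨h, ?_⟩
      rw [mem_iInter₂]
      intro o ho
      cases o with
      | none =>
        rw [ht.1]
        exact h5
      | some k =>
        rw [ht.2]
        exact h4 k (Finset.mem_eraseNone.2 ho)
    obtain ⟨h, hh⟩ := h3
    rw [mem_iInter] at hh
    have h4 := hh none
    rw [ht.1] at h4
    refine h4 (hcon i h fun n F x => ?_)
    have h5 := hh (some ⟨n, F, x⟩)
    rw [ht.2] at h5
    exact h5
  choose E hE using hfin
  have : Fintype ι := Fintype.ofFinite ι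
  obtain ⟨l, hl⟩ : ∃ l : List (L.Term ℕ × L.Term ℕ), l = (Finset.univ.biUnion E).toList.map fun k =>
    ((FirstOrder.Language.Term.var (FirstOrder.Language.Structure.funMap k.2.1 k.2.2) : L.Term ℕ),
      (FirstOrder.Language.Term.func k.2.1 fun j => FirstOrder.Language.Term.var (k.2.2 j) :
        L.Term ℕ)) := ⟨_, rfl⟩
  have h1 := hid (nest sw a b l) (FirstOrder.Language.Term.var b) (fun i v => by
    refine nest_S (D.eq i) (D.ne i) v l fun h2 => hE i v fun k hk => ?_
    have h3 := h2 _ (by
      rw [hl, List.mem_map]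
      exact ⟨k, Finset.mem_toList.2 (Finset.mem_biUnion.2 ⟨i, Finset.mem_univ i, hk⟩), rfl⟩)
    rw [FirstOrder.Language.Term.realize_func] at h3
    exact h3) (fun n => n)
  have hsw : ∀ x z w : ℕ, sw.realize ![x, x, z, w] = z := by
    intro x z w
    have h2 := hid (sw.subst ![FirstOrder.Language.Term.var 0, FirstOrder.Language.Term.var 0,
      FirstOrder.Language.Term.var 1, FirstOrder.Language.Term.var 2])
      (FirstOrder.Language.Term.var 1) (fun i v => by
        rw [FirstOrder.Language.Term.realize_subst]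
        have h3 : (fun j : Fin 4 => ((![FirstOrder.Language.Term.var 0,
          FirstOrder.Language.Term.var 0, FirstOrder.Language.Term.var 1,
          FirstOrder.Language.Term.var 2] : Fin 4 → L.Term ℕ) j).realize v) =
            ![v 0, v 0, v 1, v 2] := by
          funext j
          fin_cases j <;> rfl
        rw [h3]
        exact D.eq i _ _ _) (fun n => if n = 0 then x else if n = 1 then z else w)
    rw [FirstOrder.Language.Term.realize_subst] at h2
    have h3 : (fun j : Fin 4 => ((![FirstOrder.Language.Term.var 0,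
        FirstOrder.Language.Term.var 0, FirstOrder.Language.Term.var 1,
        FirstOrder.Language.Term.var 2] : Fin 4 → L.Term ℕ) j).realize
          (fun n => if n = 0 then x else if n = 1 then z else w)) = ![x, x, z, w] := by
      funext j
      fin_cases j <;> rfl
    rw [h3] at h2
    exact h2
  have h2 := nest_M (a := a) (b := b) hsw (fun n : ℕ => n) l (fun p hp => by
    rw [hl, List.mem_map] at hp
    obtain ⟨k, _, rfl⟩ := hp
    rfl)
  exact hab (h2.symm.trans h1)

variable (L S) in
/-- the homomorphisms from `ℕ` to the algebras `S i` which are not constant -/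
def HomR [L.Structure ℕ] : Type :=
  {w : Σ i : ι, (ℕ → S i) // (∀ (n : ℕ) (F : L.Functions n) (x : Fin n → ℕ),
    w.2 (FirstOrder.Language.Structure.funMap F x) =
      FirstOrder.Language.Structure.funMap F fun j => w.2 (x j)) ∧ ∃ a b : ℕ, w.2 a ≠ w.2 b}

variable (L S) in
/-- the algebra of functions on the set of these homomorphisms -/
def homRA [L.Structure ℕ] : PA L S where
  Ω := HomR L S
  f w := w.1.1
  A := {v | ∃ m : ℕ, ∀ w : HomR L S, v w = w.1.2 m}
  closed := by
    intro n F v hv
    choose m hm using hv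
    refine ⟨FirstOrder.Language.Structure.funMap F m, fun w => ?_⟩
    rw [w.2.1 n F m]
    show FirstOrder.Language.Structure.funMap F (fun j => v j w) = _
    congr 1
    funext j
    exact hm j w

theorem exists_PAR [Finite ι] [∀ i, Finite (S i)] {sw : L.Term (Fin 4)} (D : SwO S sw)
    (hrel : ∀ n, IsEmpty (L.Relations n)) [L.Structure ℕ] (hid : Ids (L := L) S ℕ) :
    ∃ P : PA L S, Nonempty (ℕ ≃[L] P.A) ∧ Red P := by
  refine ⟨homRA L S, ⟨⟨Equiv.ofBijective (fun m => ⟨fun w => w.1.2 m, m, fun _ => rfl⟩) ⟨?_, ?_⟩,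
    ?_, ?_⟩⟩, ?_⟩
  · intro a b h
    by_contra hab
    obtain ⟨i, g, h1, h2⟩ := exists_hom D hid hab
    apply h2
    have h3 := congrArg Subtype.val h
    exact congrFun h3 (⟨⟨i, g⟩, h1, a, b, h2⟩ : HomR L S)
  · rintro ⟨v, m, hm⟩
    exact ⟨m, Subtype.ext (funext fun w => (hm w).symm)⟩
  · intro n F x
    apply Subtype.ext
    funext w
    exact w.2.1 n F x
  · intro n r
    exact (hrel n).elim r
  · rintro a b ⟨w, hw⟩
    obtain ⟨c, d, hcd⟩ := w.2.2
    exact ⟨⟨fun w => w.1.2 c, c, fun _ => rfl⟩, ⟨fun w => w.1.2 d, d, fun _ => rfl⟩, w, hw, hcd⟩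

end VCD
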