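import Pool.Agent.VCD.GDA
import Pool.Agent.VCR.Defs
import Pool.Agent.VCR.Num

/-!
# VCD-GCod: continuous families of structures; the algebras of the old elements
-/

open Set FirstOrder

namespace VCD

variable {L : FirstOrder.Language.{0, 0}} {ι : Type} {S : ι → Type} [∀ i, L.Structure (S i)]

/-- a family of structures given by names for the elements is given by a continuous family of
structures on `ℕ` -/
theorem exists_family (hrel : ∀ n, IsEmpty (L.Relations n)) {X : Type} [TopologicalSpace X]
    (A : X → Type) [∀ x, L.Structure (A x)] (hinf : ∀ x, Infinite (A x)) (el : ∀ x, ℕ → A x)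
    (hsurj : ∀ x v, ∃ i, el x i = v) (hloc : ∀ i j, IsClopen {x | el x i = el x j})
    (J : ∀ n : ℕ, L.Functions n → (Fin n → ℕ) → X → ℕ)
    (hJ : ∀ n F v x, el x (J n F v x) = FirstOrder.Language.Structure.funMap F fun l => el x (v l))
    (hJc : ∀ n F v, Continuous (J n F v)) :
    ∃ s : X → VCR.Str L, Continuous s ∧ ∀ x, Nonempty (@FirstOrder.Language.Equiv L ℕ (A x)
      (VCR.toStructure (s x)) _) := by
  have hE : ∀ x : X, Equivalence fun i j => el x i = el x j := fun x =>
    ⟨fun _ => rfl, fun h => h.symm, fun h1 h2 => h1.trans h2⟩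
  have hinf' : ∀ x (n : ℕ), ∃ j, ∀ i < n, ¬ el x i = el x j := by
    intro x n
    have := hinf x
    obtain ⟨v, hv⟩ := Set.Infinite.exists_notMem_finset (Set.infinite_univ (α := A x))
      (Set.Finite.toFinset ((Set.finite_lt_nat n).image (el x)))
    obtain ⟨j, hj⟩ := hsurj x v
    refine ⟨j, fun i hi h => hv.2 ?_⟩
    rw [Set.Finite.mem_toFinset]
    exact ⟨i, hi, h.trans hj⟩
  obtain ⟨ν, κ, hν, hκ, hκν, hEκ⟩ := VCR.exists_numbering (fun x i j => el x i = el x j) hE hinf' hloc
  have nb : ∀ (n : ℕ) (v : Fin n → ℕ) (x₀ : X), ∀ᶠ x in nhds x₀,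
      (fun l => ν x (v l)) = fun l => ν x₀ (v l) := by
    intro n v x₀
    have h1 : ∀ᶠ x in nhds x₀, ∀ l, ν x (v l) = ν x₀ (v l) := by
      rw [Filter.eventually_all]
      intro l
      exact (hν (v l)).continuousAt.eventually ((isOpen_discrete {ν x₀ (v l)}).mem_nhds rfl)
    exact h1.mono fun x hx => funext hx
  refine ⟨fun x => (fun n f v => κ x (J n f (fun l => ν x (v l)) x), fun _ _ _ => false), ?_, ?_⟩
  · refine Continuous.prodMk ?_ continuous_const
    refine continuous_pi fun n => continuous_pi fun f => continuous_pi fun v => ?_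
    rw [continuous_iff_continuousAt]
    intro x₀
    refine (hκ (J n f (fun l => ν x₀ (v l)) x₀)).continuousAt.congr ?_
    filter_upwards [nb n v x₀, (hJc n f fun l => ν x₀ (v l)).continuousAt.eventually
      ((isOpen_discrete {J n f (fun l => ν x₀ (v l)) x₀}).mem_nhds rfl)] with x hx hx'
    have h1 : J n f (fun l => ν x₀ (v l)) x = J n f (fun l => ν x₀ (v l)) x₀ := hx'
    rw [hx, h1]
  · intro x
    have hinv : ∀ a, el x (ν x (κ x a)) = el x a := fun a => (hEκ x _ _).2 (hκν x _)
    have bij : Function.Bijective fun i => el x (ν x i) := by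
      constructor
      · intro i j h
        have h1 := (hEκ x (ν x i) (ν x j)).1 h
        rwa [hκν, hκν] at h1
      · intro v
        obtain ⟨a, ha⟩ := hsurj x v
        exact ⟨κ x a, (hinv a).trans ha⟩
    refine ⟨@FirstOrder.Language.Equiv.mk L ℕ (A x)
      (VCR.toStructure _) _ (Equiv.ofBijective _ bij) ?_ ?_⟩
    · intro n f v
      show el x (ν x (κ x (J n f (fun l => ν x (v l)) x))) = _
      rw [hinv, hJ]
      rfl
    · intro n r
      exact (hrel n).elim r

/-- the values of terms depend continuously on the structure -/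
theorem term_cont {X : Type} [TopologicalSpace X] {s : X → VCR.Str L} (hs : Continuous s) {α : Type}
    (t : L.Term α) (v : α → ℕ) :
    Continuous fun x => @FirstOrder.Language.Term.realize L ℕ (VCR.toStructure (s x)) α v t := by
  induction t with
  | var i => exact continuous_const
  | @func n F ts ih =>
    rw [continuous_iff_continuousAt]
    intro x₀
    obtain ⟨u, hu⟩ : ∃ u : Fin n → X → ℕ, ∀ j x, u j x =
        @FirstOrder.Language.Term.realize L ℕ (VCR.toStructure (s x)) α v (ts j) :=
      ⟨_, fun _ _ => rfl⟩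
    have h1 : ∀ᶠ x in nhds x₀, (fun j => u j x) = fun j => u j x₀ := by
      have h2 : ∀ᶠ x in nhds x₀, ∀ j, u j x = u j x₀ := by
        rw [Filter.eventually_all]
        intro j
        have h3 : Continuous (u j) := by
          have h4 : u j = fun x =>
              @FirstOrder.Language.Term.realize L ℕ (VCR.toStructure (s x)) α v (ts j) :=
            funext fun x => hu j x
          rw [h4]
          exact ih j
        exact h3.continuousAt.eventually ((isOpen_discrete {u j x₀}).mem_nhds rfl)
      exact h2.mono fun x hx => funext hx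
    have h2 : Continuous fun x => (s x).1 n F (fun j => u j x₀) := by
      have h3 : Continuous fun x => (s x).1 := continuous_fst.comp hs
      exact (continuous_apply _).comp ((continuous_apply _).comp ((continuous_apply _).comp h3))
    refine h2.continuousAt.congr ?_
    filter_upwards [h1] with x hx
    show (s x).1 n F (fun j => u j x₀) = (s x).1 n F (fun j =>
      @FirstOrder.Language.Term.realize L ℕ (VCR.toStructure (s x)) α v (ts j))
    rw [← hx]
    exact congrArg _ (funext fun j => hu j x)

/-- a continuous family of structures on `ℕ` for the algebras of the old elements -/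
theorem exists_old_family (hrel : ∀ n, IsEmpty (L.Relations n)) {X : Type} [TopologicalSpace X]
    (N : X → PA (LX L) (SX S)) {s : X → VCR.Str (LX L)} (hs : Continuous s)
    (hN : ∀ x, Nonempty (@FirstOrder.Language.Equiv (LX L) ℕ (N x).A (VCR.toStructure (s x)) _))
    (hinf : ∀ x, Infinite (DA (N x)).A) :
    ∃ s' : X → VCR.Str L, Continuous s' ∧ ∀ x, Nonempty (@FirstOrder.Language.Equiv L ℕ
      (DA (N x)).A (VCR.toStructure (s' x)) _) := by
  classical
  have hbij : ∀ x, ∃ f : ℕ → (N x).A, Function.Bijective f ∧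
      (∀ (n : ℕ) (F : (LX L).Functions n) (v : Fin n → ℕ), f ((s x).1 n F v) =
        FirstOrder.Language.Structure.funMap F fun j => f (v j)) ∧
      ∀ (t : (LX L).Term Unit) (i : ℕ), f (@FirstOrder.Language.Term.realize (LX L) ℕ
        (VCR.toStructure (s x)) Unit (fun _ => i) t) = t.realize fun _ => f i := by
    intro x
    obtain ⟨ψ⟩ := hN x
    let _ := VCR.toStructure (s x)
    refine ⟨ψ, ψ.toEquiv.bijective, fun n F v => ?_, fun t i => ?_⟩
    · exact FirstOrder.Language.HomClass.map_fun ψ F v
    · exact (FirstOrder.Language.HomClass.realize_term ψ).symm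
  choose f hf1 hf2 hf3 using hbij
  obtain ⟨dx, hdx⟩ : ∃ dx : X → ℕ → Prop, ∀ x i, dx x i ↔ ∃ a : (DA (N x)).A, f x i = io a :=
    ⟨_, fun _ _ => Iff.rfl⟩
  have hclop : ∀ i, IsClopen {x | dx x i} := by
    intro i
    obtain ⟨t1, ht1⟩ : ∃ t1 : (LX L).Term Unit, t1 = oldt (FirstOrder.Language.Term.var ()) := ⟨_, rfl⟩
    have h1 := term_cont hs t1 fun _ => i
    have h2 := term_cont hs (c0t (L := L) : (LX L).Term Unit) fun _ => i
    have h3 : {x | dx x i} = (fun x => (@FirstOrder.Language.Term.realize (LX L) ℕ
        (VCR.toStructure (s x)) Unit (fun _ => i) t1, @FirstOrder.Language.Term.realize (LX L) ℕ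
        (VCR.toStructure (s x)) Unit (fun _ => i) (c0t (L := L)))) ⁻¹' {p : ℕ × ℕ | p.1 = p.2} := by
      ext x
      show dx x i ↔ @FirstOrder.Language.Term.realize (LX L) ℕ
        (VCR.toStructure (s x)) Unit (fun _ => i) t1 = @FirstOrder.Language.Term.realize (LX L) ℕ
        (VCR.toStructure (s x)) Unit (fun _ => i) (c0t (L := L))
      have h4 := old_iff (N := N x) (FirstOrder.Language.Term.var ()) fun _ : Unit => f x i
      rw [← ht1, ← hf3, ← hf3] at h4
      rw [hdx]
      constructor
      · intro h5
        exact (hf1 x).1 (h4.2 h5)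
      · intro h5
        exact h4.1 (congrArg (f x) h5)
    rw [h3]
    exact (isClopen_discrete {p : ℕ × ℕ | p.1 = p.2}).preimage (h1.prodMk h2)
  have hne : ∀ x, ∃ k, dx x k := by
    intro x
    have := hinf x
    obtain ⟨a⟩ : Nonempty (DA (N x)).A := inferInstance
    obtain ⟨k, hk⟩ := (hf1 x).2 (io a)
    exact ⟨k, (hdx x k).2 ⟨a, hk⟩⟩
  obtain ⟨r, hr⟩ : ∃ r : X → ℕ → ℕ, ∀ x i, r x i = if dx x i then i else sInf {k | dx x k} :=
    ⟨_, fun _ _ => rfl⟩
  have hdr : ∀ x i, dx x (r x i) := by
    intro x i
    rw [hr]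
    split_ifs with h
    · exact h
    · exact Nat.sInf_mem (hne x)
  have hri : ∀ x i, dx x i → r x i = i := fun x i h => by rw [hr, if_pos h]
  have hev : ∀ x₀ i, dx x₀ i → ∀ᶠ x in nhds x₀, dx x i := fun x₀ i h =>
    (hclop i).2.mem_nhds h
  have hev' : ∀ x₀ i, ¬ dx x₀ i → ∀ᶠ x in nhds x₀, ¬ dx x i := fun x₀ i h =>
    (hclop i).1.isOpen_compl.mem_nhds h
  have hrc : ∀ i, Continuous fun x => r x i := by
    intro i
    rw [continuous_iff_continuousAt]
    intro x₀
    have h1 : ∀ᶠ x in nhds x₀, r x₀ i = r x i := by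
      by_cases h : dx x₀ i
      · filter_upwards [hev x₀ i h] with x hx
        rw [hri x i hx, hri x₀ i h]
      · have hk := Nat.sInf_mem (hne x₀)
        have hk' : ∀ k < sInf {k | dx x₀ k}, ¬ dx x₀ k := fun k hk h2 => Nat.notMem_of_lt_sInf hk h2
        have h2 : ∀ᶠ x in nhds x₀, ∀ k ∈ Finset.range (sInf {k | dx x₀ k}), ¬ dx x k := by
          rw [Filter.eventually_all_finset]
          intro k hk
          exact hev' x₀ k (hk' k (Finset.mem_range.1 hk))
        filter_upwards [hev' x₀ i h, hev x₀ _ hk, h2] with x hx hx1 hx2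
        rw [hr, hr, if_neg h, if_neg hx]
        refine le_antisymm ?_ (Nat.sInf_le hx1)
        by_contra h3
        rw [not_le] at h3
        exact hx2 _ (Finset.mem_range.2 h3) (Nat.sInf_mem (hne x))
    exact continuousAt_const.congr h1
  have hel : ∀ x i, ∃ a : (DA (N x)).A, f x (r x i) = io a := fun x i => (hdx x _).1 (hdr x i)
  choose el hel using hel
  refine exists_family hrel (fun x => (DA (N x)).A) hinf el ?_ ?_
    (fun n F v x => (s x).1 n (fsy F) fun l => r x (v l)) ?_ ?_
  · intro x v
    obtain ⟨i, hi⟩ := (hf1 x).2 (io v)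
    refine ⟨i, io_inj ?_⟩
    rw [← hel, hri x i ((hdx x i).2 ⟨v, hi⟩)]
    exact hi
  · intro i j
    have h1 : {x | el x i = el x j} = (fun x => (r x i, r x j)) ⁻¹' {p : ℕ × ℕ | p.1 = p.2} := by
      ext x
      show el x i = el x j ↔ r x i = r x j
      constructor
      · intro h
        apply (hf1 x).1
        rw [hel, hel, h]
      · intro h
        apply io_inj
        rw [← hel, ← hel, h]
    rw [h1]
    exact (isClopen_discrete {p : ℕ × ℕ | p.1 = p.2}).preimage ((hrc i).prodMk (hrc j))
  · intro n F v x
    have h1 : f x ((s x).1 n (fsy F) fun l => r x (v l)) =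
        io (FirstOrder.Language.Structure.funMap F fun l => el x (v l)) := by
      rw [hf2]
      apply Subtype.ext
      funext w
      have h2 : (fun l => (f x (r x (v l))).1 w) = fun l => (oe ((el x (v l)).1 w) : SX S ((N x).f w)) := by
        funext l
        rw [hel]
        rfl
      show FirstOrder.Language.Structure.funMap (fsy F) (fun l => (f x (r x (v l))).1 w) = _
      rw [h2]
      exact fsy_oe F fun l => (el x (v l)).1 w
    apply io_inj
    rw [← hel, hri x _ ((hdx x _).2 ⟨_, h1⟩)]
    exact h1
  · intro n F v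
    rw [continuous_iff_continuousAt]
    intro x₀
    have h1 : ∀ᶠ x in nhds x₀, (fun l => r x (v l)) = fun l => r x₀ (v l) := by
      have h2 : ∀ᶠ x in nhds x₀, ∀ l, r x (v l) = r x₀ (v l) := by
        rw [Filter.eventually_all]
        intro l
        exact (hrc (v l)).continuousAt.eventually ((isOpen_discrete {r x₀ (v l)}).mem_nhds rfl)
      exact h2.mono fun x hx => funext hx
    have h2 : Continuous fun x => (s x).1 n (fsy F) fun l => r x₀ (v l) := by
      have h3 : Continuous fun x => (s x).1 := continuous_fst.comp hs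
      exact (continuous_apply _).comp ((continuous_apply _).comp ((continuous_apply _).comp h3))
    refine h2.continuousAt.congr ?_
    filter_upwards [h1] with x hx
    rw [hx]

end VCD
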