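import Pool.Agent.VCD.GAx

/-!
# VCD-GNU: an algebra all of whose elements are given by old elements is an extension
-/

open Set FirstOrder

namespace VCD

variable {L : FirstOrder.Language.{0, 0}} {ι : Type} {S : ι → Type} [∀ i, L.Structure (S i)]
  {sw : L.Term (Fin 4)}

/-- choice between two terms -/
private def tst (b : Bool) (p q y z : (LX L).Term ℕ) : (LX L).Term ℕ :=
  match b with
  | true => FirstOrder.Language.Term.func (isy (L := L))
      ![FirstOrder.Language.Term.func (esy (L := L)) ![p, q], y, z]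
  | false => FirstOrder.Language.Term.func (isy (L := L))
      ![FirstOrder.Language.Term.func (esy (L := L)) ![p, q], z, y]

open scoped Classical in
private theorem tst_val {i : ι} (b : Bool) (p q y z : (LX L).Term ℕ) (v : ℕ → SX S i) :
    (tst b p q y z).realize v =
      if ((p.realize v = q.realize v) ↔ b = true) then y.realize v else z.realize v := by
  have h0 : (ne (decide (p.realize v = q.realize v)) : SX S i) = ne true ↔
      p.realize v = q.realize v := by
    constructor
    · intro h
      have h1 := ne_inj h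
      exact of_decide_eq_true h1
    · intro h
      rw [decide_eq_true h]
  cases b with
  | true =>
    have h1 : (tst true p q y z).realize v = if (ne (decide (p.realize v = q.realize v)) : SX S i) =
        ne true then y.realize v else z.realize v := rfl
    rw [h1]
    by_cases h : p.realize v = q.realize v
    · rw [if_pos (h0.2 h), if_pos ⟨fun _ => rfl, fun _ => h⟩]
    · rw [if_neg fun h2 => h (h0.1 h2), if_neg fun h2 => h (h2.2 rfl)]
  | false =>
    have h1 : (tst false p q y z).realize v = if (ne (decide (p.realize v = q.realize v)) : SX S i) =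
        ne true then z.realize v else y.realize v := rfl
    rw [h1]
    by_cases h : p.realize v = q.realize v
    · rw [if_pos (h0.2 h), if_neg fun h2 => Bool.noConfusion (h2.1 h)]
    · rw [if_neg fun h2 => h (h0.1 h2), if_pos ⟨fun h2 => (h h2).elim, fun h2 => Bool.noConfusion h2⟩]

theorem bs_mem (N : PA (LX L) (SX S)) (b : Bool × Bool) (v : ℕ → (DA N).A) : bs b (DA N) v ∈ N.A := by
  classical
  obtain ⟨x, hx⟩ : ∃ x : ℕ → N.A, x = fun i => io (v i) := ⟨_, rfl⟩
  obtain ⟨tm, htm⟩ : ∃ tm : (LX L).Term ℕ, tm = tst b.1 (FirstOrder.Language.Term.var 1)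
    (FirstOrder.Language.Term.var 2) (FirstOrder.Language.Term.func (csy (L := L) false) Fin.elim0)
      (tst b.2 (FirstOrder.Language.Term.var 3) (FirstOrder.Language.Term.var 4)
        (FirstOrder.Language.Term.func (csy (L := L) true) Fin.elim0)
          (FirstOrder.Language.Term.var 0)) := ⟨_, rfl⟩
  have h1 : bs b (DA N) v = (tm.realize x : N.A).1 := by
    funext w
    rw [realize_val, htm, tst_val, tst_val]
    show mkv ((v 0).1 w) (((v 1).1 w = (v 2).1 w) ↔ b.1 = true)
      (((v 3).1 w = (v 4).1 w) ↔ b.2 = true) =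
      if (((x 1).1 w = (x 2).1 w) ↔ b.1 = true) then (ne false : SX S (N.f w)) else
        if (((x 3).1 w = (x 4).1 w) ↔ b.2 = true) then (ne true : SX S (N.f w)) else (x 0).1 w
    have hi : ∀ i j, ((x i).1 w = (x j).1 w ↔ (v i).1 w = (v j).1 w) := by
      intro i j
      rw [hx]
      exact ⟨fun h => oe_inj h, fun h => congrArg oe h⟩
    have h0 : (x 0).1 w = (oe ((v 0).1 w) : SX S (N.f w)) := by
      rw [hx]
      rfl
    by_cases p0 : ((v 1).1 w = (v 2).1 w) ↔ b.1 = true
    · refine ((mkv_f _ _ _).2 p0).trans ?_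
      rw [if_pos (by rwa [hi])]
      rfl
    · by_cases p1 : ((v 3).1 w = (v 4).1 w) ↔ b.2 = true
      · refine ((mkv_t _ _ _).2 ⟨p0, p1⟩).trans ?_
        rw [if_neg (by rwa [hi]), if_pos (by rwa [hi])]
        rfl
      · refine (mkv_o _ p0 p1).trans ?_
        rw [if_neg (by rwa [hi]), if_neg (by rwa [hi]), h0]
        rfl
  rw [h1]
  exact (tm.realize x : N.A).2

theorem N_UA (D : SwO S sw) {N : PA (LX L) (SX S)} (hN : Ax N) (hne : Nonempty (DA N).A) :
    Nonempty (N.A ≃[LX L] (UA D (DA N) hne).A) := by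
  refine ⟨⟨Equiv.ofBijective (fun u => ⟨u.1, hN u⟩) ⟨?_, ?_⟩, ?_, ?_⟩⟩
  · intro a b h
    have h1 : a.1 = b.1 := congrArg (fun z : (UA D (DA N) hne).A => z.1) h
    exact Subtype.ext h1
  · rintro ⟨u, b, v, rfl⟩
    exact ⟨⟨_, bs_mem N b v⟩, rfl⟩
  · intro n F x
    rfl
  · intro n r
    exact (LX_rel L n).elim r

theorem DA_nonempty {N : PA (LX L) (SX S)} (hN : Ax N) : Nonempty (DA N).A := by
  obtain ⟨u⟩ := nonempty_el SX_HasSw N
  obtain ⟨b, v, _⟩ := hN u
  exact ⟨v 0⟩

/-- the algebra of the old elements determines the extension -/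
theorem iso_of_DA (D : SwO S sw) {N N' : PA (LX L) (SX S)} (hN : Ax N) (hN' : Ax N')
    (rN : Red (DA N)) (rN' : Red (DA N')) (φ : (DA N).A ≃[L] (DA N').A) :
    Nonempty (N.A ≃[LX L] N'.A) := by
  have hne := DA_nonempty hN
  have hne' := DA_nonempty hN'
  obtain ⟨f⟩ := N_UA D hN hne
  obtain ⟨f'⟩ := N_UA D hN' hne'
  obtain ⟨g⟩ := UA_iso D hne hne' rN rN' φ
  exact ⟨f'.symm.comp (g.comp f)⟩

theorem UA_countable (D : SwO S sw) (P : PA L S) (hP : Nonempty P.A) (hc : P.A.Countable) :
    (UA D P hP).A.Countable := by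
  have := hc.to_subtype
  refine (Set.countable_range fun p : (Bool × Bool) × (Fin 5 → P.A) =>
    bs p.1 P fun i => p.2 ⟨min i 4, by omega⟩).mono ?_
  rintro u ⟨b, v, rfl⟩
  refine ⟨(b, fun j => v j), ?_⟩
  refine bs_congr fun i hi => ?_
  show v (min i 4) = v i
  rw [min_eq_left (by omega)]

end VCD
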