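import Pool.Agent.VCD.ERel

/-!
# VCD-Root: matching of clopen sets whose root pieces have the same types
-/

open Set FirstOrder

namespace VCD

variable {L : FirstOrder.Language.{0, 0}} {ι : Type} {S : ι → Type} [∀ i, L.Structure (S i)]

theorem ER_root (D : HasSw L S) [Finite ι] [∀ i, Finite (S i)] {k : ℕ} {P P' : PA L S}
    (c : ℕ → P.A) (d : ℕ → P'.A) {e : Set P.Ω} {f : Set P'.Ω} (ce : P.Cl e) (cf : P'.Cl f)
    (a : ℕ → P.A) (b : ℕ → P'.A)
    (h : ∀ q : Q L S, q.len = 0 →
      P.tau k q (e ∩ {w | ker L q.len (fun j => (a j).1 w) = q.ker}) a =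
        P'.tau k q (f ∩ {w | ker L q.len (fun j => (b j).1 w) = q.ker}) b) :
    ER k 0 P P' c d e f := by
  classical
  obtain ⟨t0⟩ : Nonempty (L.Term (Fin 0)) := by
    obtain ⟨sw, c0, c1, hD⟩ := id D
    exact ⟨FirstOrder.Language.Term.func c0 Fin.elim0⟩
  have main : ∀ s : Finset (Set (L.Term (Fin 0) × L.Term (Fin 0))), (∀ κ ∈ s, κ ∈ KK L S 0) →
      ER k 0 P P' c d (⋃ κ ∈ s, e ∩ {w | ker L 0 (fun j => (a j).1 w) = κ})
        (⋃ κ ∈ s, f ∩ {w | ker L 0 (fun j => (b j).1 w) = κ}) := by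
    intro s
    induction s using Finset.induction_on with
    | empty =>
      intro _
      simp only [Finset.notMem_empty, iUnion_of_empty, iUnion_empty]
      exact ER.nil
    | insert κ s hκ ih =>
      intro hs
      rw [Finset.set_biUnion_insert, Finset.set_biUnion_insert]
      have hq : κ ∈ KK L S 0 := hs κ (Finset.mem_insert_self _ _)
      refine ER.union ?_ (ih fun κ' h' => hs κ' (Finset.mem_insert_of_mem h')) ?_ ?_
      · refine ER.single ⟨0, κ, hq, fun j => j.elim0⟩ a b (fun _ => t0)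
          ⟨cl_inter D P ce (cl_ker D P _ _ _), fun w hw => hw.2⟩
          ⟨cl_inter D P' cf (cl_ker D P' _ _ _), fun w hw => hw.2⟩
          (h ⟨0, κ, hq, fun j => j.elim0⟩ rfl) (fun j hj => absurd hj (Nat.not_lt_zero j))
          fun j hj => absurd hj (Nat.not_lt_zero j)
      · rw [Set.disjoint_iUnion₂_right]
        intro κ' hκ'
        rw [Set.disjoint_left]
        rintro w ⟨_, h1⟩ ⟨_, h2⟩
        apply hκ
        have h3 : κ = κ' := h1.symm.trans h2
        rw [h3]
        exact hκ'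
      · rw [Set.disjoint_iUnion₂_right]
        intro κ' hκ'
        rw [Set.disjoint_left]
        rintro w ⟨_, h1⟩ ⟨_, h2⟩
        apply hκ
        have h3 : κ = κ' := h1.symm.trans h2
        rw [h3]
        exact hκ'
  have h1 := main (KK_finite (L := L) (S := S) 0).toFinset fun κ hκ => by
    rwa [Set.Finite.mem_toFinset] at hκ
  have key : ∀ (P : PA L S) (a : ℕ → P.A) (e : Set P.Ω),
      (⋃ κ ∈ (KK_finite (L := L) (S := S) 0).toFinset,
        e ∩ {w | ker L 0 (fun j => (a j).1 w) = κ}) = e := by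
    intro P a e
    apply Subset.antisymm
    · exact iUnion₂_subset fun κ _ => inter_subset_left
    · intro w hw
      rw [mem_iUnion₂]
      refine ⟨ker L 0 (fun j => (a j).1 w), ?_, hw, rfl⟩
      rw [Set.Finite.mem_toFinset]
      exact ⟨P.f w, _, rfl⟩
  rwa [key, key] at h1

end VCD
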