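import Pool.Agent.VCD.Crit
import Pool.Agent.VCD.Root

/-!
# VCD-LS: a countable subalgebra with the same types
-/

open Set FirstOrder

namespace VCD

variable {L : FirstOrder.Language.{0, 0}} {ι : Type} {S : ι → Type} [∀ i, L.Structure (S i)]

private theorem exists_closed {X I : Type} [Countable I] (G : I → List X → X) (D0 : Set X)
    (hD : D0.Countable) : ∃ Y : Set X, Y.Countable ∧ D0 ⊆ Y ∧
      ∀ i l, (∀ x ∈ l, x ∈ Y) → G i l ∈ Y := by
  obtain ⟨Z, hZ0, hZ1⟩ : ∃ Z : ℕ → Set X, Z 0 = D0 ∧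
      ∀ n, Z (n + 1) = Z n ∪ {x | ∃ (i : I) (l : List (Z n)), x = G i (l.map Subtype.val)} :=
    ⟨fun n => Nat.rec D0 (fun _ Y => Y ∪ {x | ∃ (i : I) (l : List Y), x = G i (l.map Subtype.val)}) n,
      rfl, fun _ => rfl⟩
  have hmono : ∀ n m, n ≤ m → Z n ⊆ Z m := by
    intro n m h
    induction h with
    | refl => exact Subset.rfl
    | step _ ih =>
      rw [hZ1]
      exact ih.trans subset_union_left
  have hcount : ∀ n, (Z n).Countable := by
    intro n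
    induction n with
    | zero => rw [hZ0]; exact hD
    | succ n ih =>
      rw [hZ1]
      apply ih.union
      have := ih.to_subtype
      refine (Set.countable_range fun p : I × List (Z n) => G p.1 (p.2.map Subtype.val)).mono ?_
      rintro x ⟨i, l, rfl⟩
      exact ⟨(i, l), rfl⟩
  refine ⟨⋃ n, Z n, Set.countable_iUnion hcount, ?_, ?_⟩
  · rw [← hZ0]
    exact subset_iUnion Z 0
  · intro i l hl
    have h1 : ∃ n, ∀ x ∈ l, x ∈ Z n := by
      induction l with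
      | nil => exact ⟨0, fun x hx => by simp at hx⟩
      | cons y l ih =>
        obtain ⟨n, hn⟩ := ih fun x hx => hl x (List.mem_cons_of_mem _ hx)
        obtain ⟨m, hm⟩ := mem_iUnion.1 (hl y List.mem_cons_self)
        refine ⟨max n m, fun x hx => ?_⟩
        rcases List.mem_cons.1 hx with rfl | hx
        · exact hmono _ _ (le_max_right _ _) hm
        · exact hmono _ _ (le_max_left _ _) (hn x hx)
    obtain ⟨n, hn⟩ := h1
    rw [mem_iUnion]
    refine ⟨n + 1, ?_⟩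
    rw [hZ1]
    right
    refine ⟨i, l.attach.map fun x => ⟨x.1, hn x.1 x.2⟩, ?_⟩
    rw [List.map_map]
    congr 1
    exact (List.attach_map_subtype_val l).symm

private def subPA (P : PA L S) (Y : Set P.A) (hY : ∀ (n : ℕ) (F : L.Functions n) (v : Fin n → P.A),
    (∀ j, v j ∈ Y) → (FirstOrder.Language.Structure.funMap F v : P.A) ∈ Y) : PA L S where
  Ω := P.Ω
  f := P.f
  A := {v | ∃ h : v ∈ P.A, (⟨v, h⟩ : P.A) ∈ Y}
  closed := by
    intro n F v hv
    choose h1 h2 using hv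
    exact ⟨P.closed n F v h1, hY n F (fun j => ⟨v j, h1 j⟩) h2⟩

section

variable {P : PA L S} {Y : Set P.A} {hY : ∀ (n : ℕ) (F : L.Functions n) (v : Fin n → P.A),
    (∀ j, v j ∈ Y) → (FirstOrder.Language.Structure.funMap F v : P.A) ∈ Y}

private def inc (x : (subPA P Y hY).A) : P.A := ⟨x.1, x.2.1⟩

private theorem inc_mem (x : (subPA P Y hY).A) : inc x ∈ Y := x.2.2

private def mk (x : P.A) (hx : x ∈ Y) : (subPA P Y hY).A := ⟨x.1, x.2, hx⟩

private theorem cl_up {e : Set P.Ω} (h : (subPA P Y hY).Cl e) : P.Cl e := by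
  obtain ⟨x, y, hxy⟩ := h
  exact ⟨inc x, inc y, hxy⟩

private theorem ob_iff {q : Q L S} {e : Set P.Ω} {b : ℕ → (subPA P Y hY).A}
    (h : (subPA P Y hY).Cl e) : (subPA P Y hY).Ob q e b ↔ P.Ob q e (fun j => inc (b j)) :=
  ⟨fun h' => ⟨cl_up h, h'.2⟩, fun h' => ⟨h, h'.2⟩⟩

private theorem sub_up {q q' : Q L S} {e e' : Set P.Ω} {b b' : ℕ → (subPA P Y hY).A}
    (h : (subPA P Y hY).Sub q e b q' e' b') :
    P.Sub q e (fun j => inc (b j)) q' e' (fun j => inc (b' j)) :=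
  ⟨(ob_iff h.1.1).1 h.1, h.2.1, h.2.2.1, h.2.2.2⟩

private theorem tau_sub (D : HasSw L S)
    (HW : ∀ (k : ℕ) (q q' : Q L S) (α β : TT (Q L S) k) (e : Set P.Ω) (b : ℕ → P.A),
      (∃ x ∈ Y, ∃ y ∈ Y, e = {w | x.1 w = y.1 w}) → (∀ j < q.len, b j ∈ Y) →
      (q', α, β) ∈ (P.tau (k + 1) q e b).s → ∃ e' a', (∃ x ∈ Y, ∃ y ∈ Y, e' = {w | x.1 w = y.1 w}) ∧
        (∀ j, a' j ∈ Y) ∧ P.Sub q e b q' e' a' ∧ α = P.tau k q' e' a' ∧
          β = P.tau k q (e \ e') b) :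
    ∀ (k : ℕ) {q : Q L S} {e : Set P.Ω} {b : ℕ → (subPA P Y hY).A}, (subPA P Y hY).Ob q e b →
      (subPA P Y hY).tau k q e b = P.tau k q e (fun j => inc (b j))
  | 0, _, _, _, _ => rfl
  | k + 1, q, e, b, ho => by
    apply Set.ext
    rintro ⟨q', α, β⟩
    constructor
    · rintro ⟨e', b', h1, h2, h3⟩
      refine ⟨e', fun j => inc (b' j), sub_up h1, h2.trans (tau_sub D HW k h1.1), h3.trans
        (tau_sub D HW k (PA.Ob.mono ho (cl_diff D _ ho.1 h1.1.1) sdiff_subset))⟩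
    · intro hz
      obtain ⟨x, y, hxy⟩ := id ho.1
      obtain ⟨e', a', ⟨x', hx', y', hy', he'⟩, h2, h3, h4, h5⟩ := HW k q q' α β e
        (fun j => inc (b j)) ⟨inc x, inc_mem x, inc y, inc_mem y, Set.ext hxy⟩
        (fun j _ => inc_mem (b j)) hz
      have hcl : (subPA P Y hY).Cl e' := ⟨mk x' hx', mk y' hy', fun w => by rw [he']; rfl⟩
      have ho' : (subPA P Y hY).Ob q' e' (fun j => mk (a' j) (h2 j)) := ⟨hcl, h3.1.2⟩
      refine ⟨e', fun j => mk (a' j) (h2 j), ⟨ho', h3.2.1, h3.2.2.1, h3.2.2.2⟩,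
        h4.trans (tau_sub D HW k ho').symm, h5.trans (tau_sub D HW k (PA.Ob.mono ho
          (cl_diff D _ ho.1 hcl) sdiff_subset)).symm⟩

end

theorem exists_ctb (D : HasSw L S) [Finite ι] [∀ i, Finite (S i)] [∀ n, Countable (L.Functions n)]
    {P : PA L S} {q : Q L S} {e : Set P.Ω} {a : ℕ → P.A} (hcrit : Crit P q e a) :
    ∃ P' : PA L S, P'.A.Countable ∧ (∃ (q' : Q L S) (e' : Set P'.Ω) (a' : ℕ → P'.A),
      Crit P' q' e' a') ∧ ∀ (k : ℕ) (c : ℕ → P.A) (d : ℕ → P'.A), ER k 0 P P' c d univ univ := by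
  classical
  obtain ⟨x0⟩ := nonempty_el D P
  -- witnesses
  have hW : ∀ (i : Σ k : ℕ, (Q L S × Q L S × TT (Q L S) k × TT (Q L S) k)) (l : List P.A),
      ∃ (x y : P.A) (a' : ℕ → P.A),
        (i.2.2.1, i.2.2.2.1, i.2.2.2.2) ∈ (P.tau (i.1 + 1) i.2.1
          {w | (l.getD 0 x0).1 w = (l.getD 1 x0).1 w} (fun j => l.getD (j + 2) x0)).s →
        P.Sub i.2.1 {w | (l.getD 0 x0).1 w = (l.getD 1 x0).1 w} (fun j => l.getD (j + 2) x0)
          i.2.2.1 {w | x.1 w = y.1 w} a' ∧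
          i.2.2.2.1 = P.tau i.1 i.2.2.1 {w | x.1 w = y.1 w} a' ∧
          i.2.2.2.2 = P.tau i.1 i.2.1 ({w | (l.getD 0 x0).1 w = (l.getD 1 x0).1 w} \
            {w | x.1 w = y.1 w}) (fun j => l.getD (j + 2) x0) := by
    intro i l
    by_cases h : (i.2.2.1, i.2.2.2.1, i.2.2.2.2) ∈ (P.tau (i.1 + 1) i.2.1
          {w | (l.getD 0 x0).1 w = (l.getD 1 x0).1 w} (fun j => l.getD (j + 2) x0)).s
    · obtain ⟨e', a', h1, h2, h3⟩ := id h
      obtain ⟨x, y, hxy⟩ := h1.1.1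
      have h4 : e' = {w | x.1 w = y.1 w} := Set.ext hxy
      subst h4
      exact ⟨x, y, a', fun _ => ⟨h1, h2, h3⟩⟩
    · exact ⟨x0, x0, fun _ => x0, fun h' => (h h').elim⟩
  choose wx wy wa hW using hW
  obtain ⟨ea, eb, heab⟩ := hcrit.ob.1
  choose g hg1 hg2 hg3 hg4 using hcrit.acc
  have hg1' := hg1
  choose ga gb hgab using hg1
  obtain ⟨Y, hY1, hY2, hY3⟩ := exists_closed
    (I := (Σ n, L.Functions n) ⊕ (Σ k : ℕ, (Q L S × Q L S × TT (Q L S) k × TT (Q L S) k)) × ℕ)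
    (fun i l => Sum.elim (fun F : Σ n, L.Functions n => (FirstOrder.Language.Structure.funMap F.2
        fun j => l.getD (j : ℕ) x0 : P.A))
      (fun i : (Σ k : ℕ, (Q L S × Q L S × TT (Q L S) k × TT (Q L S) k)) × ℕ => if i.2 = 0 then wx i.1 l else if i.2 = 1 then wy i.1 l else wa i.1 l (i.2 - 2)) i)
    (({x0, ea, eb} ∪ range a) ∪ (range ga ∪ range gb))
    (((Set.toFinite _).countable.union (countable_range _)).union
      ((countable_range _).union (countable_range _)))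
  have y0 : x0 ∈ Y := hY2 (Or.inl (Or.inl (by simp)))
  have yea : ea ∈ Y := hY2 (Or.inl (Or.inl (by simp)))
  have yeb : eb ∈ Y := hY2 (Or.inl (Or.inl (by simp)))
  have ya : ∀ j, a j ∈ Y := fun j => hY2 (Or.inl (Or.inr ⟨j, rfl⟩))
  have yga : ∀ j, ga j ∈ Y := fun j => hY2 (Or.inr (Or.inl ⟨j, rfl⟩))
  have ygb : ∀ j, gb j ∈ Y := fun j => hY2 (Or.inr (Or.inr ⟨j, rfl⟩))
  have hfun : ∀ (n : ℕ) (F : L.Functions n) (v : Fin n → P.A), (∀ j, v j ∈ Y) →
      (FirstOrder.Language.Structure.funMap F v : P.A) ∈ Y := by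
    intro n F v hv
    have h := hY3 (Sum.inl ⟨n, F⟩) (List.ofFn v) (fun x hx => by
      obtain ⟨j, rfl⟩ := (List.mem_ofFn' v x).1 hx
      exact hv j)
    have e1 : (fun j : Fin n => (List.ofFn v).getD (j : ℕ) x0) = v := by
      funext j
      rw [List.getD_eq_getElem _ _ (by rw [List.length_ofFn]; exact j.2), List.getElem_ofFn]
    simp only [Sum.elim_inl] at h
    rw [e1] at h
    exact h
  have HW : ∀ (k : ℕ) (q q' : Q L S) (α β : TT (Q L S) k) (e : Set P.Ω) (b : ℕ → P.A),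
      (∃ x ∈ Y, ∃ y ∈ Y, e = {w | x.1 w = y.1 w}) → (∀ j < q.len, b j ∈ Y) →
      (q', α, β) ∈ (P.tau (k + 1) q e b).s → ∃ e' a', (∃ x ∈ Y, ∃ y ∈ Y, e' = {w | x.1 w = y.1 w}) ∧
        (∀ j, a' j ∈ Y) ∧ P.Sub q e b q' e' a' ∧ α = P.tau k q' e' a' ∧
          β = P.tau k q (e \ e') b := by
    rintro k q q' α β e b ⟨x, hx, y, hy, rfl⟩ hb hz
    obtain ⟨l, hl⟩ : ∃ l : List P.A, l = x :: y :: List.ofFn (fun j : Fin q.len => b j) := ⟨_, rfl⟩
    have l0 : l.getD 0 x0 = x := by rw [hl]; rfl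
    have l1 : l.getD 1 x0 = y := by rw [hl]; rfl
    have lj : ∀ j < q.len, l.getD (j + 2) x0 = b j := by
      intro j hj
      rw [hl]
      show (List.ofFn (fun j : Fin q.len => b j)).getD j x0 = b j
      rw [List.getD_eq_getElem _ _ (by rw [List.length_ofFn]; exact hj), List.getElem_ofFn]
    have lmem : ∀ x ∈ l, x ∈ Y := by
      intro u hu
      rw [hl] at hu
      rcases List.mem_cons.1 hu with rfl | hu
      · exact hx
      rcases List.mem_cons.1 hu with rfl | hu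
      · exact hy
      obtain ⟨j, rfl⟩ := (List.mem_ofFn' _ u).1 hu
      exact hb j j.2
    have hcong : ∀ (k : ℕ) (g : Set P.Ω), P.tau k q g (fun j => l.getD (j + 2) x0) = P.tau k q g b :=
      fun k g => tau_congr k fun j hj w _ => by rw [lj j hj]
    have hz' : (q', α, β) ∈ (P.tau (k + 1) q {w | (l.getD 0 x0).1 w = (l.getD 1 x0).1 w}
        (fun j => l.getD (j + 2) x0)).s := by
      rw [l0, l1, hcong]
      exact hz
    obtain ⟨h1, h2, h3⟩ := hW ⟨k, q, q', α, β⟩ l hz'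
    simp only [l0, l1] at h1 h2 h3
    rw [hcong] at h3
    refine ⟨_, wa ⟨k, q, q', α, β⟩ l, ⟨wx ⟨k, q, q', α, β⟩ l, ?_, wy ⟨k, q, q', α, β⟩ l, ?_, rfl⟩, ?_,
      ⟨h1.1, h1.2.1, h1.2.2.1, fun j hj w hw => ?_⟩, h2, h3⟩
    · exact hY3 (Sum.inr (⟨k, q, q', α, β⟩, 0)) l lmem
    · exact hY3 (Sum.inr (⟨k, q, q', α, β⟩, 1)) l lmem
    · intro j
      have h4 := hY3 (Sum.inr (⟨k, q, q', α, β⟩, j + 2)) l lmem
      simp only [Sum.elim_inr] at h4
      rw [if_neg (by omega), if_neg (by omega), Nat.add_sub_cancel] at h4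
      exact h4
    · rw [h1.2.2.2 j hj w hw]
      show (l.getD (j + 2) x0).1 w = _
      rw [lj j hj]
  obtain ⟨b, hb⟩ : ∃ b : ℕ → (subPA P Y hfun).A, b = fun j => mk (a j) (ya j) := ⟨_, rfl⟩
  have hinc : ∀ j, inc (b j) = a j := by
    intro j
    rw [hb]
    rfl
  have htau := fun (k : ℕ) {q : Q L S} {e : Set P.Ω} {b : ℕ → (subPA P Y hfun).A}
    (h : (subPA P Y hfun).Ob q e b) => tau_sub D HW k h
  have clg : ∀ (x y : P.A) (hx : x ∈ Y) (hy : y ∈ Y) (g : Set P.Ω), (∀ w, w ∈ g ↔ x.1 w = y.1 w) →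
      (subPA P Y hfun).Cl g := fun x y hx hy g h => ⟨mk x hx, mk y hy, h⟩
  -- matchings
  have hER : ∀ (k : ℕ) (c : ℕ → P.A) (d : ℕ → (subPA P Y hfun).A) (g : Set P.Ω),
      (subPA P Y hfun).Cl g → ER k 0 P (subPA P Y hfun) c d g g := by
    intro k c d g hg
    refine ER_root D c d (cl_up hg) hg a b ?_
    intro q hq
    have e1 : ({w | ker L q.len (fun j => (b j).1 w) = q.ker} : Set P.Ω) =
        {w | ker L q.len (fun j => (a j).1 w) = q.ker} := by
      rw [hb]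
      rfl
    have ho : (subPA P Y hfun).Ob q (g ∩ {w | ker L q.len (fun j => (b j).1 w) = q.ker}) b :=
      ⟨cl_inter D _ hg (cl_ker D _ _ _ _), fun w hw => hw.2⟩
    have h1 := htau k ho
    rw [h1]
    simp only [hinc]
    exact congrArg (fun s : Set P.Ω => P.tau k q (g ∩ s) a) e1.symm
  have hgood : ∀ g : Set P.Ω, (subPA P Y hfun).Cl g → ((subPA P Y hfun).Good g ↔ P.Good g) := by
    intro g hg
    constructor
    · intro h
      obtain ⟨k, hk⟩ := Good_transfer D h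
      exact Good_of_V (hk P b a g (hER k a b g hg).symm) h
    · intro h
      obtain ⟨k, hk⟩ := Good_transfer D h
      exact Good_of_V (hk _ a b g (hER k a b g hg)) h
  have cle : (subPA P Y hfun).Cl e := clg ea eb yea yeb e heab
  have obe : (subPA P Y hfun).Ob q e b := by
    rw [ob_iff cle]
    simp only [hinc]
    exact hcrit.ob
  refine ⟨subPA P Y hfun, ?_, ⟨q, e, b, obe, ?_, ?_, ?_, ?_⟩, fun k c d =>
    hER k c d univ (cl_univ D _)⟩
  · refine (hY1.image Subtype.val).mono ?_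
    rintro v ⟨h1, h2⟩
    exact ⟨⟨v, h1⟩, h2, rfl⟩
  · rw [hgood e cle]
    exact hcrit.bad
  · intro q' e' a' h h'
    rw [hgood e' h.1.1]
    have h1 := sub_up h
    simp only [hinc] at h1
    exact hcrit.long q' e' _ h1 h'
  · intro e' ce' se' be' k
    rw [hgood e' ce'] at be'
    have h1 := hcrit.min e' (cl_up ce') se' be' k
    have h2 := htau k (PA.Ob.mono obe ce' se')
    have h3 := htau k obe
    simp only [hinc] at h2 h3
    rw [h2, h3]
    exact h1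
  · intro k
    have cg : (subPA P Y hfun).Cl (g k) := clg (ga k) (gb k) (yga k) (ygb k) (g k) (hgab k)
    refine ⟨g k, cg, hg2 k, (hgood _ cg).2 (hg3 k), ?_⟩
    have h2 := htau k (PA.Ob.mono obe cg (hg2 k))
    have h3 := htau k obe
    simp only [hinc] at h2 h3
    rw [h2, h3]
    exact hg4 k

end VCD
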