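import Pool.Agent.VCD.Defs

/-!
# VCD-PMl: the invariants `PP` and homomorphisms of rings of sets
-/

open Set

namespace VCD

variable {Ω Ω' : Type} {B : Set (Set Ω)} {B' : Set (Set Ω')} {F : Set Ω → Set Ω'}
  {I : Set Ω → Prop} {I' : Set Ω' → Prop}

theorem Plus_mem (hB : RS B) {x : Set Ω} (h : Plus B I x) : x ∈ B := by
  induction h with
  | base a ha _ => exact ha
  | atom a h => exact h.1
  | sup a b _ _ h1 h2 => exact hB.union a h1 b h2

theorem PM.empty (h : PM B B' F) (hB : RS B) : F ∅ = ∅ := by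
  have h1 := h.diff ∅ hB.empty ∅ hB.empty
  rwa [sdiff_self, sdiff_self] at h1

theorem PM.mono (h : PM B B' F) (hB : RS B) {x y : Set Ω} (hx : x ∈ B) (hy : y ∈ B) (hxy : x ⊆ y) :
    F x ⊆ F y := by
  have h1 := h.union x hx (y \ x) (hB.diff y hy x hx)
  rw [union_sdiff_cancel hxy] at h1
  rw [h1]
  exact subset_union_left

theorem PM.at_iff (h : PM B B' F) (hB : RS B) (hI : ∀ x ∈ B, (I x ↔ I' (F x))) {x : Set Ω}
    (hx : x ∈ B) : At B I x ↔ At B' I' (F x) := by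
  constructor
  · rintro ⟨_, h2, h3⟩
    refine ⟨h.maps x hx, fun h4 => h2 ((hI x hx).2 h4), fun u hu hux => ?_⟩
    obtain ⟨u', hu', h5, rfl⟩ := h.lift x hx u hu hux
    rw [← hI u' hu', ← h.diff x hx u' hu', ← hI _ (hB.diff x hx u' hu')]
    exact h3 u' hu' h5
  · rintro ⟨_, h2, h3⟩
    refine ⟨hx, fun h4 => h2 ((hI x hx).1 h4), fun u hu hux => ?_⟩
    rw [hI u hu, hI _ (hB.diff x hx u hu), h.diff x hx u hu]
    exact h3 (F u) (h.maps u hu) (h.mono hB hu hx hux)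

theorem PM.plus_iff (h : PM B B' F) (hB : RS B) (hB' : RS B') (h0 : I ∅)
    (hI : ∀ x ∈ B, (I x ↔ I' (F x))) : ∀ x ∈ B, (Plus B I x ↔ Plus B' I' (F x)) := by
  intro x hx
  constructor
  · intro h1
    clear hx
    induction h1 with
    | base a ha h2 => exact Plus.base _ (h.maps a ha) ((hI a ha).1 h2)
    | atom a h2 => exact Plus.atom _ ((h.at_iff hB hI h2.1).1 h2)
    | sup a b h2 h3 h4 h5 =>
      rw [h.union a (Plus_mem hB h2) b (Plus_mem hB h3)]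
      exact Plus.sup _ _ h4 h5
  · intro h1
    obtain ⟨y, hy⟩ : ∃ y, y = F x := ⟨_, rfl⟩
    rw [← hy] at h1
    induction h1 generalizing x with
    | base a ha h2 =>
      rw [hy] at h2
      exact Plus.base _ hx ((hI x hx).2 h2)
    | atom a h2 =>
      rw [hy] at h2
      exact Plus.atom _ ((h.at_iff hB hI hx).2 h2)
    | sup a b h2 h3 h4 h5 =>
      have ha : a ∈ B' := Plus_mem hB' h2
      have hb : b ∈ B' := Plus_mem hB' h3
      obtain ⟨a1, ha1, sa1, ea1⟩ := h.lift x hx a ha (by rw [← hy]; exact subset_union_left)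
      obtain ⟨b1, hb1, sb1, eb1⟩ := h.lift x hx b hb (by rw [← hy]; exact subset_union_right)
      have hab : a1 ∪ b1 ∈ B := hB.union a1 ha1 b1 hb1
      have hr : x \ (a1 ∪ b1) ∈ B := hB.diff x hx _ hab
      have h6 : F (x \ (a1 ∪ b1)) = ∅ := by
        rw [h.diff x hx _ hab, h.union a1 ha1 b1 hb1, ea1, eb1, ← hy, sdiff_self]
      have h7 : I (x \ (a1 ∪ b1)) := by
        rw [hI _ hr, h6, ← h.empty hB, ← hI ∅ hB.empty]
        exact h0
      have h8 := Plus.sup _ _ (Plus.sup _ _ (h4 a1 ha1 ea1.symm) (h5 b1 hb1 eb1.symm))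
        (Plus.base _ hr h7)
      rwa [union_sdiff_cancel (union_subset sa1 sb1)] at h8

theorem PM.p1_iff (h : PM B B' F) (hB : RS B) (hB' : RS B') (h0 : I ∅)
    (hI : ∀ x ∈ B, (I x ↔ I' (F x))) {x : Set Ω} (hx : x ∈ B) : P1 B I x ↔ P1 B' I' (F x) := by
  have hp := h.plus_iff hB hB' h0 hI
  constructor
  · rintro ⟨y, hy, sy, h1, h2⟩
    refine ⟨F y, h.maps y hy, h.mono hB hy hx sy, fun h3 => h1 ((hp y hy).2 h3), ?_⟩
    intro z hz sz h3
    obtain ⟨z, hz', sz', rfl⟩ := h.lift y hy z hz sz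
    obtain ⟨⟨u, hu, su, h4, h5⟩, t, st, h6⟩ := h2 z hz' sz' fun h4 => h3 ((hp z hz').1 h4)
    refine ⟨⟨F u, h.maps u hu, h.mono hB hu hz' su, fun h7 => h4 ((hp u hu).2 h7), ?_⟩, F t,
      h.mono hB h6.1 hz' st, (h.at_iff hB hI h6.1).1 h6⟩
    rw [← h.diff z hz' u hu]
    exact fun h7 => h5 ((hp _ (hB.diff z hz' u hu)).2 h7)
  · rintro ⟨y, hy, sy, h1, h2⟩
    obtain ⟨y, hy', sy', rfl⟩ := h.lift x hx y hy sy
    refine ⟨y, hy', sy', fun h3 => h1 ((hp y hy').1 h3), ?_⟩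
    intro z hz sz h3
    obtain ⟨⟨u, hu, su, h4, h5⟩, t, st, h6⟩ := h2 (F z) (h.maps z hz) (h.mono hB hz hy' sz)
      fun h4 => h3 ((hp z hz).2 h4)
    obtain ⟨u, hu', su', rfl⟩ := h.lift z hz u hu su
    obtain ⟨t, ht', st', rfl⟩ := h.lift z hz t h6.1 st
    refine ⟨⟨u, hu', su', fun h7 => h4 ((hp u hu').1 h7), ?_⟩, t, st',
      (h.at_iff hB hI ht').2 h6⟩
    rw [← h.diff z hz u hu'] at h5
    exact fun h7 => h5 ((hp _ (hB.diff z hz u hu')).1 h7)

theorem PM.iter (h : PM B B' F) (hB : RS B) (hB' : RS B') : ∀ (m : ℕ) (I : Set Ω → Prop)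
    (I' : Set Ω' → Prop), I ∅ → (∀ x ∈ B, (I x ↔ I' (F x))) →
    ((Plus B)^[m] I) ∅ ∧ ∀ x ∈ B, (((Plus B)^[m] I) x ↔ ((Plus B')^[m] I') (F x)) := by
  intro m
  induction m with
  | zero => exact fun I I' h0 hI => ⟨h0, hI⟩
  | succ m ih =>
    intro I I' h0 hI
    exact ih (Plus B I) (Plus B' I') (Plus.base _ hB.empty h0) (h.plus_iff hB hB' h0 hI)

theorem PM.pp_iff (h : PM B B' F) (hB : RS B) (hB' : RS B') (h0 : I ∅)
    (hI : ∀ x ∈ B, (I x ↔ I' (F x))) (m : ℕ) {x : Set Ω} (hx : x ∈ B) :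
    PP B I m x ↔ PP B' I' m (F x) := by
  obtain ⟨h1, h2⟩ := h.iter hB hB' m I I' h0 hI
  exact h.p1_iff hB hB' h1 h2 hx

theorem PP_mono {m : ℕ} {x y : Set Ω} (h : PP B I m x) (hxy : x ⊆ y) : PP B I m y := by
  obtain ⟨z, hz, sz, h1⟩ := h
  exact ⟨z, hz, sz.trans hxy, h1⟩

theorem P1_union (hB : RS B) {x y : Set Ω} (hx : x ∈ B) (h : P1 B I (x ∪ y)) :
    P1 B I x ∨ P1 B I y := by
  obtain ⟨z, hz, sz, h1, h2⟩ := h
  have hzx : z \ x ∈ B := hB.diff z hz x hx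
  have hzi : z \ (z \ x) ∈ B := hB.diff z hz _ hzx
  by_cases h3 : Plus B I (z \ x)
  · left
    refine ⟨z \ (z \ x), hzi, ?_, ?_, fun u hu su h4 => h2 u hu (su.trans sdiff_subset) h4⟩
    · rw [sdiff_sdiff_right_self]
      exact inter_subset_right
    · intro h4
      apply h1
      have h5 := Plus.sup _ _ h3 h4
      rwa [union_sdiff_cancel sdiff_subset] at h5
  · right
    refine ⟨z \ x, hzx, ?_, h3, fun u hu su h4 => h2 u hu (su.trans sdiff_subset) h4⟩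
    intro w hw
    exact (sz hw.1).resolve_left hw.2

theorem PP_union (hB : RS B) {m : ℕ} {x y : Set Ω} (hx : x ∈ B) :
    PP B I m (x ∪ y) ↔ PP B I m x ∨ PP B I m y :=
  ⟨P1_union hB hx, fun h => h.elim (fun h => PP_mono h subset_union_left)
    fun h => PP_mono h subset_union_right⟩

/-- the part of a ring of sets below `U` -/
def Bel (B : Set (Set Ω)) (U : Set Ω) : Set (Set Ω) := {b | b ∈ B ∧ b ⊆ U}

theorem Bel_RS (hB : RS B) (U : Set Ω) : RS (Bel B U) where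
  empty := ⟨hB.empty, empty_subset _⟩
  union a ha b hb := ⟨hB.union a ha.1 b hb.1, union_subset ha.2 hb.2⟩
  diff a ha b hb := ⟨hB.diff a ha.1 b hb.1, sdiff_subset.trans ha.2⟩

theorem Bel_PM (U : Set Ω) : PM (Bel B U) B id where
  maps _ ha := ha.1
  union _ _ _ _ := rfl
  diff _ _ _ _ := rfl
  lift _ ha y hy hya := ⟨y, ⟨hy, hya.trans ha.2⟩, hya, rfl⟩

theorem PP_not_empty (hB : RS B) (h0 : I ∅) (m : ℕ) : ¬ PP B I m ∅ := by
  rintro ⟨z, hz, sz, h1, _⟩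
  apply h1
  have h2 : z = ∅ := subset_empty_iff.1 sz
  rw [h2]
  have h4 : ∀ (m : ℕ) (I : Set Ω → Prop), I ∅ → ((Plus B)^[m] I) ∅ := by
    intro m
    induction m with
    | zero => exact fun I h => h
    | succ m ih => exact fun I h => ih _ (Plus.base _ hB.empty h)
  exact Plus.base _ hB.empty (h4 m I h0)

end VCD
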