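import Pool.Agent.VCD.Good
import Pool.Agent.VCD.PMl

/-!
# VCD-IsoInv: isomorphisms of algebras of functions preserve the ring of clopen sets and goodness
-/

open Set FirstOrder

namespace VCD

variable {L : FirstOrder.Language.{0, 0}} {ι : Type} {S : ι → Type} [∀ i, L.Structure (S i)]

private def Ind (c0 c1 : L.Functions 0) (P : PA L S) (χ : P.A) (e : Set P.Ω) : Prop :=
  ∀ w, (w ∈ e → χ.1 w = FirstOrder.Language.Structure.funMap c1 ![]) ∧
    (w ∉ e → χ.1 w = FirstOrder.Language.Structure.funMap c0 ![])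

private def Rel (c0 c1 : L.Functions 0) {P P' : PA L S} (φ : P.A ≃[L] P'.A) (e : Set P.Ω)
    (e' : Set P'.Ω) : Prop := ∃ χ : P.A, Ind c0 c1 P χ e ∧ Ind c0 c1 P' (φ χ) e'

/-- a constant as an element -/
private def kc (P : PA L S) (c : L.Functions 0) : P.A := FirstOrder.Language.Structure.funMap c ![]

private theorem kc_val (P : PA L S) (c : L.Functions 0) (w : P.Ω) :
    (kc P c).1 w = FirstOrder.Language.Structure.funMap c ![] := by
  show FirstOrder.Language.Structure.funMap c (fun j : Fin 0 => _) = _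
  exact congrArg _ (Subsingleton.elim _ _)

private theorem kc_map {P P' : PA L S} (φ : P.A ≃[L] P'.A) (c : L.Functions 0) :
    φ (kc P c) = kc P' c := by
  show φ (FirstOrder.Language.Structure.funMap c ![]) = FirstOrder.Language.Structure.funMap c ![]
  rw [FirstOrder.Language.Equiv.map_fun]
  exact congrArg _ (Subsingleton.elim _ _)

/-- the switching term as an operation -/
private def sm (P : PA L S) (sw : L.Term (Fin 4)) (a b c d : P.A) : P.A := sw.realize ![a, b, c, d]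

private theorem sm_val (P : PA L S) (sw : L.Term (Fin 4)) (a b c d : P.A) (w : P.Ω) :
    (sm P sw a b c d).1 w = sw.realize ![a.1 w, b.1 w, c.1 w, d.1 w] := by
  show (sw.realize ![a, b, c, d] : P.A).1 w = _
  rw [realize_val]
  congr 1
  funext i
  fin_cases i <;> rfl

private theorem sm_map {P P' : PA L S} (φ : P.A ≃[L] P'.A) (sw : L.Term (Fin 4)) (a b c d : P.A) :
    φ (sm P sw a b c d) = sm P' sw (φ a) (φ b) (φ c) (φ d) := by
  show φ (sw.realize ![a, b, c, d]) = sw.realize ![φ a, φ b, φ c, φ d]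
  rw [← FirstOrder.Language.HomClass.realize_term]
  congr 1
  funext i
  fin_cases i <;> rfl

variable {sw : L.Term (Fin 4)} {c0 c1 : L.Functions 0}

private theorem sm_eq (D : SwC S sw c0 c1) (P : PA L S) (a b c d : P.A) {w : P.Ω}
    (h : a.1 w = b.1 w) : (sm P sw a b c d).1 w = c.1 w := by
  rw [sm_val, h]
  exact D.eq _ _ _ _

private theorem sm_ne (D : SwC S sw c0 c1) (P : PA L S) (a b c d : P.A) {w : P.Ω}
    (h : a.1 w ≠ b.1 w) : (sm P sw a b c d).1 w = d.1 w := by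
  rw [sm_val]
  exact D.ne _ _ _ _ _ h

private theorem Ind.on (D : SwC S sw c0 c1) {P : PA L S} {χ : P.A} {e : Set P.Ω}
    (h : Ind c0 c1 P χ e) {w : P.Ω} : w ∈ e ↔ χ.1 w = (kc P c1).1 w := by
  rw [kc_val]
  constructor
  · exact (h w).1
  · intro h1
    by_contra h2
    exact D.c01 _ (((h w).2 h2).symm.trans h1)

private theorem exists_rel (D : SwC S sw c0 c1) {P P' : PA L S} (φ : P.A ≃[L] P'.A) {e : Set P.Ω}
    (he : P.Cl e) : ∃ e', P'.Cl e' ∧ Rel c0 c1 φ e e' := by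
  obtain ⟨χ, h1, h2⟩ := exists_ind D P he
  have hind : Ind c0 c1 P χ e := fun w => ⟨h1 w, h2 w⟩
  have h3 : sm P sw χ (kc P c1) (kc P c1) (kc P c0) = χ := by
    apply Subtype.ext
    funext w
    by_cases hw : w ∈ e
    · rw [sm_eq D P _ _ _ _ ((hind.on D).1 hw), kc_val]
      exact (h1 w hw).symm
    · rw [sm_ne D P _ _ _ _ (fun h => hw ((hind.on D).2 h)), kc_val]
      exact (h2 w hw).symm
  have h4 := congrArg φ h3
  rw [sm_map, kc_map, kc_map] at h4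
  refine ⟨{w | (φ χ).1 w = (kc P' c1).1 w}, cl_eq P' _ _, χ, hind, fun w => ⟨fun hw => ?_, fun hw => ?_⟩⟩
  · have hw' : (φ χ).1 w = (kc P' c1).1 w := hw
    rw [hw', kc_val]
  · have h5 := sm_ne D P' (φ χ) (kc P' c1) (kc P' c1) (kc P' c0) hw
    rw [h4, kc_val] at h5
    exact h5

private theorem eq_on (D : SwC S sw c0 c1) {P : PA L S} {χ : P.A} {e : Set P.Ω}
    (h : Ind c0 c1 P χ e) (a b : P.A) : (∀ w ∈ e, a.1 w = b.1 w) ↔
      sm P sw χ (kc P c1) a (kc P c0) = sm P sw χ (kc P c1) b (kc P c0) := by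
  constructor
  · intro h1
    apply Subtype.ext
    funext w
    by_cases hw : w ∈ e
    · rw [sm_eq D P _ _ _ _ ((h.on D).1 hw), sm_eq D P _ _ _ _ ((h.on D).1 hw)]
      exact h1 w hw
    · rw [sm_ne D P _ _ _ _ (fun h' => hw ((h.on D).2 h')),
        sm_ne D P _ _ _ _ (fun h' => hw ((h.on D).2 h'))]
  · intro h1 w hw
    have h2 : (sm P sw χ (kc P c1) a (kc P c0)).1 w = (sm P sw χ (kc P c1) b (kc P c0)).1 w :=
      congrArg (fun z : P.A => z.1 w) h1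
    rw [sm_eq D P _ _ _ _ ((h.on D).1 hw), sm_eq D P _ _ _ _ ((h.on D).1 hw)] at h2
    exact h2

private theorem rel_eq (D : SwC S sw c0 c1) {P P' : PA L S} {φ : P.A ≃[L] P'.A} {e : Set P.Ω}
    {e' : Set P'.Ω} (h : Rel c0 c1 φ e e') (a b : P.A) :
    (∀ w ∈ e, a.1 w = b.1 w) ↔ ∀ w ∈ e', (φ a).1 w = (φ b).1 w := by
  obtain ⟨χ, h1, h2⟩ := h
  rw [eq_on D h1, eq_on D h2, ← kc_map φ, ← kc_map φ, ← sm_map, ← sm_map]
  exact ⟨fun h => by rw [h], fun h => φ.injective h⟩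

private theorem ne_iff (D : SwC S sw c0 c1) {P : PA L S} {e : Set P.Ω} (a b : P.A) :
    (∀ w ∈ e, a.1 w ≠ b.1 w) ↔
      ∀ w ∈ e, (sm P sw a b (kc P c1) (kc P c0)).1 w = (kc P c0).1 w := by
  constructor
  · intro h w hw
    exact sm_ne D P _ _ _ _ (h w hw)
  · intro h w hw h1
    have h2 := h w hw
    rw [sm_eq D P _ _ _ _ h1, kc_val, kc_val] at h2
    exact D.c01 _ h2.symm

private theorem rel_ne (D : SwC S sw c0 c1) {P P' : PA L S} {φ : P.A ≃[L] P'.A} {e : Set P.Ω}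
    {e' : Set P'.Ω} (h : Rel c0 c1 φ e e') (a b : P.A) :
    (∀ w ∈ e, a.1 w ≠ b.1 w) ↔ ∀ w ∈ e', (φ a).1 w ≠ (φ b).1 w := by
  rw [ne_iff D, ne_iff D, rel_eq D h, sm_map, kc_map, kc_map]

private theorem rel_ker (D : SwC S sw c0 c1) {P P' : PA L S} {φ : P.A ≃[L] P'.A} {e : Set P.Ω}
    {e' : Set P'.Ω} (h : Rel c0 c1 φ e e') (n : ℕ) (a : ℕ → P.A)
    (κ : Set (L.Term (Fin n) × L.Term (Fin n))) :
    (∀ w ∈ e, ker L n (fun j => (a j).1 w) = κ) ↔
      ∀ w ∈ e', ker L n (fun j => (φ (a j)).1 w) = κ := by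
  have key : ∀ (P : PA L S) (e : Set P.Ω) (a : ℕ → P.A),
      (∀ w ∈ e, ker L n (fun j => (a j).1 w) = κ) ↔ ∀ p : L.Term (Fin n) × L.Term (Fin n),
        (p ∈ κ → ∀ w ∈ e, (p.1.realize (fun j : Fin n => a j) : P.A).1 w =
          (p.2.realize (fun j : Fin n => a j) : P.A).1 w) ∧
        (p ∉ κ → ∀ w ∈ e, (p.1.realize (fun j : Fin n => a j) : P.A).1 w ≠
          (p.2.realize (fun j : Fin n => a j) : P.A).1 w) := by
    intro P e a
    have hm : ∀ (p : L.Term (Fin n) × L.Term (Fin n)) (w : P.Ω),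
        p ∈ ker L n (fun j => (a j).1 w) ↔ (p.1.realize (fun j : Fin n => a j) : P.A).1 w =
          (p.2.realize (fun j : Fin n => a j) : P.A).1 w := by
      intro p w
      rw [realize_val, realize_val]
      rfl
    constructor
    · intro h p
      constructor
      · intro hp w hw
        rw [← hm, h w hw]
        exact hp
      · intro hp w hw
        rw [Ne, ← hm, h w hw]
        exact hp
    · intro h w hw
      ext p
      rw [hm]
      constructor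
      · intro h1
        by_contra hp
        exact (h p).2 hp w hw h1
      · intro hp
        exact (h p).1 hp w hw
  rw [key P e a, key P' e' (fun j => φ (a j))]
  have hr : ∀ s : L.Term (Fin n), (s.realize (fun j : Fin n => φ (a j)) : P'.A) =
      φ (s.realize (fun j : Fin n => a j)) := by
    intro s
    rw [← FirstOrder.Language.HomClass.realize_term]
    rfl
  refine forall_congr' fun p => ?_
  rw [hr, hr, rel_eq D h, rel_ne D h]

private theorem rel_symm {P P' : PA L S} {φ : P.A ≃[L] P'.A} {e : Set P.Ω}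
    {e' : Set P'.Ω} (h : Rel c0 c1 φ e e') : Rel c0 c1 φ.symm e' e := by
  obtain ⟨χ, h1, h2⟩ := h
  refine ⟨φ χ, h2, ?_⟩
  have h3 : φ.symm (φ χ) = χ := φ.toEquiv.symm_apply_apply χ
  rw [h3]
  exact h1

private theorem Ind.unique {P : PA L S} {χ χ' : P.A} {e : Set P.Ω}
    (h : Ind c0 c1 P χ e) (h' : Ind c0 c1 P χ' e) : χ = χ' := by
  apply Subtype.ext
  funext w
  by_cases hw : w ∈ e
  · rw [(h w).1 hw, (h' w).1 hw]
  · rw [(h w).2 hw, (h' w).2 hw]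

private theorem rel_unique (D : SwC S sw c0 c1) {P P' : PA L S} {φ : P.A ≃[L] P'.A} {e : Set P.Ω}
    {e' e'' : Set P'.Ω} (h : Rel c0 c1 φ e e') (h' : Rel c0 c1 φ e e'') : e' = e'' := by
  obtain ⟨χ, h1, h2⟩ := h
  obtain ⟨χ', h3, h4⟩ := h'
  have h5 := h1.unique h3
  subst h5
  ext w
  rw [h2.on D, h4.on D]

private theorem rel_subset (D : SwC S sw c0 c1) {P P' : PA L S} {φ : P.A ≃[L] P'.A}
    {e1 e2 : Set P.Ω} {e1' e2' : Set P'.Ω} (h1 : Rel c0 c1 φ e1 e1') (h2 : Rel c0 c1 φ e2 e2') :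
    e1 ⊆ e2 ↔ e1' ⊆ e2' := by
  obtain ⟨χ, h3, h4⟩ := id h2
  have e1 : e1 ⊆ e2 ↔ ∀ w ∈ e1, χ.1 w = (kc P c1).1 w :=
    ⟨fun h w hw => (h3.on D).1 (h hw), fun h w hw => (h3.on D).2 (h w hw)⟩
  have e2 : e1' ⊆ e2' ↔ ∀ w ∈ e1', (φ χ).1 w = (kc P' c1).1 w :=
    ⟨fun h w hw => (h4.on D).1 (h hw), fun h w hw => (h4.on D).2 (h w hw)⟩
  rw [e1, e2, rel_eq D h1, kc_map]

private theorem rel_diff (D : SwC S sw c0 c1) {P P' : PA L S} {φ : P.A ≃[L] P'.A}
    {e1 e2 : Set P.Ω} {e1' e2' : Set P'.Ω} (h1 : Rel c0 c1 φ e1 e1') (h2 : Rel c0 c1 φ e2 e2') :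
    Rel c0 c1 φ (e1 \ e2) (e1' \ e2') := by
  obtain ⟨χ1, h3, h4⟩ := h1
  obtain ⟨χ2, h5, h6⟩ := h2
  have key : ∀ (P : PA L S) (χ1 χ2 : P.A) (e1 e2 : Set P.Ω), Ind c0 c1 P χ1 e1 →
      Ind c0 c1 P χ2 e2 → Ind c0 c1 P (sm P sw χ2 (kc P c1) (kc P c0) χ1) (e1 \ e2) := by
    intro P χ1 χ2 e1 e2 h1 h2 w
    by_cases hw : w ∈ e2
    · rw [sm_eq D P _ _ _ _ ((h2.on D).1 hw), kc_val]
      exact ⟨fun h => (h.2 hw).elim, fun _ => rfl⟩
    · rw [sm_ne D P _ _ _ _ (fun h => hw ((h2.on D).2 h))]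
      exact ⟨fun h => (h1 w).1 h.1, fun h => (h1 w).2 fun h' => h ⟨h', hw⟩⟩
  refine ⟨sm P sw χ2 (kc P c1) (kc P c0) χ1, key P _ _ _ _ h3 h5, ?_⟩
  rw [sm_map, kc_map, kc_map]
  exact key P' _ _ _ _ h4 h6

private theorem rel_union (D : SwC S sw c0 c1) {P P' : PA L S} {φ : P.A ≃[L] P'.A}
    {e1 e2 : Set P.Ω} {e1' e2' : Set P'.Ω} (h1 : Rel c0 c1 φ e1 e1') (h2 : Rel c0 c1 φ e2 e2') :
    Rel c0 c1 φ (e1 ∪ e2) (e1' ∪ e2') := by
  obtain ⟨χ1, h3, h4⟩ := h1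
  obtain ⟨χ2, h5, h6⟩ := h2
  have key : ∀ (P : PA L S) (χ1 χ2 : P.A) (e1 e2 : Set P.Ω), Ind c0 c1 P χ1 e1 →
      Ind c0 c1 P χ2 e2 → Ind c0 c1 P (sm P sw χ2 (kc P c1) (kc P c1) χ1) (e1 ∪ e2) := by
    intro P χ1 χ2 e1 e2 h1 h2 w
    by_cases hw : w ∈ e2
    · rw [sm_eq D P _ _ _ _ ((h2.on D).1 hw), kc_val]
      exact ⟨fun _ => rfl, fun h => (h (Or.inr hw)).elim⟩
    · rw [sm_ne D P _ _ _ _ (fun h => hw ((h2.on D).2 h))]
      exact ⟨fun h => (h1 w).1 (h.resolve_right hw), fun h => (h1 w).2 fun h' => h (Or.inl h')⟩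
  refine ⟨sm P sw χ2 (kc P c1) (kc P c1) χ1, key P _ _ _ _ h3 h5, ?_⟩
  rw [sm_map, kc_map]
  exact key P' _ _ _ _ h4 h6

private theorem rel_empty (D : SwC S sw c0 c1) {P P' : PA L S} {φ : P.A ≃[L] P'.A} {e : Set P.Ω}
    {e' : Set P'.Ω} (h : Rel c0 c1 φ e e') : e = ∅ ↔ e' = ∅ := by
  have key : ∀ (P : PA L S) (e : Set P.Ω), e = ∅ ↔ ∀ w ∈ e, (kc P c0).1 w = (kc P c1).1 w := by
    intro P e
    constructor
    · intro h w hw
      rw [h] at hw
      exact hw.elim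
    · intro h
      refine eq_empty_of_forall_notMem fun w hw => ?_
      have h1 := h w hw
      rw [kc_val, kc_val] at h1
      exact D.c01 _ h1
  rw [key P e, key P' e', rel_eq D h, kc_map, kc_map]

private theorem rel_tau (D : SwC S sw c0 c1) : ∀ (k : ℕ) {P P' : PA L S} {φ : P.A ≃[L] P'.A}
    {q : Q L S} {e : Set P.Ω} {e' : Set P'.Ω} {a : ℕ → P.A}, P.Ob q e a → P'.Cl e' →
    Rel c0 c1 φ e e' → P.tau k q e a = P'.tau k q e' (fun j => φ (a j))
  | 0, P, P', φ, q, e, e', a, _, _, h => tau_zero_iff.2 (rel_empty D h)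
  | k + 1, P, P', φ, q, e, e', a, ho, hc', h => by
    have HS : HasSw L S := ⟨sw, c0, c1, D⟩
    have key : ∀ (P P' : PA L S) (φ : P.A ≃[L] P'.A) (e : Set P.Ω) (e' : Set P'.Ω) (a : ℕ → P.A),
        P.Ob q e a → P'.Cl e' → Rel c0 c1 φ e e' → ∀ z, z ∈ (P.tau (k + 1) q e a).s →
          z ∈ (P'.tau (k + 1) q e' (fun j => φ (a j))).s := by
      rintro P P' φ e e' a ho hc' h z ⟨e1, a1, h1, h2, h3⟩
      obtain ⟨e1', c1', hr⟩ := exists_rel D φ h1.1.1
      have ho1 : P'.Ob z.1 e1' (fun j => φ (a1 j)) := ⟨c1', (rel_ker D hr _ a1 _).1 h1.1.2⟩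
      refine ⟨e1', fun j => φ (a1 j), ⟨ho1, (rel_subset D hr h).1 h1.2.1, h1.2.2.1,
        fun j hj => (rel_eq D hr (a1 j) (a j)).1 (h1.2.2.2 j hj)⟩,
        h2.trans (rel_tau D k h1.1 c1' hr), h3.trans ?_⟩
      exact rel_tau D k (PA.Ob.mono ho (cl_diff HS P ho.1 h1.1.1) sdiff_subset)
        (cl_diff HS P' hc' c1') (rel_diff D h hr)
    apply Set.ext
    intro z
    refine ⟨key P P' φ e e' a ho hc' h z, fun hz => ?_⟩
    have ho' : P'.Ob q e' (fun j => φ (a j)) := ⟨hc', (rel_ker D h _ a _).1 ho.2⟩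
    have h1 := key P' P φ.symm e' e (fun j => φ (a j)) ho' ho.1 (rel_symm h) z hz
    have h2 : (fun j => φ.symm (φ (a j))) = a := funext fun j => φ.toEquiv.symm_apply_apply (a j)
    rwa [h2] at h1

private theorem rel_V (D : SwC S sw c0 c1) {P P' : PA L S} {φ : P.A ≃[L] P'.A}
    {e : Set P.Ω} {e' : Set P'.Ω} (h : Rel c0 c1 φ e e') : P.V e ⊆ P'.V e' := by
  rintro ⟨q, t⟩ ⟨e1, a1, h1, h2, h3⟩
  obtain ⟨e1', c1', hr⟩ := exists_rel D φ h1.1
  refine ⟨e1', fun j => φ (a1 j), ⟨c1', (rel_ker D hr _ a1 _).1 h1.2⟩, (rel_subset D hr h).1 h2, ?_⟩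
  rw [show t = fun k => P.tau k q e1 a1 from h3]
  funext k
  exact rel_tau D k h1 c1' hr

/-- an isomorphism preserves the ring of clopen sets and goodness -/
theorem iso_PM (D : HasSw L S) {P P' : PA L S} (φ : P.A ≃[L] P'.A) :
    ∃ F : Set P.Ω → Set P'.Ω, PM {g | P.Cl g} {g | P'.Cl g} F ∧
      ∀ g, P.Cl g → (P.Good g ↔ P'.Good (F g)) := by
  classical
  have HS := D
  obtain ⟨sw, c0, c1, D⟩ := D
  have hF : ∀ e : Set P.Ω, ∃ e' : Set P'.Ω, P.Cl e → P'.Cl e' ∧ Rel c0 c1 φ e e' := by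
    intro e
    by_cases he : P.Cl e
    · obtain ⟨e', h1, h2⟩ := exists_rel D φ he
      exact ⟨e', fun _ => ⟨h1, h2⟩⟩
    · exact ⟨∅, fun h => (he h).elim⟩
  choose F hF using hF
  refine ⟨F, ⟨fun a ha => (hF a ha).1, ?_, ?_, ?_⟩, fun g hg => ?_⟩
  · intro a ha b hb
    exact rel_unique D (hF _ (cl_union HS P ha hb)).2 (rel_union D (hF a ha).2 (hF b hb).2)
  · intro a ha b hb
    exact rel_unique D (hF _ (cl_diff HS P ha hb)).2 (rel_diff D (hF a ha).2 (hF b hb).2)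
  · intro a ha y hy hya
    obtain ⟨a', h1, h2⟩ := exists_rel D φ.symm hy
    have h3 : Rel c0 c1 φ a' y := rel_symm h2
    refine ⟨a', h1, (rel_subset D h3 (hF a ha).2).2 hya, rel_unique D (hF a' h1).2 h3⟩
  · have h1 := hF g hg
    constructor
    · intro h
      refine Set.Finite.subset h ?_
      exact rel_V D (rel_symm h1.2)
    · intro h
      exact Set.Finite.subset h (rel_V D h1.2)

end VCD
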