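import Pool.Agent.VCD.CodeN
import Pool.Agent.VCD.IsoInv
import Pool.Agent.VCR.MycB
import Pool.Agent.VCR.Perf

/-!
# VCD-Myc: perfectly many pairwise non-isomorphic algebras `N_x`
-/

open Set FirstOrder

namespace VCD

variable {L : FirstOrder.Language.{0, 0}} {ι : Type} {S : ι → Type} [∀ i, L.Structure (S i)]
  {P : PA L S} {q : Q L S} {e : Set P.Ω} {a : ℕ → P.A}

/-- the relation between `x` and `y` given by an isomorphism -/
private theorem iso_rel (D : HasSw L S) [Finite ι] [∀ i, Finite (S i)] (hc : Crit P q e a)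
    {x y : ℕ → Bool}
    (φ : (NX P q e a Cinf_BAS (XX x)).A ≃[L] (NX P q e a Cinf_BAS (XX y)).A) :
    ∃ h ∈ HH P q e a Cinf, ∃ h' ∈ HH P q e a Cinf, ∀ Y ∈ Cinf,
      cm (eqs (q := q) (a := a) Cinf_BAS (XX y) h h') = Y ∩ XX y → ∀ m, (x m = true ↔
        (y m = true ∧ ∃ l, PP (CR (m + 1)) (fun v => v = ∅) m (sc m l Y)) ∨
          PP {z | P.Cl z ∧ z ⊆ eᶜ} P.Good m {w | w ∈ eᶜ ∧ (h none).1 w = (h' none).1 w}) := by
  have hne := hc.exists_nonempty D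
  obtain ⟨F, hF, hG⟩ := iso_PM D φ
  have cU := big_cl (P := P) (q := q) (e := e) (a := a) (hC := Cinf_BAS) (X := XX x) D hc.ob
  have cV : (NX P q e a Cinf_BAS (XX y)).Cl (F (big P q e a Cinf_BAS (XX x))) := hF.maps _ cU
  obtain ⟨v, v', hv⟩ := id cV
  obtain ⟨h, hh, hvh⟩ := nx_rep v
  obtain ⟨h', hh', hvh'⟩ := nx_rep v'
  have hFU : F (big P q e a Cinf_BAS (XX x)) = eqs (q := q) (a := a) Cinf_BAS (XX y) h h' := by
    ext p
    rw [hv, hvh, hvh']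
    rfl
  refine ⟨h, hh, h', hh', fun Y hY hcm m => ?_⟩
  have h1 : PP {g | (NX P q e a Cinf_BAS (XX x)).Cl g} (NX P q e a Cinf_BAS (XX x)).Good m
      (big P q e a Cinf_BAS (XX x)) ↔ x m = true := by
    rw [PN_pp D hc x cU Cinf_BAS.univ (by rw [cm_big hne, univ_inter]) m]
    have h2 : sl none (big P q e a Cinf_BAS (XX x)) = ∅ := by
      refine eq_empty_of_forall_notMem ?_
      rintro w ⟨p, hp, hpe⟩
      exact hp (congrArg Prod.fst hpe)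
    rw [h2]
    have h3 := PP_not_empty (B := {z | P.Cl z ∧ z ⊆ eᶜ}) (I := P.Good) (Bel_RS (Cl_RS D P) eᶜ)
      (Good_empty D P) m
    constructor
    · rintro (h4 | h4)
      · exact h4.1
      · exact (h3 h4).elim
    · intro h4
      refine Or.inl ⟨h4, 0, ?_⟩
      rw [sc_univ]
      exact CR_full m
  rw [← h1, hF.pp_iff (Cl_RS D _) (Cl_RS D _) (Good_empty D _) hG m cU, hFU]
  rw [hFU] at cV
  rw [PN_pp D hc y cV hY hcm m]
  have h2 := sl_eqs (q := q) (a := a) Cinf_BAS (XX y) h h' (b := none) okb_none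
  rw [h2]
  exact Iff.rfl

/-- a continuous family of pairwise non-isomorphic algebras `N_x` -/
theorem cantor_of_crit (D : HasSw L S) [Finite ι] [∀ i, Finite (S i)]
    (hrel : ∀ n, IsEmpty (L.Relations n)) (hc : Crit P q e a) (hA : P.A.Countable) :
    ∃ (s : (ℕ → Bool) → VCR.Str L) (X : (ℕ → Bool) → Set JJ), Continuous s ∧
      (∀ x, (X x).Nonempty ∧ Nonempty (@FirstOrder.Language.Equiv L ℕ
        (NX P q e a Cinf_BAS (X x)).A (VCR.toStructure (s x)) _)) ∧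
      ∀ x y, x ≠ y →
        IsEmpty ((NX P q e a Cinf_BAS (X x)).A ≃[L] (NX P q e a Cinf_BAS (X y)).A) := by
  have hne := hc.exists_nonempty D
  obtain ⟨s, hs, hiso⟩ := exists_code D hrel hc hA
  have hGG := GG_countable hA e
  have hHc : (HH P q e a Cinf).Countable := HH_countable hA Cinf_countable
  have hH1 : Countable (HH P q e a Cinf) := hHc.to_subtype
  obtain ⟨Yc, hYc⟩ : ∃ Yc : HH P q e a Cinf × HH P q e a Cinf → Set JJ, ∀ k, Yc k ∈ Cinf ∧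
      ∀ X : Set JJ, cm (eqs (q := q) (a := a) Cinf_BAS X k.1.1 k.2.1) = Yc k ∩ X := by
    choose Yc h1 h2 using fun k : HH P q e a Cinf × HH P q e a Cinf =>
      cm_eqs (q := q) (a := a) Cinf_BAS hc.ob hne k.1.2 k.2.2
    exact ⟨Yc, fun k => ⟨h1 k, h2 k⟩⟩
  obtain ⟨G, hGd⟩ : ∃ G : HH P q e a Cinf × HH P q e a Cinf → ℕ → Prop, ∀ k m, G k m ↔
      ∃ l, PP (CR (m + 1)) (fun v => v = ∅) m (sc m l (Yc k)) := ⟨_, fun _ _ => Iff.rfl⟩
  obtain ⟨Z, hZd⟩ : ∃ Z : HH P q e a Cinf × HH P q e a Cinf → ℕ → Prop, ∀ k m, Z k m ↔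
      PP {z | P.Cl z ∧ z ⊆ eᶜ} P.Good m {w | w ∈ eᶜ ∧ (k.1.1 none).1 w = (k.2.1 none).1 w} :=
    ⟨_, fun _ _ => Iff.rfl⟩
  obtain ⟨C, hCd⟩ : ∃ C : HH P q e a Cinf × HH P q e a Cinf → Set ((ℕ → Bool) × (ℕ → Bool)),
      C = fun k => {p | ∀ m, (p.2 m = true ↔ (p.1 m = true ∧ G k (m + 1)) ∨ Z k (m + 1))} := ⟨_, rfl⟩
  have hcl : ∀ k, IsClosed (C k) := by
    intro k
    rw [hCd]
    have h1 : {p : (ℕ → Bool) × (ℕ → Bool) | ∀ m, (p.2 m = true ↔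
        (p.1 m = true ∧ G k (m + 1)) ∨ Z k (m + 1))} =
        ⋂ m, {p : (ℕ → Bool) × (ℕ → Bool) | (p.2 m = true ↔
        (p.1 m = true ∧ G k (m + 1)) ∨ Z k (m + 1))} := by
      ext p
      rw [mem_iInter]
      exact Iff.rfl
    show IsClosed {p : (ℕ → Bool) × (ℕ → Bool) | ∀ m, (p.2 m = true ↔
        (p.1 m = true ∧ G k (m + 1)) ∨ Z k (m + 1))}
    rw [h1]
    refine isClosed_iInter fun m => ?_
    have h2 : Continuous fun p : (ℕ → Bool) × (ℕ → Bool) => (p.1 m, p.2 m) := by fun_prop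
    exact (isClosed_discrete {b : Bool × Bool | b.2 = true ↔
      (b.1 = true ∧ G k (m + 1)) ∨ Z k (m + 1)}).preimage h2
  obtain ⟨h, hcont, hinj, hav⟩ := VCR.exists_mycielski C hcl (by
    intro k x y y' h1 h2
    rw [hCd] at h1 h2
    funext m
    rw [Bool.eq_iff_iff]
    exact (h1 m).trans (h2 m).symm)
  refine ⟨fun x => s (h x), fun x => XX (cs (h x)), hs.comp hcont,
    fun x => ⟨cs_XX _, hiso (h x)⟩, fun x y hxy => ⟨fun φ => ?_⟩⟩
  obtain ⟨h1, hh1, h2, hh2, key⟩ := iso_rel D hc φ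
  refine hav y x (Ne.symm hxy) (⟨h1, hh1⟩, ⟨h2, hh2⟩) ?_
  rw [hCd]
  intro m
  have h3 := key (Yc (⟨h1, hh1⟩, ⟨h2, hh2⟩)) (hYc (⟨h1, hh1⟩, ⟨h2, hh2⟩)).1
    ((hYc (⟨h1, hh1⟩, ⟨h2, hh2⟩)).2 (XX (cs (h y)))) (m + 1)
  rw [hGd, hZd]
  exact h3

end VCD
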