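import Pool.Agent.VCD.Root

/-!
# VCD-Ult: a saturated extension (an ultrapower) with the same root types
-/

open Set FirstOrder

namespace VCD

variable {L : FirstOrder.Language.{0, 0}} {ι : Type} {S : ι → Type} [∀ i, L.Structure (S i)]

private theorem exists_lim (U : Ultrafilter ℕ) {X : Type} [Finite X] (g : ℕ → X) :
    ∃ x, ∀ᶠ n in (U : Filter ℕ), g n = x := by
  obtain ⟨x, hx⟩ := Ultrafilter.eq_pure_of_finite (U.map g)
  refine ⟨x, ?_⟩
  have h : {x} ∈ U.map g := by
    rw [hx]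
    exact Ultrafilter.mem_pure.2 rfl
  exact h

private noncomputable def fs [Finite ι] (U : Ultrafilter ℕ) (P : PA L S) (w : ℕ → P.Ω) : ι :=
  (exists_lim U fun n => P.f (w n)).choose

private theorem fs_spec [Finite ι] (U : Ultrafilter ℕ) (P : PA L S) (w : ℕ → P.Ω) :
    ∀ᶠ n in (U : Filter ℕ), P.f (w n) = fs U P w := (exists_lim U fun n => P.f (w n)).choose_spec

private theorem exists_star [Finite ι] [∀ i, Finite (S i)] (U : Ultrafilter ℕ) (P : PA L S)
    (a : ℕ → P.A) (w : ℕ → P.Ω) : ∃ s : S (fs U P w), ∀ᶠ n in (U : Filter ℕ),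
      (⟨P.f (w n), (a n).1 (w n)⟩ : Σ i, S i) = ⟨fs U P w, s⟩ := by
  obtain ⟨⟨i, s⟩, h⟩ := exists_lim U fun n => (⟨P.f (w n), (a n).1 (w n)⟩ : Σ i, S i)
  obtain ⟨n, h1, h2⟩ := (h.and (fs_spec U P w)).exists
  have h3 : i = fs U P w := by
    rw [← h2]
    exact (congrArg Sigma.fst h1).symm
  subst h3
  exact ⟨s, h⟩

private noncomputable def star [Finite ι] [∀ i, Finite (S i)] (U : Ultrafilter ℕ) (P : PA L S)
    (a : ℕ → P.A) (w : ℕ → P.Ω) : S (fs U P w) := (exists_star U P a w).choose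

private theorem star_spec [Finite ι] [∀ i, Finite (S i)] (U : Ultrafilter ℕ) (P : PA L S)
    (a : ℕ → P.A) (w : ℕ → P.Ω) : ∀ᶠ n in (U : Filter ℕ),
      (⟨P.f (w n), (a n).1 (w n)⟩ : Σ i, S i) = ⟨fs U P w, star U P a w⟩ :=
  (exists_star U P a w).choose_spec

private theorem star_unique [Finite ι] [∀ i, Finite (S i)] (U : Ultrafilter ℕ) (P : PA L S)
    (a : ℕ → P.A) (w : ℕ → P.Ω) (s : S (fs U P w)) (h : ∀ᶠ n in (U : Filter ℕ),
      (⟨P.f (w n), (a n).1 (w n)⟩ : Σ i, S i) = ⟨fs U P w, s⟩) : star U P a w = s := by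
  obtain ⟨n, h1, h2⟩ := (h.and (star_spec U P a w)).exists
  have h3 := h2.symm.trans h1
  simpa using h3

private theorem sig_fun {n : ℕ} (F : L.Functions n) {i i' : ι} (h : i = i') (u : Fin n → S i)
    (s : Fin n → S i') (hu : ∀ j, (⟨i, u j⟩ : Σ i, S i) = ⟨i', s j⟩) :
    (⟨i, FirstOrder.Language.Structure.funMap F u⟩ : Σ i, S i) =
      ⟨i', FirstOrder.Language.Structure.funMap F s⟩ := by
  subst h
  have h1 : u = s := funext fun j => by simpa using hu j
  rw [h1]

private theorem sig_ker {m : ℕ} {i i' : ι} (h : i = i') (u : ℕ → S i)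
    (s : ℕ → S i') (hu : ∀ j < m, (⟨i, u j⟩ : Σ i, S i) = ⟨i', s j⟩) :
    ker L m u = ker L m s := by
  subst h
  exact ker_congr fun j hj => by simpa using hu j hj

private theorem star_fun [Finite ι] [∀ i, Finite (S i)] (U : Ultrafilter ℕ) (P : PA L S) {n : ℕ}
    (F : L.Functions n) (a : Fin n → ℕ → P.A) (w : ℕ → P.Ω) :
    star U P (fun m => FirstOrder.Language.Structure.funMap F fun j => a j m) w =
      FirstOrder.Language.Structure.funMap F fun j => star U P (a j) w := by
  apply star_unique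
  have h1 : ∀ᶠ m in (U : Filter ℕ), ∀ j, (⟨P.f (w m), (a j m).1 (w m)⟩ : Σ i, S i) =
      ⟨fs U P w, star U P (a j) w⟩ := by
    rw [Filter.eventually_all]
    exact fun j => star_spec U P (a j) w
  filter_upwards [h1, fs_spec U P w] with m h2 h3
  exact sig_fun F h3 (fun j => (a j m).1 (w m)) _ h2

private noncomputable def ult [Finite ι] [∀ i, Finite (S i)] (U : Ultrafilter ℕ) (P : PA L S) :
    PA L S where
  Ω := ℕ → P.Ω
  f := fs U P
  A := {v | ∃ a : ℕ → P.A, v = star U P a}
  closed := by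
    intro n F v hv
    choose a ha using hv
    refine ⟨fun m => FirstOrder.Language.Structure.funMap F fun j => a j m, ?_⟩
    funext w
    rw [star_fun]
    congr 1
    funext j
    rw [ha j]

private noncomputable def st [Finite ι] [∀ i, Finite (S i)] (U : Ultrafilter ℕ) (P : PA L S)
    (a : ℕ → P.A) : (ult U P).A := ⟨star U P a, a, rfl⟩

private theorem exists_st [Finite ι] [∀ i, Finite (S i)] (U : Ultrafilter ℕ) (P : PA L S)
    (b : (ult U P).A) : ∃ a : ℕ → P.A, b = st U P a := by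
  obtain ⟨v, a, ha⟩ := b
  exact ⟨a, Subtype.ext ha⟩

private theorem st_eq_iff [Finite ι] [∀ i, Finite (S i)] (U : Ultrafilter ℕ) (P : PA L S)
    (a b : ℕ → P.A) (w : ℕ → P.Ω) : (st U P a).1 w = (st U P b).1 w ↔
      ∀ᶠ n in (U : Filter ℕ), (a n).1 (w n) = (b n).1 (w n) := by
  show star U P a w = star U P b w ↔ _
  constructor
  · intro h
    filter_upwards [star_spec U P a w, star_spec U P b w] with n h1 h2
    rw [h] at h1
    have h3 := h1.trans h2.symm
    simpa using h3
  · intro h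
    apply star_unique
    filter_upwards [h, star_spec U P b w] with n h1 h2
    rw [h1]
    exact h2

private theorem ker_st [Finite ι] [∀ i, Finite (S i)] (U : Ultrafilter ℕ) (P : PA L S) (m : ℕ)
    (c : ℕ → ℕ → P.A) (w : ℕ → P.Ω) : ∀ᶠ n in (U : Filter ℕ),
      ker L m (fun j => (c j n).1 (w n)) = ker L m (fun j => (st U P (c j)).1 w) := by
  have h1 : ∀ᶠ n in (U : Filter ℕ), ∀ j : Fin m, (⟨P.f (w n), (c j n).1 (w n)⟩ : Σ i, S i) =
      ⟨fs U P w, star U P (c j) w⟩ := by
    rw [Filter.eventually_all]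
    exact fun j => star_spec U P (c j) w
  filter_upwards [h1, fs_spec U P w] with n h2 h3
  exact sig_ker h3 (fun j => (c j n).1 (w n)) (fun j => star U P (c j) w) fun j hj => h2 ⟨j, hj⟩

private def stE (U : Ultrafilter ℕ) {Ω : Type} (E : ℕ → Set Ω) : Set (ℕ → Ω) :=
  {w | ∀ᶠ n in (U : Filter ℕ), w n ∈ E n}

private theorem exists_of_not {Ω : Type} (U : Ultrafilter ℕ) (p : ℕ → Ω → Prop)
    (h : ¬ ∀ᶠ n in (U : Filter ℕ), ∀ x, ¬ p n x) :
    ∃ w : ℕ → Ω, ∀ᶠ n in (U : Filter ℕ), p n (w n) := by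
  classical
  rw [← Ultrafilter.eventually_not] at h
  have h1 : ∀ᶠ n in (U : Filter ℕ), ∃ x, p n x := h.mono fun n hn => by
    push Not at hn
    exact hn
  obtain ⟨n0, x0, _⟩ := h1.exists
  refine ⟨fun n => if hn : ∃ x, p n x then hn.choose else x0, h1.mono fun n hn => ?_⟩
  simp only [dif_pos hn]
  exact hn.choose_spec

private theorem stE_sub (U : Ultrafilter ℕ) {Ω : Type} {E E' : ℕ → Set Ω}
    (h : ∀ᶠ n in (U : Filter ℕ), E n ⊆ E' n) : stE U E ⊆ stE U E' := by
  intro w hw
  filter_upwards [h, hw] with n h1 h2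
  exact h1 h2

private theorem sub_of_stE (U : Ultrafilter ℕ) {Ω : Type} {E E' : ℕ → Set Ω}
    (h : stE U E ⊆ stE U E') : ∀ᶠ n in (U : Filter ℕ), E n ⊆ E' n := by
  by_contra hc
  obtain ⟨w, hw⟩ := exists_of_not U (fun n x => x ∈ E n ∧ x ∉ E' n) (fun h1 => hc (h1.mono
    fun n hn x hx => by
      by_contra hx'
      exact hn x ⟨hx, hx'⟩))
  obtain ⟨n, h1, h2⟩ := (hw.and (h (hw.mono fun n hn => hn.1))).exists
  exact h1.2 h2

private theorem stE_diff (U : Ultrafilter ℕ) {Ω : Type} (E E' : ℕ → Set Ω) :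
    stE U (fun n => E n \ E' n) = stE U E \ stE U E' := by
  ext w
  constructor
  · intro h
    refine ⟨Filter.Eventually.mono h fun n hn => hn.1, fun h' => ?_⟩
    obtain ⟨n, h1, h2⟩ := (Filter.Eventually.and h h').exists
    exact h1.2 h2
  · rintro ⟨h1, h2⟩
    have h3 : ∀ᶠ n in (U : Filter ℕ), ¬ w n ∈ E' n := Ultrafilter.eventually_not.2 h2
    exact Filter.Eventually.and h1 h3

private theorem stE_empty (U : Ultrafilter ℕ) {Ω : Type} (E : ℕ → Set Ω) :
    stE U E = ∅ ↔ ∀ᶠ n in (U : Filter ℕ), E n = ∅ := by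
  constructor
  · intro h
    have h1 : stE U E ⊆ stE U (fun _ => (∅ : Set Ω)) := by
      rw [h]
      exact empty_subset _
    exact (sub_of_stE U h1).mono fun n hn => subset_empty_iff.1 hn
  · intro h
    refine eq_empty_of_forall_notMem fun w hw => ?_
    obtain ⟨n, h1, h2⟩ := (Filter.Eventually.and hw h).exists
    rw [h2] at h1
    exact h1

private theorem cl_stE [Finite ι] [∀ i, Finite (S i)] (U : Ultrafilter ℕ) (P : PA L S)
    (E : ℕ → Set P.Ω) (h : ∀ n, P.Cl (E n)) : (ult U P).Cl (stE U E) := by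
  choose a b hab using h
  refine ⟨st U P a, st U P b, fun w => ?_⟩
  rw [st_eq_iff]
  exact Filter.eventually_congr (Filter.Eventually.of_forall fun n => hab n (w n))

private theorem exists_E [Finite ι] [∀ i, Finite (S i)] (U : Ultrafilter ℕ) (P : PA L S)
    {e : Set (ult U P).Ω} (h : (ult U P).Cl e) : ∃ E : ℕ → Set P.Ω, (∀ n, P.Cl (E n)) ∧
      e = stE U E := by
  obtain ⟨a, b, hab⟩ := h
  obtain ⟨a, rfl⟩ := exists_st U P a
  obtain ⟨b, rfl⟩ := exists_st U P b
  refine ⟨fun n => {w | (a n).1 w = (b n).1 w}, fun n => cl_eq P _ _, ?_⟩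
  ext w
  rw [hab, st_eq_iff]
  rfl

private theorem ob_st [Finite ι] [∀ i, Finite (S i)] (U : Ultrafilter ℕ) (P : PA L S) (q : Q L S)
    (E : ℕ → Set P.Ω) (h : ∀ n, P.Cl (E n)) (a : ℕ → ℕ → P.A) :
    (ult U P).Ob q (stE U E) (fun j => st U P (a j)) ↔
      ∀ᶠ n in (U : Filter ℕ), P.Ob q (E n) (fun j => a j n) := by
  constructor
  · rintro ⟨_, h2⟩
    by_contra hc
    obtain ⟨w, hw⟩ := exists_of_not U (fun n x => x ∈ E n ∧ ker L q.len (fun j => (a j n).1 x) ≠ q.ker)
      (fun h1 => hc (h1.mono fun n hn => ⟨h n, fun x hx => by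
        by_contra hx'
        exact hn x ⟨hx, hx'⟩⟩))
    have h3 := h2 w (hw.mono fun n hn => hn.1)
    obtain ⟨n, h4, h5⟩ := (hw.and (ker_st U P q.len a w)).exists
    exact h4.2 (h5.trans h3)
  · intro h1
    refine ⟨cl_stE U P E h, fun w hw => ?_⟩
    obtain ⟨n, h2, h3, h4⟩ := (h1.and (Filter.Eventually.and hw (ker_st U P q.len a w))).exists
    exact h4.symm.trans (h2.2 (w n) h3)

private theorem tau_st (D : HasSw L S) [Finite ι] [∀ i, Finite (S i)] (U : Ultrafilter ℕ)
    (P : PA L S) : ∀ (k : ℕ) (q : Q L S) (E : ℕ → Set P.Ω) (_ : ∀ n, P.Cl (E n))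
      (a : ℕ → ℕ → P.A) (_ : (ult U P).Ob q (stE U E) (fun j => st U P (a j))),
      ∀ᶠ n in (U : Filter ℕ), P.tau k q (E n) (fun j => a j n) =
        (ult U P).tau k q (stE U E) (fun j => st U P (a j))
  | 0, q, E, hE, a, ho => by
    show ∀ᶠ n in (U : Filter ℕ), (E n = ∅ : Prop) = (stE U E = ∅ : Prop)
    by_cases h : stE U E = ∅
    · filter_upwards [(stE_empty U E).1 h] with n hn
      exact propext ⟨fun _ => h, fun _ => hn⟩
    · have h1 : ∀ᶠ n in (U : Filter ℕ), ¬ E n = ∅ :=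
        Ultrafilter.eventually_not.2 fun h2 => h ((stE_empty U E).2 h2)
      filter_upwards [h1] with n hn
      exact propext ⟨fun h2 => (hn h2).elim, fun h2 => (h h2).elim⟩
  | k + 1, q, E, hE, a, ho => by
    classical
    obtain ⟨T, hT⟩ := exists_lim U fun n => P.tau (k + 1) q (E n) (fun j => a j n)
    have hTeq : T = (ult U P).tau (k + 1) q (stE U E) (fun j => st U P (a j)) := by
      apply Set.ext
      intro z
      constructor
      · intro hz
        obtain ⟨x0⟩ := nonempty_el D P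
        have h1 : ∀ n, ∃ (E' : Set P.Ω) (a' : ℕ → P.A), P.Cl E' ∧
            (z ∈ (P.tau (k + 1) q (E n) (fun j => a j n)).s →
              P.Sub q (E n) (fun j => a j n) z.1 E' a' ∧ z.2.1 = P.tau k z.1 E' a' ∧
                z.2.2 = P.tau k q (E n \ E') (fun j => a j n)) := by
          intro n
          by_cases h : z ∈ (P.tau (k + 1) q (E n) (fun j => a j n)).s
          · obtain ⟨E', a', h2, h3, h4⟩ := id h
            exact ⟨E', a', h2.1.1, fun _ => ⟨h2, h3, h4⟩⟩
          · exact ⟨∅, fun _ => x0, cl_empty D P, fun h' => (h h').elim⟩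
        choose E' a' hC hS using h1
        have hev : ∀ᶠ n in (U : Filter ℕ), P.Sub q (E n) (fun j => a j n) z.1 (E' n) (a' n) ∧
            z.2.1 = P.tau k z.1 (E' n) (a' n) ∧ z.2.2 = P.tau k q (E n \ E' n) (fun j => a j n) := by
          filter_upwards [hT] with n hn
          apply hS n
          rw [hn]
          exact hz
        have ho' : (ult U P).Ob z.1 (stE U E') (fun j => st U P (fun n => a' n j)) :=
          (ob_st U P z.1 E' hC (fun j n => a' n j)).2 (hev.mono fun n hn => hn.1.1)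
        have hcd : ∀ n, P.Cl (E n \ E' n) := fun n => cl_diff D P (hE n) (hC n)
        refine ⟨stE U E', fun j => st U P (fun n => a' n j), ⟨ho', ?_, ?_, ?_⟩, ?_, ?_⟩
        · exact stE_sub U (hev.mono fun n hn => hn.1.2.1)
        · obtain ⟨n, hn⟩ := hev.exists
          exact hn.1.2.2.1
        · intro j hj w hw
          rw [st_eq_iff]
          filter_upwards [hev, hw] with n hn hw'
          exact hn.1.2.2.2 j hj (w n) hw'
        · obtain ⟨n, h2, h3⟩ := (hev.and (tau_st D U P k z.1 E' hC (fun j n => a' n j) ho')).exists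
          exact h2.2.1.trans h3
        · have hod : (ult U P).Ob q (stE U (fun n => E n \ E' n)) (fun j => st U P (a j)) := by
            rw [stE_diff]
            exact PA.Ob.mono ho (by rw [← stE_diff]; exact cl_stE U P _ hcd) sdiff_subset
          obtain ⟨n, h2, h3⟩ := (hev.and (tau_st D U P k q _ hcd a hod)).exists
          rw [stE_diff] at h3
          exact h2.2.2.trans h3
      · rintro ⟨e', b', hsub, h1, h2⟩
        obtain ⟨E', hE', rfl⟩ := exists_E U P hsub.1.1
        have h3 : ∃ a' : ℕ → ℕ → P.A, b' = fun j => st U P (a' j) := by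
          choose a' ha' using fun j => exists_st U P (b' j)
          exact ⟨a', funext ha'⟩
        obtain ⟨a', rfl⟩ := h3
        have hcd : ∀ n, P.Cl (E n \ E' n) := fun n => cl_diff D P (hE n) (hE' n)
        have hod : (ult U P).Ob q (stE U (fun n => E n \ E' n)) (fun j => st U P (a j)) := by
          rw [stE_diff]
          exact PA.Ob.mono ho (by rw [← stE_diff]; exact cl_stE U P _ hcd) sdiff_subset
        have e1 := (ob_st U P z.1 E' hE' a').1 hsub.1
        have e2 := sub_of_stE U hsub.2.1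
        have e3 : ∀ᶠ n in (U : Filter ℕ), ∀ j < q.len, ∀ x ∈ E' n, (a' j n).1 x = (a j n).1 x := by
          by_contra hc
          obtain ⟨w, hw⟩ := exists_of_not U (fun n x => x ∈ E' n ∧
            ∃ j < q.len, (a' j n).1 x ≠ (a j n).1 x) (fun h4 => hc (h4.mono fun n hn j hj x hx => by
              by_contra hx'
              exact hn x ⟨hx, j, hj, hx'⟩))
          have h4 : ∀ᶠ n in (U : Filter ℕ), ∀ j : Fin q.len, (a' j n).1 (w n) = (a j n).1 (w n) := by
            rw [Filter.eventually_all]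
            intro j
            exact (st_eq_iff U P _ _ w).1 (hsub.2.2.2 j j.2 w (hw.mono fun n hn => hn.1))
          obtain ⟨n, ⟨_, j, hj, h6⟩, h7⟩ := (hw.and h4).exists
          exact h6 (h7 ⟨j, hj⟩)
        have e4 := tau_st D U P k z.1 E' hE' a' hsub.1
        have e5 := tau_st D U P k q _ hcd a hod
        rw [stE_diff] at e5
        obtain ⟨n, hn, n1, n2, n3, n4, n5⟩ := (hT.and (e1.and (e2.and (e3.and (e4.and e5))))).exists
        rw [← hn]
        exact ⟨E' n, fun j => a' j n, ⟨n1, n2, hsub.2.2.1, n3⟩, h1.trans n4.symm, h2.trans n5.symm⟩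
    rw [← hTeq]
    exact hT

theorem exists_sat (D : HasSw L S) [Finite ι] [∀ i, Finite (S i)] (P : PA L S) :
    ∃ P' : PA L S, SatP P' ∧ ∀ (k : ℕ) (c : ℕ → P.A) (d : ℕ → P'.A), ER k 0 P P' c d univ univ := by
  classical
  obtain ⟨U, hU⟩ : ∃ U : Ultrafilter ℕ, ∀ m : ℕ, ∀ᶠ n in (U : Filter ℕ), m ≤ n := by
    refine ⟨Filter.hyperfilter ℕ, fun m => ?_⟩
    have h := Filter.eventually_ge_atTop m
    rw [← Nat.cofinite_eq_atTop] at h
    exact Filter.hyperfilter_le_cofinite h
  refine ⟨ult U P, ?_, ?_⟩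
  · intro q a h d hO hd hsub
    have h3 : ∃ A : ℕ → ℕ → P.A, a = fun j => st U P (A j) := by
      choose A hA using fun j => exists_st U P (a j)
      exact ⟨A, funext hA⟩
    obtain ⟨A, rfl⟩ := h3
    choose H hH hh using fun i => exists_E U P (hO i).1
    choose Dd hDd hdd using fun i => exists_E U P (hd i)
    obtain ⟨X, hX⟩ : ∃ X : ℕ → ℕ → Prop, ∀ m n, X m n ↔ (m ≤ n ∧ (∀ i ≤ m, ∀ k ≤ i,
        H i n ⊆ Dd k n) ∧ (∀ i ≤ m, ∀ j ≤ m, P.tau j q (H i n) (fun l => A l n) =
          (ult U P).tau j q (h i) (fun l => st U P (A l))) ∧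
            ∀ i ≤ m, P.Ob q (H i n) (fun l => A l n)) := ⟨fun m n => _, fun _ _ => Iff.rfl⟩
    have allLe : ∀ (m : ℕ) (p : ℕ → ℕ → Prop), (∀ i, ∀ᶠ n in (U : Filter ℕ), p i n) →
        ∀ᶠ n in (U : Filter ℕ), ∀ i ≤ m, p i n := by
      intro m p hp
      have h1 : ∀ᶠ n in (U : Filter ℕ), ∀ i : Fin (m + 1), p i n := by
        rw [Filter.eventually_all]
        exact fun i => hp i
      exact h1.mono fun n hn i hi => hn ⟨i, Nat.lt_succ_of_le hi⟩
    have hXev : ∀ m, ∀ᶠ n in (U : Filter ℕ), X m n := by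
      intro m
      have h1 : ∀ᶠ n in (U : Filter ℕ), ∀ i ≤ m, ∀ k ≤ i, H i n ⊆ Dd k n := by
        apply allLe
        intro i
        have h2 : ∀ᶠ n in (U : Filter ℕ), ∀ k ≤ i, (k ≤ i → H i n ⊆ Dd k n) := by
          apply allLe
          intro k
          by_cases hk : k ≤ i
          · have h4 := hsub k i hk
            rw [hh i, hdd k] at h4
            exact (sub_of_stE U h4).mono fun n hn _ => hn
          · exact Filter.Eventually.of_forall fun n hn => (hk hn).elim
        exact h2.mono fun n hn k hk => hn k hk hk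
      have h2 : ∀ᶠ n in (U : Filter ℕ), ∀ i ≤ m, ∀ j ≤ m, P.tau j q (H i n) (fun l => A l n) =
          (ult U P).tau j q (h i) (fun l => st U P (A l)) := by
        apply allLe
        intro i
        apply allLe
        intro j
        have h4 := hO i
        rw [hh i] at h4 ⊢
        exact tau_st D U P j q (H i) (hH i) A h4
      have h3 : ∀ᶠ n in (U : Filter ℕ), ∀ i ≤ m, P.Ob q (H i n) (fun l => A l n) := by
        apply allLe
        intro i
        have h4 := hO i
        rw [hh i] at h4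
        exact (ob_st U P q (H i) (hH i) A).1 h4
      filter_upwards [hU m, h1, h2, h3] with n n1 n2 n3 n4
      rw [hX]
      exact ⟨n1, n2, n3, n4⟩
    have hμ : ∃ μ : ℕ → ℕ, ∀ m n, X m n → m ≤ μ n ∧ X (μ n) n := by
      refine ⟨fun n => Nat.findGreatest (fun m => X m n) n, fun m n hm => ?_⟩
      have hle := ((hX m n).1 hm).1
      exact ⟨Nat.le_findGreatest hle hm, Nat.findGreatest_spec (P := fun m => X m n) hle hm⟩
    obtain ⟨μ, hμ⟩ := hμ
    have hC : ∀ n, P.Cl (H (μ n) n) := fun n => hH (μ n) n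
    have ho' : (ult U P).Ob q (stE U fun n => H (μ n) n) (fun l => st U P (A l)) := by
      rw [ob_st U P q _ hC A]
      exact (hXev 0).mono fun n hn => ((hX _ _).1 (hμ 0 n hn).2).2.2.2 _ le_rfl
    refine ⟨stE U fun n => H (μ n) n, ho', fun k => ?_, fun j k₀ => ?_⟩
    · rw [hdd k]
      refine stE_sub U ((hXev k).mono fun n hn => ?_)
      exact ((hX _ _).1 (hμ k n hn).2).2.1 _ le_rfl _ (hμ k n hn).1
    · obtain ⟨n, h1, h2⟩ := ((hXev (max j k₀)).and (tau_st D U P j q _ hC A ho')).exists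
      obtain ⟨h5, h6⟩ := hμ _ n h1
      refine ⟨μ n, (le_max_right _ _).trans h5, ?_⟩
      rw [← h2]
      exact ((hX _ _).1 h6).2.2.1 _ le_rfl j ((le_max_left _ _).trans h5)
  · intro k c d
    obtain ⟨a, ha⟩ : ∃ a : ℕ → P.A, a = c := ⟨c, rfl⟩
    refine ER_root D c d (cl_univ D P) (cl_univ D _) a (fun j => st U P (fun _ => a j)) ?_
    intro q hq
    have h1 : (univ ∩ {w : (ult U P).Ω | ker L q.len (fun j => (st U P (fun _ => a j)).1 w) = q.ker}) =
        stE U (fun _ => univ ∩ {w : P.Ω | ker L q.len (fun j => (a j).1 w) = q.ker}) := by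
      ext w
      simp only [univ_inter]
      constructor
      · intro hw
        filter_upwards [ker_st U P q.len (fun j _ => a j) w] with n hn
        exact hn.trans hw
      · intro hw
        obtain ⟨n, h2, h3⟩ := (Filter.Eventually.and hw (ker_st U P q.len (fun j _ => a j) w)).exists
        exact h3.symm.trans h2
    have hC : ∀ n : ℕ, P.Cl (univ ∩ {w : P.Ω | ker L q.len (fun j => (a j).1 w) = q.ker}) :=
      fun _ => cl_inter D P (cl_univ D P) (cl_ker D P _ _ _)
    have ho : (ult U P).Ob q (stE U (fun _ => univ ∩ {w : P.Ω | ker L q.len (fun j => (a j).1 w) = q.ker}))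
        (fun j => st U P (fun _ => a j)) := by
      rw [ob_st U P q _ hC (fun j _ => a j)]
      exact Filter.Eventually.of_forall fun n => ⟨hC n, fun w hw => hw.2⟩
    obtain ⟨n, hn⟩ := (tau_st D U P k q _ hC (fun j _ => a j) ho).exists
    rw [h1]
    exact hn

end VCD
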