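import Pool.Agent.VCD.BF
import Pool.Agent.VCD.Emb
import Pool.Agent.VCD.LS
import Pool.Agent.VCD.Myc
import Pool.Agent.VCD.EFo
import Pool.Agent.VCD.Ult
import Pool.Agent.VCD.Crit
import Pool.Agent.VCD.GNU
import Pool.Agent.VCD.GCod
import Pool.Agent.VCR.Perf

/-!
# VCD-Main: Vaught's conjecture for theories of algebras in finitely generated discriminator
varieties
-/

open Set FirstOrder

namespace VCD

variable {L : FirstOrder.Language.{0, 0}} {ι : Type} {S : ι → Type} [∀ i, L.Structure (S i)]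
  {sw : L.Term (Fin 4)}

/-- the term `t` is a discriminator on `M` -/
def IsDisc {L : FirstOrder.Language.{0, 0}} (M : Type) [L.Structure M] (t : L.Term (Fin 3)) : Prop :=
  ∀ x y z : M, (x = y → t.realize ![x, y, z] = z) ∧ (x ≠ y → t.realize ![x, y, z] = x)

/-- the switching term of a discriminator term -/
private def swt (t : L.Term (Fin 3)) : L.Term (Fin 4) :=
  t.subst ![t.subst ![FirstOrder.Language.Term.var 0, FirstOrder.Language.Term.var 1,
    FirstOrder.Language.Term.var 2], t.subst ![FirstOrder.Language.Term.var 0,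
      FirstOrder.Language.Term.var 1, FirstOrder.Language.Term.var 3],
        FirstOrder.Language.Term.var 3]

private theorem swt_realize {M : Type} [L.Structure M] (t : L.Term (Fin 3)) (x y z w : M) :
    (swt t).realize ![x, y, z, w] = t.realize ![t.realize ![x, y, z], t.realize ![x, y, w], w] := by
  unfold swt
  rw [FirstOrder.Language.Term.realize_subst]
  congr 1
  funext i
  fin_cases i
  · show (t.subst _).realize _ = t.realize ![x, y, z]
    rw [FirstOrder.Language.Term.realize_subst]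
    congr 1
    funext i
    fin_cases i <;> rfl
  · show (t.subst _).realize _ = t.realize ![x, y, w]
    rw [FirstOrder.Language.Term.realize_subst]
    congr 1
    funext i
    fin_cases i <;> rfl
  · rfl

theorem SwO_of_disc {t : L.Term (Fin 3)} (ht : ∀ i, IsDisc (S i) t) :
    ∃ sw : L.Term (Fin 4), SwO S sw := by
  refine ⟨swt t, ?_, ?_⟩
  · intro i x z w
    rw [swt_realize, (ht i x x z).1 rfl, (ht i x x w).1 rfl]
    by_cases h : z = w
    · rw [(ht i z w w).1 h, h]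
    · rw [(ht i z w w).2 h]
  · intro i x y z w h
    rw [swt_realize, (ht i x y z).2 h, (ht i x y w).2 h, (ht i x x w).1 rfl]

/-- bad algebras give continuous families of elementarily equivalent pairwise non-isomorphic
algebras -/
theorem cantor_of_bad (D : HasSw L S) [Finite ι] [∀ i, Finite (S i)]
    [∀ n, Countable (L.Functions n)] (hrel : ∀ n, IsEmpty (L.Relations n)) (P : PA L S)
    (hb : ¬ P.Good univ) :
    ∃ (s : (ℕ → Bool) → VCR.Str L) (N : (ℕ → Bool) → PA L S), Continuous s ∧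
      (∀ x, Nonempty (@FirstOrder.Language.Equiv L ℕ (N x).A (VCR.toStructure (s x)) _)) ∧
      (∀ x (φ : L.Sentence), P.A ⊨ φ ↔ (N x).A ⊨ φ) ∧
      ∀ x y, x ≠ y → IsEmpty ((N x).A ≃[L] (N y).A) := by
  obtain ⟨P1, hS, h1⟩ := exists_sat D P
  have n0 : Nonempty P.A := nonempty_el D P
  have n1 : Nonempty P1.A := nonempty_el D P1
  obtain ⟨x0⟩ := n0
  obtain ⟨x1⟩ := n1
  have hb1 : ¬ P1.Good univ := by
    intro hg
    obtain ⟨k, hk⟩ := Good_transfer D hg
    exact hb (Good_of_V (hk P (fun _ => x1) (fun _ => x0) univ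
      (h1 k (fun _ => x0) fun _ => x1).symm) hg)
  obtain ⟨q1, e1, a1, hc1⟩ := exists_crit D hS hb1
  obtain ⟨P2, hA2, ⟨q, e, a, hc⟩, h2⟩ := exists_ctb D hc1
  obtain ⟨x2⟩ := nonempty_el D P2
  obtain ⟨s, X, hs, hX, hno⟩ := cantor_of_crit D hrel hc hA2
  refine ⟨s, fun x => NX P2 q e a Cinf_BAS (X x), hs, fun x => (hX x).2, fun x φ => ?_, hno⟩
  obtain ⟨y⟩ := nonempty_el D (NX P2 q e a Cinf_BAS (X x))
  have e1 := ER.sentence D hrel (fun _ => x0) (fun _ => x1) (fun k => h1 k _ _) φ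
  have e2 := ER.sentence D hrel (fun _ => x1) (fun _ => x2) (fun k => h2 k _ _) φ
  have e3 := ER.sentence D hrel (fun _ => x2) (fun _ => y)
    (fun k => NX_ER (hC := Cinf_BAS) D hc (hX x).1 k _ _) φ
  exact e1.trans (e2.trans e3)

/-- if the extension of an infinite model is bad, there are perfectly many models -/
theorem perfect_of_bad (D : SwO S sw) [Finite ι] [∀ i, Finite (S i)]
    [∀ n, Countable (L.Functions n)] (hrel : ∀ n, IsEmpty (L.Relations n)) (T : L.Theory)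
    (M : PA L S) (hM : Nonempty M.A) (rM : Red M) (hinf : Infinite M.A) (hT : M.A ⊨ T)
    (hb : ¬ (UA D M hM).Good univ) : VCR.PerfectMany T := by
  obtain ⟨s, N, hs, hN, he, hno⟩ := cantor_of_bad (SX_HasSw (L := L) (S := S)) (LX_rel L)
    (UA D M hM) hb
  have hax : ∀ x, Ax (N x) ∧ Red (DA (N x)) := fun x => Ax_of_equiv D M hM rM (he x)
  have hDA : ∀ x (ψ : L.Sentence), M.A ⊨ ψ ↔ (DA (N x)).A ⊨ ψ := by
    intro x ψ
    obtain ⟨φ⟩ := DA_UA hrel D M hM
    have h1 : M.A ⊨ ψ ↔ (DA (UA D M hM)).A ⊨ ψ :=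
      FirstOrder.Language.StrongHomClass.realize_sentence φ ψ
    rw [h1, rlz_sentence hrel, rlz_sentence hrel]
    exact he x _
  have hinf' : ∀ x, Infinite (DA (N x)).A := by
    intro x
    have h1 : M.A ≅[L] (DA (N x)).A := FirstOrder.Language.elementarilyEquivalent_iff.2 (hDA x)
    exact h1.infinite_iff.1 hinf
  obtain ⟨s', hs', hN'⟩ := exists_old_family hrel N hs hN hinf'
  refine VCR.perfectMany_of_cantor T s' hs' (fun x => ?_) fun x y hxy => ?_
  · obtain ⟨φ⟩ := hN' x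
    have h1 : (DA (N x)).A ⊨ T :=
      ⟨fun ψ hψ => (hDA x ψ).1 (FirstOrder.Language.Theory.realize_sentence_of_mem T hψ)⟩
    let _ := VCR.toStructure (s' x)
    exact FirstOrder.Language.StrongHomClass.theory_model φ.symm
  · rintro ⟨φ⟩
    obtain ⟨φx⟩ := hN' x
    obtain ⟨φy⟩ := hN' y
    have h1 : Nonempty ((DA (N x)).A ≃[L] (DA (N y)).A) :=
      ⟨@FirstOrder.Language.Equiv.comp L _ ℕ _ (VCR.toStructure (s' y)) _ _ φy
        (@FirstOrder.Language.Equiv.comp L _ ℕ _ (VCR.toStructure (s' x)) ℕ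
          (VCR.toStructure (s' y)) φ
            (@FirstOrder.Language.Equiv.symm L ℕ _ (VCR.toStructure (s' x)) _ φx))⟩
    obtain ⟨h1⟩ := h1
    obtain ⟨h2⟩ := iso_of_DA D (hax x).1 (hax y).1 (hax x).2 (hax y).2 h1
    exact (hno x y hxy).false h2

/-- the models are given by reduced algebras of functions -/
private theorem exists_mf (D : SwO S sw) [Finite ι] [∀ i, Finite (S i)]
    (hrel : ∀ n, IsEmpty (L.Relations n)) (T : L.Theory)
    (hT : ∀ s ∈ VCR.Mod T, @Ids L ι S _ ℕ (VCR.toStructure s)) :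
    ∃ Mf : VCR.Str L → PA L S, (∀ s, Nonempty (Mf s).A) ∧ ∀ s ∈ VCR.Mod T,
      Nonempty (@FirstOrder.Language.Equiv L ℕ (Mf s).A (VCR.toStructure s) _) ∧ Red (Mf s) := by
  classical
  have h : ∀ s : VCR.Str L, ∃ P : PA L S, Nonempty P.A ∧ (s ∈ VCR.Mod T →
      Nonempty (@FirstOrder.Language.Equiv L ℕ P.A (VCR.toStructure s) _) ∧ Red P) := by
    intro s
    by_cases hs : s ∈ VCR.Mod T
    · let _ := VCR.toStructure s
      obtain ⟨P, hP, hR⟩ := exists_PAR D hrel (hT s hs)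
      obtain ⟨φ⟩ := id hP
      exact ⟨P, ⟨φ 0⟩, fun _ => ⟨hP, hR⟩⟩
    · exact ⟨⟨Empty, fun w => w.elim, univ, fun _ _ _ _ => mem_univ _⟩,
        ⟨⟨fun w => w.elim, mem_univ _⟩⟩, fun h => (hs h).elim⟩
  choose Mf h1 h2 using h
  exact ⟨Mf, h1, h2⟩

private theorem exists_good (D : SwO S sw) [Finite ι] [∀ i, Finite (S i)]
    [∀ n, Countable (L.Functions n)] (hrel : ∀ n, IsEmpty (L.Relations n)) (T : L.Theory)
    (hT : ∀ s ∈ VCR.Mod T, @Ids L ι S _ ℕ (VCR.toStructure s)) (hP : ¬ VCR.PerfectMany T) :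
    ∃ (Mf : VCR.Str L → PA L S) (hn : ∀ s, Nonempty (Mf s).A), ∀ s ∈ VCR.Mod T,
      Nonempty (@FirstOrder.Language.Equiv L ℕ (Mf s).A (VCR.toStructure s) _) ∧ Red (Mf s) ∧
        (UA D (Mf s) (hn s)).A.Countable ∧ (UA D (Mf s) (hn s)).Good univ := by
  obtain ⟨Mf, hn, hMf⟩ := exists_mf D hrel T hT
  refine ⟨Mf, hn, fun s hs => ⟨(hMf s hs).1, (hMf s hs).2, ?_, ?_⟩⟩
  · obtain ⟨φ⟩ := (hMf s hs).1
    let _ := VCR.toStructure s
    have : Countable (Mf s).A := φ.toEquiv.symm.injective.countable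
    exact UA_countable D _ _ (Set.to_countable _)
  · by_contra hb
    obtain ⟨φ⟩ := (hMf s hs).1
    let _ := VCR.toStructure s
    have h1 : (ℕ : Type) ⊨ T := hs
    have h2 : (Mf s).A ⊨ T := FirstOrder.Language.StrongHomClass.theory_model φ
    have h3 : Infinite (Mf s).A := φ.toEquiv.infinite_iff.1 inferInstance
    exact hP (perfect_of_bad D hrel T (Mf s) (hn s) (hMf s hs).2 h3 h2 hb)

private theorem iso_trans (D : SwO S sw) (hrel : ∀ n, IsEmpty (L.Relations n)) {s s' : VCR.Str L}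
    {M M' : PA L S} {hM : Nonempty M.A} {hM' : Nonempty M'.A}
    (hs : Nonempty (@FirstOrder.Language.Equiv L ℕ M.A (VCR.toStructure s) _))
    (hs' : Nonempty (@FirstOrder.Language.Equiv L ℕ M'.A (VCR.toStructure s') _))
    (h : Nonempty ((UA D M hM).A ≃[LX L] (UA D M' hM').A)) : VCR.Iso s s' := by
  obtain ⟨φ0⟩ := h
  obtain ⟨φ1⟩ := DA_iso hrel φ0
  obtain ⟨φ2⟩ := DA_UA hrel D M hM
  obtain ⟨φ3⟩ := DA_UA hrel D M' hM'
  obtain ⟨ψ⟩ := hs
  obtain ⟨ψ'⟩ := hs'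
  obtain ⟨φ⟩ : Nonempty (M.A ≃[L] M'.A) := ⟨φ3.symm.comp (φ1.comp φ2)⟩
  exact ⟨@FirstOrder.Language.Equiv.comp L ℕ _ (VCR.toStructure s) _ ℕ (VCR.toStructure s')
    (@FirstOrder.Language.Equiv.symm L ℕ _ (VCR.toStructure s') _ ψ')
    (@FirstOrder.Language.Equiv.comp L ℕ _ (VCR.toStructure s) _ _ _ φ ψ)⟩

theorem vc_main (D : SwO S sw) [Finite ι] [∀ i, Finite (S i)]
    [∀ n, Countable (L.Functions n)] (hrel : ∀ n, IsEmpty (L.Relations n)) (T : L.Theory)
    (hT : ∀ s ∈ VCR.Mod T, @Ids L ι S _ ℕ (VCR.toStructure s)) : VCR.VC2 T := by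
  classical
  by_cases hP : VCR.PerfectMany T
  · exact Or.inr hP
  left
  have Dx := SX_HasSw (L := L) (S := S)
  obtain ⟨Mf, hn, hMf⟩ := exists_good D hrel T hT hP
  obtain ⟨Pf, hPf⟩ : ∃ Pf : VCR.Str L → PA (LX L) (SX S), ∀ s, Pf s = UA D (Mf s) (hn s) :=
    ⟨_, fun _ => rfl⟩
  have hk : ∀ s : VCR.Str L, ∃ k, s ∈ VCR.Mod T → ∀ P' : PA (LX L) (SX S), P'.A.Countable →
      rt Dx (Pf s) k = rt Dx P' k → Nonempty ((Pf s).A ≃[LX L] P'.A) := by
    intro s
    by_cases hs : s ∈ VCR.Mod T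
    · obtain ⟨k, hk⟩ := good_inv Dx (LX_rel L) (hMf s hs).2.2.2 (hMf s hs).2.2.1
      refine ⟨k, fun _ => ?_⟩
      rw [hPf]
      exact hk
    · exact ⟨0, fun h => (hs h).elim⟩
  choose k hk using hk
  obtain ⟨inv, hinv⟩ : ∃ inv : VCR.Str L → Σ k : ℕ, (Q (LX L) (SX S) → TT (Q (LX L) (SX S)) k),
      ∀ s, inv s = ⟨k s, rt Dx (Pf s) (k s)⟩ := ⟨_, fun _ => rfl⟩
  have hiso : ∀ s ∈ VCR.Mod T, ∀ s' ∈ VCR.Mod T, inv s = inv s' → VCR.Iso s s' := by
    intro s hs s' hs' h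
    rw [hinv, hinv] at h
    have h1 : rt Dx (Pf s) (k s) = rt Dx (Pf s') (k s) := by
      have h2 := congrArg
        (fun z : Σ k : ℕ, (Q (LX L) (SX S) → TT (Q (LX L) (SX S)) k) => z.1) h
      have h3 : k s = k s' := h2
      rw [← h3] at h
      exact eq_of_heq (Sigma.mk.inj h).2
    have hc : (Pf s').A.Countable := by
      rw [hPf]
      exact (hMf s' hs').2.2.1
    have h2 := hk s hs (Pf s') hc h1
    rw [hPf, hPf] at h2
    exact iso_trans D hrel (hMf s hs).1 (hMf s' hs').1 h2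
  have hrep : ∀ b : Σ k : ℕ, (Q (LX L) (SX S) → TT (Q (LX L) (SX S)) k), ∃ t : VCR.Str L,
      ∀ s ∈ VCR.Mod T, inv s = b → t ∈ VCR.Mod T ∧ inv t = b := by
    intro b
    by_cases hb : ∃ s ∈ VCR.Mod T, inv s = b
    · obtain ⟨s, hs, hsb⟩ := hb
      exact ⟨s, fun _ _ _ => ⟨hs, hsb⟩⟩
    · exact ⟨(fun _ _ _ => 0, fun _ _ _ => true), fun s hs hsb => (hb ⟨s, hs, hsb⟩).elim⟩
  choose rep hrep using hrep
  refine ⟨range rep, Set.countable_range rep, fun s hs => ⟨rep (inv s), ⟨_, rfl⟩, ?_⟩⟩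
  have h1 := hrep (inv s) s hs rfl
  exact hiso s hs _ h1.1 h1.2.symm

/-- without perfectly many countable models, elementarily equivalent countable models are
isomorphic -/
theorem vc_equiv (D : SwO S sw) [Finite ι] [∀ i, Finite (S i)]
    [∀ n, Countable (L.Functions n)] (hrel : ∀ n, IsEmpty (L.Relations n)) (T : L.Theory)
    (hT : ∀ s ∈ VCR.Mod T, @Ids L ι S _ ℕ (VCR.toStructure s)) (hP : ¬ VCR.PerfectMany T)
    (s : VCR.Str L) (hs : s ∈ VCR.Mod T) (s' : VCR.Str L) (hs' : s' ∈ VCR.Mod T)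
    (h : ∀ ψ : L.Sentence, @FirstOrder.Language.Sentence.Realize L ℕ (VCR.toStructure s) ψ ↔
      @FirstOrder.Language.Sentence.Realize L ℕ (VCR.toStructure s') ψ) : VCR.Iso s s' := by
  obtain ⟨Mf, hn, hMf⟩ := exists_good D hrel T hT hP
  have h0 : ∀ ψ : L.Sentence, (Mf s).A ⊨ ψ ↔ (Mf s').A ⊨ ψ := by
    intro ψ
    obtain ⟨φ⟩ := (hMf s hs).1
    obtain ⟨φ'⟩ := (hMf s' hs').1
    have h1 := @FirstOrder.Language.StrongHomClass.realize_sentence L ℕ (Mf s).A
      (VCR.toStructure s) _ _ _ _ φ ψ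
    have h2 := @FirstOrder.Language.StrongHomClass.realize_sentence L ℕ (Mf s').A
      (VCR.toStructure s') _ _ _ _ φ' ψ
    exact h1.symm.trans ((h ψ).trans h2)
  exact iso_trans D hrel (hM := hn s) (hM' := hn s') (hMf s hs).1 (hMf s' hs').1
    (iso_of_equiv (SX_HasSw (L := L) (S := S)) (LX_rel L) (hMf s hs).2.2.2 (hMf s hs).2.2.1
      (hMf s' hs').2.2.1
        (UA_equiv D (hn s) (hn s') (hMf s hs).2.1 (hMf s' hs').2.1 h0))

end VCD
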