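import Pool.Agent.VCD.Defs

/-!
# VCD-TTa: the finite commutative monoids of types
-/

open Set

namespace VCD

theorem TT_finite {X : Type} [Finite X] : ∀ k : ℕ, Finite (TT X k)
  | 0 => inferInstanceAs (Finite Prop)
  | k + 1 => by
    have := TT_finite (X := X) k
    exact inferInstanceAs (Finite (Set (X × TT X k × TT X k)))

instance {X : Type} [Finite X] (k : ℕ) : Finite (TT X k) := TT_finite k

private theorem add_comm' {X : Type} : ∀ (k : ℕ) (x y : TT X k), TT.add k x y = TT.add k y x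
  | 0, x, y => propext and_comm
  | k + 1, x, y => by
    apply Set.ext
    intro z
    constructor
    · rintro ⟨u, hu, v, hv, h1, h2, h3, h4⟩
      exact ⟨v, hv, u, hu, h2, h1, h3.trans (add_comm' k _ _), h4.trans (add_comm' k _ _)⟩
    · rintro ⟨u, hu, v, hv, h1, h2, h3, h4⟩
      exact ⟨v, hv, u, hu, h2, h1, h3.trans (add_comm' k _ _), h4.trans (add_comm' k _ _)⟩

private theorem add_assoc' {X : Type} : ∀ (k : ℕ) (x y z : TT X k),
    TT.add k (TT.add k x y) z = TT.add k x (TT.add k y z)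
  | 0, x, y, z => propext and_assoc
  | k + 1, x, y, z => by
    apply Set.ext
    intro t
    constructor
    · rintro ⟨p, ⟨u, hu, v, hv, h1, h2, h3, h4⟩, w, hw, h5, h6, h7, h8⟩
      refine ⟨u, hu, (t.1, TT.add k v.2.1 w.2.1, TT.add k v.2.2 w.2.2),
        ⟨v, hv, w, hw, h2.trans h5, h6, rfl, rfl⟩, h1.trans h5, rfl, ?_, ?_⟩
      · rw [h7, h3]
        exact add_assoc' k _ _ _
      · rw [h8, h4]
        exact add_assoc' k _ _ _
    · rintro ⟨u, hu, p, ⟨v, hv, w, hw, h1, h2, h3, h4⟩, h5, h6, h7, h8⟩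
      refine ⟨(t.1, TT.add k u.2.1 v.2.1, TT.add k u.2.2 v.2.2),
        ⟨u, hu, v, hv, h5, h1.trans h6, rfl, rfl⟩, w, hw, rfl, h2.trans h6, ?_, ?_⟩
      · rw [h7, h3]
        exact (add_assoc' k _ _ _).symm
      · rw [h8, h4]
        exact (add_assoc' k _ _ _).symm

private theorem zero_add' {X : Type} : ∀ (k : ℕ) (x : TT X k), TT.add k (TT.zero k) x = x
  | 0, x => propext ⟨fun h => h.2, fun h => ⟨trivial, h⟩⟩
  | k + 1, x => by
    apply Set.ext
    intro t
    constructor
    · rintro ⟨u, hu, v, hv, h1, h2, h3, h4⟩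
      have h5 : t = v := by
        refine Prod.ext h2.symm (Prod.ext ?_ ?_)
        · rw [h3, hu.1]
          exact zero_add' k _
        · rw [h4, hu.2]
          exact zero_add' k _
      rw [h5]
      exact hv
    · intro ht
      exact ⟨(t.1, TT.zero k, TT.zero k), ⟨rfl, rfl⟩, t, ht, rfl, rfl, (zero_add' k _).symm,
        (zero_add' k _).symm⟩

instance {X : Type} (k : ℕ) : Add (TT X k) := ⟨TT.add k⟩

instance {X : Type} (k : ℕ) : Zero (TT X k) := ⟨TT.zero k⟩

instance TT.monoid {X : Type} (k : ℕ) : AddCommMonoid (TT X k) where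
  add_assoc := add_assoc' k
  add_comm := add_comm' k
  zero_add := zero_add' k
  add_zero x := (add_comm' k x _).trans (zero_add' k x)
  nsmul := nsmulRec

theorem TT_add_zero_iff {X : Type} (p r : TT X 0) : (p + r : TT X 0) = (And p r : Prop) := rfl

theorem TT_mem_add {X : Type} {k : ℕ} (x y : TT X (k + 1)) (z : X × TT X k × TT X k) :
    z ∈ (x + y).s ↔ ∃ u ∈ x.s, ∃ v ∈ y.s, u.1 = z.1 ∧ v.1 = z.1 ∧ z.2.1 = u.2.1 + v.2.1 ∧
      z.2.2 = u.2.2 + v.2.2 := Iff.rfl

/-- multiples as sums over multisets -/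
private theorem mem_nsmul {X : Type} {k : ℕ} (x : TT X (k + 1)) (n : ℕ) :
    ∀ z : X × TT X k × TT X k, z ∈ (n • x).s ↔ ∃ m : Multiset (X × TT X k × TT X k), m.card = n ∧
      (∀ u ∈ m, u ∈ x.s ∧ u.1 = z.1) ∧ z.2.1 = (m.map fun u => u.2.1).sum ∧
      z.2.2 = (m.map fun u => u.2.2).sum := by
  induction n with
  | zero =>
    intro z
    rw [zero_nsmul]
    constructor
    · rintro ⟨h1, h2⟩
      exact ⟨0, rfl, fun u hu => (Multiset.notMem_zero u hu).elim, h1, h2⟩
    · rintro ⟨m, hm, -, h1, h2⟩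
      rw [Multiset.card_eq_zero] at hm
      subst hm
      exact ⟨h1, h2⟩
  | succ n ih =>
    intro z
    rw [succ_nsmul, TT_mem_add]
    constructor
    · rintro ⟨u, hu, v, hv, h1, h2, h3, h4⟩
      obtain ⟨m, hm, h5, h6, h7⟩ := (ih u).1 hu
      refine ⟨v ::ₘ m, by rw [Multiset.card_cons, hm], ?_, ?_, ?_⟩
      · intro t ht
        rcases Multiset.mem_cons.1 ht with rfl | ht
        · exact ⟨hv, h2⟩
        · exact ⟨(h5 t ht).1, (h5 t ht).2.trans h1⟩
      · rw [Multiset.map_cons, Multiset.sum_cons, ← h6, h3, add_comm]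
      · rw [Multiset.map_cons, Multiset.sum_cons, ← h7, h4, add_comm]
    · rintro ⟨m, hm, h1, h2, h3⟩
      obtain ⟨v, hv⟩ : ∃ v, v ∈ m := Multiset.card_pos_iff_exists_mem.1 (by omega)
      obtain ⟨m', rfl⟩ := Multiset.exists_cons_of_mem hv
      have hm' : m'.card = n := by
        rw [Multiset.card_cons] at hm
        omega
      refine ⟨(z.1, (m'.map fun u => u.2.1).sum, (m'.map fun u => u.2.2).sum),
        (ih _).2 ⟨m', hm', fun u hu => h1 u (Multiset.mem_cons_of_mem hu), rfl, rfl⟩, v,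
        (h1 v (Multiset.mem_cons_self _ _)).1, rfl, (h1 v (Multiset.mem_cons_self _ _)).2, ?_, ?_⟩
      · rw [h2, Multiset.map_cons, Multiset.sum_cons, add_comm]
      · rw [h3, Multiset.map_cons, Multiset.sum_cons, add_comm]

private theorem sum_cons_of_count {Y M : Type} [DecidableEq Y] [AddCommMonoid M] {N : ℕ}
    (hN : ∀ x : M, N • x = (N + 1) • x) (g : Y → M) (m : Multiset Y) (u : Y)
    (hu : N ≤ m.count u) : ((u ::ₘ m).map g).sum = (m.map g).sum := by
  obtain ⟨m', rfl⟩ := Multiset.le_iff_exists_add.1 (Multiset.le_count_iff_replicate_le.1 hu)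
  rw [Multiset.map_cons, Multiset.sum_cons, Multiset.map_add, Multiset.sum_add,
    Multiset.map_replicate, Multiset.sum_replicate, ← add_assoc, ← succ_nsmul', ← hN]

private theorem exists_count {Y : Type} [Finite Y] [DecidableEq Y] (m : Multiset Y) (N : ℕ)
    (h : Nat.card Y * N < m.card) : ∃ u ∈ m, N < m.count u := by
  by_contra hc
  push Not at hc
  have h1 : m.card ≤ Nat.card Y * N := by
    rw [← Multiset.toFinset_sum_count_eq]
    have := Fintype.ofFinite Y
    calc ∑ a ∈ m.toFinset, m.count a ≤ ∑ a ∈ m.toFinset, N :=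
          Finset.sum_le_sum fun a ha => hc a (Multiset.mem_toFinset.1 ha)
      _ = m.toFinset.card * N := by rw [Finset.sum_const, smul_eq_mul]
      _ ≤ Nat.card Y * N := by
        apply Nat.mul_le_mul_right
        rw [Nat.card_eq_fintype_card]
        exact Finset.card_le_univ _
  omega

/-- aperiodicity -/
theorem aper {X : Type} [Finite X] : ∀ k : ℕ, ∃ N : ℕ, ∀ x : TT X k, N • x = (N + 1) • x
  | 0 => by
    refine ⟨1, fun x => ?_⟩
    rw [add_nsmul, one_nsmul]
    exact propext ⟨fun h => ⟨h, h⟩, fun h => h.1⟩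
  | k + 1 => by
    classical
    obtain ⟨N, hN⟩ := aper (X := X) k
    refine ⟨Nat.card (X × TT X k × TT X k) * N + 1, fun x => ?_⟩
    apply Set.ext
    intro z
    have e1 := mem_nsmul x (Nat.card (X × TT X k × TT X k) * N + 1) z
    have e2 := mem_nsmul x (Nat.card (X × TT X k × TT X k) * N + 1 + 1) z
    refine e1.trans (Iff.trans ?_ e2.symm)
    constructor
    · rintro ⟨m, hm, h1, h2, h3⟩
      obtain ⟨u, hu, hc⟩ := exists_count m N (by omega)
      refine ⟨u ::ₘ m, by rw [Multiset.card_cons, hm], ?_, ?_, ?_⟩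
      · intro t ht
        rcases Multiset.mem_cons.1 ht with rfl | ht
        · exact h1 _ hu
        · exact h1 _ ht
      · rw [sum_cons_of_count hN _ m u hc.le]
        exact h2
      · rw [sum_cons_of_count hN _ m u hc.le]
        exact h3
    · rintro ⟨m, hm, h1, h2, h3⟩
      obtain ⟨u, hu, hc⟩ := exists_count m N (by omega)
      obtain ⟨m', rfl⟩ := Multiset.exists_cons_of_mem hu
      rw [Multiset.count_cons_self] at hc
      rw [Multiset.card_cons] at hm
      refine ⟨m', by omega, fun t ht => h1 t (Multiset.mem_cons_of_mem ht), ?_, ?_⟩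
      · rw [← sum_cons_of_count hN _ m' u (by omega)]
        exact h2
      · rw [← sum_cons_of_count hN _ m' u (by omega)]
        exact h3

theorem TT_antisymm {X : Type} [Finite X] {k : ℕ} {x y u v : TT X k} (h1 : x = y + u)
    (h2 : y = x + v) : x = y := by
  obtain ⟨N, hN⟩ := aper (X := X) k
  have h3 : ∀ n : ℕ, y = y + n • (u + v) := by
    intro n
    induction n with
    | zero => rw [zero_nsmul, add_zero]
    | succ n ih =>
      have h4 : y = y + (u + v) := by
        rw [← add_assoc, ← h1, ← h2]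
      rw [succ_nsmul, ← add_assoc, ← ih]
      exact h4
  have h5 : N • (u + v) + u = N • (u + v) := by
    rw [nsmul_add, add_right_comm, ← succ_nsmul, ← hN]
  rw [h1]
  conv_lhs => rw [h3 N, add_assoc, h5, ← h3 N]

end VCD
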