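import Pool.Agent.VCD.Ker
import Pool.Agent.VCD.TTa

/-!
# VCD-Tau: objects, subobjects and their types
-/

open Set FirstOrder

namespace VCD

variable {L : FirstOrder.Language.{0, 0}} {ι : Type} {S : ι → Type} [∀ i, L.Structure (S i)]

theorem PA.Ob.mono {P : PA L S} {q : Q L S} {e e' : Set P.Ω} {a : ℕ → P.A} (h : P.Ob q e a)
    (he : P.Cl e') (hs : e' ⊆ e) : P.Ob q e' a := ⟨he, fun w hw => h.2 w (hs hw)⟩

theorem PA.Ob.congr {P : PA L S} {q : Q L S} {e : Set P.Ω} {a b : ℕ → P.A} (h : P.Ob q e a)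
    (hab : ∀ j < q.len, ∀ w ∈ e, (a j).1 w = (b j).1 w) : P.Ob q e b :=
  ⟨h.1, fun w hw => (ker_congr fun j hj => (hab j hj w hw).symm).trans (h.2 w hw)⟩

theorem Ob_empty (D : HasSw L S) (P : PA L S) (q : Q L S) (a : ℕ → P.A) : P.Ob q ∅ a :=
  ⟨cl_empty D P, fun _ hw => hw.elim⟩

theorem PA.Ob.union (D : HasSw L S) {P : PA L S} {q : Q L S} {e f : Set P.Ω} {a : ℕ → P.A}
    (h : P.Ob q e a) (h' : P.Ob q f a) : P.Ob q (e ∪ f) a :=
  ⟨cl_union D P h.1 h'.1, fun w hw => hw.elim (h.2 w) (h'.2 w)⟩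

theorem Sub_refl {P : PA L S} {q : Q L S} {e : Set P.Ω} {a : ℕ → P.A} (h : P.Ob q e a) :
    P.Sub q e a q e a := ⟨h, Subset.rfl, le_rfl, fun _ _ _ _ => rfl⟩

theorem Sub_of_subset {P : PA L S} {q : Q L S} {e e' : Set P.Ω} {a : ℕ → P.A} (h : P.Ob q e a)
    (he : P.Cl e') (hs : e' ⊆ e) : P.Sub q e a q e' a :=
  ⟨h.mono he hs, hs, le_rfl, fun _ _ _ _ => rfl⟩

theorem PA.Sub.trans {P : PA L S} {q q' q'' : Q L S} {e e' e'' : Set P.Ω} {a a' a'' : ℕ → P.A}
    (h : P.Sub q e a q' e' a') (h' : P.Sub q' e' a' q'' e'' a'') : P.Sub q e a q'' e'' a'' :=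
  ⟨h'.1, h'.2.1.trans h.2.1, h.2.2.1.trans h'.2.2.1, fun j hj w hw =>
    (h'.2.2.2 j (lt_of_lt_of_le hj h.2.2.1) w hw).trans (h.2.2.2 j hj w (h'.2.1 hw))⟩

theorem tau_congr {P : PA L S} : ∀ (k : ℕ) {q : Q L S} {e : Set P.Ω} {a b : ℕ → P.A},
    (∀ j < q.len, ∀ w ∈ e, (a j).1 w = (b j).1 w) → P.tau k q e a = P.tau k q e b
  | 0, _, _, _, _, _ => rfl
  | k + 1, q, e, a, b, h => by
    apply Set.ext
    intro z
    constructor
    · rintro ⟨e', a', h1, h2, h3⟩
      refine ⟨e', a', ⟨h1.1, h1.2.1, h1.2.2.1, fun j hj w hw =>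
        (h1.2.2.2 j hj w hw).trans (h j hj w (h1.2.1 hw))⟩, h2, ?_⟩
      rw [h3]
      exact tau_congr k fun j hj w hw => h j hj w hw.1
    · rintro ⟨e', a', h1, h2, h3⟩
      refine ⟨e', a', ⟨h1.1, h1.2.1, h1.2.2.1, fun j hj w hw =>
        (h1.2.2.2 j hj w hw).trans (h j hj w (h1.2.1 hw)).symm⟩, h2, ?_⟩
      rw [h3]
      exact (tau_congr k fun j hj w hw => h j hj w hw.1).symm

theorem mem_tau {P : PA L S} (k : ℕ) (q : Q L S) (e : Set P.Ω) (a : ℕ → P.A)
    (z : Q L S × TT (Q L S) k × TT (Q L S) k) :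
    z ∈ (P.tau (k + 1) q e a).s ↔ ∃ e' a', P.Sub q e a z.1 e' a' ∧ z.2.1 = P.tau k z.1 e' a' ∧
      z.2.2 = P.tau k q (e \ e') a := Iff.rfl

theorem tau_mem {P : PA L S} (k : ℕ) {q q' : Q L S} {e e' : Set P.Ω} {a a' : ℕ → P.A}
    (h : P.Sub q e a q' e' a') :
    (q', P.tau k q' e' a', P.tau k q (e \ e') a) ∈ (P.tau (k + 1) q e a).s :=
  ⟨e', a', h, rfl, rfl⟩

theorem tau_zero_iff {P P' : PA L S} {q q' : Q L S} {e : Set P.Ω} {f : Set P'.Ω} {a : ℕ → P.A}
    {b : ℕ → P'.A} : P.tau 0 q e a = P'.tau 0 q' f b ↔ (e = ∅ ↔ f = ∅) := by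
  show ((e = ∅ : Prop) = (f = ∅ : Prop)) ↔ _
  exact eq_iff_iff

theorem tau_coh (D : HasSw L S) {P P' : PA L S} : ∀ (k : ℕ) {q : Q L S} {e : Set P.Ω}
    {f : Set P'.Ω} {a : ℕ → P.A} {b : ℕ → P'.A}, P.Ob q e a → P'.Ob q f b →
    P.tau (k + 1) q e a = P'.tau (k + 1) q f b → P.tau k q e a = P'.tau k q f b := by
  have key : ∀ (k : ℕ), (∀ (P P' : PA L S) {q : Q L S} {e : Set P.Ω}
      {f : Set P'.Ω} {a : ℕ → P.A} {b : ℕ → P'.A}, P.Ob q e a → P'.Ob q f b →
      P.tau (k + 1) q e a = P'.tau (k + 1) q f b → P.tau k q e a = P'.tau k q f b) := by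
    intro k
    induction k with
    | zero =>
      have h0 : ∀ (P P' : PA L S) {q : Q L S} {e : Set P.Ω}
          {f : Set P'.Ω} {a : ℕ → P.A} {b : ℕ → P'.A}, P.Ob q e a → 
          P.tau 1 q e a = P'.tau 1 q f b → e = ∅ → f = ∅ := by
        intro P P' q e f a b ho h he
        have h1 := tau_mem 0 (Sub_refl ho)
        rw [h] at h1
        obtain ⟨f', b', h2, h3, h4⟩ := h1
        have h5 : f' = ∅ := by
          have h6 : (e = ∅ : Prop) = (f' = ∅ : Prop) := h3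
          rw [← h6]
          exact he
        have h6 : f \ f' = ∅ := by
          have h7 : (e \ e = ∅ : Prop) = (f \ f' = ∅ : Prop) := h4
          rw [← h7]
          simp
        rw [h5] at h6
        simpa using h6
      intro P P' q e f a b ho ho' h
      exact tau_zero_iff.2 ⟨h0 P P' ho h, h0 P' P ho' h.symm⟩
    | succ k ih =>
      have h0 : ∀ (P P' : PA L S) {q : Q L S} {e : Set P.Ω}
          {f : Set P'.Ω} {a : ℕ → P.A} {b : ℕ → P'.A}, P.Ob q e a → P'.Ob q f b →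
          P.tau (k + 2) q e a = P'.tau (k + 2) q f b →
          ∀ z, z ∈ (P.tau (k + 1) q e a).s → z ∈ (P'.tau (k + 1) q f b).s := by
        rintro P P' q e f a b ho ho' h ⟨q', x, y⟩ ⟨e', a', h1, h2, h3⟩
        have h4 := tau_mem (k + 1) h1
        rw [h] at h4
        obtain ⟨f', b', h5, h6, h7⟩ := h4
        refine ⟨f', b', h5, h2.trans (ih P P' h1.1 h5.1 h6), h3.trans (ih P P' ?_ ?_ h7)⟩
        · exact ho.mono (cl_diff D P ho.1 h1.1.1) sdiff_subset
        · exact ho'.mono (cl_diff D P' ho'.1 h5.1.1) sdiff_subset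
      intro P P' q e f a b ho ho' h
      apply Set.ext
      intro z
      exact ⟨h0 P P' ho ho' h z, h0 P' P ho' ho h.symm z⟩
  exact fun k => @key k P P'

theorem tau_coh_le (D : HasSw L S) {P P' : PA L S} {k k' : ℕ} (hk : k ≤ k') {q : Q L S}
    {e : Set P.Ω} {f : Set P'.Ω} {a : ℕ → P.A} {b : ℕ → P'.A} (h : P.Ob q e a) (h' : P'.Ob q f b)
    (ht : P.tau k' q e a = P'.tau k' q f b) : P.tau k q e a = P'.tau k q f b := by
  induction hk with
  | refl => exact ht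
  | step _ ih => exact ih (tau_coh D _ h h' ht)

theorem tau_empty_iff (D : HasSw L S) {P P' : PA L S} {k : ℕ} {q : Q L S}
    {e : Set P.Ω} {f : Set P'.Ω} {a : ℕ → P.A} {b : ℕ → P'.A} (h : P.Ob q e a) (h' : P'.Ob q f b)
    (ht : P.tau k q e a = P'.tau k q f b) : e = ∅ ↔ f = ∅ :=
  tau_zero_iff.1 (tau_coh_le D (Nat.zero_le k) h h' ht)

theorem tau_add (D : HasSw L S) {P : PA L S} : ∀ (k : ℕ) {q : Q L S} {e f : Set P.Ω}
    {a : ℕ → P.A}, P.Ob q e a → P.Ob q f a → Disjoint e f →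
    P.tau k q (e ∪ f) a = P.tau k q e a + P.tau k q f a
  | 0, q, e, f, a, _, _, _ => by
    show (e ∪ f = ∅ : Prop) = (And (e = ∅) (f = ∅) : Prop)
    exact propext union_empty_iff
  | k + 1, q, e, f, a, he, hf, hd => by
    apply Set.ext
    rintro ⟨q', x, y⟩
    constructor
    · rintro ⟨e', a', h1, h2, h3⟩
      have c1 : P.Cl (e' ∩ e) := cl_inter D P h1.1.1 he.1
      have c2 : P.Cl (e' ∩ f) := cl_inter D P h1.1.1 hf.1
      have o1 : P.Ob q' (e' ∩ e) a' := h1.1.mono c1 inter_subset_left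
      have o2 : P.Ob q' (e' ∩ f) a' := h1.1.mono c2 inter_subset_left
      have s1 : P.Sub q e a q' (e' ∩ e) a' := ⟨o1, inter_subset_right, h1.2.2.1,
        fun j hj w hw => h1.2.2.2 j hj w hw.1⟩
      have s2 : P.Sub q f a q' (e' ∩ f) a' := ⟨o2, inter_subset_right, h1.2.2.1,
        fun j hj w hw => h1.2.2.2 j hj w hw.1⟩
      refine ⟨_, tau_mem k s1, _, tau_mem k s2, rfl, rfl, ?_, ?_⟩
      · have h4 : e' = (e' ∩ e) ∪ (e' ∩ f) := by
          rw [← inter_union_distrib_left, inter_eq_left.2 h1.2.1]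
        show x = _
        rw [show x = P.tau k q' e' a' from h2]
        conv_lhs => rw [h4]
        exact tau_add D k o1 o2 (hd.mono inter_subset_right inter_subset_right)
      · have h4 : (e ∪ f) \ e' = (e \ (e' ∩ e)) ∪ (f \ (e' ∩ f)) := by
          ext w
          simp only [mem_union, mem_sdiff, mem_inter_iff]
          tauto
        show y = _
        rw [show y = P.tau k q ((e ∪ f) \ e') a from h3, h4]
        exact tau_add D k (he.mono (cl_diff D P he.1 c1) sdiff_subset)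
          (hf.mono (cl_diff D P hf.1 c2) sdiff_subset) (hd.mono sdiff_subset sdiff_subset)
    · rintro ⟨⟨q1, x1, y1⟩, ⟨e1, a1, s1, h1, h2⟩, ⟨q2, x2, y2⟩, ⟨f1, b1, s2, h3, h4⟩, h0, h5, h6, h7⟩
      obtain rfl : q1 = q' := h0
      obtain rfl : q2 = q1 := h5
      obtain rfl : x1 = P.tau k q2 e1 a1 := h1
      obtain rfl : y1 = P.tau k q (e \ e1) a := h2
      obtain rfl : x2 = P.tau k q2 f1 b1 := h3
      obtain rfl : y2 = P.tau k q (f \ f1) a := h4
      obtain rfl : x = P.tau k q2 e1 a1 + P.tau k q2 f1 b1 := h6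
      obtain rfl : y = P.tau k q (e \ e1) a + P.tau k q (f \ f1) a := h7
      obtain ⟨c, hc1, hc2⟩ := exists_patch_seq D P s1.1.1 a1 b1
      have hd' : Disjoint e1 f1 := hd.mono s1.2.1 s2.2.1
      have k1 : ∀ j, ∀ w ∈ f1, (c j).1 w = (b1 j).1 w := fun j w hw =>
        hc2 j w fun h => (Set.disjoint_left.1 hd') h hw
      have o1 : P.Ob q2 e1 c := s1.1.congr fun j _ w hw => (hc1 j w hw).symm
      have o2 : P.Ob q2 f1 c := s2.1.congr fun j _ w hw => (k1 j w hw).symm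
      refine ⟨e1 ∪ f1, c, ⟨o1.union D o2, union_subset_union s1.2.1 s2.2.1, s1.2.2.1,
        fun j hj w hw => ?_⟩, ?_, ?_⟩
      · rcases hw with hw | hw
        · rw [hc1 j w hw]
          exact s1.2.2.2 j hj w hw
        · rw [k1 j w hw]
          exact s2.2.2.2 j hj w hw
      · show P.tau k q2 e1 a1 + P.tau k q2 f1 b1 = P.tau k q2 (e1 ∪ f1) c
        rw [tau_add D k o1 o2 hd', tau_congr k (a := c) (b := a1) fun j _ w hw => hc1 j w hw,
          tau_congr k (a := c) (b := b1) fun j _ w hw => k1 j w hw]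
      · show P.tau k q (e \ e1) a + P.tau k q (f \ f1) a = P.tau k q ((e ∪ f) \ (e1 ∪ f1)) a
        have h4 : (e ∪ f) \ (e1 ∪ f1) = (e \ e1) ∪ (f \ f1) := by
          ext w
          have i1 : w ∈ e → w ∉ f := fun h => Set.disjoint_left.1 hd h
          have i2 := @s1.2.1 w
          have i3 := @s2.2.1 w
          simp only [mem_union, mem_sdiff]
          tauto
        rw [h4]
        exact (tau_add D k (he.mono (cl_diff D P he.1 s1.1.1) sdiff_subset)
          (hf.mono (cl_diff D P hf.1 s2.1.1) sdiff_subset) (hd.mono sdiff_subset sdiff_subset)).symm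

/-- types of the same level of objects which contain copies of each other are equal -/
theorem tau_antisymm (D : HasSw L S) [Finite ι] [∀ i, Finite (S i)] {P P' : PA L S} {k : ℕ}
    {q : Q L S} {e e' : Set P.Ω} {f f' : Set P'.Ω} {a : ℕ → P.A} {b : ℕ → P'.A} (ho : P.Ob q e a)
    (ho' : P'.Ob q f b) (he : P.Cl e') (hf : P'.Cl f') (he' : e' ⊆ e) (hf' : f' ⊆ f)
    (h1 : P.tau k q e' a = P'.tau k q f b) (h2 : P'.tau k q f' b = P.tau k q e a) :
    P.tau k q e a = P'.tau k q f b := by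
  have h3 := tau_add D k (ho.mono he he') (ho.mono (cl_diff D P ho.1 he) (sdiff_subset (t := e')))
    disjoint_sdiff_right
  have h4 := tau_add D k (ho'.mono hf hf') (ho'.mono (cl_diff D P' ho'.1 hf) (sdiff_subset (t := f')))
    disjoint_sdiff_right
  rw [union_sdiff_cancel he'] at h3
  rw [union_sdiff_cancel hf'] at h4
  rw [h1] at h3
  rw [h2] at h4
  exact TT_antisymm h3 h4

end VCD
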