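import Pool.Agent.VCD.Ker
import Pool.Agent.VCD.TTa
import Pool.Agent.VCD.Tau
import Pool.Agent.VCD.Root

/-!
# VCD-Fod: the types of objects are definable by first order formulas
-/

open Set FirstOrder

namespace VCD

variable {L : FirstOrder.Language.{0, 0}} {ι : Type} {S : ι → Type} [∀ i, L.Structure (S i)]

/-- definable by one formula in all algebras of functions -/
def UF (Φ : ∀ P : PA L S, (ℕ → P.A) → Prop) : Prop :=
  ∃ φ : L.Formula ℕ, ∀ (P : PA L S) (v : ℕ → P.A), Φ P v ↔ φ.Realize v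

variable {Φ Ψ : ∀ P : PA L S, (ℕ → P.A) → Prop}

theorem UF.congr (h : UF Φ) (h1 : ∀ P v, Φ P v ↔ Ψ P v) : UF Ψ := by
  obtain ⟨φ, hφ⟩ := h
  exact ⟨φ, fun P v => (h1 P v).symm.trans (hφ P v)⟩

theorem UF.const (p : Prop) : UF (fun (_ : PA L S) _ => p) := by
  by_cases hp : p
  · exact ⟨⊤, fun P v => by simp [hp]⟩
  · exact ⟨⊥, fun P v => by simp [hp]⟩

theorem UF.not (h : UF Φ) : UF (fun P v => ¬ Φ P v) := by
  obtain ⟨φ, hφ⟩ := h
  refine ⟨φ.not, fun P v => ?_⟩
  rw [FirstOrder.Language.Formula.realize_not]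
  exact not_congr (hφ P v)

theorem UF.and (h : UF Φ) (h' : UF Ψ) : UF (fun P v => Φ P v ∧ Ψ P v) := by
  obtain ⟨φ, hφ⟩ := h
  obtain ⟨ψ, hψ⟩ := h'
  refine ⟨φ ⊓ ψ, fun P v => ?_⟩
  rw [FirstOrder.Language.Formula.realize_inf]
  exact and_congr (hφ P v) (hψ P v)

theorem UF.imp (h : UF Φ) (h' : UF Ψ) : UF (fun P v => Φ P v → Ψ P v) := by
  obtain ⟨φ, hφ⟩ := h
  obtain ⟨ψ, hψ⟩ := h'
  refine ⟨φ.imp ψ, fun P v => ?_⟩
  rw [FirstOrder.Language.Formula.realize_imp]
  exact imp_congr (hφ P v) (hψ P v)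

theorem UF.iff (h : UF Φ) (h' : UF Ψ) : UF (fun P v => (Φ P v ↔ Ψ P v)) :=
  ((h.imp h').and (h'.imp h)).congr fun _ _ => iff_iff_implies_and_implies.symm

theorem UF.all {β : Type} [Finite β] {Φ : β → ∀ P : PA L S, (ℕ → P.A) → Prop}
    (h : ∀ b, UF (Φ b)) : UF (fun P v => ∀ b, Φ b P v) := by
  choose φ hφ using h
  refine ⟨FirstOrder.Language.Formula.iInf φ, fun P v => ?_⟩
  rw [FirstOrder.Language.Formula.realize_iInf]
  exact forall_congr' fun b => hφ b P v

theorem UF.eq (s s' : L.Term ℕ) :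
    UF (fun (P : PA L S) v => (s.realize v : P.A) = s'.realize v) :=
  ⟨s.equal s', fun P v => by rw [FirstOrder.Language.Formula.realize_equal]⟩

theorem UF.tsubst (h : UF Φ) (σ : ℕ → L.Term ℕ) : UF (fun P v => Φ P fun i => (σ i).realize v) := by
  obtain ⟨φ, hφ⟩ := h
  refine ⟨FirstOrder.Language.BoundedFormula.subst φ σ, fun P v => ?_⟩
  exact (hφ P _).trans FirstOrder.Language.BoundedFormula.realize_subst.symm

theorem UF.block (h : UF Φ) (m N : ℕ) (hdep : ∀ (P : PA L S) (v v' : ℕ → P.A),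
    (∀ i < m + N, v i = v' i) → (Φ P v ↔ Φ P v')) :
    UF (fun P v => ∃ u : ℕ → P.A, Φ P fun i => if i < m then v i else u (i - m)) := by
  obtain ⟨φ, hφ⟩ := h
  refine ⟨FirstOrder.Language.Formula.iExs (Fin N) (φ.relabel fun i : ℕ =>
    if i < m then Sum.inl i else if h : i - m < N then Sum.inr (⟨i - m, h⟩ : Fin N) else Sum.inl i),
      fun P v => ?_⟩
  rw [FirstOrder.Language.Formula.realize_iExs]
  constructor
  · rintro ⟨u, hu⟩
    refine ⟨fun j => u j, ?_⟩
    rw [FirstOrder.Language.Formula.realize_relabel, ← hφ]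
    refine (hdep P _ _ fun i hi => ?_).1 hu
    show (if i < m then v i else u (i - m)) = Sum.elim v (fun j : Fin N => u j)
      (if i < m then Sum.inl i else if h : i - m < N then Sum.inr (⟨i - m, h⟩ : Fin N) else Sum.inl i)
    by_cases h1 : i < m
    · rw [if_pos h1, if_pos h1]
      rfl
    · have h2 : i - m < N := by omega
      rw [if_neg h1, if_neg h1, dif_pos h2]
      rfl
  · rintro ⟨u, hu⟩
    refine ⟨fun j => if h : j < N then u ⟨j, h⟩ else v 0, ?_⟩
    rw [FirstOrder.Language.Formula.realize_relabel, ← hφ] at hu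
    refine (hdep P _ _ fun i hi => ?_).1 hu
    show Sum.elim v u
      (if i < m then Sum.inl i else if h : i - m < N then Sum.inr (⟨i - m, h⟩ : Fin N) else Sum.inl i)
        = if i < m then v i else if h : i - m < N then u ⟨i - m, h⟩ else v 0
    by_cases h1 : i < m
    · rw [if_pos h1, if_pos h1]
      rfl
    · have h2 : i - m < N := by omega
      rw [if_neg h1, if_neg h1, dif_pos h2, dif_pos h2]
      rfl

/-- the clopen set given by the first two entries -/
def st {P : PA L S} (v : ℕ → P.A) : Set P.Ω := {w | (v 0).1 w = (v 1).1 w}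

/-- the tuple given by the other entries -/
def tup {P : PA L S} (v : ℕ → P.A) : ℕ → P.A := fun j => v (j + 2)

section

variable {sw : L.Term (Fin 4)} {c0 c1 : L.Functions 0}

private def kt (c : L.Functions 0) : L.Term ℕ := FirstOrder.Language.Term.func c Fin.elim0

private theorem kt_val (P : PA L S) (c : L.Functions 0) (v : ℕ → P.A) (w : P.Ω) :
    ((kt c).realize v : P.A).1 w = FirstOrder.Language.Structure.funMap c ![] := by
  rw [realize_val]
  show FirstOrder.Language.Structure.funMap c (fun j : Fin 0 => _) = _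
  exact congrArg _ (Subsingleton.elim _ _)

private theorem swT_val (P : PA L S) (p q r s : L.Term ℕ) (v : ℕ → P.A) (w : P.Ω) :
    ((sw.subst ![p, q, r, s]).realize v : P.A).1 w =
      sw.realize ![(p.realize v : P.A).1 w, (q.realize v : P.A).1 w, (r.realize v : P.A).1 w,
        (s.realize v : P.A).1 w] := by
  rw [FirstOrder.Language.Term.realize_subst, realize_val]
  congr 1
  funext i
  fin_cases i <;> rfl

private theorem UF_on (D : SwC S sw c0 c1) (p q r s : L.Term ℕ) :
    UF (fun (P : PA L S) v => ∀ w, (p.realize v : P.A).1 w = (q.realize v : P.A).1 w →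
      (r.realize v : P.A).1 w = (s.realize v : P.A).1 w) := by
  refine (UF.eq (sw.subst ![p, q, r, s]) s).congr fun P v => ?_
  constructor
  · intro h w hw
    have h1 : ((sw.subst ![p, q, r, s]).realize v : P.A).1 w = (s.realize v : P.A).1 w := by rw [h]
    rw [swT_val, hw, D.eq] at h1
    exact h1
  · intro h
    apply Subtype.ext
    funext w
    rw [swT_val]
    by_cases hw : (p.realize v : P.A).1 w = (q.realize v : P.A).1 w
    · rw [hw, D.eq]
      exact h w hw
    · rw [D.ne _ _ _ _ _ hw]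

private theorem UF_ne (D : SwC S sw c0 c1) (p q r s : L.Term ℕ) :
    UF (fun (P : PA L S) v => ∀ w, (p.realize v : P.A).1 w = (q.realize v : P.A).1 w →
      (r.realize v : P.A).1 w ≠ (s.realize v : P.A).1 w) := by
  refine (UF_on D p q (sw.subst ![r, s, kt c1, kt c0]) (kt c0)).congr fun P v => ?_
  refine forall_congr' fun w => imp_congr_right fun _ => ?_
  rw [swT_val, kt_val, kt_val]
  by_cases h : (r.realize v : P.A).1 w = (s.realize v : P.A).1 w
  · rw [h, D.eq]
    exact ⟨fun h1 => (D.c01 _ h1.symm).elim, fun h1 => (h1 rfl).elim⟩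
  · rw [D.ne _ _ _ _ _ h]
    exact ⟨fun _ => h, fun _ => rfl⟩

private theorem tup_real {P : PA L S} {n : ℕ} (s : L.Term (Fin n)) (v : ℕ → P.A) :
    ((s.relabel fun j : Fin n => (j : ℕ) + 2).realize v : P.A) =
      s.realize (fun j : Fin n => tup v j) := by
  rw [FirstOrder.Language.Term.realize_relabel]
  rfl

private theorem UF_Ob (D : SwC S sw c0 c1) [Finite ι] [∀ i, Finite (S i)] (q : Q L S) :
    UF (fun (P : PA L S) v => P.Ob q (st v) (tup v)) := by
  classical
  have hsep : ∀ κ' : Set (L.Term (Fin q.len) × L.Term (Fin q.len)), ∃ p, κ' ≠ q.ker →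
      ¬ (p ∈ κ' ↔ p ∈ q.ker) := by
    intro κ'
    by_cases hne : κ' = q.ker
    · exact ⟨(FirstOrder.Language.Term.func c0 Fin.elim0, FirstOrder.Language.Term.func c0 Fin.elim0),
        fun h => (h hne).elim⟩
    · by_contra hc
      push Not at hc
      exact hne (Set.ext fun p => (hc p).2)
  choose p hpp using hsep
  have hfin : Finite (KK L S q.len) := (KK_finite (L := L) (S := S) q.len).to_subtype
  have h1 : UF (fun (P : PA L S) v => ∀ κ' : KK L S q.len, κ'.1 ≠ q.ker →
      ((p κ'.1 ∈ q.ker) → ∀ w, (v 0).1 w = (v 1).1 w →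
        ((p κ'.1).1.realize (fun j : Fin q.len => tup v j) : P.A).1 w =
          ((p κ'.1).2.realize (fun j : Fin q.len => tup v j) : P.A).1 w) ∧
      ((p κ'.1 ∉ q.ker) → ∀ w, (v 0).1 w = (v 1).1 w →
        ((p κ'.1).1.realize (fun j : Fin q.len => tup v j) : P.A).1 w ≠
          ((p κ'.1).2.realize (fun j : Fin q.len => tup v j) : P.A).1 w)) := by
    refine UF.all fun κ' => (UF.const _).imp ?_
    have h2 := ((UF.const (p κ'.1 ∈ q.ker)).imp (UF_on D
      (FirstOrder.Language.Term.var 0) (FirstOrder.Language.Term.var 1)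
      ((p κ'.1).1.relabel fun j : Fin q.len => (j : ℕ) + 2)
      ((p κ'.1).2.relabel fun j : Fin q.len => (j : ℕ) + 2))).and
      ((UF.const (p κ'.1 ∉ q.ker)).imp (UF_ne D
      (FirstOrder.Language.Term.var 0) (FirstOrder.Language.Term.var 1)
      ((p κ'.1).1.relabel fun j : Fin q.len => (j : ℕ) + 2)
      ((p κ'.1).2.relabel fun j : Fin q.len => (j : ℕ) + 2)))
    refine h2.congr fun P v => ?_
    simp only [tup_real]
    exact Iff.rfl
  refine h1.congr fun P v => ?_
  constructor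
  · intro h
    refine ⟨⟨v 0, v 1, fun _ => Iff.rfl⟩, fun w hw => ?_⟩
    by_contra hne
    have hm : ker L q.len (fun j => (tup v j).1 w) ∈ KK L S q.len :=
      ⟨P.f w, fun j => (tup v j).1 w, rfl⟩
    obtain ⟨h2, h3⟩ := h ⟨_, hm⟩ hne
    have h4 := hpp _ hne
    apply h4
    constructor
    · intro h5
      by_contra h6
      refine h3 h6 w hw ?_
      rw [realize_val, realize_val]
      exact h5
    · intro h5
      have h6 := h2 h5 w hw
      rw [realize_val, realize_val] at h6
      exact h6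
  · intro h κ' hne
    constructor
    · intro h2 w hw
      have h3 := h.2 w hw
      rw [← h3] at h2
      rw [realize_val, realize_val]
      exact h2
    · intro h2 w hw h4
      have h3 := h.2 w hw
      rw [← h3] at h2
      apply h2
      rw [realize_val, realize_val] at h4
      exact h4

/-- the condition on the members of a type -/
private def SubT (P : PA L S) (k : ℕ) (q q' : Q L S) (t t' : TT (Q L S) k) (v u : ℕ → P.A) : Prop :=
  P.Sub q (st v) (tup v) q' (st u) (tup u) ∧ t = P.tau k q' (st u) (tup u) ∧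
    t' = P.tau k q (st v \ st u) (tup v)

private theorem st_congr {P : PA L S} {v v' : ℕ → P.A} (h0 : v 0 = v' 0) (h1 : v 1 = v' 1) :
    st v = st v' := by
  unfold st
  rw [h0, h1]

private theorem SubT_congr {P : PA L S} {k : ℕ} {q q' : Q L S} {t t' : TT (Q L S) k}
    {v v' u u' : ℕ → P.A} (hv : ∀ i < q.len + 2, v i = v' i) (hu : ∀ i < q'.len + 2, u i = u' i)
    (h : SubT P k q q' t t' v u) : SubT P k q q' t t' v' u' := by
  obtain ⟨⟨h1, h2, h3, h4⟩, h5, h6⟩ := h
  have e1 : st v = st v' := st_congr (hv 0 (by omega)) (hv 1 (by omega))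
  have e2 : st u = st u' := st_congr (hu 0 (by omega)) (hu 1 (by omega))
  have e3 : ∀ j < q.len, tup v j = tup v' j := fun j hj => hv (j + 2) (by omega)
  have e4 : ∀ j < q'.len, tup u j = tup u' j := fun j hj => hu (j + 2) (by omega)
  rw [e2] at h1 h2 h4 h5
  rw [e1] at h2
  rw [e1, e2] at h6
  refine ⟨⟨h1.congr fun j hj w _ => by rw [e4 j hj], h2, h3, fun j hj w hw => ?_⟩, ?_, ?_⟩
  · rw [← e4 j (by omega), ← e3 j hj]
    exact h4 j hj w hw
  · rw [h5]
    exact tau_congr k fun j hj w _ => by rw [e4 j hj]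
  · rw [h6]
    exact tau_congr k fun j hj w _ => by rw [e3 j hj]

private theorem mem_tau_iff {P : PA L S} (k : ℕ) (q : Q L S) (v : ℕ → P.A)
    (z : Q L S × TT (Q L S) k × TT (Q L S) k) :
    z ∈ (P.tau (k + 1) q (st v) (tup v)).s ↔ ∃ u, SubT P k q z.1 z.2.1 z.2.2 v u := by
  constructor
  · rintro ⟨e', a', h1, h2, h3⟩
    obtain ⟨x, y, hxy⟩ := h1.1.1
    obtain ⟨u, hu0, hu1, hu2⟩ : ∃ u : ℕ → P.A, u 0 = x ∧ u 1 = y ∧ ∀ j, u (j + 2) = a' j :=
      ⟨fun i => match i with
        | 0 => x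
        | 1 => y
        | j + 2 => a' j, rfl, rfl, fun _ => rfl⟩
    have e1 : st u = e' := by
      ext w
      rw [hxy]
      show (u 0).1 w = (u 1).1 w ↔ _
      rw [hu0, hu1]
    have e2 : tup u = a' := funext hu2
    refine ⟨u, ?_⟩
    unfold SubT
    rw [e1, e2]
    exact ⟨h1, h2, h3⟩
  · rintro ⟨u, h1, h2, h3⟩
    exact ⟨st u, tup u, h1, h2, h3⟩

private theorem UF_SubT (D : SwC S sw c0 c1) [Finite ι] [∀ i, Finite (S i)] {k : ℕ}
    (ih : ∀ (q : Q L S) (t : TT (Q L S) k), UF (fun (P : PA L S) v => P.tau k q (st v) (tup v) = t))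
    (q q' : Q L S) (t t' : TT (Q L S) k) (m : ℕ) :
    UF (fun (P : PA L S) y => SubT P k q q' t t' y fun i => y (m + i)) := by
  have a1 := (UF_Ob D q').tsubst fun i => FirstOrder.Language.Term.var (m + i)
  have a2 := UF_on (ι := ι) (S := S) D (FirstOrder.Language.Term.var m)
    (FirstOrder.Language.Term.var (m + 1)) (FirstOrder.Language.Term.var 0)
    (FirstOrder.Language.Term.var 1)
  have a3 := UF.const (L := L) (S := S) (q.len ≤ q'.len)
  have a4 := UF.all (β := Fin q.len) fun j => UF_on (ι := ι) (S := S) D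
    (FirstOrder.Language.Term.var m) (FirstOrder.Language.Term.var (m + 1))
    (FirstOrder.Language.Term.var (m + ((j : ℕ) + 2))) (FirstOrder.Language.Term.var ((j : ℕ) + 2))
  have a5 := (ih q' t).tsubst fun i => FirstOrder.Language.Term.var (m + i)
  obtain ⟨σ, hσ0, hσ1, hσ2⟩ : ∃ σ : ℕ → L.Term ℕ, σ 0 = sw.subst ![FirstOrder.Language.Term.var 0,
      FirstOrder.Language.Term.var 1, sw.subst ![FirstOrder.Language.Term.var m,
        FirstOrder.Language.Term.var (m + 1), kt c0, kt c1], kt c0] ∧ σ 1 = kt c1 ∧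
      ∀ j, σ (j + 2) = FirstOrder.Language.Term.var (j + 2) :=
    ⟨fun i => match i with
      | 0 => sw.subst ![FirstOrder.Language.Term.var 0,
        FirstOrder.Language.Term.var 1, sw.subst ![FirstOrder.Language.Term.var m,
          FirstOrder.Language.Term.var (m + 1), kt c0, kt c1], kt c0]
      | 1 => kt c1
      | j + 2 => FirstOrder.Language.Term.var (j + 2), rfl, rfl, fun _ => rfl⟩
  have a6 := (ih q t').tsubst σ
  refine (((a1.and (a2.and (a3.and a4))).and (a5.and a6))).congr fun P y => ?_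
  have e1 : st (fun i => ((σ i).realize y : P.A)) = st y \ st fun i => y (m + i) := by
    ext w
    show ((σ 0).realize y : P.A).1 w = ((σ 1).realize y : P.A).1 w ↔
      ((y 0).1 w = (y 1).1 w ∧ ¬ ((y (m + 0)).1 w = (y (m + 1)).1 w))
    rw [hσ0, hσ1, swT_val, swT_val, kt_val, kt_val]
    show sw.realize ![(y 0).1 w, (y 1).1 w, sw.realize ![(y m).1 w, (y (m + 1)).1 w, _, _], _] = _ ↔
      ((y 0).1 w = (y 1).1 w ∧ ¬ ((y m).1 w = (y (m + 1)).1 w))
    by_cases h1 : (y 0).1 w = (y 1).1 w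
    · rw [h1, D.eq]
      by_cases h2 : (y m).1 w = (y (m + 1)).1 w
      · rw [h2, D.eq]
        exact ⟨fun h => (D.c01 _ h).elim, fun h => (h.2 rfl).elim⟩
      · rw [D.ne _ _ _ _ _ h2]
        exact ⟨fun _ => ⟨rfl, h2⟩, fun _ => rfl⟩
    · rw [D.ne _ _ _ _ _ h1]
      exact ⟨fun h => (D.c01 _ h).elim, fun h => (h1 h.1).elim⟩
  have e2 : tup (fun i => ((σ i).realize y : P.A)) = tup y := by
    funext j
    show ((σ (j + 2)).realize y : P.A) = y (j + 2)
    rw [hσ2]
    rfl
  rw [e1, e2]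
  constructor
  · rintro ⟨⟨h1, h2, h3, h4⟩, h5, h6⟩
    exact ⟨⟨h1, h2, h3, fun j hj w hw => h4 ⟨j, hj⟩ w hw⟩, h5.symm, h6.symm⟩
  · rintro ⟨⟨h1, h2, h3, h4⟩, h5, h6⟩
    exact ⟨⟨h1, h2, h3, fun j w hw => h4 j j.2 w hw⟩, h5.symm, h6.symm⟩

private theorem UF_tau (D : SwC S sw c0 c1) [Finite ι] [∀ i, Finite (S i)] : ∀ (k : ℕ)
    (q : Q L S) (t : TT (Q L S) k), UF (fun (P : PA L S) v => P.tau k q (st v) (tup v) = t)
  | 0, q, t => by
    have h1 := (UF_ne (ι := ι) (S := S) D (FirstOrder.Language.Term.var 0)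
      (FirstOrder.Language.Term.var 1) (kt c0) (kt c0)).iff (UF.const t)
    refine h1.congr fun P v => ?_
    show (_ ↔ (t : Prop)) ↔ ((st v = ∅ : Prop) = (t : Prop))
    rw [eq_iff_iff]
    refine iff_congr ?_ Iff.rfl
    constructor
    · intro h
      refine eq_empty_of_forall_notMem fun w hw => h w hw rfl
    · intro h w hw
      have h2 : w ∈ st v := hw
      rw [h] at h2
      exact h2.elim
  | k + 1, q, t => by
    have ih := UF_tau D k
    have hz : ∀ z : Q L S × TT (Q L S) k × TT (Q L S) k,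
        UF (fun (P : PA L S) v => (∃ u, SubT P k q z.1 z.2.1 z.2.2 v u) ↔ z ∈ t.s) := by
      intro z
      refine UF.iff ?_ (UF.const _)
      have h0 := UF_SubT D ih q z.1 z.2.1 z.2.2 (q.len + 2)
      refine (h0.block (q.len + 2) (z.1.len + 2) fun P v v' hvv => ⟨fun h => ?_, fun h => ?_⟩).congr
        fun P v => ⟨?_, ?_⟩
      · exact SubT_congr (fun i hi => hvv i (by omega)) (fun i hi => hvv _ (by omega)) h
      · exact SubT_congr (fun i hi => (hvv i (by omega)).symm) (fun i hi => (hvv _ (by omega)).symm) h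
      · rintro ⟨u, hu⟩
        refine ⟨u, SubT_congr (fun i hi => ?_) (fun i hi => ?_) hu⟩
        · exact if_pos hi
        · show (if q.len + 2 + i < q.len + 2 then v (q.len + 2 + i) else
            u (q.len + 2 + i - (q.len + 2))) = u i
          rw [if_neg (by omega), Nat.add_sub_cancel_left]
      · rintro ⟨u, hu⟩
        refine ⟨u, SubT_congr (fun i hi => ?_) (fun i hi => ?_) hu⟩
        · exact (if_pos hi).symm
        · show u i = (if q.len + 2 + i < q.len + 2 then v (q.len + 2 + i) else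
            u (q.len + 2 + i - (q.len + 2)))
          rw [if_neg (by omega), Nat.add_sub_cancel_left]
    refine (UF.all hz).congr fun P v => ?_
    constructor
    · intro h
      apply Set.ext
      intro z
      exact (mem_tau_iff k q v z).trans (h z)
    · intro h z
      rw [← h]
      exact (mem_tau_iff k q v z).symm

private theorem UF.sentence {Θ : PA L S → Prop} (c0 : L.Functions 0)
    (h : UF (fun (P : PA L S) _ => Θ P)) :
    ∃ ψ : L.Sentence, ∀ P, Θ P ↔ P.A ⊨ ψ := by
  obtain ⟨φ, hφ⟩ := h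
  refine ⟨FirstOrder.Language.BoundedFormula.subst φ fun _ =>
    (FirstOrder.Language.Term.func c0 Fin.elim0 : L.Term Empty), fun P => ?_⟩
  exact (hφ P _).trans FirstOrder.Language.BoundedFormula.realize_subst.symm

private theorem Ob_congr {P : PA L S} {q : Q L S} {u u' : ℕ → P.A}
    (hu : ∀ i < q.len + 2, u i = u' i) (h : P.Ob q (st u) (tup u)) : P.Ob q (st u') (tup u') := by
  rw [st_congr (hu 0 (by omega)) (hu 1 (by omega))] at h
  refine h.congr fun j hj w _ => ?_
  show (u (j + 2)).1 w = (u' (j + 2)).1 w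
  rw [hu (j + 2) (by omega)]

/-- the root condition -/
private def RC (P : PA L S) (k : ℕ) (q : Q L S) (t : TT (Q L S) k) (v : ℕ → P.A) : Prop :=
  P.Ob q (st v) (tup v) ∧ (¬ ∃ u : ℕ → P.A, P.Ob q (st u) (tup u) ∧
    ¬ ∀ w, (u 0).1 w = (u 1).1 w → (v 0).1 w = (v 1).1 w) ∧ P.tau k q (st v) (tup v) = t

private theorem RC_congr {P : PA L S} {k : ℕ} {q : Q L S} {t : TT (Q L S) k} {v v' : ℕ → P.A}
    (hv : ∀ i < q.len + 2, v i = v' i) (h : RC P k q t v) : RC P k q t v' := by
  obtain ⟨h1, h2, h3⟩ := h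
  refine ⟨Ob_congr hv h1, ?_, ?_⟩
  · rintro ⟨u, h4, h5⟩
    rw [← hv 0 (by omega), ← hv 1 (by omega)] at h5
    exact h2 ⟨u, h4, h5⟩
  · rw [← h3, st_congr (hv 0 (by omega)) (hv 1 (by omega))]
    refine tau_congr k fun j hj w _ => ?_
    show (v' (j + 2)).1 w = (v (j + 2)).1 w
    rw [hv (j + 2) (by omega)]

private theorem UF_RC (D : SwC S sw c0 c1) [Finite ι] [∀ i, Finite (S i)] (k : ℕ) (q : Q L S)
    (t : TT (Q L S) k) : UF (fun (P : PA L S) _ => ∃ v, RC P k q t v) := by
  have b1 := ((UF_Ob D q).tsubst fun i => FirstOrder.Language.Term.var (2 + i)).and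
    (UF_on (ι := ι) (S := S) D (FirstOrder.Language.Term.var 2) (FirstOrder.Language.Term.var 3)
      (FirstOrder.Language.Term.var 0) (FirstOrder.Language.Term.var 1)).not
  have b2 := b1.block 2 (q.len + 2) (by
    have key : ∀ (P : PA L S) (y y' : ℕ → P.A), (∀ i < 2 + (q.len + 2), y i = y' i) →
        (P.Ob q (st fun i => y (2 + i)) (tup fun i => y (2 + i)) ∧
          ¬ ∀ w, (y 2).1 w = (y 3).1 w → (y 0).1 w = (y 1).1 w) →
        (P.Ob q (st fun i => y' (2 + i)) (tup fun i => y' (2 + i)) ∧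
          ¬ ∀ w, (y' 2).1 w = (y' 3).1 w → (y' 0).1 w = (y' 1).1 w) := by
      rintro P y y' hy ⟨h1, h2⟩
      refine ⟨Ob_congr (fun i hi => hy _ (by omega)) h1, ?_⟩
      rw [← hy 0 (by omega), ← hy 1 (by omega), ← hy 2 (by omega), ← hy 3 (by omega)]
      exact h2
    exact fun P y y' hy => ⟨key P y y' hy, key P y' y fun i hi => (hy i hi).symm⟩)
  have b2' : UF (fun (P : PA L S) v => ∃ u : ℕ → P.A, P.Ob q (st u) (tup u) ∧
      ¬ ∀ w, (u 0).1 w = (u 1).1 w → (v 0).1 w = (v 1).1 w) := by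
    refine b2.congr fun P v => exists_congr fun u => ?_
    have e1 : (fun i => if 2 + i < 2 then v (2 + i) else u (2 + i - 2)) = u := by
      funext i
      rw [if_neg (by omega), Nat.add_sub_cancel_left]
    show (P.Ob q (st fun i => if 2 + i < 2 then v (2 + i) else u (2 + i - 2))
      (tup fun i => if 2 + i < 2 then v (2 + i) else u (2 + i - 2)) ∧ _) ↔ _
    rw [e1]
    exact Iff.rfl
  have b3 := (UF_Ob D q).and (b2'.not.and (UF_tau D k q t))
  have b4 := b3.block 0 (q.len + 2) (fun P v v' hv =>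
    ⟨fun h => RC_congr (fun i hi => hv i (by omega)) h,
      fun h => RC_congr (fun i hi => (hv i (by omega)).symm) h⟩)
  refine b4.congr fun P v => exists_congr fun u => ?_
  have e1 : (fun i => if i < 0 then v i else u (i - 0)) = u := by
    funext i
    rw [if_neg (by omega), Nat.sub_zero]
  rw [e1]
  exact Iff.rfl

private theorem RC_iff [Finite ι] [∀ i, Finite (S i)] (D : HasSw L S) (P : PA L S) (k : ℕ)
    (q : Q L S) (hq : q.len = 0) (t : TT (Q L S) k) (c : ℕ → P.A) : (∃ v, RC P k q t v) ↔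
      P.tau k q {w | ker L q.len (fun j => (c j).1 w) = q.ker} c = t := by
  have hk : ∀ (a b : ℕ → P.A) (w : P.Ω),
      ker L q.len (fun j => (a j).1 w) = ker L q.len (fun j => (b j).1 w) := fun a b w =>
    ker_congr fun j hj => by omega
  have hcl := cl_ker D P q.len c q.ker
  obtain ⟨x, y, hxy⟩ := hcl
  obtain ⟨r, hr0, hr1⟩ : ∃ r : ℕ → P.A, r 0 = x ∧ r 1 = y :=
    ⟨fun i => match i with
      | 0 => x
      | _ + 1 => y, rfl, rfl⟩
  have hr : st r = {w | ker L q.len (fun j => (c j).1 w) = q.ker} := by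
    ext w
    rw [hxy]
    show (r 0).1 w = (r 1).1 w ↔ _
    rw [hr0, hr1]
  have hOb : P.Ob q (st r) (tup r) := by
    refine ⟨⟨r 0, r 1, fun _ => Iff.rfl⟩, fun w hw => ?_⟩
    rw [hr] at hw
    exact (hk _ _ w).trans hw
  constructor
  · rintro ⟨v, h1, h2, h3⟩
    have h4 : st v = {w | ker L q.len (fun j => (c j).1 w) = q.ker} := by
      apply Subset.antisymm
      · intro w hw
        exact (hk _ _ w).trans (h1.2 w hw)
      · intro w hw
        by_contra hw'
        refine h2 ⟨r, hOb, fun h5 => hw' (h5 w ?_)⟩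
        rw [← hr] at hw
        exact hw
    rw [← h4, ← h3]
    exact tau_congr k fun j hj => by omega
  · intro h
    refine ⟨r, hOb, ?_, ?_⟩
    · rintro ⟨u, h1, h2⟩
      apply h2
      intro w hw
      have h3 : w ∈ st r := by
        rw [hr]
        exact (hk _ _ w).trans (h1.2 w hw)
      exact h3
    · rw [← h, hr]
      exact tau_congr k fun j hj => by omega

/-- elementarily equivalent algebras of functions are matched at all levels -/
theorem ER_of_equiv (D : HasSw L S) [Finite ι] [∀ i, Finite (S i)] {P P' : PA L S}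
    (h : ∀ ψ : L.Sentence, P.A ⊨ ψ ↔ P'.A ⊨ ψ) (k : ℕ) (c : ℕ → P.A) (d : ℕ → P'.A) :
    ER k 0 P P' c d univ univ := by
  obtain ⟨sw, c0, c1, hD⟩ := id D
  refine ER_root D c d (cl_univ D P) (cl_univ D P') c d fun q hq => ?_
  rw [univ_inter, univ_inter]
  obtain ⟨t, ht⟩ : ∃ t, t = P.tau k q {w | ker L q.len (fun j => (c j).1 w) = q.ker} c := ⟨_, rfl⟩
  rw [← ht]
  obtain ⟨ψ, hψ⟩ := UF.sentence c0 (UF_RC hD k q t)
  have h1 := (RC_iff D P k q hq t c).2 ht.symm
  rw [hψ, h, ← hψ] at h1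
  exact ((RC_iff D P' k q hq t d).1 h1).symm

end

end VCD
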