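import Pool.Agent.VCD.Good
import Pool.Agent.VCD.Root
import Pool.Agent.VCD.Fod

/-!
# VCD-BF: back and forth; good countable algebras with the same invariants are isomorphic
-/

open Set FirstOrder

namespace VCD

variable {L : FirstOrder.Language.{0, 0}}

/-- sequences with the same equations give an isomorphism -/
theorem iso_of_seq {M N : Type} [L.Structure M] [L.Structure N]
    (hrel : ∀ n, IsEmpty (L.Relations n)) (u : ℕ → M) (v : ℕ → N) (hu : ∀ m, ∃ i, u i = m)
    (hv : ∀ m, ∃ i, v i = m) (h : ∀ n, ker L n u = ker L n v) : Nonempty (M ≃[L] N) := by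
  choose g hg using hu
  have hvar : ∀ i j, u i = u j ↔ v i = v j := by
    intro i j
    have h1 := Set.ext_iff.1 (h (max i j + 1)) (FirstOrder.Language.Term.var ⟨i, by omega⟩,
      FirstOrder.Language.Term.var ⟨j, by omega⟩)
    exact h1
  have hφ : ∀ i, v (g (u i)) = v i := fun i => (hvar _ _).1 (hg (u i))
  have bij : Function.Bijective fun m => v (g m) := by
    constructor
    · intro m m' hm
      have h1 : u (g m) = u (g m') := (hvar _ _).2 hm
      rwa [hg, hg] at h1
    · intro y
      obtain ⟨i, rfl⟩ := hv y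
      exact ⟨u i, hφ i⟩
  refine ⟨⟨Equiv.ofBijective _ bij, ?_, ?_⟩⟩
  · intro n F x
    obtain ⟨K, hK⟩ : ∃ K, (∀ l, g (x l) < K) ∧
        g (FirstOrder.Language.Structure.funMap F x) < K := by
      refine ⟨(Finset.univ.sup fun l => g (x l)) + g (FirstOrder.Language.Structure.funMap F x) + 1,
        fun l => ?_, by omega⟩
      have h1 : g (x l) ≤ Finset.univ.sup fun l => g (x l) :=
        Finset.le_sup (f := fun l => g (x l)) (Finset.mem_univ l)
      omega
    have h1 := Set.ext_iff.1 (h K) (FirstOrder.Language.Term.func F fun l =>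
      FirstOrder.Language.Term.var ⟨g (x l), hK.1 l⟩, FirstOrder.Language.Term.var ⟨_, hK.2⟩)
    rw [mem_ker, mem_ker, FirstOrder.Language.Term.realize_func,
      FirstOrder.Language.Term.realize_func] at h1
    refine (h1.1 ?_).symm
    show FirstOrder.Language.Structure.funMap F (fun l => u (g (x l))) = u (g _)
    rw [hg]
    congr 1
    funext l
    exact hg (x l)
  · intro n r
    exact (hrel n).elim r

/-- back and forth sequences -/
theorem bf_seq {A B : Type} (R : ℕ → (ℕ → A) → (ℕ → B) → Prop)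
    (hcongr : ∀ n c c' d d', (∀ j < n, c j = c' j) → (∀ j < n, d j = d' j) → R n c d → R n c' d')
    (c0 : ℕ → A) (d0 : ℕ → B) (h0 : R 0 c0 d0)
    (forth : ∀ n c d, R n c d → ∀ x, ∃ y, R (n + 1) (Function.update c n x) (Function.update d n y))
    (back : ∀ n c d, R n c d → ∀ y, ∃ x, R (n + 1) (Function.update c n x) (Function.update d n y))
    (xs : ℕ → A) (ys : ℕ → B) :
    ∃ c d, (∀ n, R n c d) ∧ (∀ m, ∃ n, c n = xs m) ∧ ∀ m, ∃ n, d n = ys m := by
  have step : ∀ (n : ℕ) (p : (ℕ → A) × (ℕ → B)), ∃ p' : (ℕ → A) × (ℕ → B), R n p.1 p.2 →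
      (R (n + 1) p'.1 p'.2 ∧ (∀ j < n, p'.1 j = p.1 j) ∧ (∀ j < n, p'.2 j = p.2 j) ∧
        (∀ m, n = 2 * m → p'.1 n = xs m) ∧ ∀ m, n = 2 * m + 1 → p'.2 n = ys m) := by
    intro n p
    by_cases hp : R n p.1 p.2
    · rcases Nat.even_or_odd' n with ⟨m, hm | hm⟩
      · obtain ⟨y, hy⟩ := forth n p.1 p.2 hp (xs m)
        refine ⟨(Function.update p.1 n (xs m), Function.update p.2 n y), fun _ => ⟨hy, fun j hj => ?_,
          fun j hj => ?_, fun m' hm' => ?_, fun m' hm' => ?_⟩⟩
        · exact Function.update_of_ne hj.ne _ _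
        · exact Function.update_of_ne hj.ne _ _
        · have h1 : m' = m := by omega
          rw [h1]
          exact Function.update_self _ _ _
        · omega
      · obtain ⟨x, hx⟩ := back n p.1 p.2 hp (ys m)
        refine ⟨(Function.update p.1 n x, Function.update p.2 n (ys m)), fun _ => ⟨hx, fun j hj => ?_,
          fun j hj => ?_, fun m' hm' => ?_, fun m' hm' => ?_⟩⟩
        · exact Function.update_of_ne hj.ne _ _
        · exact Function.update_of_ne hj.ne _ _
        · omega
        · have h1 : m' = m := by omega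
          rw [h1]
          exact Function.update_self _ _ _
    · exact ⟨p, fun h => (hp h).elim⟩
  choose f hf using step
  obtain ⟨st, hst0, hst1⟩ : ∃ st : ℕ → (ℕ → A) × (ℕ → B), st 0 = (c0, d0) ∧
      ∀ n, st (n + 1) = f n (st n) := ⟨fun n => Nat.rec (c0, d0) f n, rfl, fun _ => rfl⟩
  have hR : ∀ n, R n (st n).1 (st n).2 := by
    intro n
    induction n with
    | zero =>
      rw [hst0]
      exact h0
    | succ n ih =>
      rw [hst1]
      exact (hf n (st n) ih).1
  have hc : ∀ n, ∀ j < n, (st n).1 j = (st (j + 1)).1 j := by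
    intro n
    induction n with
    | zero => exact fun j hj => absurd hj (Nat.not_lt_zero j)
    | succ n ih =>
      intro j hj
      rcases Nat.lt_succ_iff_lt_or_eq.1 hj with h | h
      · rw [hst1 n, (hf n (st n) (hR n)).2.1 j h]
        exact ih j h
      · rw [h]
  have hd : ∀ n, ∀ j < n, (st n).2 j = (st (j + 1)).2 j := by
    intro n
    induction n with
    | zero => exact fun j hj => absurd hj (Nat.not_lt_zero j)
    | succ n ih =>
      intro j hj
      rcases Nat.lt_succ_iff_lt_or_eq.1 hj with h | h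
      · rw [hst1 n, (hf n (st n) (hR n)).2.2.1 j h]
        exact ih j h
      · rw [h]
  refine ⟨fun j => (st (j + 1)).1 j, fun j => (st (j + 1)).2 j,
    fun n => hcongr n _ _ _ _ (hc n) (hd n) (hR n), fun m => ⟨2 * m, ?_⟩, fun m => ⟨2 * m + 1, ?_⟩⟩
  · show (st (2 * m + 1)).1 (2 * m) = xs m
    rw [hst1]
    exact (hf (2 * m) (st (2 * m)) (hR _)).2.2.2.1 m rfl
  · show (st (2 * m + 1 + 1)).2 (2 * m + 1) = ys m
    rw [hst1]
    exact (hf (2 * m + 1) (st (2 * m + 1)) (hR _)).2.2.2.2 m rfl

variable {ι : Type} {S : ι → Type} [∀ i, L.Structure (S i)]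

/-- the level `K` separates the types in `V` -/
def Sep (K : ℕ) (V : Set (Q L S × ∀ k, TT (Q L S) k)) : Prop :=
  ∀ (q : Q L S) (t t' : ∀ k, TT (Q L S) k), (q, t) ∈ V → (q, t') ∈ V → t K = t' K → t = t'

theorem exists_Sep (D : HasSw L S) {P : PA L S} (h : P.Good univ) : ∃ K, Sep K (P.V univ) := by
  obtain ⟨K, hK⟩ := Good_level D h
  refine ⟨K, ?_⟩
  rintro q t t' ⟨e1, a1, h1, _, h3⟩ ⟨e2, a2, h4, _, h6⟩ ht
  have h3' : t = fun k => P.tau k q e1 a1 := h3
  have h6' : t' = fun k => P.tau k q e2 a2 := h6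
  have h7 : P.tau K q e1 a1 = P.tau K q e2 a2 := by
    rw [h3', h6'] at ht
    exact ht
  rw [h3', h6']
  funext k
  exact hK q e1 a1 e2 a2 h1 h4 (subset_univ _) (subset_univ _) h7 k

private theorem lift {K : ℕ} {P P' : PA L S} (hK : Sep K (P.V univ)) (hV : P'.V univ = P.V univ)
    {r : ℕ} {c : ℕ → P.A} {d : ℕ → P'.A} {e : Set P.Ω} {f : Set P'.Ω}
    (h : ER K r P P' c d e f) (j : ℕ) : ER j r P P' c d e f := by
  induction h with
  | nil => exact ER.nil
  | cons q e₁ e f₁ f a b s ha hb ht he hf hc hd _ ih =>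
    refine ER.cons q e₁ e f₁ f a b s ha hb ?_ he hf hc hd ih
    have h1 := V_mk ha (subset_univ e₁)
    have h2 := V_mk hb (subset_univ f₁)
    rw [hV] at h2
    exact congrFun (hK q _ _ h1 h2 ht) j

/-- two good countable algebras with the same types and the same root are isomorphic -/
theorem iso_of_good (D : HasSw L S) [Finite ι] [∀ i, Finite (S i)]
    (hrel : ∀ n, IsEmpty (L.Relations n)) {P P' : PA L S} (hA : P.A.Countable)
    (hA' : P'.A.Countable) {K : ℕ} (hK : Sep K (P.V univ)) (hV : P'.V univ = P.V univ)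
    (c : ℕ → P.A) (d : ℕ → P'.A) (h : ER K 0 P P' c d univ univ) : Nonempty (P.A ≃[L] P'.A) := by
  have h1 : Countable P.A := hA.to_subtype
  have h2 : Countable P'.A := hA'.to_subtype
  have n1 : Nonempty P.A := nonempty_el D P
  have n2 : Nonempty P'.A := nonempty_el D P'
  obtain ⟨xs, hxs⟩ := exists_surjective_nat P.A
  obtain ⟨ys, hys⟩ := exists_surjective_nat P'.A
  obtain ⟨k0, hf⟩ := ER.forth (L := L) (S := S) D
  have hK' : Sep K (P'.V univ) := by
    rw [hV]
    exact hK
  obtain ⟨u, v, huv, hu, hv⟩ := bf_seq (fun n c d => ER K n P P' c d univ univ)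
    (fun n c c' d d' hc hd h => h.congr (fun j hj w _ => by rw [hc j hj])
      fun j hj w _ => by rw [hd j hj]) c d h
    (fun n c d h x => hf K n P P' c d univ univ (lift hK hV h _) x)
    (fun n c d h y => by
      obtain ⟨x, hx⟩ := hf K n P' P d c univ univ (lift hK' hV.symm h.symm _) y
      exact ⟨x, hx.symm⟩) xs ys
  refine iso_of_seq hrel u v (fun m => ?_) (fun m => ?_) fun n => ?_
  · obtain ⟨i, rfl⟩ := hxs m
    exact hu i
  · obtain ⟨i, rfl⟩ := hys m
    exact hv i
  · have key : ∀ (P : PA L S) (u : ℕ → P.A) (p : L.Term (Fin n) × L.Term (Fin n)),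
        p ∈ ker L n u ↔ ∀ w, p ∈ ker L n (fun j => (u j).1 w) := by
      intro P u p
      constructor
      · intro hp w
        have h3 : (p.1.realize (fun j : Fin n => u j) : P.A) = p.2.realize (fun j : Fin n => u j) := hp
        have h4 := congrArg (fun z : P.A => z.1 w) h3
        have h5 : (p.1.realize (fun j : Fin n => u j) : P.A).1 w =
          (p.2.realize (fun j : Fin n => u j) : P.A).1 w := h4
        rw [realize_val, realize_val] at h5
        exact h5
      · intro hp
        show (p.1.realize (fun j : Fin n => u j) : P.A) = p.2.realize (fun j : Fin n => u j)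
        apply Subtype.ext
        funext w
        rw [realize_val, realize_val]
        exact hp w
    ext p
    rw [key P u p, key P' v p]
    constructor
    · intro hp w
      obtain ⟨w', _, h3⟩ := (huv n).point D w (mem_univ w)
      rw [← h3]
      exact hp w'
    · intro hp w
      obtain ⟨w', _, h3⟩ := (huv n).symm.point D w (mem_univ w)
      rw [← h3]
      exact hp w'

/-- the types of level `k` of the root pieces -/
noncomputable def rt (D : HasSw L S) (P : PA L S) (k : ℕ) : Q L S → TT (Q L S) k := fun q =>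
  P.tau k q {w | ker L q.len (fun _ => (Classical.choice (nonempty_el D P)).1 w) = q.ker}
    fun _ => Classical.choice (nonempty_el D P)

theorem ER_of_rt (D : HasSw L S) [Finite ι] [∀ i, Finite (S i)] {P P' : PA L S} {k : ℕ}
    (h : rt D P k = rt D P' k) :
    ER k 0 P P' (fun _ => Classical.choice (nonempty_el D P))
      (fun _ => Classical.choice (nonempty_el D P')) univ univ := by
  refine ER_root D _ _ (cl_univ D P) (cl_univ D P')
    (fun _ => Classical.choice (nonempty_el D P)) (fun _ => Classical.choice (nonempty_el D P'))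
    fun q _ => ?_
  rw [univ_inter, univ_inter]
  exact congrFun h q

/-- a finite invariant of a good countable algebra -/
theorem good_inv (D : HasSw L S) [Finite ι] [∀ i, Finite (S i)]
    (hrel : ∀ n, IsEmpty (L.Relations n)) {P : PA L S} (h : P.Good univ) (hA : P.A.Countable) :
    ∃ k, ∀ P' : PA L S, P'.A.Countable → rt D P k = rt D P' k → Nonempty (P.A ≃[L] P'.A) := by
  obtain ⟨K, hK⟩ := exists_Sep D h
  obtain ⟨k, hk⟩ := Good_transfer D h
  refine ⟨max k K, fun P' hA' hr => ?_⟩
  have h1 := ER_of_rt D hr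
  exact iso_of_good D hrel hA hA' hK
    (hk P' _ _ _ (h1.mono D (le_max_left k K) le_rfl)) _ _ (h1.mono D (le_max_right k K) le_rfl)

/-- a good countable algebra is isomorphic to all elementarily equivalent countable ones -/
theorem iso_of_equiv (D : HasSw L S) [Finite ι] [∀ i, Finite (S i)]
    (hrel : ∀ n, IsEmpty (L.Relations n)) {P P' : PA L S} (hg : P.Good univ) (hA : P.A.Countable)
    (hA' : P'.A.Countable) (h : ∀ ψ : L.Sentence, P.A ⊨ ψ ↔ P'.A ⊨ ψ) :
    Nonempty (P.A ≃[L] P'.A) := by
  obtain ⟨K, hK⟩ := exists_Sep D hg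
  obtain ⟨k, hk⟩ := Good_transfer D hg
  obtain ⟨x⟩ := nonempty_el D P
  obtain ⟨y⟩ := nonempty_el D P'
  exact iso_of_good D hrel hA hA' hK (hk P' (fun _ => x) (fun _ => y) univ (ER_of_equiv D h k _ _))
    (fun _ => x) (fun _ => y) (ER_of_equiv D h K _ _)

end VCD
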