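import Pool.Agent.VCD.Defs

/-!
# VCD-Basic: clopen sets and patching in algebras of functions
-/

open Set FirstOrder

namespace VCD

variable {L : FirstOrder.Language.{0, 0}} {ι : Type} {S : ι → Type} [∀ i, L.Structure (S i)]

variable (L S) in
/-- there are a switching term and two constants -/
def HasSw : Prop := ∃ (sw : L.Term (Fin 4)) (c0 c1 : L.Functions 0), SwC S sw c0 c1

theorem realize_val (P : PA L S) {α : Type} (s : L.Term α) (v : α → P.A) (w : P.Ω) :
    (s.realize v : P.A).1 w = s.realize (fun i => (v i).1 w) := by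
  induction s with
  | var i => rfl
  | func F ts ih =>
    show FirstOrder.Language.Structure.funMap F (fun j => ((ts j).realize v : P.A).1 w) = _
    rw [FirstOrder.Language.Term.realize_func]
    exact congrArg _ (funext fun j => ih j)

theorem cl_eq (P : PA L S) (a b : P.A) : P.Cl {w | a.1 w = b.1 w} := ⟨a, b, fun _ => Iff.rfl⟩

theorem nonempty_el (D : HasSw L S) (P : PA L S) : Nonempty P.A := by
  obtain ⟨sw, c0, c1, h⟩ := D
  exact ⟨FirstOrder.Language.Structure.funMap c0 ![]⟩

theorem cl_univ (D : HasSw L S) (P : PA L S) : P.Cl univ := by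
  obtain ⟨a⟩ := nonempty_el D P
  exact ⟨a, a, fun w => by simp⟩

private theorem cst_val (P : PA L S) (c : L.Functions 0) (w : P.Ω) :
    (FirstOrder.Language.Structure.funMap c ![] : P.A).1 w =
      FirstOrder.Language.Structure.funMap c ![] := by
  show FirstOrder.Language.Structure.funMap c (fun j : Fin 0 => _) = _
  exact congrArg _ (Subsingleton.elim _ _)

private theorem swv (P : PA L S) (sw : L.Term (Fin 4)) (a b c d : P.A) (w : P.Ω) :
    (sw.realize ![a, b, c, d] : P.A).1 w = sw.realize ![a.1 w, b.1 w, c.1 w, d.1 w] := by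
  rw [realize_val]
  congr 1
  funext i
  fin_cases i <;> rfl

theorem exists_patch (D : HasSw L S) (P : PA L S) {e : Set P.Ω} (he : P.Cl e) (a b : P.A) :
    ∃ c : P.A, (∀ w ∈ e, c.1 w = a.1 w) ∧ ∀ w ∉ e, c.1 w = b.1 w := by
  obtain ⟨sw, c0, c1, h⟩ := D
  obtain ⟨x, y, hxy⟩ := he
  refine ⟨sw.realize ![x, y, a, b], fun w hw => ?_, fun w hw => ?_⟩
  · rw [swv, (hxy w).1 hw]
    exact h.eq _ _ _ _
  · rw [swv]
    exact h.ne _ _ _ _ _ fun h1 => hw ((hxy w).2 h1)

theorem exists_ind {sw : L.Term (Fin 4)} {c0 c1 : L.Functions 0} (D : SwC S sw c0 c1) (P : PA L S)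
    {e : Set P.Ω} (he : P.Cl e) :
    ∃ c : P.A, (∀ w ∈ e, c.1 w = FirstOrder.Language.Structure.funMap c1 ![]) ∧
      ∀ w ∉ e, c.1 w = FirstOrder.Language.Structure.funMap c0 ![] := by
  obtain ⟨c, h1, h2⟩ := exists_patch ⟨sw, c0, c1, D⟩ P he
    (FirstOrder.Language.Structure.funMap c1 ![]) (FirstOrder.Language.Structure.funMap c0 ![])
  exact ⟨c, fun w hw => (h1 w hw).trans (cst_val P c1 w), fun w hw => (h2 w hw).trans (cst_val P c0 w)⟩

theorem cl_compl (D : HasSw L S) (P : PA L S) {e : Set P.Ω} (he : P.Cl e) : P.Cl eᶜ := by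
  obtain ⟨sw, c0, c1, h⟩ := id D
  obtain ⟨c, h1, h2⟩ := exists_ind h P he
  refine ⟨c, FirstOrder.Language.Structure.funMap c0 ![], fun w => ?_⟩
  rw [cst_val]
  constructor
  · exact h2 w
  · intro h3 h4
    exact h.c01 _ (h3.symm.trans (h1 w h4))

theorem cl_inter (D : HasSw L S) (P : PA L S) {e f : Set P.Ω} (he : P.Cl e) (hf : P.Cl f) :
    P.Cl (e ∩ f) := by
  obtain ⟨sw, c0, c1, h⟩ := id D
  obtain ⟨c, h1, h2⟩ := exists_ind h P he
  obtain ⟨d, h3, h4⟩ := exists_patch D P hf c (FirstOrder.Language.Structure.funMap c0 ![])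
  refine ⟨d, FirstOrder.Language.Structure.funMap c1 ![], fun w => ?_⟩
  rw [cst_val]
  by_cases hw : w ∈ f
  · rw [h3 w hw]
    by_cases hw' : w ∈ e
    · rw [h1 w hw']
      simp [hw, hw']
    · rw [h2 w hw']
      simp [hw', h.c01]
  · rw [h4 w hw, cst_val]
    simp [hw, h.c01]

theorem cl_union (D : HasSw L S) (P : PA L S) {e f : Set P.Ω} (he : P.Cl e) (hf : P.Cl f) :
    P.Cl (e ∪ f) := by
  have h := cl_compl D P (cl_inter D P (cl_compl D P he) (cl_compl D P hf))
  rwa [compl_inter, compl_compl, compl_compl] at h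

theorem cl_diff (D : HasSw L S) (P : PA L S) {e f : Set P.Ω} (he : P.Cl e) (hf : P.Cl f) :
    P.Cl (e \ f) := by
  rw [sdiff_eq]
  exact cl_inter D P he (cl_compl D P hf)

theorem cl_empty (D : HasSw L S) (P : PA L S) : P.Cl ∅ := by
  have h := cl_compl D P (cl_univ D P)
  rwa [compl_univ] at h

theorem cl_biInter (D : HasSw L S) (P : PA L S) {α : Type} (s : Finset α) (e : α → Set P.Ω)
    (he : ∀ i ∈ s, P.Cl (e i)) : P.Cl (⋂ i ∈ s, e i) := by
  classical
  induction s using Finset.induction_on with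
  | empty => simpa using cl_univ D P
  | insert i s hi ih =>
    rw [Finset.set_biInter_insert]
    exact cl_inter D P (he i (Finset.mem_insert_self _ _))
      (ih fun j hj => he j (Finset.mem_insert_of_mem hj))

/-- only finitely many functions are needed: patching along a finite partition -/
theorem exists_patch_seq (D : HasSw L S) (P : PA L S) {e : Set P.Ω} (he : P.Cl e) (a b : ℕ → P.A) :
    ∃ c : ℕ → P.A, (∀ j, ∀ w ∈ e, (c j).1 w = (a j).1 w) ∧ ∀ j, ∀ w ∉ e, (c j).1 w = (b j).1 w := by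
  choose c h1 h2 using fun j => exists_patch D P he (a j) (b j)
  exact ⟨c, h1, h2⟩

end VCD
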