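import Pool.Agent.VCD.RN

/-!
# VCD-CX: the Boolean algebras coding subsets of `ℕ`
-/

open Set

namespace VCD

/-- the index set -/
def JJ : Type := Σ n : ℕ, JR (n + 1) × ℕ

instance : Countable JJ := inferInstanceAs (Countable (Σ n : ℕ, JR (n + 1) × ℕ))

/-- the slices of a subset of `JJ` -/
def sc (n l : ℕ) (Y : Set JJ) : Set (JR (n + 1)) := {j | (⟨n, (j, l)⟩ : Σ n : ℕ, JR (n + 1) × ℕ) ∈ Y}

/-- a slice as a subset of `JJ` -/
def ins (n l : ℕ) (Z : Set (JR (n + 1))) : Set JJ :=
  {p | ∃ j ∈ Z, p = (⟨n, (j, l)⟩ : Σ n : ℕ, JR (n + 1) × ℕ)}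

/-- the Boolean algebra -/
def Cinf : Set (Set JJ) := {Y | (∀ n l, sc n l Y ∈ CR (n + 1)) ∧
  ({i : ℕ × ℕ | sc i.1 i.2 Y ≠ ∅}.Finite ∨ {i : ℕ × ℕ | sc i.1 i.2 Y ≠ univ}.Finite)}

/-- the part of `JJ` chosen by `x` -/
def XX (x : ℕ → Bool) : Set JJ := {p | x p.1 = true}

/-- the Boolean algebra of `x` -/
def BX (x : ℕ → Bool) : Set (Set JJ) := {V | ∃ Y ∈ Cinf, V = Y ∩ XX x}

theorem sc_compl (n l : ℕ) (Y : Set JJ) : sc n l Yᶜ = (sc n l Y)ᶜ := rfl

theorem sc_inter (n l : ℕ) (Y Y' : Set JJ) : sc n l (Y ∩ Y') = sc n l Y ∩ sc n l Y' := rfl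

theorem sc_union (n l : ℕ) (Y Y' : Set JJ) : sc n l (Y ∪ Y') = sc n l Y ∪ sc n l Y' := rfl

theorem sc_diff (n l : ℕ) (Y Y' : Set JJ) : sc n l (Y \ Y') = sc n l Y \ sc n l Y' := rfl

theorem sc_mono {n l : ℕ} {Y Y' : Set JJ} (h : Y ⊆ Y') : sc n l Y ⊆ sc n l Y' := fun _ hj => h hj

theorem sc_ins (n l : ℕ) (Z : Set (JR (n + 1))) : sc n l (ins n l Z) = Z := by
  ext j
  constructor
  · rintro ⟨j', hj', h⟩
    have h1 : j = j' := (Prod.ext_iff.1 (eq_of_heq (Sigma.mk.inj h).2)).1
    rw [h1]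
    exact hj'
  · intro hj
    exact ⟨j, hj, rfl⟩

theorem sc_ins_ne {n l n' l' : ℕ} (h : (n', l') ≠ (n, l)) (Z : Set (JR (n + 1))) :
    sc n' l' (ins n l Z) = ∅ := by
  refine eq_empty_of_forall_notMem ?_
  rintro j ⟨j', hj', h1⟩
  apply h
  have h2 : n' = n := congrArg Sigma.fst h1
  subst h2
  have h3 : l' = l := (Prod.ext_iff.1 (eq_of_heq (Sigma.mk.inj h1).2)).2
  rw [h3]

theorem ext_sc {Y Y' : Set JJ} (h : ∀ n l, sc n l Y = sc n l Y') : Y = Y' := by
  ext p
  obtain ⟨n, j, l⟩ := p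
  exact Set.ext_iff.1 (h n l) j

theorem sc_empty (n l : ℕ) : sc n l ∅ = ∅ := rfl

theorem sc_univ (n l : ℕ) : sc n l univ = univ := rfl

theorem Cinf_BAS : BAS Cinf where
  univ := ⟨fun n l => (CR_BAS (n + 1)).univ, Or.inr (by simp [sc_univ])⟩
  compl := by
    rintro Y ⟨h1, h2⟩
    refine ⟨fun n l => (CR_BAS (n + 1)).compl _ (h1 n l), ?_⟩
    rcases h2 with h2 | h2
    · right
      refine h2.subset ?_
      intro i hi h3
      apply hi
      rw [sc_compl, h3, compl_empty]
    · left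
      refine h2.subset ?_
      intro i hi h3
      apply hi
      rw [sc_compl, h3, compl_univ]
  inter := by
    rintro Y ⟨h1, h2⟩ Y' ⟨h1', h2'⟩
    refine ⟨fun n l => (CR_BAS (n + 1)).inter _ (h1 n l) _ (h1' n l), ?_⟩
    rcases h2 with h2 | h2
    · left
      refine h2.subset ?_
      intro i hi h3
      apply hi
      rw [sc_inter, h3, empty_inter]
    · rcases h2' with h2' | h2'
      · left
        refine h2'.subset ?_
        intro i hi h3
        apply hi
        rw [sc_inter, h3, inter_empty]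
      · right
        refine (h2.union h2').subset ?_
        intro i hi
        by_contra hc
        rw [mem_union, not_or, mem_ofPred, mem_ofPred, not_not, not_not] at hc
        apply hi
        rw [sc_inter, hc.1, hc.2, univ_inter]

theorem Cinf_countable : Cinf.Countable := by
  have h0 : {s : Σ i : ℕ × ℕ, Set (JR (i.1 + 1)) | s.2 ∈ CR (s.1.1 + 1)}.Countable := by
    have h1 : (⋃ i : ℕ × ℕ, Sigma.mk i '' CR (i.1 + 1) :
        Set (Σ i : ℕ × ℕ, Set (JR (i.1 + 1)))).Countable :=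
      Set.countable_iUnion fun i => (CR_countable (i.1 + 1)).image _
    refine h1.mono ?_
    rintro ⟨i, V⟩ h
    exact mem_iUnion.2 ⟨i, V, h, rfl⟩
  have h1 : {Y : Set JJ | (∀ n l, sc n l Y ∈ CR (n + 1)) ∧
      {i : ℕ × ℕ | sc i.1 i.2 Y ≠ ∅}.Finite}.Countable := by
    refine Set.MapsTo.countable_of_injOn (f := fun Y : Set JJ =>
      (fun i : ℕ × ℕ => (⟨i, sc i.1 i.2 Y⟩ : Σ i : ℕ × ℕ, Set (JR (i.1 + 1)))) ''
        {i | sc i.1 i.2 Y ≠ ∅}) ?_ ?_ (Set.countable_ofPred_finite_subset h0)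
    · rintro Y ⟨h1, h2⟩
      refine ⟨h2.image _, ?_⟩
      rintro _ ⟨i, _, rfl⟩
      exact h1 i.1 i.2
    · rintro Y _ Y' _ h
      have key : ∀ Y Y' : Set JJ, (fun i : ℕ × ℕ => (⟨i, sc i.1 i.2 Y⟩ :
          Σ i : ℕ × ℕ, Set (JR (i.1 + 1)))) '' {i | sc i.1 i.2 Y ≠ ∅} =
          (fun i : ℕ × ℕ => (⟨i, sc i.1 i.2 Y'⟩ : Σ i : ℕ × ℕ, Set (JR (i.1 + 1)))) ''
            {i | sc i.1 i.2 Y' ≠ ∅} → ∀ i : ℕ × ℕ, sc i.1 i.2 Y ≠ ∅ →
              sc i.1 i.2 Y' = sc i.1 i.2 Y := by
        intro Y Y' h i hi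
        have h2 : (⟨i, sc i.1 i.2 Y⟩ : Σ i : ℕ × ℕ, Set (JR (i.1 + 1))) ∈ (fun i : ℕ × ℕ =>
            (⟨i, sc i.1 i.2 Y⟩ : Σ i : ℕ × ℕ, Set (JR (i.1 + 1)))) '' {i | sc i.1 i.2 Y ≠ ∅} :=
          ⟨i, hi, rfl⟩
        rw [h] at h2
        obtain ⟨i', _, h3⟩ := h2
        have h4 : i' = i := congrArg Sigma.fst h3
        subst h4
        simpa using h3
      apply ext_sc
      intro n l
      by_cases h2 : sc n l Y = ∅
      · by_cases h3 : sc n l Y' = ∅
        · rw [h2, h3]
        · exact key Y' Y h.symm (n, l) h3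
      · exact (key Y Y' h (n, l) h2).symm
  refine (h1.union (h1.image compl)).mono ?_
  rintro Y ⟨h2, h3 | h3⟩
  · exact Or.inl ⟨h2, h3⟩
  · right
    refine ⟨Yᶜ, ⟨fun n l => (CR_BAS (n + 1)).compl _ (h2 n l), h3.subset ?_⟩, compl_compl Y⟩
    intro i hi h4
    apply hi
    rw [sc_compl, h4, compl_univ]

theorem ins_mem {n l : ℕ} {Z : Set (JR (n + 1))} (h : Z ∈ CR (n + 1)) : ins n l Z ∈ Cinf := by
  refine ⟨fun n' l' => ?_, Or.inl ((Set.finite_singleton (n, l)).subset ?_)⟩
  · by_cases h1 : (n', l') = (n, l)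
    · obtain ⟨rfl, rfl⟩ := Prod.ext_iff.1 h1
      rw [sc_ins]
      exact h
    · rw [sc_ins_ne h1]
      exact (CR_BAS _).empty
  · rintro ⟨n', l'⟩ hi
    by_contra h1
    exact hi (sc_ins_ne h1 Z)

theorem BX_RS (x : ℕ → Bool) : RS (BX x) where
  empty := ⟨∅, Cinf_BAS.empty, (empty_inter _).symm⟩
  union := by
    rintro _ ⟨Y, hY, rfl⟩ _ ⟨Y', hY', rfl⟩
    exact ⟨Y ∪ Y', Cinf_BAS.union hY hY', (union_inter_distrib_right _ _ _).symm⟩
  diff := by
    rintro _ ⟨Y, hY, rfl⟩ _ ⟨Y', hY', rfl⟩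
    refine ⟨Y \ Y', Cinf_BAS.diff hY hY', ?_⟩
    ext p
    simp only [mem_sdiff, mem_inter_iff]
    tauto

theorem ins_subset_XX {x : ℕ → Bool} {n : ℕ} (hx : x n = true) (l : ℕ) (Z : Set (JR (n + 1))) :
    ins n l Z ⊆ XX x := by
  rintro p ⟨j, _, rfl⟩
  exact hx

theorem ins_PM {x : ℕ → Bool} {n : ℕ} (hx : x n = true) (l : ℕ) :
    PM (CR (n + 1)) (BX x) (ins n l) where
  maps Z hZ := ⟨ins n l Z, ins_mem hZ, (inter_eq_left.2 (ins_subset_XX hx l Z)).symm⟩
  union Z _ Z' _ := by
    ext p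
    constructor
    · rintro ⟨j, hj | hj, rfl⟩
      · exact Or.inl ⟨j, hj, rfl⟩
      · exact Or.inr ⟨j, hj, rfl⟩
    · rintro (⟨j, hj, rfl⟩ | ⟨j, hj, rfl⟩)
      · exact ⟨j, Or.inl hj, rfl⟩
      · exact ⟨j, Or.inr hj, rfl⟩
  diff Z _ Z' _ := by
    apply ext_sc
    intro n' l'
    rw [sc_diff]
    by_cases h1 : (n', l') = (n, l)
    · obtain ⟨rfl, rfl⟩ := Prod.ext_iff.1 h1
      rw [sc_ins, sc_ins, sc_ins]
    · rw [sc_ins_ne h1, sc_ins_ne h1, sc_ins_ne h1, sdiff_self]
  lift := by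
    rintro Z hZ _ ⟨Y, hY, rfl⟩ hsub
    refine ⟨sc n l (Y ∩ XX x), ?_, ?_, ?_⟩
    · have h1 : sc n l (Y ∩ XX x) = sc n l Y := by
        ext j
        exact ⟨fun h => h.1, fun h => ⟨h, hx⟩⟩
      rw [h1]
      exact hY.1 n l
    · have h1 := sc_mono (n := n) (l := l) hsub
      rwa [sc_ins] at h1
    · apply ext_sc
      intro n' l'
      by_cases h1 : (n', l') = (n, l)
      · obtain ⟨rfl, rfl⟩ := Prod.ext_iff.1 h1
        rw [sc_ins]
      · have h2 := sc_mono (n := n') (l := l') hsub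
        rw [sc_ins_ne h1] at h2
        rw [sc_ins_ne h1, subset_empty_iff.1 h2]

theorem ins_empty_iff (n l : ℕ) (Z : Set (JR (n + 1))) : Z = ∅ ↔ ins n l Z = ∅ := by
  constructor
  · intro h
    rw [h]
    refine eq_empty_of_forall_notMem ?_
    rintro p ⟨j, hj, _⟩
    exact hj
  · intro h
    rw [← sc_ins n l Z, h, sc_empty]

/-- the values of the invariants -/
theorem CX_pp {x : ℕ → Bool} {Y : Set JJ} (hY : Y ∈ Cinf) (m : ℕ) :
    PP (BX x) (fun v => v = ∅) m (Y ∩ XX x) ↔
      x m = true ∧ ∃ l, PP (CR (m + 1)) (fun v => v = ∅) m (sc m l Y) := by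
  have hRS := BX_RS x
  constructor
  · rintro ⟨y, hy, sy, h1, h2⟩
    obtain ⟨Y', hY', rfl⟩ := hy
    have key : ∃ n l, x n = true ∧ ¬ ((Plus (BX x))^[m + 1] (fun v => v = ∅)) (ins n l (sc n l Y')) := by
      by_contra hc
      push Not at hc
      apply h1
      have h1' : ∀ n l, x n = true → Plus (BX x) ((Plus (BX x))^[m] (fun v => v = ∅))
          (ins n l (sc n l Y')) := by
        intro n l hn
        have h3 := hc n l hn
        rw [Function.iterate_succ_apply'] at h3
        exact h3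
      by_cases hx : ∃ n, x n = true
      · obtain ⟨n0, hn0⟩ := hx
        rcases hY'.2 with h3 | h3
        · -- finitely many slices
          have main : ∀ (s : Finset (ℕ × ℕ)) (V : Set JJ), V ∈ BX x → V ⊆ Y' ∩ XX x →
              (∀ n l, (n, l) ∉ s → sc n l V = ∅) → (∀ n l, (n, l) ∈ s → x n = true →
                sc n l V = sc n l Y') →
              Plus (BX x) ((Plus (BX x))^[m] (fun v => v = ∅)) V := by
            classical
            intro s
            induction s using Finset.induction_on with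
            | empty =>
              intro V hV _ h4 _
              have h5 : V = ∅ := by
                apply ext_sc
                intro n l
                rw [h4 n l (Finset.notMem_empty _), sc_empty]
              rw [h5]
              refine Plus.base _ hRS.empty ?_
              exact ((Bel_PM (B := BX x) univ).iter (Bel_RS hRS univ) hRS m (fun v => v = ∅)
                (fun v => v = ∅) rfl fun _ _ => Iff.rfl).2 ∅ ⟨hRS.empty, empty_subset _⟩ |>.1
                  ((Bel_PM (B := BX x) univ).iter (Bel_RS hRS univ) hRS m (fun v => v = ∅)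
                (fun v => v = ∅) rfl fun _ _ => Iff.rfl).1
            | insert i s hi ih =>
              intro V hV sV h4 h5
              obtain ⟨n, l⟩ := i
              by_cases hn : x n = true
              · have h6 : ins n l (sc n l Y') ∈ BX x := (ins_PM hn l).maps _ (hY'.1 n l)
                have h7 := ih (V \ ins n l (sc n l Y')) (hRS.diff V hV _ h6)
                  (sdiff_subset.trans sV) (by
                    intro n' l' h8
                    rw [sc_diff]
                    by_cases h9 : (n', l') = (n, l)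
                    · obtain ⟨rfl, rfl⟩ := Prod.ext_iff.1 h9
                      rw [sc_ins, h5 n' l' (Finset.mem_insert_self _ _) hn, sdiff_self]
                    · rw [h4 n' l' (by
                        rw [Finset.mem_insert, not_or]
                        exact ⟨h9, h8⟩), empty_sdiff]) (by
                    intro n' l' h8 hn'
                    have h9 : (n', l') ≠ (n, l) := fun h => hi (h ▸ h8)
                    rw [sc_diff, sc_ins_ne h9, sdiff_empty]
                    exact h5 n' l' (Finset.mem_insert_of_mem h8) hn')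
                have h8 := Plus.sup _ _ (h1' n l hn) h7
                have h9 : ins n l (sc n l Y') ⊆ V := by
                  rintro p ⟨j, hj, rfl⟩
                  rw [← h5 n l (Finset.mem_insert_self _ _) hn] at hj
                  exact hj
                rwa [union_sdiff_cancel h9] at h8
              · refine ih V hV sV (fun n' l' h8 => ?_) fun n' l' h8 hn' =>
                  h5 n' l' (Finset.mem_insert_of_mem h8) hn'
                by_cases h9 : (n', l') = (n, l)
                · obtain ⟨rfl, rfl⟩ := Prod.ext_iff.1 h9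
                  refine eq_empty_of_forall_notMem fun j hj => ?_
                  exact hn (sV hj).2
                · exact h4 n' l' (by
                    rw [Finset.mem_insert, not_or]
                    exact ⟨h9, h8⟩)
          refine main h3.toFinset (Y' ∩ XX x) ⟨Y', hY', rfl⟩ Subset.rfl (fun n l h4 => ?_)
            fun n l _ hn => ?_
          · rw [Set.Finite.mem_toFinset, mem_ofPred, not_not] at h4
            rw [sc_inter, h4, empty_inter]
          · ext j
            exact ⟨fun h => h.1, fun h => ⟨h, hn⟩⟩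
        · -- some slice is full
          exfalso
          have h4 : (range fun l : ℕ => (n0, l)).Infinite :=
            Set.infinite_range_of_injective fun l l' hl => (Prod.ext_iff.1 hl).2
          obtain ⟨_, ⟨l, rfl⟩, h5⟩ := (h4.sdiff h3).nonempty
          rw [mem_ofPred, not_not] at h5
          have h6 := hc n0 l hn0
          rw [show sc n0 l Y' = univ from h5] at h6
          have h7 := ((ins_PM hn0 l).iter (CR_BAS (n0 + 1)).RS hRS (m + 1) (fun v => v = ∅)
            (fun v => v = ∅) rfl fun Z _ => ins_empty_iff n0 l Z).2 univ (CR_BAS (n0 + 1)).univ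
          exact CR_not (n0 + 1) (m + 1) (h7.2 h6)
      · have h5 : Y' ∩ XX x = ∅ := by
          refine eq_empty_of_forall_notMem ?_
          rintro p ⟨_, hp⟩
          exact hx ⟨_, hp⟩
        rw [h5]
        refine Plus.base _ hRS.empty ?_
        exact ((Bel_PM (B := BX x) univ).iter (Bel_RS hRS univ) hRS m (fun v => v = ∅)
          (fun v => v = ∅) rfl fun _ _ => Iff.rfl).2 ∅ ⟨hRS.empty, empty_subset _⟩ |>.1
            ((Bel_PM (B := BX x) univ).iter (Bel_RS hRS univ) hRS m (fun v => v = ∅)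
          (fun v => v = ∅) rfl fun _ _ => Iff.rfl).1
    obtain ⟨n, l, hn, h3⟩ := key
    have h4 : ins n l (sc n l Y') ∈ BX x := (ins_PM hn l).maps _ (hY'.1 n l)
    have h5 : ins n l (sc n l Y') ⊆ Y' ∩ XX x := by
      rintro p ⟨j, hj, rfl⟩
      exact ⟨hj, hn⟩
    have h6 : PP (BX x) (fun v => v = ∅) m (ins n l (sc n l Y')) := by
      refine ⟨_, h4, Subset.rfl, ?_, fun z hz sz => h2 z hz (sz.trans h5)⟩
      rw [Function.iterate_succ_apply'] at h3
      exact h3
    have h7 := ((ins_PM hn l).pp_iff (I := fun v => v = ∅) (I' := fun v => v = ∅)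
      (CR_BAS (n + 1)).RS hRS rfl (fun Z _ => ins_empty_iff n l Z) m (hY'.1 n l)).2 h6
    have h8 := CR_only n m _ (hY'.1 n l) h7
    subst h8
    refine ⟨hn, l, PP_mono h7 ?_⟩
    intro j hj
    exact (sy (show _ ∈ Y' ∩ XX x from ⟨hj, hn⟩)).1
  · rintro ⟨hx, l, h1⟩
    have h2 := ((ins_PM hx l).pp_iff (I := fun v => v = ∅) (I' := fun v => v = ∅)
      (CR_BAS (m + 1)).RS hRS rfl (fun Z _ => ins_empty_iff m l Z) m (hY.1 m l)).1 h1
    refine PP_mono h2 ?_
    rintro p ⟨j, hj, rfl⟩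
    exact ⟨hj, hx⟩

end VCD
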