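import Pool.Agent.VCD.PN
import Pool.Agent.VCR.Defs
import Pool.Agent.VCR.Num

/-!
# VCD-CodeN: a continuous family of structures on `ℕ` coding the algebras `N_x`
-/

open Set FirstOrder

namespace VCD

variable {L : FirstOrder.Language.{0, 0}} {ι : Type} {S : ι → Type} [∀ i, L.Structure (S i)]

theorem Cl_countable {P : PA L S} (hA : P.A.Countable) : {g | P.Cl g}.Countable := by
  have := hA.to_subtype
  refine (Set.countable_range fun p : P.A × P.A => {w | p.1.1 w = p.2.1 w}).mono ?_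
  rintro g ⟨a, b, h⟩
  exact ⟨(a, b), Set.ext fun w => (h w).symm⟩

theorem GG_countable {P : PA L S} (hA : P.A.Countable) (e : Set P.Ω) : Countable (GG P e) := by
  have h1 : {g : Set P.Ω | P.Cl g ∧ g ⊆ e ∧ P.Good g}.Countable :=
    (Cl_countable hA).mono fun g hg => hg.1
  exact h1.to_subtype

/-- prefixing `true` -/
def cs (x : ℕ → Bool) : ℕ → Bool
  | 0 => true
  | n + 1 => x n

theorem cs_XX (x : ℕ → Bool) : (XX (cs x)).Nonempty := by
  obtain ⟨j⟩ := JR_nonempty 1
  exact ⟨(⟨0, (j, 0)⟩ : Σ n : ℕ, JR (n + 1) × ℕ), rfl⟩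

section

variable {P : PA L S} {q : Q L S} {e : Set P.Ω} {a : ℕ → P.A}

/-- two members of `HH`: equality holds over some `Y` in `C`, up to finitely many blocks -/
theorem HH_pair {J : Type} {C : Set (Set J)} (hC : BAS C) (ob : P.Ob q e a)
    {h h' : Option (J × GG P e × ℕ) → P.A} (hh : h ∈ HH P q e a C) (hh' : h' ∈ HH P q e a C) :
    ∃ Y ∈ C, ∃ E : Set (J × GG P e × ℕ), E.Finite ∧
      ∀ u ∉ E, ∀ w ∈ u.2.1.1, ((h (some u)).1 w = (h' (some u)).1 w ↔ u.1 ∈ Y) := by
  obtain ⟨σ, h1, h2, h3⟩ := hh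
  obtain ⟨σ', h1', h2', h3'⟩ := hh'
  obtain ⟨Y, hY⟩ : ∃ Y, Y = (fun j => (σ j, σ' j)) ⁻¹' {y : P.A × P.A | ∀ w ∈ e, y.1.1 w = y.2.1 w} :=
    ⟨_, rfl⟩
  have hYC : Y ∈ C := by
    rw [hY]
    exact (Simple.pair hC h1 h1').2 _
  have hterm : ∀ j, ∀ w ∈ e, ((σ j).1 w = (σ' j).1 w ↔ j ∈ Y) := by
    intro j w hw
    obtain ⟨s, hs⟩ := h2 j
    obtain ⟨s', hs'⟩ := h2' j
    have key : ∀ w ∈ e, ((σ j).1 w = (σ' j).1 w ↔ (s, s') ∈ q.ker) := by
      intro w hw
      rw [hs, hs', realize_val, realize_val, ← ob.2 w hw, mem_ker]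
    constructor
    · intro h4
      rw [hY]
      intro w' hw'
      exact (key w' hw').2 ((key w hw).1 h4)
    · intro h4
      rw [hY] at h4
      exact h4 w hw
  refine ⟨Y, hYC, _, h3.union h3', ?_⟩
  intro u hc w hw
  rw [mem_union, not_or] at hc
  have e1 : h (some u) = σ u.1 := by
    by_contra h4
    exact hc.1 h4
  have e2 : h' (some u) = σ' u.1 := by
    by_contra h4
    exact hc.2 h4
  rw [e1, e2]
  exact hterm u.1 w (u.2.1.2.2.1 hw)

/-- the clopen set given by two members of `HH` -/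
def eqs {J : Type} {C : Set (Set J)} (hC : BAS C) (X : Set J)
    (h h' : Option (J × GG P e × ℕ) → P.A) : Set (NX P q e a hC X).Ω :=
  {p | (h p.1.1).1 p.1.2 = (h' p.1.1).1 p.1.2}

theorem sl_eqs {J : Type} {C : Set (Set J)} (hC : BAS C) (X : Set J)
    (h h' : Option (J × GG P e × ℕ) → P.A) {b : Option (J × GG P e × ℕ)} (hb : okb X b) :
    sl b (eqs (q := q) (a := a) hC X h h') = {w | w ∈ blk P e b ∧ (h b).1 w = (h' b).1 w} := by
  ext w
  constructor
  · intro hw
    have hw' := sl_subset b _ hw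
    rw [mem_sl hw' hb] at hw
    exact ⟨hw', hw⟩
  · rintro ⟨hw', hw⟩
    rw [mem_sl hw' hb]
    exact hw

theorem cm_eqs {J : Type} {C : Set (Set J)} (hC : BAS C) (ob : P.Ob q e a)
    (hne : ∃ g : GG P e, g.1.Nonempty)
    {h h' : Option (J × GG P e × ℕ) → P.A} (hh : h ∈ HH P q e a C) (hh' : h' ∈ HH P q e a C) :
    ∃ Y ∈ C, ∀ X : Set J, cm (eqs (q := q) (a := a) hC X h h') = Y ∩ X := by
  classical
  obtain ⟨Y, hY, E, hfin, hE⟩ := HH_pair hC ob hh hh'
  refine ⟨Y, hY, fun X => cm_eq_of hne (hfin.subset ?_)⟩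
  rintro u ⟨hu1, hu2⟩
  by_contra hu3
  have hc := hE u hu3
  apply hu2
  rw [sl_eqs hC X h h' (fun u' hu' => by
    have : u = u' := Option.some.inj hu'
    rw [← this]
    exact hu1), std]
  by_cases hj : u.1 ∈ Y
  · rw [if_pos hj]
    ext w
    exact ⟨fun hw => hw.1, fun hw => ⟨hw, (hc w hw).2 hj⟩⟩
  · rw [if_neg hj]
    refine eq_empty_of_forall_notMem ?_
    rintro w ⟨hw, hw'⟩
    exact hj ((hc w hw).1 hw')

theorem nxel_eq {J : Type} {C : Set (Set J)} {hC : BAS C} {X : Set J}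
    {h h' : Option (J × GG P e × ℕ) → P.A} (hh : h ∈ HH P q e a C) (hh' : h' ∈ HH P q e a C) :
    nxel (hC := hC) (X := X) h hh = nxel h' hh' ↔
      ∀ b, okb X b → ∀ w ∈ blk P e b, (h b).1 w = (h' b).1 w := by
  constructor
  · intro h1 b hb w hw
    exact congrArg (fun z : (NX P q e a hC X).A => z.1 (npt hw hb)) h1
  · intro h1
    apply Subtype.ext
    funext p
    exact h1 p.1.1 p.2.2 p.1.2 p.2.1

/-- equality of two members of `HH` is a clopen condition on `x` -/
private theorem clopen_eq (ob : P.Ob q e a) (hne : ∃ g : GG P e, g.1.Nonempty)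
    {h h' : Option (JJ × GG P e × ℕ) → P.A} (hh : h ∈ HH P q e a Cinf)
    (hh' : h' ∈ HH P q e a Cinf) :
    IsClopen {x : ℕ → Bool | nxel (hC := Cinf_BAS) (X := XX (cs x)) h hh = nxel h' hh'} := by
  classical
  obtain ⟨Y, hY, E, hfin, hE⟩ := HH_pair Cinf_BAS ob hh hh'
  obtain ⟨Dd, hDd⟩ : ∃ Dd : Set (JJ × GG P e × ℕ),
      Dd = {u | ∃ w ∈ u.2.1.1, (h (some u)).1 w ≠ (h' (some u)).1 w} := ⟨_, rfl⟩
  obtain ⟨N, hN⟩ : ∃ N : Set ℕ, N = (fun u : JJ × GG P e × ℕ => u.1.1) '' Dd := ⟨_, rfl⟩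
  have hmem : ∀ x : ℕ → Bool, (nxel (hC := Cinf_BAS) (X := XX (cs x)) h hh = nxel h' hh' ↔
      (∀ w ∈ eᶜ, (h none).1 w = (h' none).1 w) ∧ ∀ n ∈ N, cs x n = false) := by
    intro x
    rw [nxel_eq]
    constructor
    · intro h1
      refine ⟨fun w hw => h1 none okb_none w hw, ?_⟩
      intro n hn
      rw [hN] at hn
      obtain ⟨u, hu, rfl⟩ := hn
      rw [hDd] at hu
      obtain ⟨w, hw, hw'⟩ := hu
      by_contra h2
      rw [Bool.not_eq_false] at h2
      refine hw' (h1 (some u) ?_ w hw)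
      intro u' hu'
      rw [← Option.some.inj hu']
      exact h2
    · rintro ⟨h1, h2⟩ b hb w hw
      cases b with
      | none => exact h1 w hw
      | some u =>
        by_contra h3
        have h4 : u.1 ∈ XX (cs x) := hb u rfl
        have h5 : cs x u.1.1 = true := h4
        rw [h2 u.1.1 (by
          rw [hN, hDd]
          exact ⟨u, ⟨w, hw, h3⟩, rfl⟩)] at h5
        cases h5
  have hNN : N.Finite ∨ 0 ∈ N := by
    rcases hY.2 with h1 | h1
    · right
      obtain ⟨j⟩ := JR_nonempty 1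
      obtain ⟨g0, hg0⟩ := hne
      have h2 : (range fun l : ℕ => ((0 : ℕ), l)).Infinite :=
        Set.infinite_range_of_injective fun l l' hl => (Prod.ext_iff.1 hl).2
      obtain ⟨_, ⟨l, rfl⟩, h3⟩ := (h2.sdiff h1).nonempty
      rw [mem_ofPred, not_not] at h3
      have h4 : (range fun m : ℕ => (((⟨0, (j, l)⟩ : Σ n : ℕ, JR (n + 1) × ℕ) : JJ), g0, m)).Infinite :=
        Set.infinite_range_of_injective fun m m' hm =>
          (Prod.ext_iff.1 (Prod.ext_iff.1 hm).2).2
      obtain ⟨_, ⟨m, rfl⟩, h5⟩ := (h4.sdiff hfin).nonempty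
      obtain ⟨w, hw⟩ := hg0
      rw [hN, hDd]
      refine ⟨(((⟨0, (j, l)⟩ : Σ n : ℕ, JR (n + 1) × ℕ) : JJ), g0, m), ⟨w, hw, fun h6 => ?_⟩, rfl⟩
      have h7 := (hE _ h5 w hw).1 h6
      have h8 : j ∈ sc 0 l Y := h7
      have h9 : sc 0 l Y = ∅ := h3
      rw [h9] at h8
      exact h8
    · left
      refine ((h1.image Prod.fst).union (hfin.image fun u => u.1.1)).subset ?_
      intro n hn
      rw [hN] at hn
      obtain ⟨u, hu, rfl⟩ := hn
      by_cases hF : u ∈ E
      · exact Or.inr ⟨u, hF, rfl⟩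
      · left
        rw [hDd] at hu
        obtain ⟨w, hw, hw'⟩ := hu
        have h2 : u.1 ∉ Y := fun h3 => hw' ((hE u hF w hw).2 h3)
        obtain ⟨⟨n, j, l⟩, g, m⟩ := u
        refine ⟨(n, l), fun h3 => h2 ?_, rfl⟩
        have h4 : sc n l Y = univ := h3
        have h5 : j ∈ sc n l Y := by
          rw [h4]
          exact mem_univ j
        exact h5
  have hset : {x : ℕ → Bool | nxel (hC := Cinf_BAS) (X := XX (cs x)) h hh = nxel h' hh'} =
      {x : ℕ → Bool | (∀ w ∈ eᶜ, (h none).1 w = (h' none).1 w) ∧ ∀ n ∈ N, cs x n = false} := by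
    ext x
    exact hmem x
  rw [hset]
  by_cases hA0 : ∀ w ∈ eᶜ, (h none).1 w = (h' none).1 w
  · rcases hNN with h1 | h1
    · have h2 : {x : ℕ → Bool | (∀ w ∈ eᶜ, (h none).1 w = (h' none).1 w) ∧ ∀ n ∈ N, cs x n = false} =
          ⋂ n ∈ N, {x : ℕ → Bool | cs x n = false} := by
        ext x
        simp only [mem_iInter]
        exact ⟨fun h3 => h3.2, fun h3 => ⟨hA0, h3⟩⟩
      rw [h2]
      refine h1.isClopen_biInter fun n _ => ?_
      cases n with
      | zero =>
        have h3 : {x : ℕ → Bool | cs x 0 = false} = ∅ := by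
          refine eq_empty_of_forall_notMem ?_
          intro x hx
          have hx' : true = false := hx
          cases hx'
        rw [h3]
        exact isClopen_empty
      | succ n =>
        exact (isClopen_discrete {false}).preimage (continuous_apply n)
    · have h2 : {x : ℕ → Bool | (∀ w ∈ eᶜ, (h none).1 w = (h' none).1 w) ∧ ∀ n ∈ N, cs x n = false} = ∅ := by
        refine eq_empty_of_forall_notMem ?_
        rintro x ⟨_, h3⟩
        have h4 : true = false := h3 0 h1
        cases h4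
      rw [h2]
      exact isClopen_empty
  · have h2 : {x : ℕ → Bool | (∀ w ∈ eᶜ, (h none).1 w = (h' none).1 w) ∧ ∀ n ∈ N, cs x n = false} = ∅ := by
      refine eq_empty_of_forall_notMem ?_
      rintro x ⟨h3, _⟩
      exact hA0 h3
    rw [h2]
    exact isClopen_empty

theorem NX_infinite (D : HasSw L S) [Finite ι] [∀ i, Finite (S i)] (hc : Crit P q e a) {J : Type}
    {C : Set (Set J)} {hC : BAS C} {X : Set J} (hX : X.Nonempty) : Infinite (NX P q e a hC X).A := by
  obtain ⟨g0, hg0⟩ := hc.exists_nonempty D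
  obtain ⟨j, hj⟩ := hX
  have hok : ∀ l : ℕ, okb X (some (j, g0, l)) := by
    intro l u hu
    rw [← Option.some.inj hu]
    exact hj
  have h1 : (range fun l : ℕ => lft (a := a) (hC := hC) (X := X) (q := q) (some (j, g0, l)) g0.1).Infinite := by
    refine Set.infinite_range_of_injective fun l l' hl => ?_
    by_contra hne
    have h2 : sl (some (j, g0, l)) (lft (a := a) (hC := hC) (X := X) (q := q) (some (j, g0, l)) g0.1) =
        g0.1 := sl_lft (hok l) Subset.rfl
    have h3 : sl (some (j, g0, l)) (lft (a := a) (hC := hC) (X := X) (q := q) (some (j, g0, l')) g0.1) =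
        ∅ := sl_lft_ne (fun h => hne (by
          have h4 := Option.some.inj h
          exact (Prod.ext_iff.1 (Prod.ext_iff.1 h4).2).2)) _
    have h4 : lft (a := a) (hC := hC) (X := X) (q := q) (some (j, g0, l)) g0.1 =
      lft (a := a) (hC := hC) (X := X) (q := q) (some (j, g0, l')) g0.1 := hl
    rw [h4, h3] at h2
    rw [← h2] at hg0
    exact Set.not_nonempty_empty hg0
  by_contra hfin
  rw [not_infinite_iff_finite] at hfin
  apply h1
  have h2 : (range fun p : (NX P q e a hC X).A × (NX P q e a hC X).A =>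
      {w | p.1.1 w = p.2.1 w}).Finite := Set.finite_range _
  refine h2.subset ?_
  rintro _ ⟨l, rfl⟩
  obtain ⟨v, v', hv⟩ := lft_cl (hC := hC) (X := X) (a := a) (q := q) D (hok l) g0.2.1 (Subset.refl g0.1)
  exact ⟨(v, v'), Set.ext fun w => (hv w).symm⟩

theorem exists_code (D : HasSw L S) [Finite ι] [∀ i, Finite (S i)]
    (hrel : ∀ n, IsEmpty (L.Relations n)) (hc : Crit P q e a) (hA : P.A.Countable) :
    ∃ s : (ℕ → Bool) → VCR.Str L, Continuous s ∧ ∀ x, Nonempty (@FirstOrder.Language.Equiv L ℕ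
      (NX P q e a Cinf_BAS (XX (cs x))).A (VCR.toStructure (s x)) _) := by
  have hGG := GG_countable hA e
  have hne := hc.exists_nonempty D
  have hHc : (HH P q e a Cinf).Countable := HH_countable hA Cinf_countable
  have hHn : (HH P q e a Cinf).Nonempty := by
    obtain ⟨v⟩ := nonempty_el D (NX P q e a Cinf_BAS (XX fun _ => true))
    obtain ⟨h, hh, _⟩ := nx_rep v
    exact ⟨h, hh⟩
  obtain ⟨hh, hhr⟩ := hHc.exists_eq_range hHn
  have hmem : ∀ i, hh i ∈ HH P q e a Cinf := by
    intro i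
    rw [hhr]
    exact ⟨i, rfl⟩
  obtain ⟨el, hel⟩ : ∃ el : ∀ x : ℕ → Bool, ℕ → (NX P q e a Cinf_BAS (XX (cs x))).A,
      ∀ x i, el x i = nxel (hh i) (hmem i) := ⟨fun x i => nxel (hh i) (hmem i), fun _ _ => rfl⟩
  have hsurj : ∀ x v, ∃ i, el x i = v := by
    intro x v
    obtain ⟨h, h1, h2⟩ := nx_rep v
    have h3 := h1
    rw [hhr] at h3
    obtain ⟨i, rfl⟩ := h3
    exact ⟨i, (hel x i).trans h2.symm⟩
  have hE : ∀ x : ℕ → Bool, Equivalence fun i j => el x i = el x j := fun x =>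
    ⟨fun _ => rfl, fun h => h.symm, fun h1 h2 => h1.trans h2⟩
  have hinf : ∀ x (n : ℕ), ∃ j, ∀ i < n, ¬ el x i = el x j := by
    intro x n
    have := NX_infinite (hC := Cinf_BAS) D hc (cs_XX x)
    obtain ⟨v, hv⟩ := Set.Infinite.exists_notMem_finset
      (Set.infinite_univ (α := (NX P q e a Cinf_BAS (XX (cs x))).A))
      (Set.Finite.toFinset ((Set.finite_lt_nat n).image (el x)))
    obtain ⟨j, hj⟩ := hsurj x v
    refine ⟨j, fun i hi h => hv.2 ?_⟩
    rw [Set.Finite.mem_toFinset]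
    exact ⟨i, hi, h.trans hj⟩
  have hloc : ∀ i j, IsClopen {x | el x i = el x j} := by
    intro i j
    have h1 := clopen_eq hc.ob hne (hmem i) (hmem j)
    have h2 : {x | el x i = el x j} = {x : ℕ → Bool | nxel (hC := Cinf_BAS) (X := XX (cs x))
        (hh i) (hmem i) = nxel (hh j) (hmem j)} := by
      ext x
      rw [mem_ofPred, mem_ofPred, hel, hel]
    rw [h2]
    exact h1
  obtain ⟨ν, κ, hν, hκ, hκν, hEκ⟩ := VCR.exists_numbering (fun x i j => el x i = el x j) hE hinf hloc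
  have hfun : ∀ (n : ℕ) (F : L.Functions n) (v : Fin n → ℕ), ∃ j, ∀ x,
      el x j = FirstOrder.Language.Structure.funMap F fun l => el x (v l) := by
    intro n F v
    have h1 := HH_fun P q e a Cinf_BAS F (fun l => hh (v l)) fun l => hmem (v l)
    have h2 := h1
    rw [hhr] at h2
    obtain ⟨j, hj⟩ := h2
    refine ⟨j, fun x => ?_⟩
    apply Subtype.ext
    funext p
    rw [hel]
    show (hh j p.1.1).1 p.1.2 = FirstOrder.Language.Structure.funMap F fun l => (el x (v l)).1 p
    have h3 : ∀ l, (el x (v l)).1 p = (hh (v l) p.1.1).1 p.1.2 := by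
      intro l
      rw [hel]
      rfl
    simp only [h3]
    rw [hj]
    rfl
  choose Jf hJf using hfun
  have nb : ∀ (n : ℕ) (v : Fin n → ℕ) (x₀ : ℕ → Bool), ∀ᶠ x in nhds x₀,
      (fun l => ν x (v l)) = fun l => ν x₀ (v l) := by
    intro n v x₀
    have h1 : ∀ᶠ x in nhds x₀, ∀ l, ν x (v l) = ν x₀ (v l) := by
      rw [Filter.eventually_all]
      intro l
      exact (hν (v l)).continuousAt.eventually ((isOpen_discrete {ν x₀ (v l)}).mem_nhds rfl)
    exact h1.mono fun x hx => funext hx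
  refine ⟨fun x => (fun n f v => κ x (Jf n f (fun l => ν x (v l))), fun _ _ _ => false), ?_, ?_⟩
  · refine Continuous.prodMk ?_ continuous_const
    refine continuous_pi fun n => continuous_pi fun f => continuous_pi fun v => ?_
    rw [continuous_iff_continuousAt]
    intro x₀
    refine (hκ (Jf n f (fun l => ν x₀ (v l)))).continuousAt.congr ?_
    filter_upwards [nb n v x₀] with x hx
    rw [hx]
  · intro x
    have hinv : ∀ a, el x (ν x (κ x a)) = el x a := fun a => (hEκ x _ _).2 (hκν x _)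
    have bij : Function.Bijective fun i => el x (ν x i) := by
      constructor
      · intro i j h
        have h1 := (hEκ x (ν x i) (ν x j)).1 h
        rwa [hκν, hκν] at h1
      · intro v
        obtain ⟨a, ha⟩ := hsurj x v
        exact ⟨κ x a, (hinv a).trans ha⟩
    refine ⟨@FirstOrder.Language.Equiv.mk L ℕ (NX P q e a Cinf_BAS (XX (cs x))).A
      (VCR.toStructure _) _ (Equiv.ofBijective _ bij) ?_ ?_⟩
    · intro n f v
      show el x (ν x (κ x (Jf n f (fun l => ν x (v l))))) = _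
      rw [hinv, hJf]
      rfl
    · intro n r
      exact (hrel n).elim r

end

end VCD
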