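import Pool.Agent.VCD.Good

/-!
# VCD-CritB: below a minimal bad object there are infinitely many good types
-/

open Set FirstOrder

namespace VCD

variable {L : FirstOrder.Language.{0, 0}} {ι : Type} {S : ι → Type} [∀ i, L.Structure (S i)]

private theorem sums_finite {M κ : Type} [AddCommMonoid M] [DecidableEq κ] (W : Set M)
    (hW : W.Finite) (s : Finset κ) :
    {t : M | ∃ f : κ → M, (∀ i ∈ s, f i ∈ W) ∧ t = ∑ i ∈ s, f i}.Finite := by
  induction s using Finset.induction_on with
  | empty =>
    refine (Set.finite_singleton (0 : M)).subset ?_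
    rintro t ⟨f, -, rfl⟩
    simp
  | insert j s hj ih =>
    refine ((hW.prod ih).image fun p : M × M => p.1 + p.2).subset ?_
    rintro t ⟨f, hf, rfl⟩
    refine ⟨(f j, ∑ i ∈ s, f i), ⟨hf j (Finset.mem_insert_self _ _), f, fun i hi =>
      hf i (Finset.mem_insert_of_mem hi), rfl⟩, ?_⟩
    rw [Finset.sum_insert hj]

theorem tau_sum (D : HasSw L S) [Finite ι] [∀ i, Finite (S i)] {P : PA L S} {q : Q L S}
    {c : ℕ → P.A} {κ : Type} [DecidableEq κ] (B : κ → Set P.Ω) (hB : ∀ i, P.Ob q (B i) c)
    (hd : ∀ i j, i ≠ j → Disjoint (B i) (B j)) (k : ℕ) (s : Finset κ) :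
    P.Ob q (⋃ i ∈ s, B i) c ∧
      (s.Nonempty → P.tau k q (⋃ i ∈ s, B i) c = ∑ i ∈ s, P.tau k q (B i) c) := by
  induction s using Finset.induction_on with
  | empty =>
    refine ⟨?_, fun h => (Finset.not_nonempty_empty h).elim⟩
    simpa using Ob_empty D P q c
  | insert j s hj ih =>
    rw [Finset.set_biUnion_insert]
    refine ⟨(hB j).union D ih.1, fun _ => ?_⟩
    rcases s.eq_empty_or_nonempty with h0 | h0
    · subst h0
      simp
    · rw [Finset.sum_insert hj, ← ih.2 h0]
      refine tau_add D k (hB j) ih.1 ?_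
      rw [Set.disjoint_iUnion₂_right]
      exact fun i hi => hd _ _ fun h => hj (h ▸ hi)

theorem good_types_infinite (D : HasSw L S) [Finite ι] [∀ i, Finite (S i)] {P : PA L S} {q : Q L S}
    {e : Set P.Ω} {a : ℕ → P.A} (ob : P.Ob q e a) (bad : ¬ P.Good e)
    (long : ∀ q' e' a', P.Sub q e a q' e' a' → q.len < q'.len → P.Good e')
    (min : ∀ e', P.Cl e' → e' ⊆ e → ¬ P.Good e' → ∀ k, P.tau k q e' a = P.tau k q e a) :
    {t : ∀ k, TT (Q L S) k | ∃ g, P.Cl g ∧ g ⊆ e ∧ P.Good g ∧ t = fun k => P.tau k q g a}.Infinite := by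
  classical
  intro hfin
  apply bad
  -- the union of all `V g`
  have hV : {v : Set (Q L S × ∀ k, TT (Q L S) k) | ∃ g, P.Cl g ∧ g ⊆ e ∧ P.Good g ∧ v = P.V g}.Finite := by
    have h1 : ∀ t : ∀ k, TT (Q L S) k, ∃ v : Set (Q L S × ∀ k, TT (Q L S) k),
        ∀ g, P.Cl g → g ⊆ e → P.Good g → t = (fun k => P.tau k q g a) → P.V g = v := by
      intro t
      by_cases ht : ∃ g, P.Cl g ∧ g ⊆ e ∧ P.Good g ∧ t = fun k => P.tau k q g a
      · obtain ⟨g, h1, h2, h3, h4⟩ := ht
        refine ⟨P.V g, fun g' h1' h2' h3' h4' => ?_⟩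
        obtain ⟨k, hk⟩ := Good_tau D (ob.mono h1 h2) h3
        exact (hk P g' a (ob.mono h1' h2') (congrFun (h4.symm.trans h4') k)).1
      · refine ⟨∅, fun g h1 h2 h3 h4 => (ht ⟨g, h1, h2, h3, h4⟩).elim⟩
    choose F hF using h1
    refine (hfin.image F).subset ?_
    rintro v ⟨g, h1, h2, h3, rfl⟩
    exact ⟨_, ⟨g, h1, h2, h3, rfl⟩, (hF _ g h1 h2 h3 rfl).symm⟩
  have hW0 : (⋃₀ {v : Set (Q L S × ∀ k, TT (Q L S) k) |
      ∃ g, P.Cl g ∧ g ⊆ e ∧ P.Good g ∧ v = P.V g}).Finite := by
    apply hV.sUnion
    rintro v ⟨g, h1, h2, h3, rfl⟩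
    exact h3
  -- terms for redundant kernels
  obtain ⟨s0⟩ : Nonempty (L.Term (Fin q.len)) := by
    obtain ⟨sw, c0, c1, hD⟩ := id D
    exact ⟨FirstOrder.Language.Term.func c0 Fin.elim0⟩
  have hρ : ∀ (m : ℕ) (κ : Set (L.Term (Fin (q.len + m)) × L.Term (Fin (q.len + m)))),
      ∃ s : ℕ → L.Term (Fin q.len), (∃ s' : ℕ → L.Term (Fin q.len), ∀ (i : ι) (v : ℕ → S i),
        ker L (q.len + m) v = κ → ∀ j < m, v (q.len + j) =
          (s' j).realize (fun i : Fin q.len => v i)) → ∀ (i : ι) (v : ℕ → S i),
        ker L (q.len + m) v = κ → ∀ j < m, v (q.len + j) =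
          (s j).realize (fun i : Fin q.len => v i) := by
    intro m κ
    by_cases h : ∃ s' : ℕ → L.Term (Fin q.len), ∀ (i : ι) (v : ℕ → S i),
        ker L (q.len + m) v = κ → ∀ j < m, v (q.len + j) =
          (s' j).realize (fun i : Fin q.len => v i)
    · obtain ⟨s', hs'⟩ := h
      exact ⟨s', fun _ => hs'⟩
    · exact ⟨fun _ => s0, fun h' => (h h').elim⟩
  choose ρ hρ using hρ
  obtain ⟨W, hWdef⟩ : ∃ W : Q L S → Set (∀ k, TT (Q L S) k), ∀ q', W q' =
      {t | (q', t) ∈ ⋃₀ {v : Set (Q L S × ∀ k, TT (Q L S) k) |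
        ∃ g, P.Cl g ∧ g ⊆ e ∧ P.Good g ∧ v = P.V g}} ∪
      {t | ∃ κ ∈ KK L S (q.len + q'.len), t = fun k => P.tau k q' e
        (fun j => (ρ q'.len κ j).realize (fun i : Fin q.len => a i))} := ⟨_, fun _ => rfl⟩
  have hWfin : ∀ q', (W q').Finite := by
    intro q'
    rw [hWdef]
    apply Set.Finite.union
    · refine (hW0.image Prod.snd).subset ?_
      intro t ht
      exact ⟨(q', t), ht, rfl⟩
    · refine ((KK_finite (L := L) (S := S) (q.len + q'.len)).image fun κ k => P.tau k q' e
        (fun j => (ρ q'.len κ j).realize (fun i : Fin q.len => a i))).subset ?_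
      rintro t ⟨κ, h1, rfl⟩
      exact ⟨κ, h1, rfl⟩
  have hfinal : (⋃ q' : Q L S, (fun t => (q', t)) ''
      {t : ∀ k, TT (Q L S) k | ∃ f : Set (L.Term (Fin (q.len + q'.len)) × L.Term (Fin (q.len + q'.len))) →
        ∀ k, TT (Q L S) k, (∀ κ ∈ (KK_finite (L := L) (S := S) (q.len + q'.len)).toFinset, f κ ∈ W q') ∧
          t = ∑ κ ∈ (KK_finite (L := L) (S := S) (q.len + q'.len)).toFinset, f κ}).Finite :=
    Set.finite_iUnion fun q' => (sums_finite (W q') (hWfin q') _).image _
  refine hfinal.subset ?_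
  rintro ⟨q', t⟩ ⟨e', c, o', se', ht⟩
  rw [mem_iUnion]
  refine ⟨q', t, ?_, rfl⟩
  -- the combined tuple
  obtain ⟨u, hu1, hu2⟩ : ∃ u : ℕ → P.A, (∀ j < q.len, u j = a j) ∧ ∀ j, u (q.len + j) = c j :=
    ⟨fun j => if j < q.len then a j else c (j - q.len), fun j hj => if_pos hj, fun j => by simp⟩
  obtain ⟨B, hB⟩ : ∃ B : Set (L.Term (Fin (q.len + q'.len)) × L.Term (Fin (q.len + q'.len))) →
      Set P.Ω, ∀ κ, B κ = e' ∩ {w | ker L (q.len + q'.len) (fun j => (u j).1 w) = κ} :=
    ⟨_, fun _ => rfl⟩
  have cB : ∀ κ, P.Cl (B κ) := by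
    intro κ
    rw [hB]
    exact cl_inter D P o'.1 (cl_ker D P _ _ _)
  have sB : ∀ κ, B κ ⊆ e' := by
    intro κ
    rw [hB]
    exact inter_subset_left
  have kB : ∀ κ, ∀ w ∈ B κ, ker L (q.len + q'.len) (fun j => (u j).1 w) = κ := by
    intro κ w hw
    rw [hB] at hw
    exact hw.2
  have oB : ∀ κ, P.Ob q' (B κ) c := fun κ => PA.Ob.mono o' (cB κ) (sB κ)
  have dB : ∀ κ κ', κ ≠ κ' → Disjoint (B κ) (B κ') := by
    intro κ κ' h
    rw [Set.disjoint_left]
    intro w h1 h2
    exact h ((kB κ w h1).symm.trans (kB κ' w h2))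
  have uB : (⋃ κ ∈ (KK_finite (L := L) (S := S) (q.len + q'.len)).toFinset, B κ) = e' := by
    apply Subset.antisymm
    · exact iUnion₂_subset fun κ _ => sB κ
    · intro w hw
      rw [mem_iUnion₂]
      refine ⟨ker L (q.len + q'.len) (fun j => (u j).1 w), ?_, ?_⟩
      · rw [Set.Finite.mem_toFinset]
        exact ⟨P.f w, _, rfl⟩
      · rw [hB]
        exact ⟨hw, rfl⟩
  have hne : (KK_finite (L := L) (S := S) (q.len + q'.len)).toFinset.Nonempty := by
    obtain ⟨i, v, _⟩ := Q_point q
    exact ⟨ker L _ v, by rw [Set.Finite.mem_toFinset]; exact ⟨i, v, rfl⟩⟩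
  refine ⟨fun κ k => P.tau k q' (B κ) c, ?_, ?_⟩
  · intro κ hκ
    rw [Set.Finite.mem_toFinset] at hκ
    rw [hWdef]
    by_cases hg : P.Good (B κ)
    · left
      refine ⟨P.V (B κ), ⟨B κ, cB κ, (sB κ).trans se', hg, rfl⟩, V_mk (oB κ) Subset.rfl⟩
    · right
      obtain ⟨w0, hw0⟩ : (B κ).Nonempty := by
        rw [nonempty_iff_ne_empty]
        intro h
        apply hg
        rw [h]
        exact Good_empty D P
      have hpair : ∀ (i : ι) (v : ℕ → S i), ker L (q.len + q'.len) v = κ → ∀ j < q'.len,
          ker L (q.len + 1) (Function.update v q.len (v (q.len + j))) =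
          ker L (q.len + 1) (fun l => (Function.update a q.len (c j) l).1 w0) := by
        intro i v hv j hj
        refine ker_subst (n := q.len + q'.len) (v := v) (v' := fun l => (u l).1 w0)
          (hv.trans (kB κ w0 hw0).symm)
          (fun l => if h : l < q.len then FirstOrder.Language.Term.var ⟨l, by omega⟩
            else FirstOrder.Language.Term.var ⟨q.len + j, by omega⟩) ?_ ?_
        · intro l hl
          by_cases h : l < q.len
          · rw [dif_pos h, Function.update_of_ne h.ne]
            rfl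
          · have h2 : l = q.len := by omega
            rw [dif_neg h, h2, Function.update_self]
            rfl
        · intro l hl
          by_cases h : l < q.len
          · rw [dif_pos h, Function.update_of_ne h.ne]
            show _ = (u l).1 w0
            rw [hu1 l h]
          · have h2 : l = q.len := by omega
            rw [dif_neg h, h2, Function.update_self]
            show _ = (u (q.len + j)).1 w0
            rw [hu2 j]
      have hterm : ∃ s' : ℕ → L.Term (Fin q.len), ∀ (i : ι) (v : ℕ → S i),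
          ker L (q.len + q'.len) v = κ → ∀ j < q'.len, v (q.len + j) =
            (s' j).realize (fun i : Fin q.len => v i) := by
        have h1 : ∀ j : ℕ, ∃ s : L.Term (Fin q.len), j < q'.len → ∀ (i : ι) (v : ℕ → S i),
            ker L (q.len + q'.len) v = κ → v (q.len + j) =
              s.realize (fun i : Fin q.len => v i) := by
          intro j
          by_cases hj : j < q'.len
          · have hk0 : ker L q.len (fun l => (Function.update a q.len (c j) l).1 w0) = q.ker :=
              (ker_congr fun l hl => by rw [Function.update_of_ne hl.ne]).trans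
                (ob.2 w0 (se' (sB κ hw0)))
            rcases ext_cases q _ hk0 with ⟨q'', hq'', hk''⟩ | ⟨s, hs⟩
            · exfalso
              apply hg
              refine long q'' (B κ) (Function.update a q.len (c j)) ⟨⟨cB κ, fun w hw => ?_⟩,
                (sB κ).trans se', by omega, fun l hl w _ => by rw [Function.update_of_ne hl.ne]⟩ (by omega)
              rw [← hk'']
              refine ker_le hq''.le ?_
              have h2 := hpair (P.f w) (fun l => (u l).1 w) (kB κ w hw) j hj
              refine (ker_congr fun l hl => ?_).trans h2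
              by_cases h : l < q.len
              · rw [Function.update_of_ne h.ne, Function.update_of_ne h.ne, hu1 l h]
              · have h3 : l = q.len := by omega
                rw [h3, Function.update_self, Function.update_self, hu2 j]
            · refine ⟨s, fun _ i v hv => ?_⟩
              have h2 := hs i (Function.update v q.len (v (q.len + j))) (hpair i v hv j hj)
              rw [Function.update_self] at h2
              rw [h2]
              congr 1
              funext l
              exact Function.update_of_ne l.2.ne _ _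
          · exact ⟨s0, fun h => (hj h).elim⟩
        choose s hs using h1
        exact ⟨s, fun i v hv j hj => hs j hj i v hv⟩
      have hρ' := hρ q'.len κ hterm
      have hmin := min (B κ) (cB κ) ((sB κ).trans se') hg
      refine ⟨κ, hκ, ?_⟩
      funext k
      obtain ⟨K, hK⟩ := RED (L := L) (S := S) D k
      have hER : ∀ k', ER k' q'.len P P c (fun j => (ρ q'.len κ j).realize (fun i : Fin q.len => a i))
          (B κ) e := by
        intro k'
        refine ER.single q a a (ρ q'.len κ) (ob.mono (cB κ) ((sB κ).trans se')) ob (hmin k') ?_ ?_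
        · intro j hj w hw
          have h2 := hρ' (P.f w) (fun l => (u l).1 w) (kB κ w hw) j hj
          rw [hu2 j] at h2
          rw [h2]
          congr 1
          funext l
          rw [hu1 l l.2]
        · intro j hj w hw
          exact realize_val P _ _ w
      exact hK P P q' (B κ) c e _ (oB κ) ⟨ob.1, (hER 0).ker D (oB κ).2⟩ (hER K)
  · rw [show t = fun k => P.tau k q' e' c from ht]
    funext k
    rw [Finset.sum_apply]
    have h1 := (tau_sum D B oB dB k (KK_finite (L := L) (S := S) (q.len + q'.len)).toFinset).2 hne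
    rw [uB] at h1
    exact h1

end VCD
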