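import Mathlib

/-!
# VCD-Defs: algebras of functions with values in finitely many algebras; classes, types, relations

Project VCD (helper56): Vaught's conjecture for all theories of algebras in finitely generated
discriminator varieties.
-/

open Set FirstOrder

namespace VCD

/-- An algebra of functions on `Ω`: its elements are functions `a` with `a w ∈ S (f w)`, and it is
closed under the operations of `L`. -/
structure PA (L : FirstOrder.Language.{0, 0}) {ι : Type} (S : ι → Type) [∀ i, L.Structure (S i)] where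
  /-- the points -/
  Ω : Type
  /-- the algebra at a point -/
  f : Ω → ι
  /-- the elements -/
  A : Set (∀ w, S (f w))
  closed : ∀ (n : ℕ) (F : L.Functions n) (v : Fin n → ∀ w, S (f w)), (∀ j, v j ∈ A) →
    (fun w => FirstOrder.Language.Structure.funMap F (fun j => v j w)) ∈ A

section

variable {L : FirstOrder.Language.{0, 0}} {ι : Type} {S : ι → Type} [∀ i, L.Structure (S i)]

instance PA.str (P : PA L S) : L.Structure P.A where
  funMap {n} F v := ⟨fun w => FirstOrder.Language.Structure.funMap F (fun j => (v j).1 w),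
    P.closed n F (fun j => (v j).1) fun j => (v j).2⟩
  RelMap {_} r v := ∀ w, FirstOrder.Language.Structure.RelMap r (fun j => (v j).1 w)

/-- `sw` is a switching term on all `S i`, and `c0 ≠ c1` in all `S i`. -/
structure SwC (S : ι → Type) [∀ i, L.Structure (S i)] (sw : L.Term (Fin 4)) (c0 c1 : L.Functions 0) :
    Prop where
  eq : ∀ (i : ι) (x z w : S i), sw.realize ![x, x, z, w] = z
  ne : ∀ (i : ι) (x y z w : S i), x ≠ y → sw.realize ![x, y, z, w] = w
  c01 : ∀ i : ι, (FirstOrder.Language.Structure.funMap c0 ![] : S i) ≠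
    FirstOrder.Language.Structure.funMap c1 ![]

/-- the clopen sets -/
def PA.Cl (P : PA L S) (e : Set P.Ω) : Prop := ∃ a b : P.A, ∀ w, w ∈ e ↔ a.1 w = b.1 w

/-- the equations which hold for `v 0, …, v (n - 1)` -/
def ker (L : FirstOrder.Language.{0, 0}) {M : Type} [L.Structure M] (n : ℕ) (v : ℕ → M) :
    Set (L.Term (Fin n) × L.Term (Fin n)) :=
  {p | p.1.realize (fun j : Fin n => v j) = p.2.realize (fun j : Fin n => v j)}

variable (L S) in
/-- the kernels of `n`-tuples of elements of the algebras `S i` -/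
def KK (n : ℕ) : Set (Set (L.Term (Fin n) × L.Term (Fin n))) :=
  {κ | ∃ (i : ι) (v : ℕ → S i), κ = ker L n v}

/-- the tuple is irredundant: no entry is generated by the earlier ones -/
def irr (n : ℕ) (κ : Set (L.Term (Fin n) × L.Term (Fin n))) : Prop :=
  ∀ (j : Fin n) (s : L.Term (Fin (j : ℕ))),
    (s.relabel (Fin.castLE j.2.le), FirstOrder.Language.Term.var j) ∉ κ

variable (L S) in
/-- the classes: kernels of irredundant tuples -/
structure Q where
  /-- the length of the tuple -/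
  len : ℕ
  /-- the kernel of the tuple -/
  ker : Set (L.Term (Fin len) × L.Term (Fin len))
  mem : ker ∈ KK L S len
  irred : irr len ker

/-- `(e, a)` is an object of class `q`: `e` is clopen and at each point of `e` the tuple
`a 0, …, a (q.len - 1)` has kernel `q.ker` -/
def PA.Ob (P : PA L S) (q : Q L S) (e : Set P.Ω) (a : ℕ → P.A) : Prop :=
  P.Cl e ∧ ∀ w ∈ e, VCD.ker L q.len (fun j => (a j).1 w) = q.ker

/-- `(e', a')` of class `q'` is a subobject of `(e, a)`: `e' ⊆ e` and `a'` extends `a` on `e'` -/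
def PA.Sub (P : PA L S) (q : Q L S) (e : Set P.Ω) (a : ℕ → P.A) (q' : Q L S) (e' : Set P.Ω)
    (a' : ℕ → P.A) : Prop :=
  P.Ob q' e' a' ∧ e' ⊆ e ∧ q.len ≤ q'.len ∧ ∀ j < q.len, ∀ w ∈ e', (a' j).1 w = (a j).1 w

/-- the space of types of level `k` -/
def TT (X : Type) : ℕ → Type
  | 0 => Prop
  | k + 1 => Set (X × TT X k × TT X k)

/-- a type of level `k + 1` as a set -/
@[reducible] def TT.s {X : Type} {k : ℕ} (x : TT X (k + 1)) : Set (X × TT X k × TT X k) := x

/-- the type of level `k` of an object -/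
def PA.tau (P : PA L S) : ∀ k : ℕ, Q L S → Set P.Ω → (ℕ → P.A) → TT (Q L S) k
  | 0, _, e, _ => (e = ∅ : Prop)
  | k + 1, q, e, a => {z | ∃ e' a', P.Sub q e a z.1 e' a' ∧ z.2.1 = P.tau k z.1 e' a' ∧
      z.2.2 = P.tau k q (e \ e') a}

/-- the sum of types: the type of a disjoint union -/
def TT.add {X : Type} : ∀ k : ℕ, TT X k → TT X k → TT X k
  | 0, p, r => (p ∧ r : Prop)
  | k + 1, x, y => {z | ∃ u ∈ x.s, ∃ v ∈ y.s, u.1 = z.1 ∧ v.1 = z.1 ∧
      z.2.1 = TT.add k u.2.1 v.2.1 ∧ z.2.2 = TT.add k u.2.2 v.2.2}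

/-- the type of the empty set -/
def TT.zero {X : Type} : ∀ k : ℕ, TT X k
  | 0 => (True : Prop)
  | k + 1 => {z | z.2.1 = TT.zero k ∧ z.2.2 = TT.zero k}

/-- all types of objects below the clopen set `e` -/
def PA.V (P : PA L S) (e : Set P.Ω) : Set (Q L S × ∀ k, TT (Q L S) k) :=
  {z | ∃ e' a', P.Ob z.1 e' a' ∧ e' ⊆ e ∧ z.2 = fun k => P.tau k z.1 e' a'}

/-- a clopen set is good if there are only finitely many types of objects below it -/
def PA.Good (P : PA L S) (e : Set P.Ω) : Prop := (P.V e).Finite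

/-- Matching of `(e, c 0, …, c (r - 1))` and `(f, d 0, …, d (r - 1))`: there are partitions of `e`
and of `f` into objects which have the same types of level `k`, and over corresponding pieces `c` and
`d` are given by the same terms. -/
inductive ER (k r : ℕ) (P P' : PA L S) (c : ℕ → P.A) (d : ℕ → P'.A) : Set P.Ω → Set P'.Ω → Prop
  | nil : ER k r P P' c d ∅ ∅
  | cons (q : Q L S) (e₁ e : Set P.Ω) (f₁ f : Set P'.Ω) (a : ℕ → P.A) (b : ℕ → P'.A)
      (s : ℕ → L.Term (Fin q.len)) (ha : P.Ob q e₁ a) (hb : P'.Ob q f₁ b)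
      (ht : P.tau k q e₁ a = P'.tau k q f₁ b) (he : Disjoint e₁ e) (hf : Disjoint f₁ f)
      (hc : ∀ j < r, ∀ w ∈ e₁, (c j).1 w = (s j).realize (fun i : Fin q.len => (a i).1 w))
      (hd : ∀ j < r, ∀ w ∈ f₁, (d j).1 w = (s j).realize (fun i : Fin q.len => (b i).1 w))
      (h : ER k r P P' c d e f) : ER k r P P' c d (e₁ ∪ e) (f₁ ∪ f)

/-- saturation for sequences of clopen sets -/
def SatP (P : PA L S) : Prop :=
  ∀ (q : Q L S) (a : ℕ → P.A) (h d : ℕ → Set P.Ω), (∀ i, P.Ob q (h i) a) → (∀ i, P.Cl (d i)) →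
    (∀ k i, k ≤ i → h i ⊆ d k) →
    ∃ h', P.Ob q h' a ∧ (∀ k, h' ⊆ d k) ∧ ∀ j k₀, ∃ i ≥ k₀, P.tau j q h' a = P.tau j q (h i) a

/-- a critical object: minimal bad, and all longer subobjects are good -/
structure Crit (P : PA L S) (q : Q L S) (e : Set P.Ω) (a : ℕ → P.A) : Prop where
  ob : P.Ob q e a
  bad : ¬ P.Good e
  long : ∀ q' e' a', P.Sub q e a q' e' a' → q.len < q'.len → P.Good e'
  min : ∀ e', P.Cl e' → e' ⊆ e → ¬ P.Good e' → ∀ k, P.tau k q e' a = P.tau k q e a
  acc : ∀ k, ∃ g, P.Cl g ∧ g ⊆ e ∧ P.Good g ∧ P.tau k q g a = P.tau k q e a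

end

/-! ## rings of sets -/

/-- a ring of sets -/
structure RS {Ω : Type} (B : Set (Set Ω)) : Prop where
  empty : ∅ ∈ B
  union : ∀ a ∈ B, ∀ b ∈ B, a ∪ b ∈ B
  diff : ∀ a ∈ B, ∀ b ∈ B, a \ b ∈ B

/-- atoms modulo `I` -/
def At {Ω : Type} (B : Set (Set Ω)) (I : Set Ω → Prop) (a : Set Ω) : Prop :=
  a ∈ B ∧ ¬ I a ∧ ∀ u ∈ B, u ⊆ a → I u ∨ I (a \ u)

/-- the ideal generated by `I` and the atoms modulo `I` -/
inductive Plus {Ω : Type} (B : Set (Set Ω)) (I : Set Ω → Prop) : Set Ω → Prop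
  | base (a : Set Ω) (ha : a ∈ B) (h : I a) : Plus B I a
  | atom (a : Set Ω) (h : At B I a) : Plus B I a
  | sup (a b : Set Ω) (ha : Plus B I a) (hb : Plus B I b) : Plus B I (a ∪ b)

/-- below `e` there is an element at which `B` is atomless modulo `Plus B I` but has many atoms
modulo `I` -/
def P1 {Ω : Type} (B : Set (Set Ω)) (I : Set Ω → Prop) (e : Set Ω) : Prop :=
  ∃ y ∈ B, y ⊆ e ∧ ¬ Plus B I y ∧ ∀ y' ∈ B, y' ⊆ y → ¬ Plus B I y' →
    (∃ u ∈ B, u ⊆ y' ∧ ¬ Plus B I u ∧ ¬ Plus B I (y' \ u)) ∧ ∃ t, t ⊆ y' ∧ At B I t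

/-- the invariants -/
def PP {Ω : Type} (B : Set (Set Ω)) (I : Set Ω → Prop) (m : ℕ) (e : Set Ω) : Prop :=
  P1 B ((Plus B)^[m] I) e

/-- homomorphisms of rings of sets whose image is closed downwards -/
structure PM {Ω Ω' : Type} (B : Set (Set Ω)) (B' : Set (Set Ω')) (F : Set Ω → Set Ω') : Prop where
  maps : ∀ a ∈ B, F a ∈ B'
  union : ∀ a ∈ B, ∀ b ∈ B, F (a ∪ b) = F a ∪ F b
  diff : ∀ a ∈ B, ∀ b ∈ B, F (a \ b) = F a \ F b
  lift : ∀ a ∈ B, ∀ y ∈ B', y ⊆ F a → ∃ a' ∈ B, a' ⊆ a ∧ F a' = y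

end VCD
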