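import Pool.Agent.VCD.Tau

/-!
# VCD-ERel: matchings of functions over clopen sets
-/

open Set FirstOrder

namespace VCD

variable {L : FirstOrder.Language.{0, 0}} {ι : Type} {S : ι → Type} [∀ i, L.Structure (S i)]

theorem ER.symm {k r : ℕ} {P P' : PA L S} {c : ℕ → P.A} {d : ℕ → P'.A} {e : Set P.Ω}
    {f : Set P'.Ω} (h : ER k r P P' c d e f) : ER k r P' P d c f e := by
  induction h with
  | nil => exact ER.nil
  | cons q e₁ e f₁ f a b s ha hb ht he hf hc hd _ ih =>
    exact ER.cons q f₁ f e₁ e b a s hb ha ht.symm hf he hd hc ih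

theorem ER.mono (D : HasSw L S) {k k' r r' : ℕ} (hk : k ≤ k') (hr : r ≤ r') {P P' : PA L S}
    {c : ℕ → P.A} {d : ℕ → P'.A} {e : Set P.Ω} {f : Set P'.Ω} (h : ER k' r' P P' c d e f) :
    ER k r P P' c d e f := by
  induction h with
  | nil => exact ER.nil
  | cons q e₁ e f₁ f a b s ha hb ht he hf hc hd _ ih =>
    exact ER.cons q e₁ e f₁ f a b s ha hb (tau_coh_le D hk ha hb ht) he hf
      (fun j hj => hc j (lt_of_lt_of_le hj hr)) (fun j hj => hd j (lt_of_lt_of_le hj hr)) ih

theorem ER.congr {k r : ℕ} {P P' : PA L S} {c c' : ℕ → P.A} {d d' : ℕ → P'.A} {e : Set P.Ω}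
    {f : Set P'.Ω} (h : ER k r P P' c d e f) (hc : ∀ j < r, ∀ w ∈ e, (c j).1 w = (c' j).1 w)
    (hd : ∀ j < r, ∀ w ∈ f, (d j).1 w = (d' j).1 w) : ER k r P P' c' d' e f := by
  induction h with
  | nil => exact ER.nil
  | cons q e₁ e f₁ f a b s ha hb ht he hf hc1 hd1 _ ih =>
    refine ER.cons q e₁ e f₁ f a b s ha hb ht he hf (fun j hj w hw => ?_) (fun j hj w hw => ?_)
      (ih (fun j hj w hw => hc j hj w (Or.inr hw)) fun j hj w hw => hd j hj w (Or.inr hw))
    · rw [← hc j hj w (Or.inl hw)]
      exact hc1 j hj w hw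
    · rw [← hd j hj w (Or.inl hw)]
      exact hd1 j hj w hw

theorem ER.union {k r : ℕ} {P P' : PA L S} {c : ℕ → P.A} {d : ℕ → P'.A} {e e' : Set P.Ω}
    {f f' : Set P'.Ω} (h : ER k r P P' c d e f) (h' : ER k r P P' c d e' f')
    (he : Disjoint e e') (hf : Disjoint f f') : ER k r P P' c d (e ∪ e') (f ∪ f') := by
  induction h with
  | nil => simpa using h'
  | cons q e₁ e f₁ f a b s ha hb ht he1 hf1 hc hd _ ih =>
    rw [union_assoc, union_assoc]
    rw [disjoint_union_left] at he hf
    exact ER.cons q e₁ _ f₁ _ a b s ha hb ht (disjoint_union_right.2 ⟨he1, he.1⟩)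
      (disjoint_union_right.2 ⟨hf1, hf.1⟩) hc hd (ih he.2 hf.2)

theorem ER.cl (D : HasSw L S) {k r : ℕ} {P P' : PA L S} {c : ℕ → P.A} {d : ℕ → P'.A}
    {e : Set P.Ω} {f : Set P'.Ω} (h : ER k r P P' c d e f) : P.Cl e ∧ P'.Cl f := by
  induction h with
  | nil => exact ⟨cl_empty D P, cl_empty D P'⟩
  | cons q e₁ e f₁ f a b s ha hb ht he hf hc hd _ ih =>
    exact ⟨cl_union D P ha.1 ih.1, cl_union D P' hb.1 ih.2⟩

theorem ER.single {k r : ℕ} {P P' : PA L S} {c : ℕ → P.A} {d : ℕ → P'.A} (q : Q L S)
    {e : Set P.Ω} {f : Set P'.Ω} (a : ℕ → P.A) (b : ℕ → P'.A) (s : ℕ → L.Term (Fin q.len))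
    (ha : P.Ob q e a) (hb : P'.Ob q f b) (ht : P.tau k q e a = P'.tau k q f b)
    (hc : ∀ j < r, ∀ w ∈ e, (c j).1 w = (s j).realize (fun i : Fin q.len => (a i).1 w))
    (hd : ∀ j < r, ∀ w ∈ f, (d j).1 w = (s j).realize (fun i : Fin q.len => (b i).1 w)) :
    ER k r P P' c d e f := by
  have h := ER.cons q e ∅ f ∅ a b s ha hb ht (disjoint_empty _) (disjoint_empty _) hc hd ER.nil
  rwa [union_empty, union_empty] at h

theorem ER.of_tau (D : HasSw L S) {k : ℕ} {P P' : PA L S} (q : Q L S)
    {e : Set P.Ω} {f : Set P'.Ω} {a : ℕ → P.A} {b : ℕ → P'.A}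
    (ha : P.Ob q e a) (hb : P'.Ob q f b) (ht : P.tau k q e a = P'.tau k q f b) :
    ER k q.len P P' a b e f := by
  classical
  obtain ⟨sw, c0, c1, hD⟩ := D
  refine ER.single q a b (fun j => if h : j < q.len then FirstOrder.Language.Term.var ⟨j, h⟩
    else FirstOrder.Language.Term.func c0 Fin.elim0) ha hb ht ?_ ?_
  · intro j hj w _
    simp only [dif_pos hj]
    rfl
  · intro j hj w _
    simp only [dif_pos hj]
    rfl

/-- corresponding points -/
theorem ER.point (D : HasSw L S) {k r : ℕ} {P P' : PA L S} {c : ℕ → P.A} {d : ℕ → P'.A}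
    {e : Set P.Ω} {f : Set P'.Ω} (h : ER k r P P' c d e f) : ∀ w ∈ f, ∃ w' ∈ e,
      ker L r (fun j => (c j).1 w') = ker L r (fun j => (d j).1 w) := by
  induction h with
  | nil => exact fun w hw => hw.elim
  | cons q e₁ e f₁ f a b s ha hb ht he hf hc hd _ ih =>
    intro w hw
    rcases hw with hw | hw
    · have h1 : e₁.Nonempty := by
        rw [nonempty_iff_ne_empty]
        intro h2
        have h3 := (tau_empty_iff D ha hb ht).1 h2
        rw [h3] at hw
        exact hw
      obtain ⟨w', hw'⟩ := h1
      refine ⟨w', Or.inl hw', ker_subst (v := fun j => (a j).1 w') (v' := fun j => (b j).1 w)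
        ((ha.2 w' hw').trans (hb.2 w hw).symm) s (fun j hj => hc j hj w' hw')
        fun j hj => hd j hj w hw⟩
    · obtain ⟨w', hw', h1⟩ := ih w hw
      exact ⟨w', Or.inr hw', h1⟩

theorem ER.ker (D : HasSw L S) {k r : ℕ} {P P' : PA L S} {c : ℕ → P.A} {d : ℕ → P'.A}
    {e : Set P.Ω} {f : Set P'.Ω} (h : ER k r P P' c d e f) {κ : Set (L.Term (Fin r) × L.Term (Fin r))}
    (h1 : ∀ w ∈ e, VCD.ker L r (fun j => (c j).1 w) = κ) :
    ∀ w ∈ f, VCD.ker L r (fun j => (d j).1 w) = κ := by
  intro w hw
  obtain ⟨w', hw', h2⟩ := h.point D w hw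
  exact h2.symm.trans (h1 w' hw')

private theorem upd_lt {M : Type} {a : ℕ → M} {n j : ℕ} {x : M} (hj : j < n) :
    Function.update a n x j = a j := Function.update_of_ne hj.ne _ _

private theorem split (D : HasSw L S) [Finite ι] [∀ i, Finite (S i)] {P P' : PA L S} {q : Q L S}
    {k r : ℕ} {a : ℕ → P.A} {b : ℕ → P'.A} {c : ℕ → P.A} {d : ℕ → P'.A}
    (s : ℕ → L.Term (Fin q.len)) (x : P.A) :
    ∀ (l : List (Set (L.Term (Fin (q.len + 1)) × L.Term (Fin (q.len + 1))))) (e : Set P.Ω)
      (f : Set P'.Ω), P.Ob q e a → P'.Ob q f b → P.tau (k + l.length) q e a = P'.tau (k + l.length) q f b →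
      (∀ j < r, ∀ w ∈ e, (c j).1 w = (s j).realize (fun i : Fin q.len => (a i).1 w)) →
      (∀ j < r, ∀ w ∈ f, (d j).1 w = (s j).realize (fun i : Fin q.len => (b i).1 w)) →
      (∀ w ∈ e, ker L (q.len + 1) (fun j => (Function.update a q.len x j).1 w) ∈ l) →
      ∃ y : P'.A, ER k (r + 1) P P' (Function.update c r x) (Function.update d r y) e f := by
  intro l
  induction l with
  | nil =>
    intro e f ha hb ht hc hd hl
    have he : e = ∅ := eq_empty_of_forall_notMem fun w hw => by simpa using hl w hw
    have hf : f = ∅ := (tau_empty_iff D ha hb ht).1 he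
    subst he hf
    exact ⟨d 0, ER.nil⟩
  | cons κ l ih =>
    intro e f ha hb ht hc hd hl
    have ht' : P.tau (k + l.length + 1) q e a = P'.tau (k + l.length + 1) q f b := ht
    obtain ⟨ax, hax⟩ : ∃ ax : ℕ → P.A, ax = Function.update a q.len x := ⟨_, rfl⟩
    rw [← hax] at hl
    have axl : ∀ j < q.len, ax j = a j := fun j hj => by rw [hax]; exact upd_lt hj
    have axn : ax q.len = x := by rw [hax]; exact Function.update_self _ _ _
    obtain ⟨e1, he1⟩ : ∃ e1, e1 = e ∩ {w | ker L (q.len + 1) (fun j => (ax j).1 w) = κ} := ⟨_, rfl⟩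
    have ce1 : P.Cl e1 := by
      rw [he1]
      exact cl_inter D P ha.1 (cl_ker D P _ _ _)
    have se1 : e1 ⊆ e := by
      rw [he1]
      exact inter_subset_left
    have ke1 : ∀ w ∈ e1, ker L (q.len + 1) (fun j => (ax j).1 w) = κ := by
      intro w hw
      rw [he1] at hw
      exact hw.2
    have hrest : ∀ w ∈ e \ e1, ker L (q.len + 1) (fun j => (ax j).1 w) ∈ l := by
      intro w hw
      rcases List.mem_cons.1 (hl w hw.1) with h1 | h1
      · exfalso
        apply hw.2
        rw [he1]
        exact ⟨hw.1, h1⟩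
      · exact h1
    have main : ∃ (f1 : Set P'.Ω) (y1 : P'.A), P'.Cl f1 ∧ f1 ⊆ f ∧
        P.tau (k + l.length) q (e \ e1) a = P'.tau (k + l.length) q (f \ f1) b ∧
        ER k (r + 1) P P' (Function.update c r x) (Function.update d r y1) e1 f1 := by
      rcases e1.eq_empty_or_nonempty with h0 | ⟨w0, hw0⟩
      · rw [h0, sdiff_empty]
        refine ⟨∅, d 0, cl_empty D P', empty_subset _, ?_, ER.nil⟩
        rw [sdiff_empty]
        exact tau_coh D _ ha hb ht'
      · have hk0 : ker L q.len (fun j => (ax j).1 w0) = q.ker :=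
          (ker_congr fun j hj => by rw [axl j hj]).trans (ha.2 w0 (se1 hw0))
        rcases ext_cases q (fun j => (ax j).1 w0) hk0 with ⟨q', hq', hk'⟩ | ⟨s0, hs0⟩
        · have oa : P.Ob q' e1 ax := by
            refine ⟨ce1, fun w hw => ?_⟩
            rw [← hk']
            exact ker_le hq'.le ((ke1 w hw).trans (ke1 w0 hw0).symm)
          have hle : q.len ≤ q'.len := by omega
          have hlt : q.len < q'.len := by omega
          have sub : P.Sub q e a q' e1 ax := ⟨oa, se1, hle, fun j hj w _ => by rw [axl j hj]⟩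
          have h3 := tau_mem (k + l.length) sub
          rw [ht'] at h3
          obtain ⟨f1, b1, h4, h5, h6⟩ := h3
          refine ⟨f1, b1 q.len, h4.1.1, h4.2.1, h6, ?_⟩
          refine ER.single q' ax b1 (fun j => if j = r then FirstOrder.Language.Term.var ⟨q.len, hlt⟩
            else (s j).relabel (Fin.castLE hle)) oa h4.1
            (tau_coh_le D (Nat.le_add_right _ _) oa h4.1 h5) ?_ ?_
          · intro j hj w hw
            by_cases hjr : j = r
            · subst hjr
              rw [Function.update_self, if_pos rfl]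
              show x.1 w = (ax q.len).1 w
              rw [axn]
            · rw [Function.update_of_ne hjr, if_neg hjr, FirstOrder.Language.Term.realize_relabel,
                hc j (by omega) w (se1 hw)]
              congr 1
              funext i
              exact congrArg (fun z : P.A => z.1 w) (axl i i.2).symm
          · intro j hj w hw
            by_cases hjr : j = r
            · subst hjr
              rw [Function.update_self, if_pos rfl]
              rfl
            · rw [Function.update_of_ne hjr, if_neg hjr, FirstOrder.Language.Term.realize_relabel,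
                hd j (by omega) w (h4.2.1 hw)]
              congr 1
              funext i
              exact (h4.2.2.2 i i.2 w hw).symm
        · have sub : P.Sub q e a q e1 a := Sub_of_subset ha ce1 se1
          have h3 := tau_mem (k + l.length) sub
          rw [ht'] at h3
          obtain ⟨f1, b1, h4, h5, h6⟩ := h3
          have ob1 : P'.Ob q f1 b := hb.mono h4.1.1 h4.2.1
          have h7 : P'.tau (k + l.length) q f1 b1 = P'.tau (k + l.length) q f1 b :=
            tau_congr _ h4.2.2.2
          refine ⟨f1, s0.realize (fun j : Fin q.len => b j), h4.1.1, h4.2.1, h6, ?_⟩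
          refine ER.single q a b (fun j => if j = r then s0 else s j) sub.1 ob1
            (tau_coh_le D (Nat.le_add_right _ _) sub.1 ob1 (h5.trans h7)) ?_ ?_
          · intro j hj w hw
            by_cases hjr : j = r
            · subst hjr
              rw [Function.update_self, if_pos rfl]
              have h8 := hs0 (P.f w) (fun j => (ax j).1 w) ((ke1 w hw).trans (ke1 w0 hw0).symm)
              rw [axn] at h8
              rw [h8]
              congr 1
              funext i
              exact congrArg (fun z : P.A => z.1 w) (axl i i.2)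
            · rw [Function.update_of_ne hjr, if_neg hjr]
              exact hc j (by omega) w (se1 hw)
          · intro j hj w hw
            by_cases hjr : j = r
            · subst hjr
              rw [Function.update_self, if_pos rfl, realize_val]
            · rw [Function.update_of_ne hjr, if_neg hjr]
              exact hd j (by omega) w (h4.2.1 hw)
    obtain ⟨f1, y1, cf1, sf1, h1, h2⟩ := main
    obtain ⟨y2, h3⟩ := ih (e \ e1) (f \ f1) (ha.mono (cl_diff D P ha.1 ce1) sdiff_subset)
      (hb.mono (cl_diff D P' hb.1 cf1) sdiff_subset) h1 (fun j hj w hw => hc j hj w hw.1)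
      (fun j hj w hw => hd j hj w hw.1) (by rw [← hax]; exact hrest)
    obtain ⟨y, hy1, hy2⟩ := exists_patch D P' cf1 y1 y2
    refine ⟨y, ?_⟩
    have u1 : ER k (r + 1) P P' (Function.update c r x) (Function.update d r y) e1 f1 := by
      refine h2.congr (fun _ _ _ _ => rfl) fun j hj w hw => ?_
      by_cases hjr : j = r
      · subst hjr
        rw [Function.update_self, Function.update_self]
        exact (hy1 w hw).symm
      · rw [Function.update_of_ne hjr, Function.update_of_ne hjr]
    have u2 : ER k (r + 1) P P' (Function.update c r x) (Function.update d r y) (e \ e1) (f \ f1) := by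
      refine h3.congr (fun _ _ _ _ => rfl) fun j hj w hw => ?_
      by_cases hjr : j = r
      · subst hjr
        rw [Function.update_self, Function.update_self]
        exact (hy2 w hw.2).symm
      · rw [Function.update_of_ne hjr, Function.update_of_ne hjr]
    have h5 := u1.union u2 disjoint_sdiff_right disjoint_sdiff_right
    rwa [union_sdiff_cancel se1, union_sdiff_cancel sf1] at h5

/-- the forth property -/
theorem ER.forth (D : HasSw L S) [Finite ι] [∀ i, Finite (S i)] : ∃ c₀ : ℕ, ∀ (k r : ℕ)
    (P P' : PA L S) (c : ℕ → P.A) (d : ℕ → P'.A) (e : Set P.Ω) (f : Set P'.Ω),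
    ER (k + c₀) r P P' c d e f → ∀ x : P.A, ∃ y : P'.A,
      ER k (r + 1) P P' (Function.update c r x) (Function.update d r y) e f := by
  classical
  obtain ⟨c₀, hc₀⟩ : ∃ c₀, ∀ n ≤ Nat.card (Σ i, S i), (KK_finite (L := L) (S := S) (n + 1)).toFinset.card ≤ c₀ := by
    refine ⟨(Finset.range (Nat.card (Σ i, S i) + 1)).sup fun n =>
      (KK_finite (L := L) (S := S) (n + 1)).toFinset.card, fun n hn => ?_⟩
    exact Finset.le_sup (f := fun n => (KK_finite (L := L) (S := S) (n + 1)).toFinset.card)
      (Finset.mem_range.2 (Nat.lt_succ_of_le hn))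
  refine ⟨c₀, fun k r P P' c d e f h x => ?_⟩
  induction h with
  | nil => exact ⟨d 0, ER.nil⟩
  | cons q e₁ e f₁ f a b s ha hb ht he hf hc hd h ih =>
    obtain ⟨y2, h2⟩ := ih
    have hlen : (KK_finite (L := L) (S := S) (q.len + 1)).toFinset.toList.length ≤ c₀ := by
      rw [Finset.length_toList]
      exact hc₀ _ (Q_len_le q)
    obtain ⟨y1, h1⟩ := split (k := k) D s x (KK_finite (L := L) (S := S) (q.len + 1)).toFinset.toList e₁ f₁ ha hb
      (tau_coh_le D (by omega) ha hb ht) hc hd (fun w _ => by
        rw [Finset.mem_toList, Set.Finite.mem_toFinset]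
        exact ⟨P.f w, _, rfl⟩)
    obtain ⟨y, hy1, hy2⟩ := exists_patch D P' hb.1 y1 y2
    refine ⟨y, ER.union ?_ ?_ he hf⟩
    · refine h1.congr (fun _ _ _ _ => rfl) fun j hj w hw => ?_
      by_cases hjr : j = r
      · subst hjr
        rw [Function.update_self, Function.update_self]
        exact (hy1 w hw).symm
      · rw [Function.update_of_ne hjr, Function.update_of_ne hjr]
    · refine h2.congr (fun _ _ _ _ => rfl) fun j hj w hw => ?_
      by_cases hjr : j = r
      · subst hjr
        rw [Function.update_self, Function.update_self]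
        exact (hy2 w fun h3 => Set.disjoint_left.1 hf h3 hw).symm
      · rw [Function.update_of_ne hjr, Function.update_of_ne hjr]

end VCD
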