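import Pool.Agent.VCD.ERel

/-!
# VCD-ESub: subobjects of matched objects; types of term tuples
-/

open Set FirstOrder

namespace VCD

variable {L : FirstOrder.Language.{0, 0}} {ι : Type} {S : ι → Type} [∀ i, L.Structure (S i)]

theorem ER.empty_iff (D : HasSw L S) {k r : ℕ} {P P' : PA L S} {c : ℕ → P.A} {d : ℕ → P'.A}
    {e : Set P.Ω} {f : Set P'.Ω} (h : ER k r P P' c d e f) : e = ∅ ↔ f = ∅ := by
  constructor
  · intro h1
    refine eq_empty_of_forall_notMem fun w hw => ?_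
    obtain ⟨w', hw', _⟩ := h.point D w hw
    rw [h1] at hw'
    exact hw'
  · intro h1
    refine eq_empty_of_forall_notMem fun w hw => ?_
    obtain ⟨w', hw', _⟩ := h.symm.point D w hw
    rw [h1] at hw'
    exact hw'

private theorem cst_real {M : Type} [L.Structure M] {n : ℕ} (c1 : L.Functions 0) (v : Fin n → M) :
    (FirstOrder.Language.Term.func c1 Fin.elim0 : L.Term (Fin n)).realize v =
      FirstOrder.Language.Structure.funMap c1 ![] := by
  rw [FirstOrder.Language.Term.realize_func]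
  exact congrArg _ (Subsingleton.elim _ _)

private theorem restrict (c1 : L.Functions 0) {k r : ℕ} {P P' : PA L S}
    {c : ℕ → P.A} {d : ℕ → P'.A} {e : Set P.Ω} {f : Set P'.Ω} (h : ER k r P P' c d e f) {j : ℕ}
    (hj : j < r) :
    ER k r P P' c d (e ∩ {w | (c j).1 w = FirstOrder.Language.Structure.funMap c1 ![]})
      (f ∩ {w | (d j).1 w = FirstOrder.Language.Structure.funMap c1 ![]}) ∧
    ER k r P P' c d (e \ {w | (c j).1 w = FirstOrder.Language.Structure.funMap c1 ![]})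
      (f \ {w | (d j).1 w = FirstOrder.Language.Structure.funMap c1 ![]}) := by
  obtain ⟨T, hT⟩ : ∃ T, T = {w | (c j).1 w = FirstOrder.Language.Structure.funMap c1 ![]} := ⟨_, rfl⟩
  obtain ⟨T', hT'⟩ : ∃ T, T = {w | (d j).1 w = FirstOrder.Language.Structure.funMap c1 ![]} := ⟨_, rfl⟩
  rw [← hT, ← hT']
  induction h with
  | nil =>
    rw [empty_inter, empty_inter, empty_sdiff, empty_sdiff]
    exact ⟨ER.nil, ER.nil⟩
  | cons q e₁ e f₁ f a b s ha hb ht he hf hc hd h ih =>
    by_cases hp : (s j, (FirstOrder.Language.Term.func c1 Fin.elim0 : L.Term (Fin q.len))) ∈ q.ker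
    · have h1 : e₁ ⊆ T := by
        intro w hw
        rw [hT]
        show (c j).1 w = _
        rw [← ha.2 w hw, mem_ker, cst_real] at hp
        rw [hc j hj w hw, hp]
      have h2 : f₁ ⊆ T' := by
        intro w hw
        rw [hT']
        show (d j).1 w = _
        rw [← hb.2 w hw, mem_ker, cst_real] at hp
        rw [hd j hj w hw, hp]
      rw [union_inter_distrib_right, union_inter_distrib_right, inter_eq_left.2 h1,
        inter_eq_left.2 h2, union_sdiff_distrib, union_sdiff_distrib, sdiff_eq_empty.2 h1,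
        sdiff_eq_empty.2 h2, empty_union, empty_union]
      exact ⟨ER.cons q e₁ _ f₁ _ a b s ha hb ht (he.mono_right inter_subset_left)
        (hf.mono_right inter_subset_left) hc hd ih.1, ih.2⟩
    · have h1 : Disjoint e₁ T := by
        rw [Set.disjoint_left]
        intro w hw hw2
        rw [hT] at hw2
        apply hp
        rw [← ha.2 w hw, mem_ker, cst_real, ← hc j hj w hw]
        exact hw2
      have h2 : Disjoint f₁ T' := by
        rw [Set.disjoint_left]
        intro w hw hw2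
        rw [hT'] at hw2
        apply hp
        rw [← hb.2 w hw, mem_ker, cst_real, ← hd j hj w hw]
        exact hw2
      rw [union_inter_distrib_right, union_inter_distrib_right, h1.inter_eq, h2.inter_eq,
        union_sdiff_distrib, union_sdiff_distrib, h1.sdiff_eq_left, h2.sdiff_eq_left, empty_union,
        empty_union]
      exact ⟨ih.1, ER.cons q e₁ _ f₁ _ a b s ha hb ht (he.mono_right sdiff_subset)
        (hf.mono_right sdiff_subset) hc hd ih.2⟩

theorem ER_cl (D : HasSw L S) [Finite ι] [∀ i, Finite (S i)] (k : ℕ) : ∃ k' : ℕ, ∀ (r : ℕ)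
    (P P' : PA L S) (c : ℕ → P.A) (d : ℕ → P'.A) (e : Set P.Ω) (f : Set P'.Ω),
    ER k' r P P' c d e f → ∀ e', P.Cl e' → e' ⊆ e → ∃ f', P'.Cl f' ∧ f' ⊆ f ∧
      ER k r P P' c d e' f' ∧ ER k r P P' c d (e \ e') (f \ f') := by
  obtain ⟨c₀, h0⟩ := ER.forth (L := L) (S := S) D
  obtain ⟨sw, k0, k1, hD⟩ := id D
  refine ⟨k + c₀, fun r P P' c d e f h e' he' hs => ?_⟩
  obtain ⟨χ, h1, h2⟩ := exists_ind hD P he'
  obtain ⟨y, hy⟩ := h0 k r P P' c d e f h χ
  have h3 := restrict k1 hy (Nat.lt_succ_self r)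
  rw [Function.update_self, Function.update_self] at h3
  have h4 : e ∩ {w | χ.1 w = FirstOrder.Language.Structure.funMap k1 ![]} = e' := by
    ext w
    constructor
    · rintro ⟨_, hw⟩
      by_contra hc
      exact hD.c01 _ ((h2 w hc).symm.trans hw)
    · exact fun hw => ⟨hs hw, h1 w hw⟩
  have h5 : e \ {w | χ.1 w = FirstOrder.Language.Structure.funMap k1 ![]} = e \ e' := by
    rw [← sdiff_inter_self_eq_sdiff, inter_comm, h4]
  have h6 : f \ {w | y.1 w = FirstOrder.Language.Structure.funMap k1 ![]} =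
      f \ (f ∩ {w | y.1 w = FirstOrder.Language.Structure.funMap k1 ![]}) := by
    rw [sdiff_self_inter]
  rw [h4, h5, h6] at h3
  have hc : ∀ (M : Type) (c : ℕ → M) (x : M), ∀ j < r, Function.update c r x j = c j := by
    intro M c x j hj
    exact Function.update_of_ne hj.ne _ _
  refine ⟨_, (h3.1.cl D).2, inter_subset_left, ?_, ?_⟩
  · exact (h3.1.mono D le_rfl (Nat.le_succ r)).congr (fun j hj w _ => by rw [hc _ _ _ j hj])
      fun j hj w _ => by rw [hc _ _ _ j hj]
  · exact (h3.2.mono D le_rfl (Nat.le_succ r)).congr (fun j hj w _ => by rw [hc _ _ _ j hj])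
      fun j hj w _ => by rw [hc _ _ _ j hj]

theorem ER_sub (D : HasSw L S) [Finite ι] [∀ i, Finite (S i)] (k : ℕ) : ∃ k' : ℕ, ∀ (r : ℕ)
    (P P' : PA L S) (c : ℕ → P.A) (d : ℕ → P'.A) (e : Set P.Ω) (f : Set P'.Ω),
    ER k' r P P' c d e f → ∀ (q' : Q L S) (e' : Set P.Ω) (a' : ℕ → P.A), P.Ob q' e' a' → e' ⊆ e →
      r ≤ q'.len → (∀ j < r, ∀ w ∈ e', (a' j).1 w = (c j).1 w) →
      ∃ f' b', P'.Ob q' f' b' ∧ f' ⊆ f ∧ (∀ j < r, ∀ w ∈ f', (b' j).1 w = (d j).1 w) ∧
        ER k q'.len P P' a' b' e' f' ∧ ER k r P P' c d (e \ e') (f \ f') := by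
  obtain ⟨c₀, h0⟩ := ER.forth (L := L) (S := S) D
  obtain ⟨k1, hk1⟩ := ER_cl (L := L) (S := S) D k
  refine ⟨k1 + Nat.card (Σ i, S i) * c₀, ?_⟩
  intro r P P' c d e f h q' e' a' ha' he' hr hag
  have ext : ∀ m k2 : ℕ, ER (k2 + m * c₀) r P P' c d e f → ∃ b' : ℕ → P'.A, (∀ j < r, b' j = d j) ∧
      ER k2 (r + m) P P' (fun j => if j < r then c j else a' j) b' e f := by
    intro m
    induction m with
    | zero =>
      intro k2 h1
      rw [Nat.zero_mul] at h1
      exact ⟨d, fun _ _ => rfl, h1.congr (fun j hj w _ => by simp only [if_pos (show j < r from hj)])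
        fun _ _ _ _ => rfl⟩
    | succ m ih =>
      intro k2 h1
      have e1 : k2 + (m + 1) * c₀ = (k2 + c₀) + m * c₀ := by ring
      rw [e1] at h1
      obtain ⟨b', hb', h2⟩ := ih (k2 + c₀) h1
      obtain ⟨y, hy⟩ := h0 k2 _ P P' _ _ e f h2 (a' (r + m))
      refine ⟨Function.update b' (r + m) y, fun j hj => ?_, ?_⟩
      · rw [Function.update_of_ne (by omega)]
        exact hb' j hj
      · refine hy.congr (fun j hj w _ => ?_) fun _ _ _ _ => rfl
        by_cases hjm : j = r + m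
        · subst hjm
          rw [Function.update_self, if_neg (by omega)]
        · rw [Function.update_of_ne hjm]
  have hm : q'.len - r ≤ Nat.card (Σ i, S i) := (Nat.sub_le _ _).trans (Q_len_le q')
  obtain ⟨b', hb', h1⟩ := ext (q'.len - r) k1 (h.mono D
    (Nat.add_le_add_left (Nat.mul_le_mul_right _ hm) _) le_rfl)
  rw [Nat.add_sub_cancel' hr] at h1
  obtain ⟨f', cf', sf', h2, h3⟩ := hk1 _ P P' _ _ e f h1 e' ha'.1 he'
  have h4 : ER k q'.len P P' a' b' e' f' := by
    refine h2.congr (fun j hj w hw => ?_) fun _ _ _ _ => rfl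
    by_cases hjr : j < r
    · simp only [if_pos hjr]
      exact (hag j hjr w hw).symm
    · simp only [if_neg hjr]
  refine ⟨f', b', ⟨cf', h4.ker D ha'.2⟩, sf', fun j hj w _ => by rw [hb' j hj], h4, ?_⟩
  exact (h3.mono D le_rfl hr).congr (fun j hj w _ => by simp only [if_pos hj])
    fun j hj w _ => by rw [hb' j hj]

/-- matched objects have the same types -/
theorem RED (D : HasSw L S) [Finite ι] [∀ i, Finite (S i)] : ∀ k : ℕ, ∃ K : ℕ, ∀ (P P' : PA L S)
    (q : Q L S) (e : Set P.Ω) (a : ℕ → P.A) (f : Set P'.Ω) (b : ℕ → P'.A), P.Ob q e a →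
    P'.Ob q f b → ER K q.len P P' a b e f → P.tau k q e a = P'.tau k q f b := by
  intro k
  induction k with
  | zero =>
    refine ⟨0, fun P P' q e a f b _ _ h => ?_⟩
    exact tau_zero_iff.2 (h.empty_iff D)
  | succ k ih =>
    obtain ⟨K1, hK1⟩ := ih
    obtain ⟨K, hK⟩ := ER_sub (L := L) (S := S) D K1
    refine ⟨K, fun P P' q e a f b ha hb h => ?_⟩
    have key : ∀ (P P' : PA L S) (e : Set P.Ω) (a : ℕ → P.A) (f : Set P'.Ω) (b : ℕ → P'.A),
        P.Ob q e a → P'.Ob q f b → ER K q.len P P' a b e f → ∀ z, z ∈ (P.tau (k + 1) q e a).s →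
        z ∈ (P'.tau (k + 1) q f b).s := by
      rintro P P' e a f b ha hb h ⟨q', x, y⟩ ⟨e', a', h1, h2, h3⟩
      obtain ⟨f', b', h4, h5, h6, h7, h8⟩ := hK q.len P P' a b e f h q' e' a' h1.1 h1.2.1 h1.2.2.1
        h1.2.2.2
      refine ⟨f', b', ⟨h4, h5, h1.2.2.1, h6⟩, h2.trans (hK1 P P' q' e' a' f' b' h1.1 h4 h7),
        h3.trans (hK1 P P' q (e \ e') a (f \ f') b (ha.mono (cl_diff D P ha.1 h1.1.1) sdiff_subset)
          (hb.mono (cl_diff D P' hb.1 h4.1) sdiff_subset) h8)⟩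
    apply Set.ext
    intro z
    exact ⟨key P P' e a f b ha hb h z, key P' P f b e a hb ha h.symm z⟩

/-- the types of objects below matched clopen sets are the same -/
theorem VT (D : HasSw L S) [Finite ι] [∀ i, Finite (S i)] (k : ℕ) : ∃ k' : ℕ, ∀ (P P' : PA L S)
    (c : ℕ → P.A) (d : ℕ → P'.A) (e : Set P.Ω) (f : Set P'.Ω), ER k' 0 P P' c d e f →
    ∀ (q' : Q L S) (e' : Set P.Ω) (a' : ℕ → P.A), P.Ob q' e' a' → e' ⊆ e →
      ∃ f' b', P'.Ob q' f' b' ∧ f' ⊆ f ∧ P.tau k q' e' a' = P'.tau k q' f' b' := by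
  obtain ⟨K, hK⟩ := RED (L := L) (S := S) D k
  obtain ⟨k', hk'⟩ := ER_sub (L := L) (S := S) D K
  refine ⟨k', fun P P' c d e f h q' e' a' ha' he' => ?_⟩
  obtain ⟨f', b', h1, h2, _, h3, _⟩ := hk' 0 P P' c d e f h q' e' a' ha' he' (Nat.zero_le _)
    fun j hj => absurd hj (Nat.not_lt_zero j)
  exact ⟨f', b', h1, h2, hK P P' q' e' a' f' b' ha' h1 h3⟩

end VCD
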