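import Pool.Agent.VCD.GUA

/-!
# VCD-GIso: isomorphic and elementarily equivalent algebras have isomorphic and elementarily
equivalent extensions
-/

open Set FirstOrder

namespace VCD

variable {L : FirstOrder.Language.{0, 0}} {ι : Type} {S : ι → Type} [∀ i, L.Structure (S i)]
  {sw : L.Term (Fin 4)}

/-- each nonempty set `[a = b]` contains a point at which not all elements agree -/
def Red (P : PA L S) : Prop :=
  ∀ a b : P.A, (∃ w, a.1 w = b.1 w) → ∃ (c d : P.A) (w : P.Ω), a.1 w = b.1 w ∧ c.1 w ≠ d.1 w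

private theorem Red_ne (D : SwO S sw) (p q : L.Term ℕ) : UK Red (fun (P : PA L S) v =>
    ∀ w, (p.realize v : P.A).1 w ≠ (q.realize v : P.A).1 w) := by
  have h1 := (UK.eq (K := Red) (S := S) (sw.subst ![p.relabel (fun i => i + 5),
    q.relabel (fun i => i + 5), FirstOrder.Language.Term.var 0, FirstOrder.Language.Term.var 1])
      (FirstOrder.Language.Term.var 1)).fa
  refine h1.congr fun P hP v => ?_
  have hr : ∀ (s : L.Term ℕ) (u : ℕ → P.A),
      ((s.relabel fun i => i + 5).realize (cb u v) : P.A) = s.realize v := by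
    intro s u
    rw [FirstOrder.Language.Term.realize_relabel]
    rfl
  constructor
  · intro h w hw
    obtain ⟨c, d, w', h2, h3⟩ := hP _ _ ⟨w, hw⟩
    obtain ⟨u, hu0, hu1⟩ : ∃ u : ℕ → P.A, u 0 = c ∧ u 1 = d :=
      ⟨fun i => if i = 0 then c else d, rfl, rfl⟩
    have h4 := h u
    have h5 := congrArg (fun z : P.A => z.1 w') h4
    have h6 : ((sw.subst ![p.relabel (fun i => i + 5), q.relabel (fun i => i + 5),
        FirstOrder.Language.Term.var 0, FirstOrder.Language.Term.var 1]).realize (cb u v) : P.A).1 w' =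
        (cb u v 1).1 w' := h5
    rw [sw_on D (by rw [hr, hr]; exact h2)] at h6
    have h7 : (cb u v 0).1 w' = (cb u v 1).1 w' := h6
    rw [cb_lt u v (by omega), cb_lt u v (by omega), hu0, hu1] at h7
    exact h3 h7
  · intro h u
    apply Subtype.ext
    funext w
    exact sw_off D (by rw [hr, hr]; exact h w) _ _

private theorem UK_eq (D : SwO S sw) (b b' : Bool × Bool) : UK Red (fun (P : PA L S) y =>
    ∀ w, bs b P y w = bs b' P (fun i => y (i + 5)) w) :=
  PW.allpt ((bs_CE b).eq D ((bs_CE b').subst fun i => i + 5)) (Red_ne D)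

private theorem cb_eq {P : PA L S} (b b' : Bool × Bool) (v v' : ℕ → P.A) :
    bs b P v = bs b' P v' ↔ ∀ w, bs b P (cb v v') w = bs b' P (fun i => cb v v' (i + 5)) w := by
  have e1 : bs b P (cb v v') = bs b P v := bs_congr fun i hi => cb_lt v v' hi
  have e2 : (fun i => cb v v' (i + 5)) = v' := funext fun i => cb_add v v' i
  rw [e1, e2]
  exact funext_iff

private theorem eq_transfer (D : SwO S sw) {M M' : PA L S} (hM : Red M) (hM' : Red M')
    (φ : M.A ≃[L] M'.A) (b b' : Bool × Bool) (v v' : ℕ → M.A) : bs b M v = bs b' M v' ↔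
      bs b M' (fun i => φ (v i)) = bs b' M' (fun i => φ (v' i)) := by
  obtain ⟨χ, hχ⟩ := UK_eq D b b'
  rw [cb_eq, cb_eq]
  refine (hχ M hM _).trans (Iff.trans ?_ (hχ M' hM' _).symm)
  have h1 : cb (fun i => φ (v i)) (fun i => φ (v' i)) = φ ∘ cb v v' := by
    funext i
    unfold cb
    show (if i < 5 then φ (v i) else φ (v' (i - 5))) = φ (if i < 5 then v i else v' (i - 5))
    split_ifs <;> rfl
  rw [h1]
  exact (FirstOrder.Language.StrongHomClass.realize_formula φ χ).symm

private def TR (D : SwO S sw) {M M' : PA L S} (hM : Nonempty M.A) (hM' : Nonempty M'.A)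
    (φ : M.A ≃[L] M'.A) (u : (UA D M hM).A) (u' : (UA D M' hM').A) : Prop :=
  ∃ (b : Bool × Bool) (v : ℕ → M.A), u.1 = bs b M v ∧ u'.1 = bs b M' fun i => φ (v i)

private theorem TR_iff (D : SwO S sw) {M M' : PA L S} {hM : Nonempty M.A} {hM' : Nonempty M'.A}
    (rM : Red M) (rM' : Red M') {φ : M.A ≃[L] M'.A} {u u1 : (UA D M hM).A}
    {u' u1' : (UA D M' hM').A} (h : TR D hM hM' φ u u') (h1 : TR D hM hM' φ u1 u1') :
    u = u1 ↔ u' = u1' := by
  obtain ⟨b, v, h2, h3⟩ := h
  obtain ⟨b1, v1, h4, h5⟩ := h1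
  have h6 := eq_transfer D rM rM' φ b b1 v v1
  constructor
  · intro h
    apply Subtype.ext
    exact (h3.trans (h6.1 (h2.symm.trans ((congrArg Subtype.val h).trans h4)))).trans h5.symm
  · intro h
    apply Subtype.ext
    exact (h2.trans (h6.2 (h3.symm.trans ((congrArg Subtype.val h).trans h5)))).trans h4.symm

theorem UA_iso (D : SwO S sw) {M M' : PA L S} (hM : Nonempty M.A) (hM' : Nonempty M'.A)
    (rM : Red M) (rM' : Red M') (φ : M.A ≃[L] M'.A) :
    Nonempty ((UA D M hM).A ≃[LX L] (UA D M' hM').A) := by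
  have ex1 : ∀ u : (UA D M hM).A, ∃ u' : (UA D M' hM').A, TR D hM hM' φ u u' := by
    rintro ⟨u, b, v, rfl⟩
    exact ⟨⟨_, b, fun i => φ (v i), rfl⟩, b, v, rfl, rfl⟩
  have ex2 : ∀ u' : (UA D M' hM').A, ∃ u : (UA D M hM).A, TR D hM hM' φ u u' := by
    rintro ⟨u', b, v, rfl⟩
    refine ⟨⟨_, b, fun i => φ.symm (v i), rfl⟩, b, fun i => φ.symm (v i), rfl, ?_⟩
    show bs b M' v = bs b M' fun i => φ (φ.symm (v i))
    congr 1
    funext i
    exact (FirstOrder.Language.Equiv.apply_symm_apply φ (v i)).symm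
  choose ψ hψ using ex1
  have bij : Function.Bijective ψ := by
    constructor
    · intro u u1 h
      exact (TR_iff D rM rM' (hψ u) (hψ u1)).2 h
    · intro u'
      obtain ⟨u, hu⟩ := ex2 u'
      exact ⟨u, (TR_iff D rM rM' (hψ u) hu).1 rfl⟩
  refine ⟨⟨Equiv.ofBijective ψ bij, ?_, ?_⟩⟩
  · intro n F x
    show ψ (FirstOrder.Language.Structure.funMap F x) =
      FirstOrder.Language.Structure.funMap F fun j => ψ (x j)
    choose b v h1 h2 using fun j => hψ (x j)
    have h3 : ∀ j, CE fun (P : PA L S) v w => bs (b j) P (fun i => v (5 * (j : ℕ) + i)) w :=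
      fun j => (bs_CE (b j)).subst fun i => 5 * (j : ℕ) + i
    obtain ⟨b', τ, h4⟩ := bs_of_CE (CE.func D F h3)
    have h5 : TR D hM hM' φ (FirstOrder.Language.Structure.funMap F x)
        (FirstOrder.Language.Structure.funMap F fun j => ψ (x j)) := by
      refine ⟨b', fun i => (τ i).realize (cmb v hM.some), ?_, ?_⟩
      · rw [← h4]
        show (fun w => FirstOrder.Language.Structure.funMap F fun j => (x j).1 w) = _
        funext w
        congr 1
        funext j
        rw [h1]
        exact congrFun (bs_congr (b := b j) (P := M) fun i hi => (cmb_val v hM.some j hi).symm) w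
      · have h6 : (fun i => φ ((τ i).realize (cmb v hM.some))) =
            fun i => (τ i).realize (fun m => φ (cmb v hM.some m)) := by
          funext i
          exact FirstOrder.Language.HomClass.realize_term φ |>.symm
        rw [h6, ← h4]
        show (fun w => FirstOrder.Language.Structure.funMap F fun j => (ψ (x j)).1 w) = _
        funext w
        congr 1
        funext j
        rw [h2]
        exact congrFun (bs_congr (b := b j) (P := M') fun i hi => by
          rw [cmb_val v hM.some j hi]) w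
    exact (TR_iff D rM rM' (hψ _) h5).1 rfl
  · intro n r
    exact (LX_rel L n).elim r

/-- satisfaction in the extension is definable -/
private theorem UK_sat (D : SwO S sw) : ∀ {n : ℕ} (θ : (LX L).BoundedFormula Empty n)
    (U : Fin n → ∀ P : PA L S, (ℕ → P.A) → ∀ w : P.Ω, SX S (P.f w)) (hU : ∀ j, CE (U j)),
    UK Red (fun (P : PA L S) v => θ.Realize (default : Empty → (UA D P ⟨v 0⟩).A)
      (fun j => (⟨U j P v, UA_mem D ⟨v 0⟩ (hU j) v⟩ : (UA D P ⟨v 0⟩).A))) := by
  intro n θ
  induction θ with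
  | falsum => exact fun U hU => UK.const False
  | equal t1 t2 =>
    intro U hU
    have c : ∀ j : Empty ⊕ Fin _, CE (Sum.elim (fun e : Empty => e.elim) U j :
        ∀ P : PA L S, (ℕ → P.A) → ∀ w : P.Ω, SX S (P.f w)) := by
      rintro (e | j)
      · exact e.elim
      · exact hU j
    have h1 := PW.allpt ((CE.term D t1 c).eq D (CE.term D t2 c)) (Red_ne D)
    refine h1.congr fun P hP v => ?_
    rw [FirstOrder.Language.BoundedFormula.Realize]
    have hv : ∀ (t : (LX L).Term (Empty ⊕ Fin _)) (w : P.Ω),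
        (t.realize (Sum.elim (default : Empty → (UA D P ⟨v 0⟩).A)
          (fun j => (⟨U j P v, UA_mem D ⟨v 0⟩ (hU j) v⟩ : (UA D P ⟨v 0⟩).A))) :
            (UA D P ⟨v 0⟩).A).1 w =
          t.realize fun j => (Sum.elim (fun e : Empty => e.elim) U j :
            ∀ P : PA L S, (ℕ → P.A) → ∀ w : P.Ω, SX S (P.f w)) P v w := by
      intro t w
      rw [realize_val]
      congr 1
      funext j
      rcases j with e | j
      · exact e.elim
      · rfl
    constructor
    · intro h
      apply Subtype.ext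
      funext w
      rw [hv, hv]
      exact h w
    · intro h w
      rw [← hv, ← hv, h]
  | rel R _ => exact (LX_rel L _).elim R
  | imp θ1 θ2 ih1 ih2 => exact fun U hU => (ih1 U hU).imp (ih2 U hU)
  | @all m θ ih =>
    intro U hU
    obtain ⟨U', hU'1, hU'2⟩ : ∃ U' : Bool × Bool → Fin (m + 1) → ∀ P : PA L S, (ℕ → P.A) →
        ∀ w : P.Ω, SX S (P.f w), (∀ b (j : Fin m), U' b j.castSucc = fun P z w =>
          U j P (fun i => z (i + 5)) w) ∧ ∀ b, U' b (Fin.last m) = fun P z w => bs b P z w :=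
      ⟨fun b => Fin.lastCases (fun P z w => bs b P z w) fun j P z w => U j P (fun i => z (i + 5)) w,
        fun b j => Fin.lastCases_castSucc j, fun b => Fin.lastCases_last⟩
    have hUc : ∀ b j, CE (U' b j) := by
      intro b j
      refine Fin.lastCases ?_ (fun j => ?_) j
      · rw [hU'2]
        exact bs_CE b
      · rw [hU'1]
        exact (hU j).subst fun i => i + 5
    refine (UK.all fun b => (ih (U' b) (hUc b)).fa).congr fun P hP v => ?_
    rw [FirstOrder.Language.BoundedFormula.realize_all]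
    have key : ∀ (b : Bool × Bool) (u : ℕ → P.A),
        (fun j => (⟨U' b j P (cb u v), UA_mem D ⟨cb u v 0⟩ (hUc b j) (cb u v)⟩ :
          (UA D P ⟨v 0⟩).A)) =
        Fin.snoc (fun j => (⟨U j P v, UA_mem D ⟨v 0⟩ (hU j) v⟩ : (UA D P ⟨v 0⟩).A))
          (⟨bs b P u, b, u, rfl⟩ : (UA D P ⟨v 0⟩).A) := by
      intro b u
      funext j
      refine Fin.lastCases ?_ (fun j => ?_) j
      · rw [Fin.snoc_last]
        apply Subtype.ext
        show U' b (Fin.last m) P (cb u v) = _
        rw [hU'2]
        exact bs_congr fun i hi => cb_lt u v hi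
      · rw [Fin.snoc_castSucc]
        apply Subtype.ext
        show U' b j.castSucc P (cb u v) = _
        rw [hU'1]
        have e2 : (fun i => cb u v (i + 5)) = v := funext fun i => cb_add u v i
        exact congrArg (U j P) e2
    constructor
    · rintro h ⟨x, b, u, rfl⟩
      have h1 := h b u
      have h2 := key b u
      rw [← h2]
      exact h1
    · intro h b u
      have h1 := h (⟨bs b P u, b, u, rfl⟩ : (UA D P ⟨v 0⟩).A)
      rw [← key b u] at h1
      exact h1

theorem UA_equiv (D : SwO S sw) {M M' : PA L S} (hM : Nonempty M.A) (hM' : Nonempty M'.A)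
    (rM : Red M) (rM' : Red M') (h : ∀ ψ : L.Sentence, M.A ⊨ ψ ↔ M'.A ⊨ ψ)
    (θ : (LX L).Sentence) : (UA D M hM).A ⊨ θ ↔ (UA D M' hM').A ⊨ θ := by
  have h1 := UK_sat (S := S) D θ (fun j => j.elim0) fun j => j.elim0
  have h2 : UK Red (fun (P : PA L S) _ => ∀ hP : Nonempty P.A, (UA D P hP).A ⊨ θ) := by
    refine h1.congr fun P hP v => ?_
    have e1 : (fun j : Fin 0 => (⟨(j.elim0 : ∀ P : PA L S, (ℕ → P.A) → ∀ w : P.Ω, SX S (P.f w)) P v,
        UA_mem D ⟨v 0⟩ j.elim0 v⟩ : (UA D P ⟨v 0⟩).A)) = default := Subsingleton.elim _ _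
    constructor
    · intro h3 _
      show FirstOrder.Language.BoundedFormula.Realize θ _ _
      rw [← e1]
      exact h3
    · intro h3
      have h4 : FirstOrder.Language.BoundedFormula.Realize θ (default : Empty → (UA D P ⟨v 0⟩).A)
        default := h3 ⟨v 0⟩
      rw [← e1] at h4
      exact h4
  obtain ⟨ψ, hψ⟩ := h2.sentence
  have h3 := (hψ M rM hM).trans ((h ψ).trans (hψ M' rM' hM').symm)
  exact ⟨fun h4 => h3.1 (fun _ => h4) hM', fun h4 => h3.2 (fun _ => h4) hM⟩

end VCD
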