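import Pool.Agent.VCD.GDA
import Pool.Agent.VCD.GIso

/-!
# VCD-GAx: the extensions are characterized by sentences
-/

open Set FirstOrder

namespace VCD

variable {L : FirstOrder.Language.{0, 0}} {ι : Type} {S : ι → Type} [∀ i, L.Structure (S i)]
  {sw : L.Term (Fin 4)}

/-- the constants as terms -/
private def ct (b : Bool) : (LX L).Term ℕ := FirstOrder.Language.Term.func (csy b) Fin.elim0

private theorem ct_val (N : PA (LX L) (SX S)) (b : Bool) (v : ℕ → N.A) (w : N.Ω) :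
    ((ct (L := L) b).realize v : N.A).1 w = ne b := by
  rw [realize_val]
  rfl

private theorem allne (p q : (LX L).Term ℕ) : UK (fun _ => True)
    (fun (N : PA (LX L) (SX S)) v => ∀ w, (p.realize v : N.A).1 w ≠ (q.realize v : N.A).1 w) := by
  classical
  refine (UK.eq (FirstOrder.Language.Term.func (esy (L := L)) ![p, q] : (LX L).Term ℕ)
    (ct (L := L) false)).congr fun N _ v => ?_
  have h1 : ∀ w, ((FirstOrder.Language.Term.func (esy (L := L)) ![p, q] :
      (LX L).Term ℕ).realize v : N.A).1 w =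
      ne (decide ((p.realize v : N.A).1 w = (q.realize v : N.A).1 w)) := by
    intro w
    rw [realize_val, FirstOrder.Language.Term.realize_func, esy_val, realize_val, realize_val]
    rfl
  constructor
  · intro h w hw
    have h2 : ((FirstOrder.Language.Term.func (esy (L := L)) ![p, q] :
      (LX L).Term ℕ).realize v : N.A).1 w = ((ct (L := L) false).realize v : N.A).1 w := by rw [h]
    rw [h1, ct_val, decide_eq_true hw] at h2
    exact Bool.noConfusion (ne_inj h2)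
  · intro h
    apply Subtype.ext
    funext w
    rw [h1, ct_val, decide_eq_false (h w)]

private theorem pw_c (i : ℕ) (b : Bool) : PW fun (_ : PA (LX L) (SX S)) y w => (y i).1 w = ne b := by
  refine (PW.eq (FirstOrder.Language.Term.var i) (ct (L := L) b)).congr fun _ v w => ?_
  rw [ct_val]
  exact Iff.rfl

/-- the value is old -/
private def OV (N : PA (LX L) (SX S)) (y : N.A) (w : N.Ω) : Prop :=
  ¬ y.1 w = ne false ∧ ¬ y.1 w = ne true

private theorem OV_iff {N : PA (LX L) (SX S)} (y : N.A) :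
    (∀ w, OV N y w) ↔ ∃ a : (DA N).A, y = io a := by
  constructor
  · intro h
    have h1 : ∀ w, ∃ a : S (N.f w), y.1 w = oe a := by
      intro w
      rcases SX_cases (y.1 w) with h2 | ⟨b, hb⟩
      · exact h2
      · cases b with
        | false => exact ((h w).1 hb).elim
        | true => exact ((h w).2 hb).elim
    choose a ha using h1
    refine ⟨⟨a, ?_⟩, Subtype.ext (funext ha)⟩
    show (fun w => (oe (a w) : SX S (N.f w))) ∈ N.A
    have h2 : (fun w => (oe (a w) : SX S (N.f w))) = y.1 := funext fun w => (ha w).symm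
    rw [h2]
    exact y.2
  · rintro ⟨a, rfl⟩ w
    exact ⟨oe_ne _ _, oe_ne _ _⟩

/-- the value of `y 5` is given by the old elements `y 0, …, y 4` -/
private def VB (b : Bool × Bool) (N : PA (LX L) (SX S)) (y : ℕ → N.A) (w : N.Ω) : Prop :=
  ((OV N (y 0) w ∧ OV N (y 1) w) ∧ (OV N (y 2) w ∧ OV N (y 3) w) ∧ OV N (y 4) w) ∧
    (((((y 1).1 w = (y 2).1 w) ↔ b.1 = true) ∧ (y 5).1 w = ne false) ∨
    (¬ (((y 1).1 w = (y 2).1 w) ↔ b.1 = true) ∧ (((((y 3).1 w = (y 4).1 w) ↔ b.2 = true) ∧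
      (y 5).1 w = ne true) ∨
    (¬ (((y 3).1 w = (y 4).1 w) ↔ b.2 = true) ∧ (y 5).1 w = (y 0).1 w))))

private theorem pw_VB (b : Bool × Bool) : PW fun (N : PA (LX L) (SX S)) y w => VB b N y w := by
  obtain ⟨sw', c0, c1, hD⟩ := SX_HasSw (L := L) (S := S)
  have D : SwO (SX S) sw' := ⟨hD.eq, hD.ne⟩
  have o : ∀ i, PW fun (N : PA (LX L) (SX S)) y w => OV N (y i) w := fun i =>
    (pw_c i false).not.and D (pw_c i true).not
  have e : ∀ i j, PW fun (N : PA (LX L) (SX S)) y w => (y i).1 w = (y j).1 w := fun i j =>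
    PW.eq (FirstOrder.Language.Term.var i) (FirstOrder.Language.Term.var j)
  have e1 := (e 1 2).iff D (PW.const (b.1 = true))
  have e2 := (e 3 4).iff D (PW.const (b.2 = true))
  exact (((o 0).and D (o 1)).and D (((o 2).and D (o 3)).and D (o 4))).and D
    ((e1.and D (pw_c 5 false)).or D (e1.not.and D ((e2.and D (pw_c 5 true)).or D
      (e2.not.and D (e 5 0)))))

/-- all elements are given by old elements -/
def Ax (N : PA (LX L) (SX S)) : Prop :=
  ∀ u : N.A, ∃ (b : Bool × Bool) (v : ℕ → (DA N).A), u.1 = bs b (DA N) v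

private theorem VB_iff {N : PA (LX L) (SX S)} (u : N.A) (y : ℕ → N.A) (hy : y 0 = u) :
    (∃ v' : ℕ → N.A, ∃ b, ∀ w, VB b N (cb v' y) w) ↔
      ∃ (b : Bool × Bool) (v : ℕ → (DA N).A), u.1 = bs b (DA N) v := by
  have h5 : ∀ v' : ℕ → N.A, cb v' y 5 = u := fun v' => (cb_add v' y 0).trans hy
  constructor
  · rintro ⟨v', b, h⟩
    have ho : ∀ i, ∃ a : (DA N).A, i < 5 → v' i = io a := by
      intro i
      have key : i < 5 → ∀ w, OV N (cb v' y i) w := by
        intro hi w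
        obtain ⟨⟨⟨k0, k1⟩, ⟨k2, k3⟩, k4⟩, _⟩ := h w
        interval_cases i <;> assumption
      have k0 : ∃ a : (DA N).A, v' 0 = io a := by
        refine (OV_iff (v' 0)).1 fun w => ?_
        exact (h w).1.1.1
      obtain ⟨a0, ha0⟩ := k0
      by_cases hi : i < 5
      · have k1 := key hi
        rw [cb_lt v' y hi] at k1
        obtain ⟨a, ha⟩ := (OV_iff (v' i)).1 k1
        exact ⟨a, fun _ => ha⟩
      · exact ⟨a0, fun h => (hi h).elim⟩
    choose v hv using ho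
    refine ⟨b, v, ?_⟩
    funext w
    have h1 := (h w).2
    have hval : ∀ i < 5, ((cb v' y i).1 w : SX S (N.f w)) = oe ((v i).1 w) := by
      intro i hi
      rw [cb_lt v' y hi, hv i hi]
      rfl
    have heq : ∀ i < 5, ∀ j < 5, ((cb v' y i).1 w = (cb v' y j).1 w ↔ (v i).1 w = (v j).1 w) := by
      intro i hi j hj
      rw [hval i hi, hval j hj]
      exact ⟨fun h => oe_inj h, fun h => by rw [h]⟩
    rw [heq 1 (by omega) 2 (by omega), heq 3 (by omega) 4 (by omega), h5, hval 0 (by omega)] at h1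
    rcases h1 with ⟨h2, h3⟩ | ⟨h2, ⟨h3, h4⟩ | ⟨h3, h4⟩⟩
    · rw [h3]
      exact ((mkv_f _ _ _).2 h2).symm
    · rw [h4]
      exact ((mkv_t _ _ _).2 ⟨h2, h3⟩).symm
    · rw [h4]
      exact (mkv_o _ h2 h3).symm
  · rintro ⟨b, v, hu⟩
    refine ⟨fun i => io (v i), b, fun w => ?_⟩
    have hval : ∀ i < 5, ((cb (fun i => io (v i)) y i).1 w : SX S (N.f w)) = oe ((v i).1 w) := by
      intro i hi
      rw [cb_lt _ y hi]
      rfl
    have hov : ∀ i < 5, OV N (cb (fun i => io (v i)) y i) w := by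
      intro i hi
      unfold OV
      rw [hval i hi]
      exact ⟨oe_ne _ _, oe_ne _ _⟩
    have heq : ∀ i < 5, ∀ j < 5, ((cb (fun i => io (v i)) y i).1 w =
        (cb (fun i => io (v i)) y j).1 w ↔ (v i).1 w = (v j).1 w) := by
      intro i hi j hj
      rw [hval i hi, hval j hj]
      exact ⟨fun h => oe_inj h, fun h => by rw [h]⟩
    refine ⟨⟨⟨hov 0 (by omega), hov 1 (by omega)⟩, ⟨hov 2 (by omega), hov 3 (by omega)⟩,
      hov 4 (by omega)⟩, ?_⟩
    rw [heq 1 (by omega) 2 (by omega), heq 3 (by omega) 4 (by omega), h5, hval 0 (by omega), hu]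
    show ((_ ↔ _) ∧ bs b (DA N) v w = ne false) ∨ (_ ∧ ((_ ∧ bs b (DA N) v w = ne true) ∨
      (_ ∧ bs b (DA N) v w = oe ((v 0).1 w))))
    by_cases h2 : ((v 1).1 w = (v 2).1 w ↔ b.1 = true)
    · exact Or.inl ⟨h2, (mkv_f _ _ _).2 h2⟩
    · right
      by_cases h3 : ((v 3).1 w = (v 4).1 w ↔ b.2 = true)
      · exact ⟨h2, Or.inl ⟨h3, (mkv_t _ _ _).2 ⟨h2, h3⟩⟩⟩
      · exact ⟨h2, Or.inr ⟨h3, mkv_o _ h2 h3⟩⟩

private theorem UK_Ax : UK (fun _ => True) (fun (N : PA (LX L) (SX S)) _ => Ax N) := by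
  have h1 : ∀ b, UK (fun _ => True) (fun (N : PA (LX L) (SX S)) y => ¬ ∀ w, VB b N y w) := fun b =>
    (PW.allpt (pw_VB b) allne).not
  have h2 := ((UK.all h1).not.ex).fa
  refine h2.congr fun N _ v => ?_
  constructor
  · intro h u
    have h3 := h fun _ => u
    refine (VB_iff u (cb (fun _ => u) v) (cb_lt _ _ (by omega))).1 ?_
    obtain ⟨v', h4⟩ := h3
    rw [not_forall] at h4
    obtain ⟨b, h5⟩ := h4
    exact ⟨v', b, not_not.1 h5⟩
  · intro h x
    obtain ⟨v', b, h3⟩ := (VB_iff (x 0) (cb x v) (cb_lt _ _ (by omega))).2 (h (x 0))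
    exact ⟨v', fun h4 => h4 b h3⟩

private theorem UK_Red : UK (fun _ => True) (fun (N : PA (LX L) (SX S)) _ => Red (DA N)) := by
  obtain ⟨sw', c0, c1, hD⟩ := SX_HasSw (L := L) (S := S)
  have D : SwO (SX S) sw' := ⟨hD.eq, hD.ne⟩
  have o : ∀ i, UK (fun _ => True) (fun (N : PA (LX L) (SX S)) y => ∀ w, OV N (y i) w) := fun i =>
    PW.allpt ((pw_c i false).not.and D (pw_c i true).not) allne
  have e : ∀ i j, PW fun (N : PA (LX L) (SX S)) y w => (y i).1 w = (y j).1 w := fun i j =>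
    PW.eq (FirstOrder.Language.Term.var i) (FirstOrder.Language.Term.var j)
  -- `y 5, y 6` are the given elements, `y 0, y 1` the new ones
  have h1 := (((o 0).and (o 1)).and
    (PW.allpt (((e 5 6).and D (e 0 1).not).not) allne).not).ex
  have h2 := (((o 0).and (o 1)).imp ((PW.allpt (e 0 1).not allne).not.imp h1)).fa
  refine h2.congr fun N _ v => ?_
  have key : ∀ a b c d : (DA N).A, ∀ w, ((io a).1 w = (io b).1 w ↔ a.1 w = b.1 w) := by
    intro a b _ _ w
    exact ⟨fun h => oe_inj h, fun h => congrArg oe h⟩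
  constructor
  · intro h a b hab
    obtain ⟨x, hx0, hx1⟩ : ∃ x : ℕ → N.A, x 0 = io a ∧ x 1 = io b :=
      ⟨fun i => if i = 0 then io a else io b, rfl, rfl⟩
    have h3 := h x
    have c0 : cb x v 0 = io a := (cb_lt _ _ (by omega)).trans hx0
    have c1 : cb x v 1 = io b := (cb_lt _ _ (by omega)).trans hx1
    have h4 := h3 ⟨by
      show ∀ w, OV N (cb x v 0) w
      rw [c0]
      exact (OV_iff _).2 ⟨a, rfl⟩, by
      show ∀ w, OV N (cb x v 1) w
      rw [c1]
      exact (OV_iff _).2 ⟨b, rfl⟩⟩ (by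
      show ¬ ∀ w, ¬ (cb x v 0).1 w = (cb x v 1).1 w
      rw [c0, c1]
      intro h5
      obtain ⟨w, hw⟩ := hab
      exact h5 w ((key a b a b w).2 hw))
    obtain ⟨z, ⟨h5, h6⟩, h7⟩ := h4
    obtain ⟨c, hc⟩ := (OV_iff (cb z (cb x v) 0)).1 h5
    obtain ⟨d, hd⟩ := (OV_iff (cb z (cb x v) 1)).1 h6
    have h8 : ¬ ∀ w, ¬ ((cb z (cb x v) 5).1 w = (cb z (cb x v) 6).1 w ∧
      ¬ (cb z (cb x v) 0).1 w = (cb z (cb x v) 1).1 w) := h7
    have e5 : cb z (cb x v) 5 = io a := (cb_add z (cb x v) 0).trans c0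
    have e6 : cb z (cb x v) 6 = io b := (cb_add z (cb x v) 1).trans c1
    rw [e5, e6, hc, hd] at h8
    push Not at h8
    obtain ⟨w, h9, h10⟩ := h8
    exact ⟨c, d, w, (key a b a b w).1 h9, fun h11 => h10 ((key c d c d w).2 h11)⟩
  · intro h x hx hne
    obtain ⟨a, ha⟩ := (OV_iff (cb x v 0)).1 hx.1
    obtain ⟨b, hb⟩ := (OV_iff (cb x v 1)).1 hx.2
    have hne' : ¬ ∀ w, ¬ (cb x v 0).1 w = (cb x v 1).1 w := hne
    rw [ha, hb] at hne'
    push Not at hne'
    obtain ⟨w, hw⟩ := hne'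
    obtain ⟨c, d, w', h3, h4⟩ := h a b ⟨w, (key a b a b w).1 hw⟩
    obtain ⟨z, hz0, hz1⟩ : ∃ z : ℕ → N.A, z 0 = io c ∧ z 1 = io d :=
      ⟨fun i => if i = 0 then io c else io d, rfl, rfl⟩
    have c0 : cb z (cb x v) 0 = io c := (cb_lt _ _ (by omega)).trans hz0
    have c1 : cb z (cb x v) 1 = io d := (cb_lt _ _ (by omega)).trans hz1
    have e5 : cb z (cb x v) 5 = io a := (cb_add z (cb x v) 0).trans ha
    have e6 : cb z (cb x v) 6 = io b := (cb_add z (cb x v) 1).trans hb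
    refine ⟨z, ⟨?_, ?_⟩, ?_⟩
    · show ∀ w, OV N (cb z (cb x v) 0) w
      rw [c0]
      exact (OV_iff _).2 ⟨c, rfl⟩
    · show ∀ w, OV N (cb z (cb x v) 1) w
      rw [c1]
      exact (OV_iff _).2 ⟨d, rfl⟩
    · show ¬ ∀ w, ¬ ((cb z (cb x v) 5).1 w = (cb z (cb x v) 6).1 w ∧
        ¬ (cb z (cb x v) 0).1 w = (cb z (cb x v) 1).1 w)
      rw [e5, e6, c0, c1]
      intro h5
      exact h5 w' ⟨(key a b a b w').2 h3, fun h6 => h4 ((key c d c d w').1 h6)⟩

theorem Ax_UA (D : SwO S sw) (M : PA L S) (hM : Nonempty M.A) : Ax (UA D M hM) := by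
  rintro ⟨u, b, v, rfl⟩
  have hmem : ∀ a : M.A, a.1 ∈ (DA (UA D M hM)).A := by
    intro a
    refine ⟨(false, false), fun _ => a, ?_⟩
    funext w
    exact (mkv_o _ (fun h => Bool.noConfusion (h.1 rfl))
      (fun h => Bool.noConfusion (h.1 rfl))).symm
  exact ⟨b, fun i => ⟨(v i).1, hmem (v i)⟩, rfl⟩

theorem Red_DA_UA (D : SwO S sw) (M : PA L S) (hM : Nonempty M.A) (rM : Red M) :
    Red (DA (UA D M hM)) := by
  have hmem : ∀ a : M.A, a.1 ∈ (DA (UA D M hM)).A := by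
    intro a
    refine ⟨(false, false), fun _ => a, ?_⟩
    funext w
    exact (mkv_o _ (fun h => Bool.noConfusion (h.1 rfl))
      (fun h => Bool.noConfusion (h.1 rfl))).symm
  have hinv : ∀ a : (DA (UA D M hM)).A, a.1 ∈ M.A := by
    rintro ⟨u, b, v, hu⟩
    have h0 : u = (v 0).1 := by
      funext w
      have h1 : (oe (u w) : SX S (M.f w)) = bs b M v w := congrFun hu w
      have h2 : ¬ (((v 1).1 w = (v 2).1 w) ↔ b.1 = true) := by
        intro h3
        have h4 : bs b M v w = ne false := (mkv_f _ _ _).2 h3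
        rw [← h1] at h4
        exact oe_ne _ _ h4
      have h3 : ¬ (((v 3).1 w = (v 4).1 w) ↔ b.2 = true) := by
        intro h3
        have h4 : bs b M v w = ne true := (mkv_t _ _ _).2 ⟨h2, h3⟩
        rw [← h1] at h4
        exact oe_ne _ _ h4
      have h4 : bs b M v w = oe ((v 0).1 w) := mkv_o _ h2 h3
      exact oe_inj (h1.trans h4)
    show u ∈ M.A
    rw [h0]
    exact (v 0).2
  intro a b hab
  obtain ⟨c, d, w, h1, h2⟩ := rM ⟨a.1, hinv a⟩ ⟨b.1, hinv b⟩ hab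
  exact ⟨⟨c.1, hmem c⟩, ⟨d.1, hmem d⟩, w, h1, h2⟩

/-- algebras which satisfy the same sentences as an extension are extensions -/
theorem Ax_of_equiv (D : SwO S sw) (M : PA L S) (hM : Nonempty M.A) (rM : Red M)
    {N : PA (LX L) (SX S)} (h : ∀ ψ : (LX L).Sentence, (UA D M hM).A ⊨ ψ ↔ N.A ⊨ ψ) :
    Ax N ∧ Red (DA N) := by
  obtain ⟨ψ1, h1⟩ := (UK_Ax (L := L) (S := S)).sentence
  obtain ⟨ψ2, h2⟩ := (UK_Red (L := L) (S := S)).sentence
  have n1 := nonempty_el SX_HasSw (UA D M hM)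
  have n2 := nonempty_el SX_HasSw N
  exact ⟨(h1 N trivial n2).2 ((h ψ1).1 ((h1 _ trivial n1).1 (Ax_UA D M hM))),
    (h2 N trivial n2).2 ((h ψ2).1 ((h2 _ trivial n1).1 (Red_DA_UA D M hM rM)))⟩

end VCD
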