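import Pool.Agent.VCD.GUA

/-!
# VCD-GDA: the algebra of the old elements; relativization
-/

open Set FirstOrder

namespace VCD

variable {L : FirstOrder.Language.{0, 0}} {ι : Type} {S : ι → Type} [∀ i, L.Structure (S i)]
  {sw : L.Term (Fin 4)}

/-- the algebra of the elements with old values -/
def DA (N : PA (LX L) (SX S)) : PA L S where
  Ω := N.Ω
  f := N.f
  A := {a | (fun w => (oe (a w) : SX S (N.f w))) ∈ N.A}
  closed := by
    intro n G v hv
    have h := N.closed n (fsy G) (fun j w => (oe (v j w) : SX S (N.f w))) hv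
    have e : (fun w => FirstOrder.Language.Structure.funMap (fsy G)
        fun j => (oe (v j w) : SX S (N.f w))) =
        fun w => oe (FirstOrder.Language.Structure.funMap G fun j => v j w) :=
      funext fun w => fsy_oe G _
    rw [e] at h
    exact h

variable {N N' : PA (LX L) (SX S)}

/-- an old element as an element of the extension -/
def io (a : (DA N).A) : N.A := ⟨fun w => (oe (a.1 w) : SX S (N.f w)), a.2⟩

theorem io_inj {a b : (DA N).A} (h : io a = io b) : a = b := by
  apply Subtype.ext
  funext w
  exact oe_inj (congrArg (fun z : N.A => z.1 w) h)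

/-- the test for old values -/
def oldt {α : Type} (t : (LX L).Term α) : (LX L).Term α :=
  FirstOrder.Language.Term.func isy ![FirstOrder.Language.Term.func esy
    ![t, FirstOrder.Language.Term.func (csy false) Fin.elim0],
      FirstOrder.Language.Term.func (csy true) Fin.elim0, FirstOrder.Language.Term.func esy
        ![t, FirstOrder.Language.Term.func (csy true) Fin.elim0] ]

/-- the constant -/
def c0t {α : Type} : (LX L).Term α := FirstOrder.Language.Term.func (csy false) Fin.elim0

theorem c0t_val {α : Type} {i : ι} (v : α → SX S i) :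
    (c0t (L := L) : (LX L).Term α).realize v = (ne false : SX S i) := rfl

theorem oldt_val {α : Type} {i : ι} (t : (LX L).Term α) (v : α → SX S i) :
    (oldt t).realize v = (ne false : SX S i) ↔ ∃ a : S i, t.realize v = oe a := by
  classical
  have h1 : (oldt t).realize v = if (ne (decide (t.realize v = (ne false : SX S i))) : SX S i) = ne true
      then (ne true : SX S i) else ne (decide (t.realize v = (ne true : SX S i))) := rfl
  rw [h1]
  rcases SX_cases (t.realize v) with ⟨a, ha⟩ | ⟨b, hb⟩
  · rw [ha, decide_eq_false (oe_ne a false), decide_eq_false (oe_ne a true), if_neg fun h =>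
      Bool.noConfusion (ne_inj h)]
    exact ⟨fun _ => ⟨a, rfl⟩, fun _ => rfl⟩
  · rw [hb]
    cases b with
    | false =>
      rw [decide_eq_true rfl, if_pos rfl]
      exact ⟨fun h => Bool.noConfusion (ne_inj h), fun ⟨a, ha⟩ => (oe_ne _ _ ha.symm).elim⟩
    | true =>
      rw [decide_eq_false fun h => Bool.noConfusion (ne_inj h), if_neg fun h =>
        Bool.noConfusion (ne_inj h), decide_eq_true rfl]
      exact ⟨fun h => Bool.noConfusion (ne_inj h), fun ⟨a, ha⟩ => (oe_ne _ _ ha.symm).elim⟩

theorem old_iff {α : Type} (t : (LX L).Term α) (v : α → N.A) :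
    ((oldt t).realize v : N.A) = (c0t (L := L)).realize v ↔
      ∃ a : (DA N).A, (t.realize v : N.A) = io a := by
  constructor
  · intro h
    have h1 : ∀ w, ∃ a : S (N.f w), (t.realize v : N.A).1 w = oe a := by
      intro w
      have h2 : ((oldt t).realize v : N.A).1 w = ((c0t (L := L)).realize v : N.A).1 w := by rw [h]
      rw [realize_val, realize_val, c0t_val, oldt_val] at h2
      rw [realize_val]
      exact h2
    choose a ha using h1
    refine ⟨⟨a, ?_⟩, Subtype.ext (funext ha)⟩
    show (fun w => (oe (a w) : SX S (N.f w))) ∈ N.A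
    have h2 : (fun w => (oe (a w) : SX S (N.f w))) = (t.realize v : N.A).1 := funext fun w => (ha w).symm
    rw [h2]
    exact (t.realize v : N.A).2
  · rintro ⟨a, ha⟩
    apply Subtype.ext
    funext w
    rw [realize_val, realize_val, c0t_val, oldt_val, ← realize_val N t v w, ha]
    exact ⟨a.1 w, rfl⟩

/-- terms of `L` in the extended language -/
def ron {α : Type} : L.Term α → (LX L).Term α
  | FirstOrder.Language.Term.var i => FirstOrder.Language.Term.var i
  | FirstOrder.Language.Term.func G ts => FirstOrder.Language.Term.func (fsy G) fun j => ron (ts j)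

theorem ron_val {α : Type} (t : L.Term α) (v : α → (DA N).A) :
    ((ron t).realize (fun i => io (v i)) : N.A) = io (t.realize v) := by
  induction t with
  | var i => rfl
  | func G ts ih =>
    show FirstOrder.Language.Structure.funMap (fsy G)
      (fun j => ((ron (ts j)).realize (fun i => io (v i)) : N.A)) = _
    simp only [ih]
    apply Subtype.ext
    funext w
    show FirstOrder.Language.Structure.funMap (fsy G)
      (fun j => (oe (((ts j).realize v : (DA N).A).1 w) : SX S (N.f w))) = _
    rw [fsy_oe]
    rfl

/-- relativization to the old elements -/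
def rlz : ∀ {n : ℕ}, L.BoundedFormula Empty n → (LX L).BoundedFormula Empty n
  | _, FirstOrder.Language.BoundedFormula.falsum => FirstOrder.Language.BoundedFormula.falsum
  | _, FirstOrder.Language.BoundedFormula.equal t1 t2 =>
    FirstOrder.Language.BoundedFormula.equal (ron t1) (ron t2)
  | _, FirstOrder.Language.BoundedFormula.rel _ _ => FirstOrder.Language.BoundedFormula.falsum
  | _, FirstOrder.Language.BoundedFormula.imp f g =>
    FirstOrder.Language.BoundedFormula.imp (rlz f) (rlz g)
  | n, FirstOrder.Language.BoundedFormula.all f =>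
    FirstOrder.Language.BoundedFormula.all (FirstOrder.Language.BoundedFormula.imp
      (FirstOrder.Language.BoundedFormula.equal
        (oldt (FirstOrder.Language.Term.var (Sum.inr (Fin.last n)))) c0t) (rlz f))

theorem rlz_iff (hrel : ∀ n, IsEmpty (L.Relations n)) : ∀ {n : ℕ} (f : L.BoundedFormula Empty n)
    (v : Fin n → (DA N).A), (rlz f).Realize (default : Empty → N.A) (fun j => io (v j)) ↔
      f.Realize (default : Empty → (DA N).A) v := by
  intro n f
  have he : ∀ {m : ℕ} (v : Fin m → (DA N).A), (Sum.elim (default : Empty → N.A) fun j => io (v j)) =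
      fun i => io (Sum.elim (default : Empty → (DA N).A) v i) := by
    intro m v
    funext i
    rcases i with i | i
    · exact i.elim
    · rfl
  induction f with
  | falsum => exact fun v => Iff.rfl
  | equal t1 t2 =>
    intro v
    show ((ron t1).realize _ : N.A) = (ron t2).realize _ ↔ (t1.realize _ : (DA N).A) = t2.realize _
    rw [he, ron_val, ron_val]
    exact ⟨fun h => io_inj h, fun h => by rw [h]⟩
  | rel R _ => exact (hrel _).elim R
  | imp f g ih1 ih2 => exact fun v => imp_congr (ih1 v) (ih2 v)
  | @all m f ih =>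
    intro v
    have hs : ∀ a : (DA N).A, (Fin.snoc (fun j => io (v j)) (io a) : Fin (m + 1) → N.A) =
        fun j => io ((Fin.snoc v a : Fin (m + 1) → (DA N).A) j) := by
      intro a
      funext j
      refine Fin.lastCases ?_ (fun j => ?_) j
      · rw [Fin.snoc_last, Fin.snoc_last]
      · rw [Fin.snoc_castSucc, Fin.snoc_castSucc]
    have hx : ∀ x : N.A, (((oldt (FirstOrder.Language.Term.var (Sum.inr (Fin.last m)) :
        (LX L).Term (Empty ⊕ Fin (m + 1)))).realize
        (Sum.elim (default : Empty → N.A) (Fin.snoc (fun j => io (v j)) x)) : N.A) =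
          (c0t (L := L)).realize (Sum.elim (default : Empty → N.A) (Fin.snoc (fun j => io (v j)) x))) ↔
            ∃ a : (DA N).A, x = io a := by
      intro x
      rw [old_iff]
      show (∃ a, (Fin.snoc (fun j => io (v j)) x : Fin (m + 1) → N.A) (Fin.last m) = io a) ↔ _
      rw [Fin.snoc_last]
    constructor
    · intro h a
      have h1 := h (io a) ((hx (io a)).2 ⟨a, rfl⟩)
      rw [hs a] at h1
      exact (ih _).1 h1
    · intro h x h1
      obtain ⟨a, rfl⟩ := (hx x).1 h1
      rw [hs a]
      exact (ih _).2 (h a)

theorem rlz_sentence (hrel : ∀ n, IsEmpty (L.Relations n)) (ψ : L.Sentence) :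
    (DA N).A ⊨ ψ ↔ N.A ⊨ (rlz ψ : (LX L).Sentence) := by
  have h := rlz_iff (N := N) hrel ψ default
  have e1 : (fun j => io ((default : Fin 0 → (DA N).A) j)) = (default : Fin 0 → N.A) :=
    Subsingleton.elim _ _
  rw [e1] at h
  exact h.symm

/-- an isomorphism of the extensions gives an isomorphism of the algebras of the old elements -/
theorem DA_iso (hrel : ∀ n, IsEmpty (L.Relations n)) (φ : N.A ≃[LX L] N'.A) :
    Nonempty ((DA N).A ≃[L] (DA N').A) := by
  have key : ∀ (N N' : PA (LX L) (SX S)) (φ : N.A ≃[LX L] N'.A) (x : N.A),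
      (∃ a : (DA N).A, x = io a) → ∃ a : (DA N').A, φ x = io a := by
    intro N N' φ x hx
    have h1 := (old_iff (N := N) (FirstOrder.Language.Term.var ()) fun _ : Unit => x).2 hx
    have h2 := congrArg φ h1
    rw [← FirstOrder.Language.HomClass.realize_term, ← FirstOrder.Language.HomClass.realize_term] at h2
    exact (old_iff (N := N') (FirstOrder.Language.Term.var ()) fun _ : Unit => φ x).1 h2
  have h1 : ∀ a : (DA N).A, ∃ a' : (DA N').A, φ (io a) = io a' := fun a =>
    key N N' φ (io a) ⟨a, rfl⟩
  choose g hg using h1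
  refine ⟨⟨Equiv.ofBijective g ⟨?_, ?_⟩, ?_, ?_⟩⟩
  · intro a b h
    have h2 := hg a
    rw [h, ← hg b] at h2
    exact io_inj (φ.injective h2)
  · intro b
    obtain ⟨a, ha⟩ := key N' N φ.symm (io b) ⟨b, rfl⟩
    refine ⟨a, io_inj ?_⟩
    rw [← hg, ← ha]
    exact FirstOrder.Language.Equiv.apply_symm_apply φ (io b)
  · intro n G x
    have hio : ∀ (N : PA (LX L) (SX S)) (x : Fin n → (DA N).A),
        io (FirstOrder.Language.Structure.funMap G x) =
          FirstOrder.Language.Structure.funMap (fsy G) fun j => io (x j) := by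
      intro N x
      apply Subtype.ext
      funext w
      exact (fsy_oe G fun j => (x j).1 w).symm
    apply io_inj
    show io (g (FirstOrder.Language.Structure.funMap G x)) =
      io (FirstOrder.Language.Structure.funMap G fun j => g (x j))
    rw [← hg, hio, hio, FirstOrder.Language.HomClass.map_fun]
    congr 1
    funext j
    exact hg (x j)
  · intro n r
    exact (hrel n).elim r

/-- the old elements of the extension -/
theorem DA_UA (hrel : ∀ n, IsEmpty (L.Relations n)) (D : SwO S sw) (M : PA L S)
    (hM : Nonempty M.A) : Nonempty (M.A ≃[L] (DA (UA D M hM)).A) := by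
  have hmem : ∀ a : M.A, (fun w => (oe (a.1 w) : SX S (M.f w))) ∈ (UA D M hM).A := by
    intro a
    refine ⟨(false, false), fun _ => a, ?_⟩
    funext w
    unfold bs
    rw [mkv_o]
    · exact fun h => Bool.noConfusion (h.1 rfl)
    · exact fun h => Bool.noConfusion (h.1 rfl)
  refine ⟨⟨Equiv.ofBijective (fun a => ⟨a.1, hmem a⟩) ⟨?_, ?_⟩, ?_, ?_⟩⟩
  · intro a b h
    have h1 : a.1 = b.1 := congrArg (fun z : (DA (UA D M hM)).A => z.1) h
    exact Subtype.ext h1
  · rintro ⟨u, b, v, hu⟩
    refine ⟨v 0, Subtype.ext ?_⟩
    show (v 0).1 = u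
    funext w
    have h1 : (oe (u w) : SX S (M.f w)) = bs b M v w := congrFun hu w
    have h2 : ¬ (((v 1).1 w = (v 2).1 w) ↔ b.1 = true) := by
      intro h3
      have h4 : bs b M v w = ne false := (mkv_f _ _ _).2 h3
      rw [← h1] at h4
      exact oe_ne _ _ h4
    have h3 : ¬ (((v 3).1 w = (v 4).1 w) ↔ b.2 = true) := by
      intro h3
      have h4 : bs b M v w = ne true := (mkv_t _ _ _).2 ⟨h2, h3⟩
      rw [← h1] at h4
      exact oe_ne _ _ h4
    have h4 : bs b M v w = oe ((v 0).1 w) := mkv_o _ h2 h3
    exact (oe_inj (h1.trans h4)).symm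
  · intro n G x
    rfl
  · intro n r
    exact (hrel n).elim r

end VCD
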