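import Pool.Agent.VCD.Basic

/-!
# VCD-GLx: the language with two new constants, an equality test and a choice function, and the
algebras with two new elements
-/

open Set FirstOrder

namespace VCD

/-- the extra function symbols -/
def XF : ℕ → Type
  | 0 => Bool
  | 1 => Empty
  | 2 => Unit
  | 3 => Unit
  | _ + 4 => Empty

instance XF_countable : ∀ n, Countable (XF n)
  | 0 => inferInstanceAs (Countable Bool)
  | 1 => inferInstanceAs (Countable Empty)
  | 2 => inferInstanceAs (Countable Unit)
  | 3 => inferInstanceAs (Countable Unit)
  | _ + 4 => inferInstanceAs (Countable Empty)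

/-- `L` with two constants, an equality test and a choice function -/
def LX (L : FirstOrder.Language.{0, 0}) : FirstOrder.Language.{0, 0} where
  Functions n := L.Functions n ⊕ XF n
  Relations _ := Empty

theorem LX_rel (L : FirstOrder.Language.{0, 0}) (n : ℕ) : IsEmpty ((LX L).Relations n) :=
  inferInstanceAs (IsEmpty Empty)

instance LX_countable (L : FirstOrder.Language.{0, 0}) [∀ n, Countable (L.Functions n)] (n : ℕ) :
    Countable ((LX L).Functions n) := inferInstanceAs (Countable (L.Functions n ⊕ XF n))

variable {L : FirstOrder.Language.{0, 0}} {ι : Type} {S : ι → Type} [∀ i, L.Structure (S i)]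

/-- a symbol of `L` -/
def fsy {n : ℕ} (G : L.Functions n) : (LX L).Functions n := Sum.inl G

/-- the constants -/
def csy (b : Bool) : (LX L).Functions 0 := Sum.inr b

/-- the equality test -/
def esy : (LX L).Functions 2 := Sum.inr ()

/-- the choice function -/
def isy : (LX L).Functions 3 := Sum.inr ()

/-- the algebra with two new elements -/
def SX (S : ι → Type) (i : ι) : Type := S i ⊕ Bool

/-- an old element -/
def oe {i : ι} (a : S i) : SX S i := Sum.inl a

/-- a new element -/
def ne {i : ι} (b : Bool) : SX S i := Sum.inr b

theorem oe_inj {i : ι} {a b : S i} (h : (oe a : SX S i) = oe b) : a = b := Sum.inl.inj h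

theorem oe_ne {i : ι} (a : S i) (b : Bool) : (oe a : SX S i) ≠ ne b := fun h => by cases h

theorem ne_inj {i : ι} {a b : Bool} (h : (ne a : SX S i) = ne b) : a = b := Sum.inr.inj h

theorem SX_cases {i : ι} (x : SX S i) : (∃ a : S i, x = oe a) ∨ ∃ b, x = ne b := by
  cases x with
  | inl a => exact Or.inl ⟨a, rfl⟩
  | inr b => exact Or.inr ⟨b, rfl⟩

instance [∀ i, Finite (S i)] (i : ι) : Finite (SX S i) := inferInstanceAs (Finite (S i ⊕ Bool))

open scoped Classical in
private noncomputable def fx {i : ι} : ∀ n : ℕ, XF n → (Fin n → SX S i) → SX S i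
  | 0, b, _ => ne b
  | 1, e, _ => e.elim
  | 2, _, v => ne (decide (v 0 = v 1))
  | 3, _, v => if v 0 = ne true then v 1 else v 2
  | _ + 4, e, _ => e.elim

open scoped Classical in
private noncomputable def fl {i : ι} {n : ℕ} (G : L.Functions n) (v : Fin n → SX S i) : SX S i :=
  if h : ∃ a : Fin n → S i, v = fun j => oe (a j) then
    oe (FirstOrder.Language.Structure.funMap G h.choose) else ne false

noncomputable instance SX.str (i : ι) : (LX L).Structure (SX S i) where
  funMap {n} F v := Sum.elim (fun G => fl G v) (fun x => fx n x v) F
  RelMap {_} r _ := r.elim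

theorem fsy_oe {i : ι} {n : ℕ} (G : L.Functions n) (a : Fin n → S i) :
    FirstOrder.Language.Structure.funMap (fsy G) (fun j => (oe (a j) : SX S i)) =
      oe (FirstOrder.Language.Structure.funMap G a) := by
  classical
  show fl G (fun j => (oe (a j) : SX S i)) = _
  have h : ∃ b : Fin n → S i, (fun j => (oe (a j) : SX S i)) = fun j => oe (b j) := ⟨a, rfl⟩
  unfold fl
  rw [dif_pos h]
  have h1 : h.choose = a := by
    funext j
    exact (oe_inj (congrFun h.choose_spec j)).symm
  rw [h1]

theorem fsy_ne {i : ι} {n : ℕ} (G : L.Functions n) (v : Fin n → SX S i)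
    (h : ∃ j b, v j = ne b) : FirstOrder.Language.Structure.funMap (fsy G) v = ne false := by
  classical
  show fl G v = _
  unfold fl
  rw [dif_neg]
  rintro ⟨a, ha⟩
  obtain ⟨j, b, hj⟩ := h
  rw [ha] at hj
  exact oe_ne _ _ hj

theorem csy_val {i : ι} (b : Bool) (v : Fin 0 → SX S i) :
    FirstOrder.Language.Structure.funMap (csy (L := L) b) v = ne b := rfl

open scoped Classical in
theorem esy_val {i : ι} (v : Fin 2 → SX S i) :
    FirstOrder.Language.Structure.funMap (esy (L := L)) v = ne (decide (v 0 = v 1)) := rfl

open scoped Classical in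
theorem isy_val {i : ι} (v : Fin 3 → SX S i) :
    FirstOrder.Language.Structure.funMap (isy (L := L)) v = if v 0 = ne true then v 1 else v 2 := rfl

theorem SX_HasSw : HasSw (LX L) (SX S) := by
  classical
  refine ⟨FirstOrder.Language.Term.func isy ![FirstOrder.Language.Term.func esy
    ![FirstOrder.Language.Term.var 0, FirstOrder.Language.Term.var 1],
      FirstOrder.Language.Term.var 2, FirstOrder.Language.Term.var 3], csy false, csy true, ?_, ?_, ?_⟩
  · intro i x z w
    rw [FirstOrder.Language.Term.realize_func, isy_val]
    show (if FirstOrder.Language.Structure.funMap (esy (L := L)) _ = (ne true : SX S i) then z else w) = z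
    rw [esy_val]
    have h : decide (x = x) = true := by simp
    exact if_pos (congrArg ne h)
  · intro i x y z w hxy
    rw [FirstOrder.Language.Term.realize_func, isy_val]
    show (if FirstOrder.Language.Structure.funMap (esy (L := L)) _ = (ne true : SX S i) then z else w) = w
    rw [esy_val]
    have h : decide (x = y) = false := by simp [hxy]
    refine if_neg ?_
    intro h1
    have h2 : decide (x = y) = true := ne_inj h1
    rw [h] at h2
    cases h2
  · intro i h
    have h1 : (ne false : SX S i) = ne true := h
    have h2 := ne_inj h1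
    cases h2

end VCD
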