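import Pool.Agent.VCD.Basic

/-!
# VCD-GUF: uniform definability over a class of algebras of functions; pointwise predicates
-/

open Set FirstOrder

namespace VCD

variable {L : FirstOrder.Language.{0, 0}} {ι : Type} {S : ι → Type} [∀ i, L.Structure (S i)]

/-- `sw` is a switching term on all `S i` -/
structure SwO (S : ι → Type) [∀ i, L.Structure (S i)] (sw : L.Term (Fin 4)) : Prop where
  eq : ∀ (i : ι) (x z w : S i), sw.realize ![x, x, z, w] = z
  ne : ∀ (i : ι) (x y z w : S i), x ≠ y → sw.realize ![x, y, z, w] = w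

/-- definable by one formula in all algebras of the class `K` -/
def UK (K : PA L S → Prop) (Φ : ∀ P : PA L S, (ℕ → P.A) → Prop) : Prop :=
  ∃ φ : L.Formula ℕ, ∀ P : PA L S, K P → ∀ v : ℕ → P.A, Φ P v ↔ φ.Realize v

variable {K : PA L S → Prop} {Φ Ψ : ∀ P : PA L S, (ℕ → P.A) → Prop}

theorem UK.congr (h : UK K Φ) (h1 : ∀ P, K P → ∀ v, Φ P v ↔ Ψ P v) : UK K Ψ := by
  obtain ⟨φ, hφ⟩ := h
  exact ⟨φ, fun P hP v => (h1 P hP v).symm.trans (hφ P hP v)⟩

theorem UK.const (p : Prop) : UK K (fun (_ : PA L S) _ => p) := by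
  by_cases hp : p
  · exact ⟨⊤, fun P _ v => by simp [hp]⟩
  · exact ⟨⊥, fun P _ v => by simp [hp]⟩

theorem UK.not (h : UK K Φ) : UK K (fun P v => ¬ Φ P v) := by
  obtain ⟨φ, hφ⟩ := h
  refine ⟨φ.not, fun P hP v => ?_⟩
  rw [FirstOrder.Language.Formula.realize_not]
  exact not_congr (hφ P hP v)

theorem UK.and (h : UK K Φ) (h' : UK K Ψ) : UK K (fun P v => Φ P v ∧ Ψ P v) := by
  obtain ⟨φ, hφ⟩ := h
  obtain ⟨ψ, hψ⟩ := h'
  refine ⟨φ ⊓ ψ, fun P hP v => ?_⟩
  rw [FirstOrder.Language.Formula.realize_inf]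
  exact and_congr (hφ P hP v) (hψ P hP v)

theorem UK.imp (h : UK K Φ) (h' : UK K Ψ) : UK K (fun P v => Φ P v → Ψ P v) := by
  obtain ⟨φ, hφ⟩ := h
  obtain ⟨ψ, hψ⟩ := h'
  refine ⟨φ.imp ψ, fun P hP v => ?_⟩
  rw [FirstOrder.Language.Formula.realize_imp]
  exact imp_congr (hφ P hP v) (hψ P hP v)

theorem UK.all {β : Type} [Finite β] {Φ : β → ∀ P : PA L S, (ℕ → P.A) → Prop}
    (h : ∀ b, UK K (Φ b)) : UK K (fun P v => ∀ b, Φ b P v) := by
  choose φ hφ using h
  refine ⟨FirstOrder.Language.Formula.iInf φ, fun P hP v => ?_⟩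
  rw [FirstOrder.Language.Formula.realize_iInf]
  exact forall_congr' fun b => hφ b P hP v

theorem UK.eq (s s' : L.Term ℕ) : UK K (fun (P : PA L S) v => (s.realize v : P.A) = s'.realize v) :=
  ⟨s.equal s', fun P _ v => by rw [FirstOrder.Language.Formula.realize_equal]⟩

theorem UK.subst (h : UK K Φ) (σ : ℕ → ℕ) : UK K (fun P v => Φ P fun i => v (σ i)) := by
  obtain ⟨φ, hφ⟩ := h
  refine ⟨φ.relabel σ, fun P hP v => ?_⟩
  rw [FirstOrder.Language.Formula.realize_relabel]
  exact hφ P hP _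

/-- five new entries in front -/
def cb {M : Type} (u v : ℕ → M) : ℕ → M := fun i => if i < 5 then u i else v (i - 5)

theorem cb_lt {M : Type} (u v : ℕ → M) {i : ℕ} (hi : i < 5) : cb u v i = u i := if_pos hi

theorem cb_add {M : Type} (u v : ℕ → M) (i : ℕ) : cb u v (i + 5) = v i := by
  unfold cb
  rw [if_neg (by omega), Nat.add_sub_cancel]

theorem UK.ex (h : UK K Φ) : UK K (fun P v => ∃ u : ℕ → P.A, Φ P (cb u v)) := by
  obtain ⟨φ, hφ⟩ := h
  refine ⟨FirstOrder.Language.Formula.iExs (Fin 5) (φ.relabel fun i : ℕ =>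
    if h : i < 5 then Sum.inr (⟨i, h⟩ : Fin 5) else Sum.inl (i - 5)), fun P hP v => ?_⟩
  rw [FirstOrder.Language.Formula.realize_iExs]
  constructor
  · rintro ⟨u, hu⟩
    refine ⟨fun j => u j, ?_⟩
    rw [FirstOrder.Language.Formula.realize_relabel, ← hφ P hP]
    have h1 : (Sum.elim v (fun j : Fin 5 => u j) ∘ fun i : ℕ =>
        if h : i < 5 then Sum.inr (⟨i, h⟩ : Fin 5) else Sum.inl (i - 5)) = cb u v := by
      funext i
      show Sum.elim v (fun j : Fin 5 => u j)
        (if h : i < 5 then Sum.inr (⟨i, h⟩ : Fin 5) else Sum.inl (i - 5)) = cb u v i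
      unfold cb
      by_cases h1 : i < 5
      · rw [dif_pos h1, if_pos h1]
        rfl
      · rw [dif_neg h1, if_neg h1]
        rfl
    rw [h1]
    exact hu
  · rintro ⟨u, hu⟩
    refine ⟨fun j => if h : j < 5 then u ⟨j, h⟩ else u 0, ?_⟩
    rw [FirstOrder.Language.Formula.realize_relabel, ← hφ P hP] at hu
    have h1 : (Sum.elim v u ∘ fun i : ℕ =>
        if h : i < 5 then Sum.inr (⟨i, h⟩ : Fin 5) else Sum.inl (i - 5)) =
          cb (fun j => if h : j < 5 then u ⟨j, h⟩ else u 0) v := by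
      funext i
      show Sum.elim v u
        (if h : i < 5 then Sum.inr (⟨i, h⟩ : Fin 5) else Sum.inl (i - 5)) = _
      unfold cb
      by_cases h1 : i < 5
      · rw [dif_pos h1, if_pos h1]
        show u ⟨i, h1⟩ = if h : i < 5 then u ⟨i, h⟩ else u 0
        rw [dif_pos h1]
      · rw [dif_neg h1, if_neg h1]
        rfl
    rw [← h1]
    exact hu

theorem UK.fa (h : UK K Φ) : UK K (fun P v => ∀ u : ℕ → P.A, Φ P (cb u v)) := by
  refine (h.not.ex.not).congr fun P _ v => ?_
  rw [not_exists]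
  exact forall_congr' fun u => not_not

/-- a definable property which does not depend on the tuple is given by a sentence -/
theorem UK.sentence {Θ : PA L S → Prop} (h : UK K (fun P _ => Θ P)) :
    ∃ ψ : L.Sentence, ∀ P : PA L S, K P → Nonempty P.A → (Θ P ↔ P.A ⊨ ψ) := by
  obtain ⟨φ, hφ⟩ := h
  refine ⟨FirstOrder.Language.Formula.iAlls (Fin 1)
    (φ.relabel fun _ : ℕ => (Sum.inr 0 : Empty ⊕ Fin 1)), fun P hP hne => ?_⟩
  have h1 : (P.A ⊨ FirstOrder.Language.Formula.iAlls (Fin 1)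
      (φ.relabel fun _ : ℕ => (Sum.inr 0 : Empty ⊕ Fin 1))) ↔
      ∀ u : Fin 1 → P.A, (φ.relabel fun _ : ℕ => (Sum.inr 0 : Empty ⊕ Fin 1)).Realize
        (Sum.elim default u) := FirstOrder.Language.Formula.realize_iAlls
  rw [h1]
  constructor
  · intro hΘ u
    rw [FirstOrder.Language.Formula.realize_relabel]
    exact (hφ P hP _).1 hΘ
  · intro hu
    obtain ⟨x⟩ := hne
    have h2 := hu fun _ => x
    rw [FirstOrder.Language.Formula.realize_relabel] at h2
    exact (hφ P hP _).2 h2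

/-- pointwise predicates: given by one equation or by one inequality -/
def PW (Θ : ∀ P : PA L S, (ℕ → P.A) → P.Ω → Prop) : Prop :=
  ∃ (p q : L.Term ℕ) (s : Bool), ∀ (P : PA L S) (v : ℕ → P.A) (w : P.Ω),
    Θ P v w ↔ (((p.realize v : P.A).1 w = (q.realize v : P.A).1 w) ↔ s = true)

variable {Θ Θ' : ∀ P : PA L S, (ℕ → P.A) → P.Ω → Prop}

theorem PW.congr (h : PW Θ) (h1 : ∀ P v w, Θ P v w ↔ Θ' P v w) : PW Θ' := by
  obtain ⟨p, q, s, h2⟩ := h
  exact ⟨p, q, s, fun P v w => (h1 P v w).symm.trans (h2 P v w)⟩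

theorem PW.eq (p q : L.Term ℕ) : PW fun (P : PA L S) v w =>
    (p.realize v : P.A).1 w = (q.realize v : P.A).1 w :=
  ⟨p, q, true, fun _ _ _ => ⟨fun h => ⟨fun _ => rfl, fun _ => h⟩, fun h => h.2 rfl⟩⟩

theorem PW.not (h : PW Θ) : PW fun P v w => ¬ Θ P v w := by
  obtain ⟨p, q, s, h2⟩ := h
  refine ⟨p, q, !s, fun P v w => ?_⟩
  refine (not_congr (h2 P v w)).trans ?_
  cases s <;> simp

private theorem sw_val (P : PA L S) (sw : L.Term (Fin 4)) (p q r s : L.Term ℕ) (v : ℕ → P.A)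
    (w : P.Ω) : ((sw.subst ![p, q, r, s]).realize v : P.A).1 w =
      sw.realize ![(p.realize v : P.A).1 w, (q.realize v : P.A).1 w, (r.realize v : P.A).1 w,
        (s.realize v : P.A).1 w] := by
  rw [FirstOrder.Language.Term.realize_subst, realize_val]
  congr 1
  funext i
  fin_cases i <;> rfl

variable {sw : L.Term (Fin 4)}

theorem sw_on (D : SwO S sw) {P : PA L S} {p q : L.Term ℕ} {v : ℕ → P.A} {w : P.Ω}
    (h : (p.realize v : P.A).1 w = (q.realize v : P.A).1 w) (r s : L.Term ℕ) :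
    ((sw.subst ![p, q, r, s]).realize v : P.A).1 w = (r.realize v : P.A).1 w := by
  rw [sw_val, h, D.eq]

theorem sw_off (D : SwO S sw) {P : PA L S} {p q : L.Term ℕ} {v : ℕ → P.A} {w : P.Ω}
    (h : (p.realize v : P.A).1 w ≠ (q.realize v : P.A).1 w) (r s : L.Term ℕ) :
    ((sw.subst ![p, q, r, s]).realize v : P.A).1 w = (s.realize v : P.A).1 w := by
  rw [sw_val, D.ne _ _ _ _ _ h]

theorem PW.or (D : SwO S sw) (h : PW Θ) (h' : PW Θ') : PW fun P v w => Θ P v w ∨ Θ' P v w := by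
  obtain ⟨p, q, s, h1⟩ := h
  obtain ⟨p', q', s', h1'⟩ := h'
  cases s with
  | true =>
    cases s' with
    | true =>
      -- `[p = q] ∪ [p' = q']`: complement of the intersection of the inequalities
      refine ⟨sw.subst ![p, q, p', q'], p', true, fun P v w => ?_⟩
      refine (or_congr (h1 P v w) (h1' P v w)).trans ?_
      by_cases e1 : (p.realize v : P.A).1 w = (q.realize v : P.A).1 w
      · rw [sw_on D e1]
        simp [e1]
      · rw [sw_off D e1]
        simp only [e1, iff_true, false_or]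
        exact eq_comm
    | false =>
      -- `[p = q] ∪ [p' ≠ q']`
      refine ⟨sw.subst ![p', q', p, q], q, true, fun P v w => ?_⟩
      refine (or_congr (h1 P v w) (h1' P v w)).trans ?_
      by_cases e1 : (p'.realize v : P.A).1 w = (q'.realize v : P.A).1 w
      · rw [sw_on D e1]
        simp [e1]
      · rw [sw_off D e1]
        simp [e1]
  | false =>
    cases s' with
    | true =>
      refine ⟨sw.subst ![p, q, p', q'], q', true, fun P v w => ?_⟩
      refine (or_congr (h1 P v w) (h1' P v w)).trans ?_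
      by_cases e1 : (p.realize v : P.A).1 w = (q.realize v : P.A).1 w
      · rw [sw_on D e1]
        simp [e1]
      · rw [sw_off D e1]
        simp [e1]
    | false =>
      refine ⟨sw.subst ![p, q, p', p], sw.subst ![p, q, q', q], false, fun P v w => ?_⟩
      refine (or_congr (h1 P v w) (h1' P v w)).trans ?_
      by_cases e1 : (p.realize v : P.A).1 w = (q.realize v : P.A).1 w
      · rw [sw_on D e1, sw_on D e1]
        simp [e1]
      · rw [sw_off D e1, sw_off D e1]
        simp [e1]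

theorem PW.and (D : SwO S sw) (h : PW Θ) (h' : PW Θ') : PW fun P v w => Θ P v w ∧ Θ' P v w := by
  refine (PW.not (PW.or D h.not h'.not)).congr fun P v w => ?_
  show ¬ (¬ Θ P v w ∨ ¬ Θ' P v w) ↔ Θ P v w ∧ Θ' P v w
  tauto

theorem PW.iff (D : SwO S sw) (h : PW Θ) (h' : PW Θ') : PW fun P v w => (Θ P v w ↔ Θ' P v w) := by
  refine ((h.and D h').or D (h.not.and D h'.not)).congr fun P v w => ?_
  show (Θ P v w ∧ Θ' P v w) ∨ (¬ Θ P v w ∧ ¬ Θ' P v w) ↔ (Θ P v w ↔ Θ' P v w)
  tauto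

theorem PW.const (p : Prop) : PW fun (_ : PA L S) _ _ => p := by
  by_cases hp : p
  · exact ⟨FirstOrder.Language.Term.var 0, FirstOrder.Language.Term.var 0, true,
      fun P v w => by simp [hp]⟩
  · exact ⟨FirstOrder.Language.Term.var 0, FirstOrder.Language.Term.var 0, false,
      fun P v w => by simp [hp]⟩

theorem PW.orFin (D : SwO S sw) {n : ℕ} {Θ : Fin n → ∀ P : PA L S, (ℕ → P.A) → P.Ω → Prop}
    (h : ∀ j, PW (Θ j)) : PW fun P v w => ∃ j, Θ j P v w := by
  induction n with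
  | zero => exact (PW.const False).congr fun P v w => ⟨fun h => h.elim, fun ⟨j, _⟩ => j.elim0⟩
  | succ n ih =>
    refine ((h 0).or D (ih fun j => h j.succ)).congr fun P v w => ?_
    rw [Fin.exists_fin_succ]

theorem PW.subst (h : PW Θ) (σ : ℕ → ℕ) : PW fun P v w => Θ P (fun i => v (σ i)) w := by
  obtain ⟨p, q, s, h1⟩ := h
  refine ⟨p.relabel σ, q.relabel σ, s, fun P v w => ?_⟩
  rw [FirstOrder.Language.Term.realize_relabel, FirstOrder.Language.Term.realize_relabel]
  exact h1 P _ w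

/-- `Θ` at all points -/
theorem PW.allpt (h : PW Θ) (hK : ∀ p q : L.Term ℕ, UK K (fun (P : PA L S) v =>
    ∀ w, (p.realize v : P.A).1 w ≠ (q.realize v : P.A).1 w)) :
    UK K (fun P v => ∀ w, Θ P v w) := by
  obtain ⟨p, q, s, h1⟩ := h
  cases s with
  | true =>
    refine (UK.eq p q).congr fun P _ v => ?_
    constructor
    · intro h2 w
      rw [h1, h2]
      simp
    · intro h2
      apply Subtype.ext
      funext w
      exact ((h1 P v w).1 (h2 w)).2 rfl
  | false =>
    refine (hK p q).congr fun P _ v => forall_congr' fun w => ?_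
    rw [h1]
    simp

end VCD
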