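import Pool.Agent.VCD.GLx
import Pool.Agent.VCD.GUF

/-!
# VCD-GUA: the extension of an algebra of functions by two constants
-/

open Set FirstOrder

namespace VCD

variable {L : FirstOrder.Language.{0, 0}} {ι : Type} {S : ι → Type} [∀ i, L.Structure (S i)]

open scoped Classical in
/-- the value given by an old element and by two conditions -/
noncomputable def mkv {i : ι} (a : S i) (p0 p1 : Prop) : SX S i :=
  if p0 then ne false else if p1 then ne true else oe a

theorem mkv_f {i : ι} (a : S i) (p0 p1 : Prop) : mkv a p0 p1 = ne false ↔ p0 := by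
  classical
  unfold mkv
  by_cases h0 : p0
  · simp [h0]
  · rw [if_neg h0]
    by_cases h1 : p1
    · rw [if_pos h1]
      exact ⟨fun h => (Bool.noConfusion (ne_inj h)), fun h => (h0 h).elim⟩
    · rw [if_neg h1]
      exact ⟨fun h => (oe_ne _ _ h).elim, fun h => (h0 h).elim⟩

theorem mkv_t {i : ι} (a : S i) (p0 p1 : Prop) : mkv a p0 p1 = ne true ↔ ¬ p0 ∧ p1 := by
  classical
  unfold mkv
  by_cases h0 : p0
  · rw [if_pos h0]
    exact ⟨fun h => (Bool.noConfusion (ne_inj h)), fun h => (h.1 h0).elim⟩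
  · rw [if_neg h0]
    by_cases h1 : p1
    · simp [h0, h1]
    · rw [if_neg h1]
      exact ⟨fun h => (oe_ne _ _ h).elim, fun h => (h1 h.2).elim⟩

theorem mkv_o {i : ι} (a : S i) {p0 p1 : Prop} (h0 : ¬ p0) (h1 : ¬ p1) : mkv a p0 p1 = oe a := by
  classical
  unfold mkv
  rw [if_neg h0, if_neg h1]

theorem mkv_congr {i : ι} {a a' : S i} {p0 p1 p0' p1' : Prop} (h0 : p0 ↔ p0')
    (h1 : ¬ p0 → (p1 ↔ p1')) (h : ¬ p0 → ¬ p1 → a = a') : mkv a p0 p1 = mkv a' p0' p1' := by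
  classical
  unfold mkv
  by_cases e0 : p0
  · rw [if_pos e0, if_pos (h0.1 e0)]
  · rw [if_neg e0, if_neg fun h => e0 (h0.2 h)]
    by_cases e1 : p1
    · rw [if_pos e1, if_pos ((h1 e0).1 e1)]
    · rw [if_neg e1, if_neg fun h => e1 ((h1 e0).2 h), h e0 e1]

/-- uniformly given new elements -/
def CE (U : ∀ P : PA L S, (ℕ → P.A) → ∀ w : P.Ω, SX S (P.f w)) : Prop :=
  ∃ (a : L.Term ℕ) (Θ0 Θ1 : ∀ P : PA L S, (ℕ → P.A) → P.Ω → Prop), PW Θ0 ∧ PW Θ1 ∧
    ∀ P v w, U P v w = mkv ((a.realize v : P.A).1 w) (Θ0 P v w) (Θ1 P v w)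

variable {U U' : ∀ P : PA L S, (ℕ → P.A) → ∀ w : P.Ω, SX S (P.f w)} {sw : L.Term (Fin 4)}

theorem CE.congr (h : CE U) (h1 : ∀ P v w, U P v w = U' P v w) : CE U' := by
  obtain ⟨a, Θ0, Θ1, h2, h3, h4⟩ := h
  exact ⟨a, Θ0, Θ1, h2, h3, fun P v w => (h1 P v w).symm.trans (h4 P v w)⟩

theorem CE.f (h : CE U) : PW fun P v w => U P v w = ne false := by
  obtain ⟨a, Θ0, Θ1, h2, h3, h4⟩ := h
  refine h2.congr fun P v w => ?_
  rw [h4, mkv_f]

theorem CE.t (D : SwO S sw) (h : CE U) : PW fun P v w => U P v w = ne true := by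
  obtain ⟨a, Θ0, Θ1, h2, h3, h4⟩ := h
  refine (h2.not.and D h3).congr fun P v w => ?_
  rw [h4, mkv_t]

theorem CE.eq (D : SwO S sw) (h : CE U) (h' : CE U') : PW fun P v w => U P v w = U' P v w := by
  obtain ⟨a, Θ0, Θ1, h2, h3, h4⟩ := id h
  obtain ⟨a', Θ0', Θ1', h2', h3', h4'⟩ := id h'
  refine (((h.f.and D h'.f).or D ((h.t D).and D (h'.t D))).or D
    ((h2.or D h3).not.and D ((h2'.or D h3').not.and D (PW.eq a a')))).congr fun P v w => ?_
  show ((U P v w = ne false ∧ U' P v w = ne false) ∨ (U P v w = ne true ∧ U' P v w = ne true)) ∨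
    (¬ (Θ0 P v w ∨ Θ1 P v w) ∧ ¬ (Θ0' P v w ∨ Θ1' P v w) ∧
      (a.realize v : P.A).1 w = (a'.realize v : P.A).1 w) ↔ U P v w = U' P v w
  constructor
  · rintro ((⟨e1, e2⟩ | ⟨e1, e2⟩) | ⟨e1, e2, e3⟩)
    · rw [e1, e2]
    · rw [e1, e2]
    · rw [not_or] at e1 e2
      rw [h4, h4', mkv_o _ e1.1 e1.2, mkv_o _ e2.1 e2.2, e3]
  · intro e
    by_cases e0 : U P v w = ne false
    · exact Or.inl (Or.inl ⟨e0, e ▸ e0⟩)
    by_cases e1 : U P v w = ne true
    · exact Or.inl (Or.inr ⟨e1, e ▸ e1⟩)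
    right
    have e0' : ¬ U' P v w = ne false := e ▸ e0
    have e1' : ¬ U' P v w = ne true := e ▸ e1
    rw [h4, mkv_f] at e0
    rw [h4', mkv_f] at e0'
    rw [h4, mkv_t] at e1
    rw [h4', mkv_t] at e1'
    have n1 : ¬ Θ1 P v w := fun h => e1 ⟨e0, h⟩
    have n1' : ¬ Θ1' P v w := fun h => e1' ⟨e0', h⟩
    refine ⟨fun h => h.elim e0 n1, fun h => h.elim e0' n1', ?_⟩
    rw [h4, h4', mkv_o _ e0 n1, mkv_o _ e0' n1'] at e
    exact oe_inj e

theorem CE.subst (h : CE U) (σ : ℕ → ℕ) : CE fun P v w => U P (fun i => v (σ i)) w := by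
  obtain ⟨a, Θ0, Θ1, h2, h3, h4⟩ := h
  refine ⟨a.relabel σ, _, _, h2.subst σ, h3.subst σ, fun P v w => ?_⟩
  rw [FirstOrder.Language.Term.realize_relabel]
  exact h4 P _ w

/-- patching along a pointwise predicate -/
private theorem exists_pt (D : SwO S sw) {Θ : ∀ P : PA L S, (ℕ → P.A) → P.Ω → Prop} (h : PW Θ)
    (r s : L.Term ℕ) : ∃ c : L.Term ℕ, ∀ (P : PA L S) (v : ℕ → P.A) (w : P.Ω),
      (Θ P v w → (c.realize v : P.A).1 w = (r.realize v : P.A).1 w) ∧
        (¬ Θ P v w → (c.realize v : P.A).1 w = (s.realize v : P.A).1 w) := by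
  obtain ⟨p, q, b, h1⟩ := h
  cases b with
  | true =>
    refine ⟨sw.subst ![p, q, r, s], fun P v w => ⟨fun h2 => ?_, fun h2 => ?_⟩⟩
    · exact sw_on D (((h1 P v w).1 h2).2 rfl) r s
    · refine sw_off D (fun h3 => h2 ((h1 P v w).2 ⟨fun _ => rfl, fun _ => h3⟩)) r s
  | false =>
    refine ⟨sw.subst ![p, q, s, r], fun P v w => ⟨fun h2 => ?_, fun h2 => ?_⟩⟩
    · refine sw_off D (fun h3 => ?_) s r
      have := ((h1 P v w).1 h2).1 h3
      cases this
    · refine sw_on D ?_ s r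
      by_contra h3
      exact h2 ((h1 P v w).2 ⟨fun h4 => (h3 h4).elim, fun h4 => by cases h4⟩)

theorem CE.func (D : SwO S sw) : ∀ {n : ℕ} (F : (LX L).Functions n)
    {U : Fin n → ∀ P : PA L S, (ℕ → P.A) → ∀ w : P.Ω, SX S (P.f w)}, (∀ j, CE (U j)) →
    CE fun P v w => FirstOrder.Language.Structure.funMap F fun j => U j P v w
  | n, Sum.inl G, U, h => by
    choose a Θ0 Θ1 h2 h3 h4 using id h
    refine ⟨FirstOrder.Language.Term.func G a, _, _,
      PW.orFin D fun j => (h j).f.or D ((h j).t D), PW.const False, fun P v w => ?_⟩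
    show FirstOrder.Language.Structure.funMap (fsy G) (fun j => U j P v w) = _
    by_cases hj : ∃ j, U j P v w = ne false ∨ U j P v w = ne true
    · rw [(mkv_f _ _ _).2 hj]
      apply fsy_ne
      obtain ⟨j, hj | hj⟩ := hj
      · exact ⟨j, false, hj⟩
      · exact ⟨j, true, hj⟩
    · rw [mkv_o _ hj (fun h => h)]
      have h5 : (fun j => U j P v w) = fun j => oe (((a j).realize v : P.A).1 w) := by
        funext j
        rw [not_exists] at hj
        have h6 := hj j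
        rw [not_or, h4, mkv_f, mkv_t] at h6
        rw [h4, mkv_o _ h6.1 fun h => h6.2 ⟨h6.1, h⟩]
      rw [h5, fsy_oe]
      rfl
  | 0, Sum.inr b, U, h => by
    refine ⟨FirstOrder.Language.Term.var 0, _, _, PW.const (b = false), PW.const (b = true),
      fun P v w => ?_⟩
    show (ne b : SX S (P.f w)) = _
    cases b with
    | true => exact ((mkv_t _ _ _).2 ⟨fun h => Bool.noConfusion h, rfl⟩).symm
    | false => exact ((mkv_f _ _ _).2 rfl).symm
  | 1, Sum.inr e, U, h => e.elim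
  | 2, Sum.inr _, U, h => by
    classical
    have h1 := (h 0).eq D (h 1)
    refine ⟨FirstOrder.Language.Term.var 0, _, _, h1.not, h1, fun P v w => ?_⟩
    show (ne (decide (U 0 P v w = U 1 P v w)) : SX S (P.f w)) = _
    by_cases h2 : U 0 P v w = U 1 P v w
    · rw [(mkv_t _ _ _).2 ⟨fun h3 => h3 h2, h2⟩, decide_eq_true h2]
    · rw [(mkv_f _ _ _).2 h2, decide_eq_false h2]
  | 3, Sum.inr _, U, h => by
    classical
    choose a Θ0 Θ1 h2 h3 h4 using id h
    have t0 := (h 0).t D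
    obtain ⟨c, hc⟩ := exists_pt D t0 (a 1) (a 2)
    refine ⟨c, _, _, (t0.and D (h 1).f).or D (t0.not.and D (h 2).f),
      (t0.and D ((h 1).t D)).or D (t0.not.and D ((h 2).t D)), fun P v w => ?_⟩
    show (if U 0 P v w = ne true then U 1 P v w else U 2 P v w) = _
    have ef : ∀ j, U j P v w = ne false ↔ Θ0 j P v w := fun j => by rw [h4 j, mkv_f]
    have et : ∀ j, U j P v w = ne true ↔ ¬ Θ0 j P v w ∧ Θ1 j P v w := fun j => by rw [h4 j, mkv_t]
    by_cases h5 : U 0 P v w = ne true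
    · rw [if_pos h5]
      refine (h4 1 P v w).trans (mkv_congr ?_ (fun h6 => ?_) fun _ _ => ((hc P v w).1 h5).symm)
      · rw [ef 1]
        tauto
      · rw [et 1]
        tauto
    · rw [if_neg h5]
      refine (h4 2 P v w).trans (mkv_congr ?_ (fun h6 => ?_) fun _ _ => ((hc P v w).2 h5).symm)
      · rw [ef 2]
        tauto
      · rw [et 2]
        tauto
  | _ + 4, Sum.inr e, U, h => e.elim

theorem CE.term (D : SwO S sw) {α : Type} (t : (LX L).Term α)
    {U : α → ∀ P : PA L S, (ℕ → P.A) → ∀ w : P.Ω, SX S (P.f w)} (h : ∀ j, CE (U j)) :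
    CE fun P v w => t.realize fun j => U j P v w := by
  induction t with
  | var j => exact h j
  | func F ts ih => exact CE.func D F ih

/-- the basic new elements -/
noncomputable def bs (b : Bool × Bool) (P : PA L S) (v : ℕ → P.A) (w : P.Ω) : SX S (P.f w) :=
  mkv ((v 0).1 w) (((v 1).1 w = (v 2).1 w) ↔ b.1 = true) (((v 3).1 w = (v 4).1 w) ↔ b.2 = true)

theorem bs_CE (b : Bool × Bool) : CE fun (P : PA L S) v w => bs b P v w :=
  ⟨FirstOrder.Language.Term.var 0, _, _,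
    ⟨FirstOrder.Language.Term.var 1, FirstOrder.Language.Term.var 2, b.1, fun _ _ _ => Iff.rfl⟩,
    ⟨FirstOrder.Language.Term.var 3, FirstOrder.Language.Term.var 4, b.2, fun _ _ _ => Iff.rfl⟩,
    fun _ _ _ => rfl⟩

theorem bs_congr {b : Bool × Bool} {P : PA L S} {v v' : ℕ → P.A} (h : ∀ i < 5, v i = v' i) :
    bs b P v = bs b P v' := by
  funext w
  unfold bs
  rw [h 0 (by omega), h 1 (by omega), h 2 (by omega), h 3 (by omega), h 4 (by omega)]

theorem bs_of_CE (h : CE U) : ∃ (b : Bool × Bool) (τ : ℕ → L.Term ℕ), ∀ (P : PA L S)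
    (v : ℕ → P.A), U P v = bs b P fun i => (τ i).realize v := by
  obtain ⟨a, Θ0, Θ1, ⟨p0, q0, b0, h0⟩, ⟨p1, q1, b1, h1⟩, h4⟩ := h
  refine ⟨(b0, b1), fun i => match i with
    | 0 => a
    | 1 => p0
    | 2 => q0
    | 3 => p1
    | _ + 4 => q1, fun P v => ?_⟩
  funext w
  rw [h4]
  unfold bs
  exact mkv_congr (h0 P v w) (fun _ => h1 P v w) fun _ _ => rfl

/-- putting finitely many tuples together -/
def cmb {M : Type} {n : ℕ} (v : Fin n → ℕ → M) (x : M) : ℕ → M :=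
  fun m => if h : m / 5 < n then v ⟨m / 5, h⟩ (m % 5) else x

theorem cmb_val {M : Type} {n : ℕ} (v : Fin n → ℕ → M) (x : M) (j : Fin n) {i : ℕ} (hi : i < 5) :
    cmb v x (5 * j + i) = v j i := by
  unfold cmb
  have h1 : (5 * (j : ℕ) + i) / 5 = j := by omega
  have h2 : (5 * (j : ℕ) + i) % 5 = i := by omega
  rw [dif_pos (by rw [h1]; exact j.2), h2]
  congr 1
  exact Fin.ext h1

/-- the extension of an algebra of functions by two constants -/
noncomputable def UA (D : SwO S sw) (P : PA L S) (hP : Nonempty P.A) : PA (LX L) (SX S) where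
  Ω := P.Ω
  f := P.f
  A := {u | ∃ (b : Bool × Bool) (v : ℕ → P.A), u = bs b P v}
  closed := by
    intro n F u hu
    choose b v hbv using hu
    have h1 : ∀ j, CE fun (P : PA L S) v w => bs (b j) P (fun i => v (5 * (j : ℕ) + i)) w :=
      fun j => (bs_CE (b j)).subst fun i => 5 * (j : ℕ) + i
    obtain ⟨b', τ, h2⟩ := bs_of_CE (CE.func D F h1)
    refine ⟨b', fun i => (τ i).realize (cmb v hP.some), ?_⟩
    rw [← h2]
    funext w
    congr 1
    funext j
    rw [hbv]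
    exact congrFun (bs_congr (b := b j) (P := P) fun i hi => (cmb_val v hP.some j hi).symm) w

theorem UA_mem (D : SwO S sw) {P : PA L S} (hP : Nonempty P.A) (h : CE U) (v : ℕ → P.A) :
    U P v ∈ (UA D P hP).A := by
  obtain ⟨b, τ, h2⟩ := bs_of_CE h
  exact ⟨b, _, h2 P v⟩

end VCD
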