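import Pool.Agent.VCD.ESub

/-!
# VCD-Good: good clopen sets; their types are isolated
-/

open Set FirstOrder

namespace VCD

variable {L : FirstOrder.Language.{0, 0}} {ι : Type} {S : ι → Type} [∀ i, L.Structure (S i)]

theorem V_mono {P : PA L S} {e e' : Set P.Ω} (hs : e' ⊆ e) : P.V e' ⊆ P.V e := by
  rintro z ⟨g, a, h1, h2, h3⟩
  exact ⟨g, a, h1, h2.trans hs, h3⟩

theorem V_mk {P : PA L S} {q : Q L S} {e e' : Set P.Ω} {a : ℕ → P.A} (h : P.Ob q e' a)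
    (hs : e' ⊆ e) : (q, fun k => P.tau k q e' a) ∈ P.V e := ⟨e', a, h, hs, rfl⟩

theorem Good_mono {P : PA L S} {e e' : Set P.Ω} (h : P.Good e) (hs : e' ⊆ e) : P.Good e' :=
  Set.Finite.subset h (V_mono hs)

theorem Good_union (D : HasSw L S) {P : PA L S} {e f : Set P.Ω} (ce : P.Cl e) (he : P.Good e)
    (hf : P.Good f) : P.Good (e ∪ f) := by
  have h1 : ((fun z : (Q L S × ∀ k, TT (Q L S) k) × (Q L S × ∀ k, TT (Q L S) k) =>
      ((z.1.1, fun k => z.1.2 k + z.2.2 k) : Q L S × ∀ k, TT (Q L S) k)) ''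
        (P.V e ×ˢ P.V f)).Finite := (Set.Finite.prod he hf).image _
  refine h1.subset ?_
  rintro ⟨q, t⟩ ⟨g, a, h2, h3, h4⟩
  have o1 : P.Ob q (g ∩ e) a := PA.Ob.mono h2 (cl_inter D P h2.1 ce) inter_subset_left
  have o2 : P.Ob q (g \ e) a := PA.Ob.mono h2 (cl_diff D P h2.1 ce) sdiff_subset
  refine ⟨((q, fun k => P.tau k q (g ∩ e) a), (q, fun k => P.tau k q (g \ e) a)),
    ⟨V_mk o1 inter_subset_right, V_mk o2 fun w hw => (h3 hw.1).resolve_left hw.2⟩, ?_⟩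
  refine Prod.ext rfl ?_
  show (fun k => P.tau k q (g ∩ e) a + P.tau k q (g \ e) a) = t
  rw [show t = fun k => P.tau k q g a from h4]
  funext k
  rw [← tau_add D k o1 o2 (Set.disjoint_left.2 fun w hw hw' => hw'.2 hw.2), inter_union_sdiff]

theorem Good_level (D : HasSw L S) {P : PA L S} {e : Set P.Ω} (h : P.Good e) : ∃ K : ℕ,
    ∀ (q : Q L S) (e1 : Set P.Ω) (a : ℕ → P.A) (e2 : Set P.Ω) (b : ℕ → P.A), P.Ob q e1 a →
      P.Ob q e2 b → e1 ⊆ e → e2 ⊆ e → P.tau K q e1 a = P.tau K q e2 b →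
      ∀ k, P.tau k q e1 a = P.tau k q e2 b := by
  classical
  have h1 : ∀ p : (Q L S × ∀ k, TT (Q L S) k) × (Q L S × ∀ k, TT (Q L S) k), ∃ j : ℕ,
      (∀ k, p.1.2 k = p.2.2 k) ∨ p.1.2 j ≠ p.2.2 j := by
    intro p
    by_cases hp : ∀ k, p.1.2 k = p.2.2 k
    · exact ⟨0, Or.inl hp⟩
    · push Not at hp
      obtain ⟨j, hj⟩ := hp
      exact ⟨j, Or.inr hj⟩
  choose J hJ using h1
  obtain ⟨F, hF⟩ : ∃ F : Finset ((Q L S × ∀ k, TT (Q L S) k) × (Q L S × ∀ k, TT (Q L S) k)),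
      ∀ p, p ∈ F ↔ p ∈ P.V e ×ˢ P.V e := ⟨(Set.Finite.prod h h).toFinset, fun p => by simp⟩
  refine ⟨F.sup J, fun q e1 a e2 b o1 o2 s1 s2 ht => ?_⟩
  obtain ⟨p, hp⟩ : ∃ p : (Q L S × ∀ k, TT (Q L S) k) × (Q L S × ∀ k, TT (Q L S) k),
      p = ((q, fun k => P.tau k q e1 a), (q, fun k => P.tau k q e2 b)) := ⟨_, rfl⟩
  have hpF : p ∈ F := by
    rw [hF, hp]
    exact ⟨V_mk o1 s1, V_mk o2 s2⟩
  rcases hJ p with h2 | h2
  · rw [hp] at h2
    exact h2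
  · exfalso
    apply h2
    have h3 : J p ≤ F.sup J := Finset.le_sup hpF
    have h4 := tau_coh_le D h3 o1 o2 ht
    rw [hp] at h4 ⊢
    exact h4

private theorem claim (D : HasSw L S) {P P' : PA L S} {e : Set P.Ω} {f : Set P'.Ω} {K : ℕ}
    (hK : ∀ (q : Q L S) (e1 : Set P.Ω) (a : ℕ → P.A) (e2 : Set P.Ω) (b : ℕ → P.A), P.Ob q e1 a →
      P.Ob q e2 b → e1 ⊆ e → e2 ⊆ e → P.tau K q e1 a = P.tau K q e2 b →
      ∀ k, P.tau k q e1 a = P.tau k q e2 b)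
    (hA : ∀ (q : Q L S) (f1 : Set P'.Ω) (b : ℕ → P'.A), P'.Ob q f1 b → f1 ⊆ f →
      ∃ e1 a, P.Ob q e1 a ∧ e1 ⊆ e ∧ P'.tau (K + 1) q f1 b = P.tau (K + 1) q e1 a) :
    ∀ k, K + 1 ≤ k → ∀ (q : Q L S) (f1 : Set P'.Ω) (b : ℕ → P'.A) (e1 : Set P.Ω) (a : ℕ → P.A),
      P'.Ob q f1 b → P.Ob q e1 a → f1 ⊆ f → e1 ⊆ e → P'.tau K q f1 b = P.tau K q e1 a →
      P'.tau k q f1 b = P.tau k q e1 a := by
  have base : ∀ (q : Q L S) (f1 : Set P'.Ω) (b : ℕ → P'.A) (e1 : Set P.Ω) (a : ℕ → P.A),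
      P'.Ob q f1 b → P.Ob q e1 a → f1 ⊆ f → e1 ⊆ e → P'.tau K q f1 b = P.tau K q e1 a →
      P'.tau (K + 1) q f1 b = P.tau (K + 1) q e1 a := by
    intro q f1 b e1 a ob oa sf se ht
    obtain ⟨e2, a2, h1, h2, h3⟩ := hA q f1 b ob sf
    have h4 := (tau_coh D K ob h1 h3).symm.trans ht
    exact h3.trans (hK q e2 a2 e1 a h1 oa h2 se h4 (K + 1))
  intro k hk
  induction k, hk using Nat.le_induction with
  | base => exact base
  | succ k hk ih =>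
    intro q f1 b e1 a ob oa sf se ht
    have h0 := base q f1 b e1 a ob oa sf se ht
    apply Set.ext
    rintro ⟨q', x, y⟩
    constructor
    · rintro ⟨f2, b2, h1, h2, h3⟩
      have h4 := tau_mem K h1
      rw [h0] at h4
      obtain ⟨e2, a2, h5, h6, h7⟩ := h4
      refine ⟨e2, a2, h5, h2.trans (ih q' f2 b2 e2 a2 h1.1 h5.1 (h1.2.1.trans sf)
        (h5.2.1.trans se) h6), h3.trans (ih q (f1 \ f2) b (e1 \ e2) a ?_ ?_ ?_ ?_ h7)⟩
      · exact PA.Ob.mono ob (cl_diff D P' ob.1 h1.1.1) sdiff_subset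
      · exact PA.Ob.mono oa (cl_diff D P oa.1 h5.1.1) sdiff_subset
      · exact sdiff_subset.trans sf
      · exact sdiff_subset.trans se
    · rintro ⟨e2, a2, h5, h2, h3⟩
      have h4 := tau_mem K h5
      rw [← h0] at h4
      obtain ⟨f2, b2, h1, h6, h7⟩ := h4
      refine ⟨f2, b2, h1, h2.trans (ih q' f2 b2 e2 a2 h1.1 h5.1 (h1.2.1.trans sf)
        (h5.2.1.trans se) h6.symm).symm, h3.trans (ih q (f1 \ f2) b (e1 \ e2) a ?_ ?_ ?_ ?_ h7.symm).symm⟩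
      · exact PA.Ob.mono ob (cl_diff D P' ob.1 h1.1.1) sdiff_subset
      · exact PA.Ob.mono oa (cl_diff D P oa.1 h5.1.1) sdiff_subset
      · exact sdiff_subset.trans sf
      · exact sdiff_subset.trans se

theorem Good_transfer (D : HasSw L S) [Finite ι] [∀ i, Finite (S i)] {P : PA L S} {e : Set P.Ω}
    (h : P.Good e) : ∃ k : ℕ, ∀ (P' : PA L S) (c : ℕ → P.A) (d : ℕ → P'.A) (f : Set P'.Ω),
      ER k 0 P P' c d e f → P'.V f = P.V e := by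
  obtain ⟨K, hK⟩ := Good_level D h
  obtain ⟨k, hk⟩ := VT (L := L) (S := S) D (K + 1)
  refine ⟨k, fun P' c d f he => ?_⟩
  have hA : ∀ (q : Q L S) (f1 : Set P'.Ω) (b : ℕ → P'.A), P'.Ob q f1 b → f1 ⊆ f →
      ∃ e1 a, P.Ob q e1 a ∧ e1 ⊆ e ∧ P'.tau (K + 1) q f1 b = P.tau (K + 1) q e1 a :=
    fun q f1 b => hk P' P d c f e he.symm q f1 b
  have hC := claim D hK hA
  have hall : ∀ (q : Q L S) (f1 : Set P'.Ω) (b : ℕ → P'.A) (e1 : Set P.Ω) (a : ℕ → P.A),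
      P'.Ob q f1 b → P.Ob q e1 a → f1 ⊆ f → e1 ⊆ e → P'.tau (K + 1) q f1 b = P.tau (K + 1) q e1 a →
      (fun k => P'.tau k q f1 b) = fun k => P.tau k q e1 a := by
    intro q f1 b e1 a ob oa sf se ht
    funext j
    rcases Nat.le_total (K + 1) j with hj | hj
    · exact hC j hj q f1 b e1 a ob oa sf se (tau_coh D K ob oa ht)
    · exact tau_coh_le D hj ob oa ht
  apply Set.ext
  rintro ⟨q, t⟩
  constructor
  · rintro ⟨f1, b, h1, h2, h3⟩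
    obtain ⟨e1, a, h4, h5, h6⟩ := hA q f1 b h1 h2
    exact ⟨e1, a, h4, h5, h3.trans (hall q f1 b e1 a h1 h4 h2 h5 h6)⟩
  · rintro ⟨e1, a, h4, h5, h3⟩
    obtain ⟨f1, b, h1, h2, h6⟩ := hk P P' c d e f he q e1 a h4 h5
    exact ⟨f1, b, h1, h2, h3.trans (hall q f1 b e1 a h1 h4 h2 h5 h6.symm).symm⟩

theorem Good_tau (D : HasSw L S) [Finite ι] [∀ i, Finite (S i)] {P : PA L S} {q : Q L S}
    {e : Set P.Ω} {a : ℕ → P.A} (ho : P.Ob q e a) (h : P.Good e) : ∃ k : ℕ, ∀ (P' : PA L S)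
      (f : Set P'.Ω) (b : ℕ → P'.A), P'.Ob q f b → P.tau k q e a = P'.tau k q f b →
      P'.V f = P.V e ∧ ∀ j, P.tau j q e a = P'.tau j q f b := by
  obtain ⟨k, hk⟩ := Good_transfer D h
  obtain ⟨K, hK⟩ := Good_level D h
  refine ⟨max k K, fun P' f b ob ht => ?_⟩
  have h1 : P'.V f = P.V e := hk P' a b f ((ER.of_tau D q ho ob
    (tau_coh_le D (le_max_left _ _) ho ob ht)).mono D le_rfl (Nat.zero_le _))
  have h2 := V_mk ob (Subset.refl f)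
  rw [h1] at h2
  obtain ⟨e1, a1, h3, h4, h5⟩ := h2
  have h6 : ∀ j, P'.tau j q f b = P.tau j q e1 a1 := fun j => congrFun h5 j
  refine ⟨h1, fun j => ?_⟩
  rw [h6 j]
  refine hK q e a e1 a1 ho h3 Subset.rfl h4 ?_ j
  rw [← h6 K]
  exact tau_coh_le D (le_max_right _ _) ho ob ht

theorem Good_of_V {P P' : PA L S} {e : Set P.Ω} {f : Set P'.Ω} (h : P'.V f = P.V e)
    (he : P.Good e) : P'.Good f := by
  show (P'.V f).Finite
  rw [h]
  exact he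

theorem Good_empty (D : HasSw L S) [Finite ι] [∀ i, Finite (S i)] (P : PA L S) : P.Good ∅ := by
  have h : ∀ (q : Q L S) (a b : ℕ → P.A) (k : ℕ), P.tau k q ∅ a = P.tau k q ∅ b :=
    fun q a b k => tau_congr k fun _ _ _ hw => hw.elim
  rcases isEmpty_or_nonempty P.A with h0 | ⟨⟨x⟩⟩
  · obtain ⟨x⟩ := nonempty_el D P
    exact h0.elim x
  · refine (Set.finite_range fun q : Q L S =>
      ((q, fun k => P.tau k q ∅ fun _ => x) : Q L S × ∀ k, TT (Q L S) k)).subset ?_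
    rintro ⟨q, t⟩ ⟨g, a, h1, h2, h3⟩
    refine ⟨q, Prod.ext rfl ?_⟩
    have h4 : g = ∅ := subset_empty_iff.1 h2
    subst h4
    show (fun k => P.tau k q ∅ fun _ => x) = t
    rw [show t = fun k => P.tau k q ∅ a from h3]
    funext k
    exact h q _ _ k

end VCD
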