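import Pool.Agent.VCD.Basic

/-!
# VCD-Ker: kernels of tuples, classes
-/

open Set FirstOrder

namespace VCD

variable {L : FirstOrder.Language.{0, 0}} {ι : Type} {S : ι → Type} [∀ i, L.Structure (S i)]

theorem ker_congr {M : Type} [L.Structure M] {n : ℕ} {v v' : ℕ → M} (h : ∀ j < n, v j = v' j) :
    ker L n v = ker L n v' := by
  have h1 : (fun j : Fin n => v j) = fun j : Fin n => v' j := funext fun j => h j j.2
  unfold ker
  rw [h1]

theorem mem_ker {M : Type} [L.Structure M] {n : ℕ} {v : ℕ → M} (s t : L.Term (Fin n)) :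
    (s, t) ∈ ker L n v ↔ s.realize (fun j : Fin n => v j) = t.realize (fun j : Fin n => v j) :=
  Iff.rfl

/-- substitution of terms -/
theorem ker_subst {M M' : Type} [L.Structure M] [L.Structure M'] {n r : ℕ} {v : ℕ → M} {v' : ℕ → M'}
    (h : ker L n v = ker L n v') (s : ℕ → L.Term (Fin n)) {u : ℕ → M} {u' : ℕ → M'}
    (hu : ∀ j < r, u j = (s j).realize (fun i : Fin n => v i))
    (hu' : ∀ j < r, u' j = (s j).realize (fun i : Fin n => v' i)) : ker L r u = ker L r u' := by
  have e1 : (fun j : Fin r => u j) = fun j : Fin r => (s j).realize (fun i : Fin n => v i) :=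
    funext fun j => hu j j.2
  have e2 : (fun j : Fin r => u' j) = fun j : Fin r => (s j).realize (fun i : Fin n => v' i) :=
    funext fun j => hu' j j.2
  ext ⟨t1, t2⟩
  rw [mem_ker, mem_ker, e1, e2]
  have h1 := Set.ext_iff.1 h (t1.subst fun j => s j, t2.subst fun j => s j)
  rw [mem_ker, mem_ker] at h1
  simpa only [FirstOrder.Language.Term.realize_subst] using h1

theorem ker_le {M M' : Type} [L.Structure M] [L.Structure M'] {m n : ℕ} (hmn : m ≤ n) {v : ℕ → M}
    {v' : ℕ → M'} (h : ker L n v = ker L n v') : ker L m v = ker L m v' := by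
  ext ⟨t1, t2⟩
  have h1 := Set.ext_iff.1 h (t1.relabel (Fin.castLE hmn), t2.relabel (Fin.castLE hmn))
  rw [mem_ker, mem_ker] at h1
  rw [mem_ker, mem_ker]
  simp only [FirstOrder.Language.Term.realize_relabel] at h1
  exact h1

theorem KK_finite [Finite ι] [∀ i, Finite (S i)] (n : ℕ) : (KK L S n).Finite := by
  apply (Set.finite_range (fun x : Σ i, (Fin n → S i) =>
    ({p | p.1.realize x.2 = p.2.realize x.2} : Set (L.Term (Fin n) × L.Term (Fin n))))).subset
  rintro κ ⟨i, v, rfl⟩
  exact ⟨⟨i, fun j => v j⟩, rfl⟩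

theorem Q_len_le [Finite ι] [∀ i, Finite (S i)] (q : Q L S) : q.len ≤ Nat.card (Σ i, S i) := by
  obtain ⟨n, κ, ⟨i, v, hκ⟩, hirr⟩ := q
  show n ≤ _
  have hinj : Function.Injective fun j : Fin n => (⟨i, v j⟩ : Σ i, S i) := by
    intro j j' h
    have h1 : v j = v j' := by
      simpa using h
    have key : ∀ a b : Fin n, a < b → v a ≠ v b := by
      intro a b hab hv
      apply hirr b (FirstOrder.Language.Term.var (⟨a, hab⟩ : Fin (b : ℕ)))
      show _ ∈ κ
      rw [show κ = ker L n v from hκ, mem_ker]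
      exact hv
    rcases lt_trichotomy j j' with h2 | h2 | h2
    · exact (key _ _ h2 h1).elim
    · exact h2
    · exact (key _ _ h2 h1.symm).elim
  have := Nat.card_le_card_of_injective _ hinj
  rwa [Nat.card_fin] at this

instance [Finite ι] [∀ i, Finite (S i)] : Finite (Q L S) := by
  have h : ∀ n, Finite (KK L S n) := fun n => (KK_finite n).to_subtype
  apply Finite.of_injective (fun q : Q L S =>
    (⟨⟨q.len, Nat.lt_succ_of_le (Q_len_le q)⟩, ⟨q.ker, q.mem⟩⟩ :
      Σ n : Fin (Nat.card (Σ i, S i) + 1), KK L S n))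
  rintro ⟨n, κ, h1, h2⟩ ⟨n', κ', h3, h4⟩ h5
  have h6 : n = n' := congrArg (fun x => (x.1 : ℕ)) h5
  subst h6
  have h7 : κ = κ' := by
    simpa using h5
  subst h7
  rfl

theorem Q_eq (q q' : Q L S) (hl : q.len = q'.len) {i : ι} (v : ℕ → S i) (h : ker L q.len v = q.ker)
    (h' : ker L q'.len v = q'.ker) : q = q' := by
  obtain ⟨n, κ, h1, h2⟩ := q
  obtain ⟨n', κ', h3, h4⟩ := q'
  have h5 : n = n' := hl
  subst h5
  have h6 : κ = κ' := h.symm.trans h'
  subst h6
  rfl

theorem Q_point (q : Q L S) : ∃ (i : ι) (v : ℕ → S i), ker L q.len v = q.ker := by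
  obtain ⟨i, v, h⟩ := q.mem
  exact ⟨i, v, h.symm⟩

/-- a new element is either irredundant or given by a term -/
theorem ext_cases (q : Q L S) {i : ι} (v : ℕ → S i) (h : ker L q.len v = q.ker) :
    (∃ q' : Q L S, q'.len = q.len + 1 ∧ ker L q'.len v = q'.ker) ∨
      ∃ s : L.Term (Fin q.len), ∀ (i' : ι) (v' : ℕ → S i'),
        ker L (q.len + 1) v' = ker L (q.len + 1) v → v' q.len = s.realize (fun j : Fin q.len => v' j) := by
  by_cases hr : ∃ s : L.Term (Fin q.len), v q.len = s.realize (fun j : Fin q.len => v j)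
  · obtain ⟨s, hs⟩ := hr
    refine Or.inr ⟨s, fun i' v' hv' => ?_⟩
    have h1 := (Set.ext_iff.1 hv' (FirstOrder.Language.Term.var (Fin.last _),
      s.relabel (Fin.castLE (Nat.le_succ _)))).2 (by
        rw [mem_ker, FirstOrder.Language.Term.realize_relabel]
        exact hs)
    rw [mem_ker, FirstOrder.Language.Term.realize_relabel] at h1
    exact h1
  · refine Or.inl ⟨⟨q.len + 1, ker L (q.len + 1) v, ⟨i, v, rfl⟩, ?_⟩, rfl, rfl⟩
    intro j s hs
    by_cases hj : (j : ℕ) < q.len
    · have h2 := q.irred ⟨j, hj⟩ s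
      apply h2
      rw [← h, mem_ker, FirstOrder.Language.Term.realize_relabel]
      rw [mem_ker, FirstOrder.Language.Term.realize_relabel] at hs
      exact hs
    · obtain ⟨j, hj'⟩ := j
      have h3 : j = q.len := by
        have h4 : ¬ j < q.len := hj
        omega
      subst h3
      apply hr
      rw [mem_ker, FirstOrder.Language.Term.realize_relabel] at hs
      exact ⟨s, hs.symm⟩

theorem cl_ker [Finite ι] [∀ i, Finite (S i)] (D : HasSw L S) (P : PA L S) (n : ℕ) (a : ℕ → P.A)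
    (κ : Set (L.Term (Fin n) × L.Term (Fin n))) :
    P.Cl {w | ker L n (fun j => (a j).1 w) = κ} := by
  classical
  have hval : ∀ (s : L.Term (Fin n)) (w : P.Ω), (s.realize (fun j : Fin n => a j) : P.A).1 w =
      s.realize (fun j : Fin n => (a j).1 w) := fun s w => realize_val P s _ w
  have hp : ∀ p : L.Term (Fin n) × L.Term (Fin n), P.Cl {w | p ∈ ker L n (fun j => (a j).1 w)} := by
    intro p
    have h := cl_eq P (p.1.realize (fun j : Fin n => a j)) (p.2.realize (fun j : Fin n => a j))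
    simp only [hval] at h
    exact h
  have hsep : ∀ κ' : Set (L.Term (Fin n) × L.Term (Fin n)), κ' ≠ κ →
      ∃ p, ¬ (p ∈ κ' ↔ p ∈ κ) := by
    intro κ' h
    by_contra hc
    push Not at hc
    exact h (Set.ext hc)
  choose p hpp using hsep
  have key : {w | ker L n (fun j => (a j).1 w) = κ} =
      ⋂ κ' ∈ (KK_finite (L := L) (S := S) n).toFinset,
        {w | ∀ h : κ' ≠ κ, (p κ' h ∈ ker L n (fun j => (a j).1 w) ↔ p κ' h ∈ κ)} := by
    ext w
    simp only [mem_iInter, Set.mem_ofPred_eq]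
    constructor
    · intro h κ' _ hne
      rw [h]
    · intro h
      by_contra hne
      refine hpp _ hne (h (ker L n (fun j => (a j).1 w)) ?_ hne)
      rw [Set.Finite.mem_toFinset]
      exact ⟨P.f w, fun j => (a j).1 w, rfl⟩
  rw [key]
  apply cl_biInter D P
  intro κ' _
  by_cases hne : κ' = κ
  · have h1 : {w : P.Ω | ∀ h : κ' ≠ κ, (p κ' h ∈ ker L n (fun j => (a j).1 w) ↔ p κ' h ∈ κ)} = univ := by
      ext w
      simp [hne]
    rw [h1]
    exact cl_univ D P
  · by_cases hk : p κ' hne ∈ κ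
    · have h1 : {w : P.Ω | ∀ h : κ' ≠ κ, (p κ' h ∈ ker L n (fun j => (a j).1 w) ↔ p κ' h ∈ κ)} =
          {w | p κ' hne ∈ ker L n (fun j => (a j).1 w)} := by
        ext w
        simp only [Set.mem_ofPred_eq]
        exact ⟨fun h => (h hne).2 hk, fun h _ => ⟨fun _ => hk, fun _ => h⟩⟩
      rw [h1]
      exact hp _
    · have h1 : {w : P.Ω | ∀ h : κ' ≠ κ, (p κ' h ∈ ker L n (fun j => (a j).1 w) ↔ p κ' h ∈ κ)} =
          {w | p κ' hne ∈ ker L n (fun j => (a j).1 w)}ᶜ := by
        ext w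
        simp only [Set.mem_ofPred_eq, mem_compl_iff]
        exact ⟨fun h h2 => hk ((h hne).1 h2), fun h _ => ⟨fun h2 => (h h2).elim, fun h2 => (hk h2).elim⟩⟩
      rw [h1]
      exact cl_compl D P (hp _)

end VCD
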