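import Mathlib

/-!
# VCD-Simple: simple functions with respect to a Boolean algebra of sets; countability
-/

open Set

namespace VCD

/-- a Boolean algebra of sets -/
structure BAS {J : Type} (C : Set (Set J)) : Prop where
  univ : univ ∈ C
  compl : ∀ a ∈ C, aᶜ ∈ C
  inter : ∀ a ∈ C, ∀ b ∈ C, a ∩ b ∈ C

/-- simple functions -/
def Simple {J Y : Type} (C : Set (Set J)) (σ : J → Y) : Prop :=
  (range σ).Finite ∧ ∀ T : Set Y, σ ⁻¹' T ∈ C

variable {J Y Z : Type} {C : Set (Set J)}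

theorem BAS.empty (h : BAS C) : ∅ ∈ C := by
  have := h.compl _ h.univ
  rwa [compl_univ] at this

theorem BAS.union (h : BAS C) {a b : Set J} (ha : a ∈ C) (hb : b ∈ C) : a ∪ b ∈ C := by
  have := h.compl _ (h.inter _ (h.compl _ ha) _ (h.compl _ hb))
  rwa [compl_inter, compl_compl, compl_compl] at this

theorem BAS.diff (h : BAS C) {a b : Set J} (ha : a ∈ C) (hb : b ∈ C) : a \ b ∈ C := by
  rw [sdiff_eq]
  exact h.inter _ ha _ (h.compl _ hb)

theorem BAS.biUnion (h : BAS C) {κ : Type} {s : Set κ} (hs : s.Finite) (f : κ → Set J)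
    (hf : ∀ i ∈ s, f i ∈ C) : (⋃ i ∈ s, f i) ∈ C := by
  induction s, hs using Set.Finite.induction_on with
  | empty => simpa using h.empty
  | insert _ _ ih =>
    rw [biUnion_insert]
    exact h.union (hf _ (mem_insert _ _)) (ih fun i hi => hf i (mem_insert_of_mem _ hi))

theorem BAS.iInter (h : BAS C) {κ : Type} [Finite κ] (f : κ → Set J) (hf : ∀ i, f i ∈ C) :
    (⋂ i, f i) ∈ C := by
  have h1 := h.compl _ (h.biUnion (Set.finite_univ (α := κ)) (fun i => (f i)ᶜ)
    fun i _ => h.compl _ (hf i))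
  rw [compl_iUnion₂] at h1
  simpa using h1

theorem Simple.comp {σ : J → Y} (h : Simple C σ) (g : Y → Z) : Simple C fun j => g (σ j) := by
  refine ⟨?_, fun T => h.2 (g ⁻¹' T)⟩
  refine (h.1.image g).subset ?_
  rintro z ⟨j, rfl⟩
  exact ⟨_, ⟨j, rfl⟩, rfl⟩

theorem Simple.const (hC : BAS C) (y : Y) : Simple C fun _ : J => y := by
  refine ⟨(Set.finite_singleton y).subset ?_, fun T => ?_⟩
  · rintro z ⟨j, rfl⟩
    rfl
  · by_cases h : y ∈ T
    · have : (fun _ : J => y) ⁻¹' T = univ := by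
        ext
        simp [h]
      rw [this]
      exact hC.univ
    · have : (fun _ : J => y) ⁻¹' T = ∅ := by
        ext
        simp [h]
      rw [this]
      exact hC.empty

theorem Simple.pi (hC : BAS C) {κ : Type} [Finite κ] {σ : κ → J → Y} (h : ∀ i, Simple C (σ i)) :
    Simple C fun j i => σ i j := by
  have hfin : (range fun j i => σ i j).Finite := by
    refine (Set.Finite.pi' fun i => (h i).1).subset ?_
    rintro z ⟨j, rfl⟩ i
    exact ⟨j, rfl⟩
  refine ⟨hfin, fun T => ?_⟩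
  have h1 : (fun j i => σ i j) ⁻¹' T = ⋃ y ∈ (range fun j i => σ i j) ∩ T, ⋂ i, σ i ⁻¹' {y i} := by
    ext j
    simp only [mem_preimage, mem_iUnion, mem_iInter, mem_singleton_iff, mem_inter_iff, exists_prop]
    constructor
    · intro hj
      exact ⟨_, ⟨⟨j, rfl⟩, hj⟩, fun i => rfl⟩
    · rintro ⟨y, ⟨_, hy⟩, h2⟩
      have : (fun i => σ i j) = y := funext h2
      rw [this]
      exact hy
  rw [h1]
  exact hC.biUnion (hfin.inter_of_left _) _ fun y _ => hC.iInter _ fun i => (h i).2 _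

theorem Simple.pair (hC : BAS C) {σ : J → Y} {σ' : J → Z} (h : Simple C σ) (h' : Simple C σ') :
    Simple C fun j => (σ j, σ' j) := by
  have hfin : (range fun j => (σ j, σ' j)).Finite := by
    refine (h.1.prod h'.1).subset ?_
    rintro z ⟨j, rfl⟩
    exact ⟨⟨j, rfl⟩, ⟨j, rfl⟩⟩
  refine ⟨hfin, fun T => ?_⟩
  have h1 : (fun j => (σ j, σ' j)) ⁻¹' T =
      ⋃ y ∈ (range fun j => (σ j, σ' j)) ∩ T, (σ ⁻¹' {y.1} ∩ σ' ⁻¹' {y.2}) := by
    ext j
    simp only [mem_preimage, mem_iUnion, mem_singleton_iff, mem_inter_iff, exists_prop]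
    constructor
    · intro hj
      exact ⟨_, ⟨⟨j, rfl⟩, hj⟩, rfl, rfl⟩
    · rintro ⟨y, ⟨_, hy⟩, h2, h3⟩
      have : (σ j, σ' j) = y := Prod.ext h2 h3
      rw [this]
      exact hy
  rw [h1]
  exact hC.biUnion (hfin.inter_of_left _) _ fun y _ => hC.inter _ (h.2 _) _ (h'.2 _)

theorem Simple.ite (hC : BAS C) {a : Set J} (ha : a ∈ C) (y y' : Y) [DecidablePred (· ∈ a)] :
    Simple C fun j => if j ∈ a then y else y' := by
  refine ⟨(Set.toFinite {y, y'}).subset ?_, fun T => ?_⟩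
  · rintro z ⟨j, rfl⟩
    by_cases h : j ∈ a
    · simp [h]
    · simp [h]
  · have h1 : (fun j => if j ∈ a then y else y') ⁻¹' T =
        (a ∩ (fun _ : J => y) ⁻¹' T) ∪ (aᶜ ∩ (fun _ : J => y') ⁻¹' T) := by
      ext j
      by_cases h : j ∈ a
      · simp [h]
      · simp [h]
    rw [h1]
    exact hC.union (hC.inter _ ha _ ((Simple.const hC y).2 T))
      (hC.inter _ (hC.compl _ ha) _ ((Simple.const hC y').2 T))

theorem Simple.countable [Countable Y] (hC : C.Countable) : {σ : J → Y | Simple C σ}.Countable := by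
  have h1 : {t : Set (Y × Set J) | t.Finite ∧ t ⊆ univ ×ˢ C}.Countable :=
    Set.countable_ofPred_finite_subset (Set.countable_univ.prod hC)
  refine Set.MapsTo.countable_of_injOn (f := fun σ : J → Y => (fun t => (t, σ ⁻¹' {t})) '' range σ) ?_ ?_ h1
  · rintro σ ⟨h2, h3⟩
    refine ⟨h2.image _, ?_⟩
    rintro _ ⟨t, _, rfl⟩
    exact ⟨mem_univ _, h3 _⟩
  · intro σ _ σ' _ h
    funext j
    have h2 : (σ j, σ ⁻¹' {σ j}) ∈ (fun t => (t, σ ⁻¹' {t})) '' range σ := ⟨_, ⟨j, rfl⟩, rfl⟩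
    have h' : (fun t => (t, σ ⁻¹' {t})) '' range σ = (fun t => (t, σ' ⁻¹' {t})) '' range σ' := h
    rw [h'] at h2
    obtain ⟨t, _, ht⟩ := h2
    have h3 : t = σ j := congrArg Prod.fst ht
    have h4 : σ' ⁻¹' {t} = σ ⁻¹' {σ j} := congrArg Prod.snd ht
    have h5 : j ∈ σ' ⁻¹' {t} := by
      rw [h4]
      rfl
    exact (h3.symm.trans h5.symm)

theorem countable_modif {B : Type} [Countable B] [Countable Y] (h0 : B → Y) :
    {h : B → Y | {p | h p ≠ h0 p}.Finite}.Countable := by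
  have h1 : {t : Set (B × Y) | t.Finite ∧ t ⊆ univ}.Countable :=
    Set.countable_ofPred_finite_subset Set.countable_univ
  refine Set.MapsTo.countable_of_injOn (f := fun h : B → Y => (fun p => (p, h p)) '' {p | h p ≠ h0 p}) ?_ ?_ h1
  · intro h h2
    exact ⟨Set.Finite.image _ h2, subset_univ _⟩
  · intro h _ h' _ heq
    have key : ∀ (h h' : B → Y), (fun p => (p, h p)) '' {p | h p ≠ h0 p} =
        (fun p => (p, h' p)) '' {p | h' p ≠ h0 p} → ∀ p, h p ≠ h0 p → h' p = h p := by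
      intro h h' he p hp
      have h2 : (p, h p) ∈ (fun p => (p, h p)) '' {p | h p ≠ h0 p} := ⟨p, hp, rfl⟩
      rw [he] at h2
      obtain ⟨p', _, h3⟩ := h2
      have h4 : p' = p := congrArg Prod.fst h3
      have h5 : h' p' = h p := congrArg Prod.snd h3
      rwa [h4] at h5
    funext p
    by_cases h1 : h p = h0 p
    · by_cases h2 : h' p = h0 p
      · rw [h1, h2]
      · exact key h' h heq.symm p h2
    · exact (key h h' heq p h1).symm

end VCD
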