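import Pool.Agent.VCD.Good
import Pool.Agent.VCD.Simple

/-!
# VCD-NXa: the algebras `N_X` over a critical object; clopen sets
-/

open Set FirstOrder

namespace VCD

variable {L : FirstOrder.Language.{0, 0}} {ι : Type} {S : ι → Type} [∀ i, L.Structure (S i)]

/-- the good clopen subsets of `e` -/
def GG (P : PA L S) (e : Set P.Ω) : Type := {g : Set P.Ω // P.Cl g ∧ g ⊆ e ∧ P.Good g}

/-- the points of a block -/
def blk (P : PA L S) (e : Set P.Ω) {J : Type} : Option (J × GG P e × ℕ) → Set P.Ω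
  | none => eᶜ
  | some u => u.2.1.1

/-- the functions on the set of blocks which are given by terms almost everywhere -/
def HH (P : PA L S) (q : Q L S) (e : Set P.Ω) (a : ℕ → P.A) {J : Type} (C : Set (Set J)) :
    Set (Option (J × GG P e × ℕ) → P.A) :=
  {h | ∃ σ : J → P.A, Simple C σ ∧ (∀ j, ∃ s : L.Term (Fin q.len),
    σ j = s.realize (fun i : Fin q.len => a i)) ∧ {u | h (some u) ≠ σ u.1}.Finite}

theorem HH_fun (P : PA L S) (q : Q L S) (e : Set P.Ω) (a : ℕ → P.A) {J : Type} {C : Set (Set J)}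
    (hC : BAS C) {n : ℕ} (F : L.Functions n) (h : Fin n → Option (J × GG P e × ℕ) → P.A)
    (hh : ∀ i, h i ∈ HH P q e a C) :
    (fun b => FirstOrder.Language.Structure.funMap F fun i => h i b) ∈ HH P q e a C := by
  choose σ h1 h2 h3 using hh
  refine ⟨fun j => FirstOrder.Language.Structure.funMap F fun i => σ i j,
    (Simple.pi hC h1).comp fun v => FirstOrder.Language.Structure.funMap F v, fun j => ?_, ?_⟩
  · choose s hs using fun i => h2 i j
    refine ⟨FirstOrder.Language.Term.func F s, ?_⟩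
    rw [FirstOrder.Language.Term.realize_func]
    exact congrArg _ (funext hs)
  · refine (Set.finite_iUnion h3).subset ?_
    intro u hu
    by_contra hc
    apply hu
    show FirstOrder.Language.Structure.funMap F (fun i => h i (some u)) = _
    congr 1
    funext i
    by_contra hne
    exact hc (mem_iUnion.2 ⟨i, hne⟩)

/-- the algebra `N_X` -/
def NX (P : PA L S) (q : Q L S) (e : Set P.Ω) (a : ℕ → P.A) {J : Type} {C : Set (Set J)}
    (hC : BAS C) (X : Set J) : PA L S where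
  Ω := {p : Option (J × GG P e × ℕ) × P.Ω // p.2 ∈ blk P e p.1 ∧ ∀ u, p.1 = some u → u.1 ∈ X}
  f p := P.f p.1.2
  A := {v | ∃ h ∈ HH P q e a C, ∀ p, v p = (h p.1.1).1 p.1.2}
  closed := by
    intro n F v hv
    choose h h1 h2 using hv
    refine ⟨_, HH_fun P q e a hC F h h1, fun p => ?_⟩
    show FirstOrder.Language.Structure.funMap F (fun j => v j p) = _
    have h3 : (fun j => v j p) = fun j => (h j p.1.1).1 p.1.2 := funext fun j => h2 j p
    rw [h3]
    rfl

section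

variable {P : PA L S} {q : Q L S} {e : Set P.Ω} {a : ℕ → P.A} {J : Type} {C : Set (Set J)}
  {hC : BAS C} {X : Set J}

/-- the element given by `h` -/
def nxel (h : Option (J × GG P e × ℕ) → P.A) (hh : h ∈ HH P q e a C) : (NX P q e a hC X).A :=
  ⟨fun p => (h p.1.1).1 p.1.2, h, hh, fun _ => rfl⟩

theorem nx_rep (v : (NX P q e a hC X).A) : ∃ h, ∃ hh : h ∈ HH P q e a C,
    v = nxel (hC := hC) (X := X) h hh := by
  obtain ⟨v, h, hh, hv⟩ := v
  exact ⟨h, hh, Subtype.ext (funext hv)⟩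

theorem nxel_val (h : Option (J × GG P e × ℕ) → P.A) (hh : h ∈ HH P q e a C)
    (p : (NX P q e a hC X).Ω) : (nxel (hC := hC) (X := X) h hh).1 p = (h p.1.1).1 p.1.2 := rfl

/-- the block is used in `N_X` -/
def okb (X : Set J) (b : Option (J × GG P e × ℕ)) : Prop := ∀ u, b = some u → u.1 ∈ X

/-- the point `w` of the block `b` -/
def npt {b : Option (J × GG P e × ℕ)} {w : P.Ω} (h1 : w ∈ blk P e b) (h2 : okb X b) :
    (NX P q e a hC X).Ω := ⟨(b, w), h1, h2⟩

/-- the slice of a set at a block -/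
def sl (b : Option (J × GG P e × ℕ)) (g : Set (NX P q e a hC X).Ω) : Set P.Ω :=
  {w | ∃ p ∈ g, p.1 = (b, w)}

/-- the copy of a set in a block -/
def lft (b : Option (J × GG P e × ℕ)) (g : Set P.Ω) : Set (NX P q e a hC X).Ω :=
  {p | p.1.1 = b ∧ p.1.2 ∈ g}

theorem sl_subset (b : Option (J × GG P e × ℕ)) (g : Set (NX P q e a hC X).Ω) :
    sl b g ⊆ blk P e b := by
  rintro w ⟨p, _, hp⟩
  have h1 := p.2.1
  rw [hp] at h1
  exact h1

theorem mem_sl {b : Option (J × GG P e × ℕ)} {g : Set (NX P q e a hC X).Ω} {w : P.Ω}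
    (h1 : w ∈ blk P e b) (h2 : okb X b) :
    w ∈ sl b g ↔ npt h1 h2 ∈ g := by
  constructor
  · rintro ⟨p, hp, hpe⟩
    have : p = npt h1 h2 := Subtype.ext hpe
    rw [← this]
    exact hp
  · intro h
    exact ⟨npt h1 h2, h, rfl⟩

theorem sl_eq_empty {b : Option (J × GG P e × ℕ)} (hb : ¬ okb X b)
    (g : Set (NX P q e a hC X).Ω) : sl b g = ∅ := by
  refine eq_empty_of_forall_notMem ?_
  rintro w ⟨p, _, hpe⟩
  apply hb
  intro u hu
  have h1 := p.2.2 u
  rw [hpe] at h1
  exact h1 hu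

theorem mem_iff_sl {g : Set (NX P q e a hC X).Ω} (p : (NX P q e a hC X).Ω) :
    p ∈ g ↔ p.1.2 ∈ sl p.1.1 g := by
  rw [mem_sl p.2.1 p.2.2]
  exact Iff.rfl

theorem ext_sl {g g' : Set (NX P q e a hC X).Ω} (h : ∀ b, sl b g = sl b g') : g = g' := by
  ext p
  rw [mem_iff_sl, mem_iff_sl, h]

theorem sl_union (b : Option (J × GG P e × ℕ)) (g g' : Set (NX P q e a hC X).Ω) :
    sl b (g ∪ g') = sl b g ∪ sl b g' := by
  ext w
  constructor
  · rintro ⟨p, hp | hp, hpe⟩
    · exact Or.inl ⟨p, hp, hpe⟩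
    · exact Or.inr ⟨p, hp, hpe⟩
  · rintro (⟨p, hp, hpe⟩ | ⟨p, hp, hpe⟩)
    · exact ⟨p, Or.inl hp, hpe⟩
    · exact ⟨p, Or.inr hp, hpe⟩

theorem sl_diff (b : Option (J × GG P e × ℕ)) (g g' : Set (NX P q e a hC X).Ω) :
    sl b (g \ g') = sl b g \ sl b g' := by
  ext w
  constructor
  · rintro ⟨p, hp, hpe⟩
    refine ⟨⟨p, hp.1, hpe⟩, ?_⟩
    rintro ⟨p', hp', hpe'⟩
    have : p' = p := Subtype.ext (hpe'.trans hpe.symm)
    rw [this] at hp'
    exact hp.2 hp'
  · rintro ⟨⟨p, hp, hpe⟩, h2⟩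
    exact ⟨p, ⟨hp, fun h => h2 ⟨p, h, hpe⟩⟩, hpe⟩

theorem sl_mono (b : Option (J × GG P e × ℕ)) {g g' : Set (NX P q e a hC X).Ω} (h : g ⊆ g') :
    sl b g ⊆ sl b g' := by
  rintro w ⟨p, hp, hpe⟩
  exact ⟨p, h hp, hpe⟩

theorem sl_lft {b : Option (J × GG P e × ℕ)} (hb : okb X b) {g : Set P.Ω} (hg : g ⊆ blk P e b) :
    sl b (lft (a := a) (hC := hC) (X := X) (q := q) b g) = g := by
  ext w
  constructor
  · rintro ⟨p, hp, hpe⟩
    have := hp.2
    rwa [hpe] at this
  · intro hw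
    exact ⟨npt (hg hw) hb, ⟨rfl, hw⟩, rfl⟩

theorem sl_lft_ne {b b' : Option (J × GG P e × ℕ)} (h : b' ≠ b) (g : Set P.Ω) :
    sl b' (lft (a := a) (hC := hC) (X := X) (q := q) b g) = ∅ := by
  refine eq_empty_of_forall_notMem ?_
  rintro w ⟨p, hp, hpe⟩
  apply h
  have := hp.1
  rw [hpe] at this
  exact this

/-- members of `HH`: a simple function changed at finitely many blocks -/
theorem HH_mk (σ : J → P.A) (h1 : Simple C σ) (h2 : ∀ j, ∃ s : L.Term (Fin q.len),
    σ j = s.realize (fun i : Fin q.len => a i)) (h : Option (J × GG P e × ℕ) → P.A)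
    (h3 : {u | h (some u) ≠ σ u.1}.Finite) : h ∈ HH P q e a C := ⟨σ, h1, h2, h3⟩

theorem HH_countable [Countable J] [Countable (GG P e)] (hA : P.A.Countable) (hCc : C.Countable) :
    (HH P q e a C).Countable := by
  classical
  have : Countable P.A := hA.to_subtype
  rcases isEmpty_or_nonempty P.A with h0 | ⟨⟨x0⟩⟩
  · have : IsEmpty (Option (J × GG P e × ℕ) → P.A) := ⟨fun h => h0.elim (h none)⟩
    exact Set.to_countable _
  · have h1 : (⋃ σ ∈ {σ : J → P.A | Simple C σ}, {h : Option (J × GG P e × ℕ) → P.A |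
        {p | h p ≠ (fun b : Option (J × GG P e × ℕ) => b.elim x0 fun u => σ u.1) p}.Finite}).Countable :=
      (Simple.countable hCc).biUnion fun σ _ => countable_modif _
    refine h1.mono ?_
    rintro h ⟨σ, h2, -, h3⟩
    rw [mem_iUnion₂]
    refine ⟨σ, h2, ?_⟩
    refine ((h3.image some).union (Set.finite_singleton none)).subset ?_
    intro p hp
    cases p with
    | none => exact Or.inr rfl
    | some u => exact Or.inl ⟨u, hp, rfl⟩

end

end VCD
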