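import Pool.Agent.VCD.NXa

/-!
# VCD-NXb: the clopen sets of `N_X`
-/

open Set FirstOrder

namespace VCD

variable {L : FirstOrder.Language.{0, 0}} {ι : Type} {S : ι → Type} [∀ i, L.Structure (S i)]
  {P : PA L S} {q : Q L S} {e : Set P.Ω} {a : ℕ → P.A} {J : Type} {C : Set (Set J)}
  {hC : BAS C} {X : Set J}

/-- the indices at which almost all blocks are in `g` -/
def cm (g : Set (NX P q e a hC X).Ω) : Set J :=
  {j | j ∈ X ∧ {u : GG P e × ℕ | (sl (some (j, u)) g).Nonempty}.Infinite}

theorem cm_subset (g : Set (NX P q e a hC X).Ω) : cm g ⊆ X := fun _ h => h.1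

open scoped Classical in
/-- the standard slice -/
noncomputable def std (Y : Set J) (u : J × GG P e × ℕ) : Set P.Ω := if u.1 ∈ Y then u.2.1.1 else ∅

open scoped Classical in
theorem cm_eq_of (hne : ∃ g : GG P e, g.1.Nonempty) {g : Set (NX P q e a hC X).Ω} {Y : Set J}
    (h : {u : J × GG P e × ℕ | u.1 ∈ X ∧ sl (some u) g ≠ std Y u}.Finite) : cm g = Y ∩ X := by
  obtain ⟨g0, hg0⟩ := hne
  ext j
  constructor
  · rintro ⟨h1, h2⟩
    refine ⟨?_, h1⟩
    by_contra hj
    apply h2
    have h3 : {u : GG P e × ℕ | (j, u) ∈ {u : J × GG P e × ℕ | u.1 ∈ X ∧ sl (some u) g ≠ std Y u}}.Finite :=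
      h.preimage (fun u _ u' _ huu => (Prod.ext_iff.1 huu).2)
    refine h3.subset ?_
    intro u hu
    refine ⟨h1, fun h4 => ?_⟩
    have h5 : (sl (some (j, u)) g).Nonempty := hu
    rw [h4] at h5
    rw [std, if_neg hj] at h5
    exact Set.not_nonempty_empty h5
  · rintro ⟨h1, h2⟩
    refine ⟨h2, ?_⟩
    have h3 : {u : GG P e × ℕ | (j, u) ∈ {u : J × GG P e × ℕ | u.1 ∈ X ∧ sl (some u) g ≠ std Y u}}.Finite :=
      h.preimage (fun u _ u' _ huu => (Prod.ext_iff.1 huu).2)
    have h4 : (range fun l : ℕ => ((g0, l) : GG P e × ℕ)).Infinite :=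
      Set.infinite_range_of_injective fun l l' hl => (Prod.ext_iff.1 hl).2
    have h5 := h4.sdiff h3
    refine h5.mono ?_
    rintro u ⟨⟨l, rfl⟩, hu⟩
    show (sl (some (j, (g0, l))) g).Nonempty
    have h6 : sl (some (j, (g0, l))) g = std Y (j, (g0, l)) := by
      by_contra h7
      exact hu ⟨h2, h7⟩
    rw [h6, std, if_pos h1]
    exact hg0

private theorem cst_real {M : Type} [L.Structure M] {n : ℕ} (c1 : L.Functions 0) (v : Fin n → M) :
    (FirstOrder.Language.Term.func c1 Fin.elim0 : L.Term (Fin n)).realize v =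
      FirstOrder.Language.Structure.funMap c1 ![] := by
  rw [FirstOrder.Language.Term.realize_func]
  exact congrArg _ (Subsingleton.elim _ _)

theorem NX_cl_spec (D : HasSw L S) (ob : P.Ob q e a) (hne : ∃ g : GG P e, g.1.Nonempty)
    {g : Set (NX P q e a hC X).Ω} (hg : (NX P q e a hC X).Cl g) :
    (∃ Y ∈ C, cm g = Y ∩ X) ∧
      {u : J × GG P e × ℕ | u.1 ∈ X ∧ sl (some u) g ≠ std (cm g) u}.Finite ∧
      ∀ b, P.Cl (sl b g) := by
  classical
  obtain ⟨v, v', hv⟩ := hg
  obtain ⟨h, ⟨σ, h1, h2, h3⟩, rfl⟩ := nx_rep v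
  obtain ⟨h', ⟨σ', h1', h2', h3'⟩, rfl⟩ := nx_rep v'
  obtain ⟨Y, hY⟩ : ∃ Y, Y = (fun j => (σ j, σ' j)) ⁻¹' {y : P.A × P.A | ∀ w ∈ e, y.1.1 w = y.2.1 w} :=
    ⟨_, rfl⟩
  have hYC : Y ∈ C := by
    rw [hY]
    exact (Simple.pair hC h1 h1').2 _
  have hslice : ∀ b, okb X b → sl b g = {w | w ∈ blk P e b ∧ (h b).1 w = (h' b).1 w} := by
    intro b hb
    ext w
    constructor
    · intro hw
      have hw' := sl_subset b g hw
      rw [mem_sl hw' hb] at hw
      exact ⟨hw', (hv _).1 hw⟩
    · rintro ⟨hw', hw⟩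
      rw [mem_sl hw' hb]
      exact (hv _).2 hw
  -- equality of terms is the same at all points of `e`
  have hterm : ∀ j, ∀ w ∈ e, ((σ j).1 w = (σ' j).1 w ↔ j ∈ Y) := by
    intro j w hw
    obtain ⟨s, hs⟩ := h2 j
    obtain ⟨s', hs'⟩ := h2' j
    have key : ∀ w ∈ e, ((σ j).1 w = (σ' j).1 w ↔ (s, s') ∈ q.ker) := by
      intro w hw
      rw [hs, hs', realize_val, realize_val, ← ob.2 w hw, mem_ker]
    constructor
    · intro h4 
      rw [hY]
      intro w' hw'
      exact (key w' hw').2 ((key w hw).1 h4)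
    · intro h4
      rw [hY] at h4
      exact h4 w hw
  have hfin : {u : J × GG P e × ℕ | u.1 ∈ X ∧ sl (some u) g ≠ std Y u}.Finite := by
    refine (h3.union h3').subset ?_
    rintro u ⟨hu1, hu2⟩
    by_contra hc
    rw [mem_union, not_or] at hc
    have e1 : h (some u) = σ u.1 := by
      by_contra h4
      exact hc.1 h4
    have e2 : h' (some u) = σ' u.1 := by
      by_contra h4
      exact hc.2 h4
    apply hu2
    rw [hslice (some u) (fun u' hu' => by
      have : u = u' := Option.some.inj hu'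
      rw [← this]
      exact hu1), e1, e2, std]
    have hsub : (u.2.1.1 : Set P.Ω) ⊆ e := u.2.1.2.2.1
    by_cases hj : u.1 ∈ Y
    · rw [if_pos hj]
      ext w
      constructor
      · exact fun hw => hw.1
      · exact fun hw => ⟨hw, (hterm u.1 w (hsub hw)).2 hj⟩
    · rw [if_neg hj]
      refine eq_empty_of_forall_notMem ?_
      rintro w ⟨hw, hw'⟩
      exact hj ((hterm u.1 w (hsub hw)).1 hw')
  have hcm := cm_eq_of hne hfin
  refine ⟨⟨Y, hYC, hcm⟩, ?_, fun b => ?_⟩
  · refine hfin.subset ?_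
    rintro u ⟨hu1, hu2⟩
    refine ⟨hu1, ?_⟩
    rw [hcm] at hu2
    have : std (Y ∩ X) u = std Y u := by
      rw [std, std]
      simp [hu1]
    rwa [this] at hu2
  · by_cases hb : okb X b
    · rw [hslice b hb]
      refine cl_inter D P ?_ (cl_eq P (h b) (h' b))
      cases b with
      | none => exact cl_compl D P ob.1
      | some u => exact u.2.1.2.1
    · rw [sl_eq_empty hb]
      exact cl_empty D P

theorem NX_cl_mk (D : HasSw L S) {g : Set (NX P q e a hC X).Ω} {Y : Set J} (hY : Y ∈ C)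
    (hfin : {u : J × GG P e × ℕ | u.1 ∈ X ∧ sl (some u) g ≠ std Y u}.Finite)
    (hcl : ∀ b, P.Cl (sl b g)) : (NX P q e a hC X).Cl g := by
  classical
  obtain ⟨sw, c0, c1, hD⟩ := id D
  choose χ hχ1 hχ2 using fun b => exists_ind hD P (hcl b)
  obtain ⟨k0, hk0⟩ : ∃ k : P.A, k = FirstOrder.Language.Structure.funMap c0 ![] := ⟨_, rfl⟩
  obtain ⟨k1, hk1⟩ : ∃ k : P.A, k = FirstOrder.Language.Structure.funMap c1 ![] := ⟨_, rfl⟩
  have v0 : ∀ w, k0.1 w = FirstOrder.Language.Structure.funMap c0 ![] := by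
    intro w
    rw [hk0]
    show FirstOrder.Language.Structure.funMap c0 (fun j : Fin 0 => _) = _
    exact congrArg _ (Subsingleton.elim _ _)
  have v1 : ∀ w, k1.1 w = FirstOrder.Language.Structure.funMap c1 ![] := by
    intro w
    rw [hk1]
    show FirstOrder.Language.Structure.funMap c1 (fun j : Fin 0 => _) = _
    exact congrArg _ (Subsingleton.elim _ _)
  obtain ⟨h, hh⟩ : ∃ h : Option (J × GG P e × ℕ) → P.A, ∀ b, h b = (match b with
      | none => χ none
      | some u => if u.1 ∈ X ∧ sl (some u) g ≠ std Y u then χ (some u) else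
          if u.1 ∈ Y then k1 else k0) := ⟨_, fun _ => rfl⟩
  have hH : h ∈ HH P q e a C := by
    refine HH_mk (fun j => if j ∈ Y then k1 else k0) (Simple.ite hC hY _ _) (fun j => ?_) h
      (hfin.subset fun u hu => ?_)
    · by_cases hj : j ∈ Y
      · refine ⟨FirstOrder.Language.Term.func c1 Fin.elim0, ?_⟩
        rw [if_pos hj, cst_real, hk1]
      · refine ⟨FirstOrder.Language.Term.func c0 Fin.elim0, ?_⟩
        rw [if_neg hj, cst_real, hk0]
    · by_contra hc
      apply hu
      rw [hh]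
      exact if_neg hc
  have hH1 : (fun _ => k1) ∈ HH P q e a C := by
    refine HH_mk (fun _ => k1) (Simple.const hC _) (fun j => ?_) _ ?_
    · refine ⟨FirstOrder.Language.Term.func c1 Fin.elim0, ?_⟩
      rw [cst_real, hk1]
    · simp
  refine ⟨nxel h hH, nxel (fun _ => k1) hH1, fun p => ?_⟩
  rw [nxel_val, nxel_val, mem_iff_sl, v1]
  obtain ⟨⟨b, w⟩, hw, hb⟩ := p
  show w ∈ sl b g ↔ (h b).1 w = _
  rw [hh]
  cases b with
  | none =>
    constructor
    · exact fun h1 => hχ1 none w h1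
    · intro h1
      by_contra h2
      exact hD.c01 _ ((hχ2 none w h2).symm.trans h1)
  | some u =>
    by_cases hu : u.1 ∈ X ∧ sl (some u) g ≠ std Y u
    · simp only [if_pos hu]
      constructor
      · exact fun h1 => hχ1 (some u) w h1
      · intro h1
        by_contra h2
        exact hD.c01 _ ((hχ2 (some u) w h2).symm.trans h1)
    · simp only [if_neg hu]
      have h1 : sl (some u) g = std Y u := by
        by_contra h2
        exact hu ⟨hb u rfl, h2⟩
      rw [h1, std]
      by_cases hj : u.1 ∈ Y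
      · rw [if_pos hj, if_pos hj]
        exact ⟨fun _ => v1 w, fun _ => hw⟩
      · rw [if_neg hj, if_neg hj]
        constructor
        · exact fun h2 => h2.elim
        · intro h2
          rw [v0] at h2
          exact (hD.c01 _ h2).elim

theorem lft_cl (D : HasSw L S) {b : Option (J × GG P e × ℕ)} (hb : okb X b)
    {g : Set P.Ω} (hg : P.Cl g) (hs : g ⊆ blk P e b) : (NX P q e a hC X).Cl (lft b g) := by
  refine NX_cl_mk D hC.empty ?_ fun b' => ?_
  · refine (Set.Finite.subset (s := {u : J × GG P e × ℕ | some u = b}) ?_ ?_)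
    · cases b with
      | none => simp
      | some u =>
        refine (Set.finite_singleton u).subset fun u' hu' => ?_
        exact Option.some.inj hu'
    · rintro u ⟨_, hu⟩
      by_contra hc
      apply hu
      rw [sl_lft_ne hc, std, if_neg (Set.notMem_empty _)]
  · by_cases h : b' = b
    · rw [h, sl_lft hb hs]
      exact hg
    · rw [sl_lft_ne h]
      exact cl_empty D P

end VCD
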