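import Pool.Agent.VCD.NXb

/-!
# VCD-NXc: types of objects inside a block of `N_X`
-/

open Set FirstOrder

namespace VCD

variable {L : FirstOrder.Language.{0, 0}} {ι : Type} {S : ι → Type} [∀ i, L.Structure (S i)]
  {P : PA L S} {q : Q L S} {e : Set P.Ω} {a : ℕ → P.A} {J : Type} {C : Set (Set J)}
  {hC : BAS C} {X : Set J}

theorem exists_lift (D : HasSw L S) (b : Option (J × GG P e × ℕ)) (x : P.A) :
    ∃ x' : (NX P q e a hC X).A, ∀ p, p.1.1 = b → x'.1 p = x.1 p.1.2 := by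
  classical
  obtain ⟨sw, c0, c1, hD⟩ := id D
  obtain ⟨k0, hk0⟩ : ∃ k : P.A, k = FirstOrder.Language.Structure.funMap c0 ![] := ⟨_, rfl⟩
  have hH : Function.update (fun _ => k0) b x ∈ HH P q e a C := by
    refine HH_mk (fun _ => k0) (Simple.const hC _) (fun j => ?_) _ ?_
    · refine ⟨FirstOrder.Language.Term.func c0 Fin.elim0, ?_⟩
      rw [FirstOrder.Language.Term.realize_func, hk0]
      exact congrArg _ (Subsingleton.elim _ _)
    · refine Set.Finite.subset (s := {u : J × GG P e × ℕ | some u = b}) ?_ fun u hu => ?_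
      · cases b with
        | none => simp
        | some u =>
          refine (Set.finite_singleton u).subset fun u' hu' => ?_
          exact Option.some.inj hu'
      · by_contra hc
        exact hu (Function.update_of_ne hc _ _)
  refine ⟨nxel _ hH, fun p hp => ?_⟩
  rw [nxel_val, hp, Function.update_self]

theorem lft_diff (b : Option (J × GG P e × ℕ)) (g g' : Set P.Ω) :
    lft (a := a) (hC := hC) (X := X) (q := q) b (g \ g') = lft b g \ lft b g' := by
  ext p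
  constructor
  · rintro ⟨h1, h2⟩
    exact ⟨⟨h1, h2.1⟩, fun h => h2.2 h.2⟩
  · rintro ⟨⟨h1, h2⟩, h3⟩
    exact ⟨h1, h2, fun h => h3 ⟨h1, h⟩⟩

theorem lft_mono {b : Option (J × GG P e × ℕ)} {g g' : Set P.Ω} (h : g ⊆ g') :
    lft (a := a) (hC := hC) (X := X) (q := q) b g ⊆ lft b g' := fun _ hp => ⟨hp.1, h hp.2⟩

theorem lft_sl {b : Option (J × GG P e × ℕ)} {g : Set (NX P q e a hC X).Ω}
    (h : ∀ p ∈ g, p.1.1 = b) : lft b (sl b g) = g := by
  ext p
  constructor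
  · rintro ⟨h1, p', hp', h2⟩
    have h3 : p' = p := Subtype.ext (h2.trans (Prod.ext h1.symm rfl))
    rwa [h3] at hp'
  · intro hp
    exact ⟨h p hp, p, hp, Prod.ext (h p hp) rfl⟩

theorem sl_subset_of {b : Option (J × GG P e × ℕ)} {g : Set (NX P q e a hC X).Ω} {e1 : Set P.Ω}
    (h : g ⊆ lft b e1) : sl b g ⊆ e1 := by
  rintro w ⟨p, hp, h1⟩
  have h2 := (h hp).2
  rwa [h1] at h2

theorem lft_empty_iff {b : Option (J × GG P e × ℕ)} (hb : okb X b) {g : Set P.Ω}
    (hs : g ⊆ blk P e b) : lft (a := a) (hC := hC) (X := X) (q := q) b g = ∅ ↔ g = ∅ := by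
  constructor
  · intro h
    rw [← sl_lft (a := a) (hC := hC) (q := q) hb hs, h]
    refine eq_empty_of_forall_notMem ?_
    rintro w ⟨p, hp, _⟩
    exact hp
  · intro h
    rw [h]
    refine eq_empty_of_forall_notMem ?_
    rintro p ⟨_, hp⟩
    exact hp

theorem Ob_up (D : HasSw L S) {b : Option (J × GG P e × ℕ)} (hb : okb X b) {q' : Q L S}
    {e1 : Set P.Ω} {a1 : ℕ → P.A} {a1' : ℕ → (NX P q e a hC X).A} (h : P.Ob q' e1 a1)
    (hs : e1 ⊆ blk P e b) (ha : ∀ j < q'.len, ∀ p ∈ lft b e1, (a1' j).1 p = (a1 j).1 p.1.2) :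
    (NX P q e a hC X).Ob q' (lft b e1) a1' :=
  ⟨lft_cl D hb h.1 hs, fun p hp =>
    (ker_congr fun j hj => ha j hj p hp).trans (h.2 p.1.2 hp.2)⟩

theorem Ob_down (D : HasSw L S) (ob : P.Ob q e a) (hne : ∃ g : GG P e, g.1.Nonempty)
    {b : Option (J × GG P e × ℕ)} {q' : Q L S} {g : Set (NX P q e a hC X).Ω}
    {c' : ℕ → (NX P q e a hC X).A} (h : (NX P q e a hC X).Ob q' g c') (hs : ∀ p ∈ g, p.1.1 = b) :
    ∃ c : ℕ → P.A, P.Ob q' (sl b g) c ∧ ∀ j, ∀ p ∈ g, (c' j).1 p = (c j).1 p.1.2 := by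
  choose h1 h2 h3 using fun j => nx_rep (c' j)
  have hv : ∀ j, ∀ p ∈ g, (c' j).1 p = (h1 j b).1 p.1.2 := by
    intro j p hp
    rw [h3 j, nxel_val, hs p hp]
  refine ⟨fun j => h1 j b, ⟨(NX_cl_spec D ob hne h.1).2.2 b, ?_⟩, hv⟩
  rintro w ⟨p, hp, hpe⟩
  obtain ⟨⟨b', w'⟩, h4, h5⟩ := p
  obtain ⟨rfl, rfl⟩ : b' = b ∧ w' = w := ⟨congrArg Prod.fst hpe, congrArg Prod.snd hpe⟩
  refine (ker_congr fun j _ => ?_).trans (h.2 _ hp)
  exact (hv j _ hp).symm

theorem NX_loc (D : HasSw L S) (ob : P.Ob q e a) (hne : ∃ g : GG P e, g.1.Nonempty)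
    {b : Option (J × GG P e × ℕ)} (hb : okb X b) : ∀ (k : ℕ) (q' : Q L S) (e1 : Set P.Ω)
      (a1 : ℕ → P.A) (a1' : ℕ → (NX P q e a hC X).A), P.Ob q' e1 a1 → e1 ⊆ blk P e b →
      (∀ j < q'.len, ∀ p ∈ lft b e1, (a1' j).1 p = (a1 j).1 p.1.2) →
      (NX P q e a hC X).tau k q' (lft b e1) a1' = P.tau k q' e1 a1
  | 0, q', e1, a1, a1', h, hs, ha => by
    show (lft b e1 = ∅ : Prop) = (e1 = ∅ : Prop)
    exact propext (lft_empty_iff hb hs)
  | k + 1, q', e1, a1, a1', h, hs, ha => by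
    have hob' := Ob_up D hb h hs ha
    apply Set.ext
    rintro ⟨q'', x, y⟩
    constructor
    · rintro ⟨g, c', h1, h2, h3⟩
      have hg : ∀ p ∈ g, p.1.1 = b := fun p hp => (h1.2.1 hp).1
      have hgl := lft_sl hg
      obtain ⟨c, hc1, hc2⟩ := Ob_down D ob hne h1.1 hg
      have hs2 : sl b g ⊆ e1 := sl_subset_of h1.2.1
      refine ⟨sl b g, c, ⟨hc1, hs2, h1.2.2.1, ?_⟩, ?_, ?_⟩
      · rintro j hj w ⟨p, hp, hpe⟩
        obtain ⟨⟨b', w'⟩, h4, h5⟩ := p
        obtain ⟨rfl, rfl⟩ : b' = b ∧ w' = w := ⟨congrArg Prod.fst hpe, congrArg Prod.snd hpe⟩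
        exact (hc2 j _ hp).symm.trans ((h1.2.2.2 j hj _ hp).trans (ha j hj _ (h1.2.1 hp)))
      · have h4 := NX_loc D ob hne hb k q'' (sl b g) c c' hc1 (sl_subset b g)
          (fun j _ p hp => hc2 j p (by rw [← hgl]; exact hp))
        rw [hgl] at h4
        exact h2.trans h4
      · have h4 := NX_loc D ob hne hb k q' (e1 \ sl b g) a1 a1'
          (PA.Ob.mono h (cl_diff D P h.1 hc1.1) sdiff_subset) (sdiff_subset.trans hs)
          (fun j hj p hp => ha j hj p (lft_mono sdiff_subset hp))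
        rw [lft_diff, hgl] at h4
        exact h3.trans h4
    · rintro ⟨e2, c, h1, h2, h3⟩
      have hs2 : e2 ⊆ blk P e b := h1.2.1.trans hs
      choose c' hc' using fun j => exists_lift (q := q) (a := a) (hC := hC) (X := X) D b (c j)
      have hob2 := Ob_up (hC := hC) (X := X) (q := q) (a := a) D hb h1.1 hs2
        (fun j _ p hp => hc' j p hp.1)
      refine ⟨lft b e2, c', ⟨hob2, lft_mono h1.2.1, h1.2.2.1, ?_⟩, ?_, ?_⟩
      · intro j hj p hp
        rw [hc' j p hp.1, ha j hj p (lft_mono h1.2.1 hp)]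
        exact h1.2.2.2 j hj p.1.2 hp.2
      · exact h2.trans (NX_loc D ob hne hb k q'' e2 c c' h1.1 hs2
          (fun j _ p hp => hc' j p hp.1)).symm
      · rw [← lft_diff]
        exact h3.trans (NX_loc D ob hne hb k q' (e1 \ e2) a1 a1'
          (PA.Ob.mono h (cl_diff D P h.1 h1.1.1) sdiff_subset) (sdiff_subset.trans hs)
          (fun j hj p hp => ha j hj p (lft_mono sdiff_subset hp))).symm

theorem NX_V (D : HasSw L S) (ob : P.Ob q e a) (hne : ∃ g : GG P e, g.1.Nonempty)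
    {b : Option (J × GG P e × ℕ)} (hb : okb X b) {e1 : Set P.Ω} (hs : e1 ⊆ blk P e b) :
    (NX P q e a hC X).V (lft b e1) = P.V e1 := by
  apply Set.ext
  rintro ⟨q', t⟩
  constructor
  · rintro ⟨g, c', h1, h2, h3⟩
    have hg : ∀ p ∈ g, p.1.1 = b := fun p hp => (h2 hp).1
    have hgl := lft_sl hg
    obtain ⟨c, hc1, hc2⟩ := Ob_down D ob hne h1 hg
    refine ⟨sl b g, c, hc1, sl_subset_of h2, ?_⟩
    rw [show t = fun k => (NX P q e a hC X).tau k q' g c' from h3]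
    funext k
    have h4 := NX_loc D ob hne hb k q' (sl b g) c c' hc1 (sl_subset b g)
      (fun j _ p hp => hc2 j p (by rw [← hgl]; exact hp))
    rw [hgl] at h4
    exact h4
  · rintro ⟨e2, c, h1, h2, h3⟩
    have hs2 : e2 ⊆ blk P e b := h2.trans hs
    choose c' hc' using fun j => exists_lift (q := q) (a := a) (hC := hC) (X := X) D b (c j)
    have hob2 := Ob_up (hC := hC) (X := X) (q := q) (a := a) D hb h1 hs2
      (fun j _ p hp => hc' j p hp.1)
    refine ⟨lft b e2, c', hob2, lft_mono h2, ?_⟩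
    rw [show t = fun k => P.tau k q' e2 c from h3]
    funext k
    exact (NX_loc D ob hne hb k q' e2 c c' h1 hs2 (fun j _ p hp => hc' j p hp.1)).symm

end VCD
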