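import Pool.Agent.VCD.NXc

/-!
# VCD-NXd: the type of the large part of `N_X` is the critical type
-/

open Set FirstOrder

namespace VCD

variable {L : FirstOrder.Language.{0, 0}} {ι : Type} {S : ι → Type} [∀ i, L.Structure (S i)]

theorem tau_empty (D : HasSw L S) {P P' : PA L S} : ∀ (k : ℕ) (q : Q L S) (a : ℕ → P.A)
    (b : ℕ → P'.A), P.tau k q ∅ a = P'.tau k q ∅ b
  | 0, _, _, _ => tau_zero_iff.2 ⟨fun _ => rfl, fun _ => rfl⟩
  | k + 1, q, a, b => by
    have key : ∀ (P P' : PA L S) (a : ℕ → P.A) (b : ℕ → P'.A),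
        (∀ (q : Q L S) (a : ℕ → P.A) (b : ℕ → P'.A), P.tau k q ∅ a = P'.tau k q ∅ b) →
        ∀ z, z ∈ (P.tau (k + 1) q ∅ a).s → z ∈ (P'.tau (k + 1) q ∅ b).s := by
      rintro P P' a b ih z ⟨e', a', h1, h2, h3⟩
      have h4 : e' = ∅ := subset_empty_iff.1 h1.2.1
      subst h4
      refine ⟨∅, b, ⟨Ob_empty D P' _ _, Subset.rfl, h1.2.2.1, fun _ _ _ _ => rfl⟩,
        h2.trans (ih _ _ _), ?_⟩
      rw [empty_sdiff] at h3 ⊢
      exact h3.trans (ih _ _ _)
    apply Set.ext
    intro z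
    exact ⟨key P P' a b (fun q a b => tau_empty D k q a b) z,
      key P' P b a (fun q a b => (tau_empty D k q b a).symm) z⟩

theorem Crit.rest_bad (D : HasSw L S) {P : PA L S} {q : Q L S} {e : Set P.Ω} {a : ℕ → P.A}
    (hc : Crit P q e a) {z : Set P.Ω} (cz : P.Cl z) (sz : z ⊆ e) (gz : P.Good z) :
    ¬ P.Good (e \ z) := by
  intro h
  apply hc.bad
  have h1 := Good_union D cz gz h
  rwa [union_sdiff_cancel sz] at h1

theorem Crit.rest_tau (D : HasSw L S) {P : PA L S} {q : Q L S} {e : Set P.Ω} {a : ℕ → P.A}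
    (hc : Crit P q e a) {z : Set P.Ω} (cz : P.Cl z) (sz : z ⊆ e) (gz : P.Good z) (k : ℕ) :
    P.tau k q (e \ z) a = P.tau k q e a :=
  hc.min _ (cl_diff D P hc.ob.1 cz) sdiff_subset (hc.rest_bad D cz sz gz) k

theorem crit_sum (D : HasSw L S) [Finite ι] [∀ i, Finite (S i)] {P : PA L S} {q : Q L S}
    {e : Set P.Ω} {a : ℕ → P.A} (hc : Crit P q e a) {q' : Q L S} {z1 z2 : Set P.Ω}
    {a1 a2 : ℕ → P.A} (h1 : P.Sub q e a q' z1 a1) (g1 : P.Good z1) (h2 : P.Sub q e a q' z2 a2)
    (g2 : P.Good z2) : ∃ z c, P.Sub q e a q' z c ∧ P.Good z ∧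
      ∀ k, P.tau k q' z c = P.tau k q' z1 a1 + P.tau k q' z2 a2 := by
  obtain ⟨K, hK⟩ := Good_tau D h2.1 g2
  have h3 := tau_mem K h2
  rw [← hc.rest_tau D h1.1.1 h1.2.1 g1 (K + 1)] at h3
  obtain ⟨z3, a3, h4, h5, _⟩ := h3
  obtain ⟨h6, h7⟩ := hK P z3 a3 h4.1 h5
  have g3 : P.Good z3 := Good_of_V h6 g2
  obtain ⟨c, hc1, hc2⟩ := exists_patch_seq D P h1.1.1 a1 a3
  have hd : Disjoint z1 z3 := Set.disjoint_left.2 fun w hw hw' => (h4.2.1 hw').2 hw
  have k1 : ∀ j, ∀ w ∈ z3, (c j).1 w = (a3 j).1 w := fun j w hw =>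
    hc2 j w fun h => Set.disjoint_left.1 hd h hw
  have o1 : P.Ob q' z1 c := PA.Ob.congr h1.1 fun j _ w hw => (hc1 j w hw).symm
  have o3 : P.Ob q' z3 c := PA.Ob.congr h4.1 fun j _ w hw => (k1 j w hw).symm
  refine ⟨z1 ∪ z3, c, ⟨o1.union D o3, union_subset h1.2.1 (h4.2.1.trans sdiff_subset), h1.2.2.1,
    ?_⟩, Good_union D h1.1.1 g1 g3, fun k => ?_⟩
  · intro j hj w hw
    rcases hw with hw | hw
    · rw [hc1 j w hw]
      exact h1.2.2.2 j hj w hw
    · rw [k1 j w hw]
      exact h4.2.2.2 j hj w hw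
  · rw [tau_add D k o1 o3 hd, h7 k, tau_congr k (a := c) (b := a1) fun j _ w hw => hc1 j w hw,
      tau_congr k (a := c) (b := a3) fun j _ w hw => k1 j w hw]

section

variable {P : PA L S} {q : Q L S} {e : Set P.Ω} {a : ℕ → P.A} {J : Type} {C : Set (Set J)}
  {hC : BAS C} {X : Set J}

theorem Crit.exists_nonempty {P : PA L S} {q : Q L S} {e : Set P.Ω} {a : ℕ → P.A}
    (D : HasSw L S) [Finite ι] [∀ i, Finite (S i)] (hc : Crit P q e a) :
    ∃ g : GG P e, g.1.Nonempty := by
  obtain ⟨g, h1, h2, h3, h4⟩ := hc.acc 0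
  refine ⟨⟨g, h1, h2, h3⟩, ?_⟩
  show g.Nonempty
  rw [nonempty_iff_ne_empty]
  intro h
  have h5 := (tau_zero_iff.1 h4).1 h
  apply hc.bad
  rw [h5]
  exact Good_empty D P

theorem cm_diff (D : HasSw L S) (ob : P.Ob q e a) (hne : ∃ g : GG P e, g.1.Nonempty)
    {g g' : Set (NX P q e a hC X).Ω} (hg : (NX P q e a hC X).Cl g) (hg' : (NX P q e a hC X).Cl g') :
    cm (g \ g') = cm g \ cm g' := by
  classical
  have h1 := (NX_cl_spec D ob hne hg).2.1
  have h2 := (NX_cl_spec D ob hne hg').2.1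
  have h3 : cm (g \ g') = (cm g \ cm g') ∩ X := by
    apply cm_eq_of hne
    refine (h1.union h2).subset ?_
    rintro u ⟨hu, hu'⟩
    by_contra hc
    rw [mem_union, not_or] at hc
    have e1 : sl (some u) g = std (cm g) u := by
      by_contra h
      exact hc.1 ⟨hu, h⟩
    have e2 : sl (some u) g' = std (cm g') u := by
      by_contra h
      exact hc.2 ⟨hu, h⟩
    apply hu'
    rw [sl_diff, e1, e2, std, std, std]
    by_cases h4 : u.1 ∈ cm g
    · by_cases h5 : u.1 ∈ cm g'
      · simp [h4, h5]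
      · simp [h4, h5]
    · simp [h4]
  rw [h3, inter_eq_left]
  exact sdiff_subset.trans (cm_subset g)

theorem cm_union (D : HasSw L S) (ob : P.Ob q e a) (hne : ∃ g : GG P e, g.1.Nonempty)
    {g g' : Set (NX P q e a hC X).Ω} (hg : (NX P q e a hC X).Cl g) (hg' : (NX P q e a hC X).Cl g') :
    cm (g ∪ g') = cm g ∪ cm g' := by
  classical
  have h1 := (NX_cl_spec D ob hne hg).2.1
  have h2 := (NX_cl_spec D ob hne hg').2.1
  have h3 : cm (g ∪ g') = (cm g ∪ cm g') ∩ X := by
    apply cm_eq_of hne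
    refine (h1.union h2).subset ?_
    rintro u ⟨hu, hu'⟩
    by_contra hc
    rw [mem_union, not_or] at hc
    have e1 : sl (some u) g = std (cm g) u := by
      by_contra h
      exact hc.1 ⟨hu, h⟩
    have e2 : sl (some u) g' = std (cm g') u := by
      by_contra h
      exact hc.2 ⟨hu, h⟩
    apply hu'
    rw [sl_union, e1, e2, std, std, std]
    by_cases h4 : u.1 ∈ cm g
    · by_cases h5 : u.1 ∈ cm g'
      · simp [h4, h5]
      · simp [h4, h5]
    · simp [h4]
  rw [h3, inter_eq_left]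
  exact union_subset (cm_subset g) (cm_subset g')

theorem cm_lft (hne : ∃ g : GG P e, g.1.Nonempty) (b : Option (J × GG P e × ℕ)) (g : Set P.Ω) :
    cm (lft (a := a) (hC := hC) (X := X) (q := q) b g) = ∅ := by
  classical
  have h : cm (lft (a := a) (hC := hC) (X := X) (q := q) b g) = ∅ ∩ X := by
    apply cm_eq_of hne
    refine Set.Finite.subset (s := {u : J × GG P e × ℕ | some u = b}) ?_ ?_
    · cases b with
      | none => simp
      | some u =>
        refine (Set.finite_singleton u).subset fun u' hu' => ?_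
        exact Option.some.inj hu'
    · rintro u ⟨_, hu⟩
      by_contra hc
      apply hu
      rw [sl_lft_ne hc, std, if_neg (Set.notMem_empty _)]
  rw [h, empty_inter]

/-- a block of each shape is contained in a large clopen set, even outside a finite set of blocks -/
theorem exists_full (D : HasSw L S) (ob : P.Ob q e a) (hne : ∃ g : GG P e, g.1.Nonempty)
    {g : Set (NX P q e a hC X).Ω} (hg : (NX P q e a hC X).Cl g) {j : J} (hj : j ∈ cm g)
    (g0 : GG P e) {F : Set (J × GG P e × ℕ)} (hF : F.Finite) :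
    ∃ l : ℕ, (j, g0, l) ∉ F ∧ sl (some (j, g0, l)) g = g0.1 := by
  classical
  have h1 := (NX_cl_spec D ob hne hg).2.1
  have h2 : (range fun l : ℕ => ((j, g0, l) : J × GG P e × ℕ)).Infinite :=
    Set.infinite_range_of_injective fun l l' hl => (Prod.ext_iff.1 (Prod.ext_iff.1 hl).2).2
  obtain ⟨_, ⟨l, rfl⟩, hl⟩ := (h2.sdiff (hF.union h1)).nonempty
  rw [mem_union, not_or] at hl
  refine ⟨l, hl.1, ?_⟩
  by_contra h
  apply hl.2
  refine ⟨hj.1, ?_⟩
  rw [std, if_pos hj]
  exact h

/-- small clopen parts of `N_X` have types of good subobjects of the critical object -/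
theorem NX_fin (D : HasSw L S) [Finite ι] [∀ i, Finite (S i)] (hc : Crit P q e a)
    {a' : ℕ → (NX P q e a hC X).A}
    (ha' : ∀ j < q.len, ∀ p : (NX P q e a hC X).Ω, p.1.1 ≠ none → (a' j).1 p = (a j).1 p.1.2)
    (q' : Q L S) (hlen : q.len ≤ q'.len) (F : Finset (J × GG P e × ℕ)) :
    ∀ (g : Set (NX P q e a hC X).Ω) (c' : ℕ → (NX P q e a hC X).A),
      (NX P q e a hC X).Ob q' g c' → (∀ p ∈ g, p.1.1 ≠ none) →
      (∀ j < q.len, ∀ p ∈ g, (c' j).1 p = (a' j).1 p) →
      (∀ u, (sl (some u) g).Nonempty → u ∈ F) →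
      ∃ z c, P.Sub q e a q' z c ∧ P.Good z ∧
        ∀ k, (NX P q e a hC X).tau k q' g c' = P.tau k q' z c := by
  classical
  have hne := hc.exists_nonempty D
  induction F using Finset.induction_on with
  | empty =>
    intro g c' _ hsome _ hF
    have hg : g = ∅ := by
      apply ext_sl
      intro b
      have h0 : sl b (∅ : Set (NX P q e a hC X).Ω) = ∅ := by
        refine eq_empty_of_forall_notMem ?_
        rintro w ⟨p, hp, _⟩
        exact hp
      rw [h0]
      cases b with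
      | none =>
        refine eq_empty_of_forall_notMem ?_
        rintro w ⟨p, hp, hpe⟩
        exact hsome p hp (congrArg Prod.fst hpe)
      | some u =>
        rw [← not_nonempty_iff_eq_empty]
        intro h
        simpa using hF u h
    subst hg
    exact ⟨∅, a, ⟨Ob_empty D P q' a, empty_subset _, hlen, fun _ _ _ _ => rfl⟩, Good_empty D P,
      fun k => tau_empty D k q' c' a⟩
  | insert u F hu ih =>
    intro g c' hob hsome hag hF
    by_cases hb : okb X (some u)
    · obtain ⟨g1, hg1⟩ : ∃ g1, g1 = lft (a := a) (hC := hC) (X := X) (q := q) (some u) (sl (some u) g) :=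
        ⟨_, rfl⟩
      have cls := (NX_cl_spec D hc.ob hne hob.1).2.2 (some u)
      have cg1 : (NX P q e a hC X).Cl g1 := by
        rw [hg1]
        exact lft_cl D hb cls (sl_subset _ _)
      have sg1 : g1 ⊆ g := by
        rw [hg1]
        rintro p ⟨h1, p', hp', h2⟩
        have h3 : p' = p := Subtype.ext (h2.trans (Prod.ext h1.symm rfl))
        rwa [h3] at hp'
      have ob1 := PA.Ob.mono hob cg1 sg1
      have ob2 := PA.Ob.mono hob (cl_diff D _ hob.1 cg1) (sdiff_subset (t := g1))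
      have hb1 : ∀ p ∈ g1, p.1.1 = some u := by
        intro p hp
        rw [hg1] at hp
        exact hp.1
      have hsl1 : sl (some u) g1 = sl (some u) g := by
        rw [hg1, sl_lft hb (sl_subset _ _)]
      obtain ⟨c1, hc1, hc2⟩ := Ob_down D hc.ob hne ob1 hb1
      have gu : P.Good u.2.1.1 := u.2.1.2.2.2
      have su : (u.2.1.1 : Set P.Ω) ⊆ e := u.2.1.2.2.1
      have ss : sl (some u) g1 ⊆ u.2.1.1 := sl_subset (some u) g1
      have sub1 : P.Sub q e a q' (sl (some u) g1) c1 := by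
        refine ⟨hc1, ss.trans su, hlen, ?_⟩
        rintro j hj w ⟨p, hp, hpe⟩
        have h2 := hc2 j p hp
        have h3 := hag j hj p (sg1 hp)
        have h4 := ha' j hj p (hsome p (sg1 hp))
        obtain ⟨⟨b', w'⟩, h5, h6⟩ := p
        obtain ⟨rfl, rfl⟩ : b' = some u ∧ w' = w := ⟨congrArg Prod.fst hpe, congrArg Prod.snd hpe⟩
        exact h2.symm.trans (h3.trans h4)
      have tau1 : ∀ k, (NX P q e a hC X).tau k q' g1 c' = P.tau k q' (sl (some u) g1) c1 := by
        intro k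
        have h5 := NX_loc D hc.ob hne hb k q' (sl (some u) g1) c1 c' hc1 (sl_subset _ _)
          (fun j _ p hp => hc2 j p (by rw [← lft_sl hb1]; exact hp))
        rwa [lft_sl hb1] at h5
      obtain ⟨z2, c2, sub2, gz2, tau2⟩ := ih (g \ g1) c' ob2 (fun p hp => hsome p hp.1)
        (fun j hj p hp => hag j hj p hp.1) (by
          intro u' hu'
          rcases Finset.mem_insert.1 (hF u' (hu'.mono (sl_mono _ sdiff_subset))) with h | h
          · exfalso
            subst h
            rw [sl_diff, hsl1, sdiff_self] at hu'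
            exact Set.not_nonempty_empty hu'
          · exact h)
      obtain ⟨z, c, h1, h2, h3⟩ := crit_sum D hc sub1 (Good_mono gu ss) sub2 gz2
      refine ⟨z, c, h1, h2, fun k => ?_⟩
      rw [h3 k, ← tau1 k, ← tau2 k]
      have h4 := tau_add D k ob1 ob2 disjoint_sdiff_right
      rwa [union_sdiff_cancel sg1] at h4
    · refine ih g c' hob hsome hag fun u' hu' => ?_
      rcases Finset.mem_insert.1 (hF u' hu') with h | h
      · exfalso
        subst h
        rw [sl_eq_empty hb] at hu'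
        exact Set.not_nonempty_empty hu'
      · exact h

theorem NX_fin' (D : HasSw L S) [Finite ι] [∀ i, Finite (S i)] (hc : Crit P q e a)
    {a' : ℕ → (NX P q e a hC X).A}
    (ha' : ∀ j < q.len, ∀ p : (NX P q e a hC X).Ω, p.1.1 ≠ none → (a' j).1 p = (a j).1 p.1.2)
    (q' : Q L S) (hlen : q.len ≤ q'.len) (g : Set (NX P q e a hC X).Ω)
    (c' : ℕ → (NX P q e a hC X).A) (hob : (NX P q e a hC X).Ob q' g c')
    (hsome : ∀ p ∈ g, p.1.1 ≠ none) (hag : ∀ j < q.len, ∀ p ∈ g, (c' j).1 p = (a' j).1 p)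
    (hcm : cm g = ∅) :
      ∃ z c, P.Sub q e a q' z c ∧ P.Good z ∧
        ∀ k, (NX P q e a hC X).tau k q' g c' = P.tau k q' z c := by
  classical
  have h1 := (NX_cl_spec D hc.ob (hc.exists_nonempty D) hob.1).2.1
  refine NX_fin D hc ha' q' hlen h1.toFinset g c' hob hsome hag fun u hu => ?_
  rw [Set.Finite.mem_toFinset]
  refine ⟨?_, fun h => ?_⟩
  · by_contra hX
    rw [sl_eq_empty (fun h => hX (h u rfl))] at hu
    exact Set.not_nonempty_empty hu
  · rw [h, hcm, std, if_neg (Set.notMem_empty _)] at hu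
    exact Set.not_nonempty_empty hu

end

end VCD
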