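import Pool.Agent.VCD.NXd

/-!
# VCD-NXe: the type of the large part of `N_X` is the critical type; good clopen sets of `N_X`
-/

open Set FirstOrder

namespace VCD

variable {L : FirstOrder.Language.{0, 0}} {ι : Type} {S : ι → Type} [∀ i, L.Structure (S i)]
  {P : PA L S} {q : Q L S} {e : Set P.Ω} {a : ℕ → P.A} {J : Type} {C : Set (Set J)}
  {hC : BAS C} {X : Set J}

/-- the tuple `a` on all blocks below `e` -/
theorem exists_bar (D : HasSw L S) : ∃ a' : ℕ → (NX P q e a hC X).A,
    ∀ j < q.len, ∀ p : (NX P q e a hC X).Ω, (a' j).1 p = (a j).1 p.1.2 := by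
  obtain ⟨x0⟩ := nonempty_el D (NX P q e a hC X)
  have h : ∀ j : ℕ, ∃ x : (NX P q e a hC X).A, j < q.len →
      ∀ p : (NX P q e a hC X).Ω, x.1 p = (a j).1 p.1.2 := by
    intro j
    by_cases hj : j < q.len
    · refine ⟨nxel (fun _ => a j) (HH_mk (fun _ => a j) (Simple.const hC _) (fun _ =>
        ⟨FirstOrder.Language.Term.var ⟨j, hj⟩, rfl⟩) _ (by simp)), fun _ p => rfl⟩
    · exact ⟨x0, fun h => (hj h).elim⟩
  choose a' ha' using h
  exact ⟨a', ha'⟩

theorem blk_some (u : J × GG P e × ℕ) : blk P e (some u) ⊆ e := u.2.1.2.2.1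

theorem Ob_bar {a' : ℕ → (NX P q e a hC X).A} (ob : P.Ob q e a)
    (ha' : ∀ j < q.len, ∀ p : (NX P q e a hC X).Ω, (a' j).1 p = (a j).1 p.1.2)
    {g : Set (NX P q e a hC X).Ω} (hg : (NX P q e a hC X).Cl g) (hsome : ∀ p ∈ g, p.1.1 ≠ none) :
    (NX P q e a hC X).Ob q g a' := by
  refine ⟨hg, fun p hp => ?_⟩
  refine (ker_congr fun j hj => ha' j hj p).trans (ob.2 p.1.2 ?_)
  obtain ⟨⟨b, w⟩, h1, h2⟩ := p
  cases b with
  | none => exact (hsome _ hp rfl).elim
  | some u => exact blk_some u h1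

/-- an object over a large clopen set which extends `a'` has class `q` -/
private theorem large_class (D : HasSw L S) [Finite ι] [∀ i, Finite (S i)] (hc : Crit P q e a)
    {a' : ℕ → (NX P q e a hC X).A}
    (ha' : ∀ j < q.len, ∀ p : (NX P q e a hC X).Ω, (a' j).1 p = (a j).1 p.1.2) {q' : Q L S}
    (hlen : q.len ≤ q'.len) {g : Set (NX P q e a hC X).Ω} {c' : ℕ → (NX P q e a hC X).A}
    (hob : (NX P q e a hC X).Ob q' g c')
    (hag : ∀ j < q.len, ∀ p ∈ g, (c' j).1 p = (a' j).1 p) {j : J} (hj : j ∈ cm g) : q' = q := by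
  obtain ⟨g0, hg0⟩ := hc.exists_nonempty D
  obtain ⟨h, ⟨σ, hσ1, hσ2, hσ3⟩, hh⟩ := nx_rep (c' q.len)
  obtain ⟨l, hl1, hl2⟩ := exists_full D hc.ob ⟨g0, hg0⟩ hob.1 hj g0 hσ3
  obtain ⟨w, hw⟩ := hg0
  have hb : okb X (some (j, g0, l)) := by
    intro u hu
    rw [← Option.some.inj hu]
    exact hj.1
  obtain ⟨p, hp, hp1, hp2⟩ : ∃ p ∈ g, p.1.1 = some (j, g0, l) ∧ p.1.2 ∈ g0.1 := by
    refine ⟨npt (b := some (j, g0, l)) hw hb, ?_, rfl, hw⟩
    rw [← mem_sl, hl2]
    exact hw
  have hval : ∀ i < q.len, (c' i).1 p = (a i).1 p.1.2 := by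
    intro i hi
    rw [hag i hi p hp, ha' i hi p]
  have hlen' : q'.len = q.len := by
    by_contra hne
    have hlt : q.len < q'.len := lt_of_le_of_ne hlen fun h => hne h.symm
    obtain ⟨s, hs⟩ := hσ2 j
    apply q'.irred ⟨q.len, hlt⟩ s
    rw [← hob.2 p hp, mem_ker, FirstOrder.Language.Term.realize_relabel]
    have h1 : (c' q.len).1 p = (σ j).1 p.1.2 := by
      rw [hh, nxel_val, hp1]
      have h2 : h (some (j, g0, l)) = σ j := by
        by_contra h3
        exact hl1 h3
      rw [h2]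
    have h4 : s.realize ((fun i : Fin q'.len => (c' i).1 p) ∘ Fin.castLE hlt.le) =
        s.realize (fun i : Fin q.len => (a i).1 p.1.2) := by
      congr 1
      funext i
      exact hval i i.2
    show _ = (c' q.len).1 p
    rw [h1, hs, realize_val]
    exact h4
  refine Q_eq q' q hlen' (fun i => (c' i).1 p) (hob.2 p hp) ?_
  refine (ker_congr fun i hi => ?_).trans (hc.ob.2 p.1.2 (g0.2.2.1 hp2))
  exact hval i hi

theorem NX_tau (D : HasSw L S) [Finite ι] [∀ i, Finite (S i)] (hc : Crit P q e a)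
    {a' : ℕ → (NX P q e a hC X).A}
    (ha' : ∀ j < q.len, ∀ p : (NX P q e a hC X).Ω, (a' j).1 p = (a j).1 p.1.2) :
    ∀ (k : ℕ) (g : Set (NX P q e a hC X).Ω), (NX P q e a hC X).Cl g → (∀ p ∈ g, p.1.1 ≠ none) →
      (cm g).Nonempty → (NX P q e a hC X).tau k q g a' = P.tau k q e a := by
  classical
  have hne := hc.exists_nonempty D
  have hbarsome : ∀ j < q.len, ∀ p : (NX P q e a hC X).Ω, p.1.1 ≠ none →
      (a' j).1 p = (a j).1 p.1.2 := fun j hj p _ => ha' j hj p
  intro k
  induction k with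
  | zero =>
    intro g hg _ hcm
    rw [tau_zero_iff]
    obtain ⟨j, hj⟩ := hcm
    obtain ⟨g0, w, hw⟩ := hne
    obtain ⟨l, _, hl⟩ := exists_full D hc.ob ⟨g0, w, hw⟩ hg hj g0 Set.finite_empty
    constructor
    · intro h
      exfalso
      have h1 : w ∈ sl (some (j, g0, l)) g := by
        rw [hl]
        exact hw
      obtain ⟨p, hp, _⟩ := h1
      rw [h] at hp
      exact hp
    · intro h
      exfalso
      have h1 : w ∈ e := g0.2.2.1 hw
      rw [h] at h1
      exact h1
  | succ k ih =>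
    intro g hg hsome hcm
    have obg := Ob_bar hc.ob ha' hg hsome
    -- the remainder of a small set is large
    have rest : ∀ g2, (NX P q e a hC X).Cl g2 → cm g2 = ∅ →
        (NX P q e a hC X).tau k q (g \ g2) a' = P.tau k q e a := by
      intro g2 cg2 h2
      refine ih (g \ g2) (cl_diff D _ hg cg2) (fun p hp => hsome p hp.1) ?_
      rw [cm_diff D hc.ob hne hg cg2, h2, sdiff_empty]
      exact hcm
    -- the critical object contains two parts of critical type
    have both : (q, P.tau k q e a, P.tau k q e a) ∈ (P.tau (k + 1) q e a).s := by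
      obtain ⟨z, cz, sz, gz, tz⟩ := hc.acc k
      have h1 := tau_mem k (Sub_of_subset hc.ob cz sz)
      rw [tz, hc.rest_tau D cz sz gz k] at h1
      exact h1
    apply Set.ext
    rintro ⟨q', x, y⟩
    constructor
    · rintro ⟨g2, c', hsub, hx, hy⟩
      have hx' : x = (NX P q e a hC X).tau k q' g2 c' := hx
      have hy' : y = (NX P q e a hC X).tau k q (g \ g2) a' := hy
      have hlen : q.len ≤ q'.len := hsub.2.2.1
      have hsome2 : ∀ p ∈ g2, p.1.1 ≠ none := fun p hp => hsome p (hsub.2.1 hp)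
      rcases (cm g2).eq_empty_or_nonempty with h2 | ⟨j, hj⟩
      · obtain ⟨z, c, hz1, hz2, hz3⟩ := NX_fin' D hc hbarsome q' hlen g2 c' hsub.1 hsome2
          hsub.2.2.2 h2
        rw [hx', hy', rest g2 hsub.1.1 h2, hz3 k, ← hc.rest_tau D hz1.1.1 hz1.2.1 hz2 k]
        exact tau_mem k hz1
      · have hqq : q' = q := large_class D hc ha' hlen hsub.1 hsub.2.2.2 hj
        subst hqq
        have h3 : (NX P q' e a hC X).tau k q' g2 c' = P.tau k q' e a := by
          rw [tau_congr k (b := a') hsub.2.2.2]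
          exact ih g2 hsub.1.1 hsome2 ⟨j, hj⟩
        rw [hx', hy', h3]
        rcases (cm (g \ g2)).eq_empty_or_nonempty with h4 | h4
        · have cgd := cl_diff D _ hg hsub.1.1
          obtain ⟨z, c, hz1, hz2, hz3⟩ := NX_fin' D hc hbarsome q' le_rfl (g \ g2) a'
            (Ob_bar hc.ob ha' cgd fun p hp => hsome p hp.1) (fun p hp => hsome p hp.1)
            (fun _ _ _ _ => rfl) h4
          have hz4 : P.tau k q' z c = P.tau k q' z a := tau_congr k hz1.2.2.2
          rw [hz3 k, hz4, ← hc.rest_tau D hz1.1.1 hz1.2.1 hz2 k]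
          have h5 := tau_mem k (Sub_of_subset hc.ob (cl_diff D P hc.ob.1 hz1.1.1)
            (sdiff_subset (s := e) (t := z)))
          rw [sdiff_sdiff_cancel_left hz1.2.1] at h5
          exact h5
        · rw [ih (g \ g2) (cl_diff D _ hg hsub.1.1) (fun p hp => hsome p hp.1) h4]
          exact both
    · rintro ⟨z, c, hsub, hx, hy⟩
      have hx' : x = P.tau k q' z c := hx
      have hy' : y = P.tau k q (e \ z) a := hy
      obtain ⟨j, hj⟩ := hcm
      -- a copy of a good object
      have copy : ∀ (q' : Q L S) (z : Set P.Ω) (c : ℕ → P.A), P.Sub q e a q' z c → P.Good z →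
          ∃ g2 c', (NX P q e a hC X).Sub q g a' q' g2 c' ∧ cm g2 = ∅ ∧
            (NX P q e a hC X).tau k q' g2 c' = P.tau k q' z c ∧
            (∀ p ∈ g2, p.1.1 ≠ none) := by
        intro q' z c hsub hgz
        obtain ⟨l, _, hl⟩ := exists_full D hc.ob hne hg hj ⟨z, hsub.1.1, hsub.2.1, hgz⟩
          Set.finite_empty
        have hb : okb X (some (j, (⟨z, hsub.1.1, hsub.2.1, hgz⟩ : GG P e), l)) := by
          intro u hu
          rw [← Option.some.inj hu]
          exact hj.1
        have hsz : z ⊆ blk P e (some (j, (⟨z, hsub.1.1, hsub.2.1, hgz⟩ : GG P e), l)) := Subset.rfl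
        choose c' hc' using fun i => exists_lift (q := q) (a := a) (hC := hC) (X := X) D
          (some (j, (⟨z, hsub.1.1, hsub.2.1, hgz⟩ : GG P e), l)) (c i)
        refine ⟨lft (some (j, (⟨z, hsub.1.1, hsub.2.1, hgz⟩ : GG P e), l)) z, c',
          ⟨Ob_up D hb hsub.1 hsz fun i _ p hp => hc' i p hp.1, ?_, hsub.2.2.1, ?_⟩,
          cm_lft hne _ _, NX_loc D hc.ob hne hb k q' z c c' hsub.1 hsz
            fun i _ p hp => hc' i p hp.1, ?_⟩
        · rintro p ⟨hp1, hp2⟩
          rw [mem_iff_sl, hp1, hl]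
          exact hp2
        · intro i hi p hp
          rw [hc' i p hp.1, ha' i hi p]
          exact hsub.2.2.2 i hi p.1.2 hp.2
        · intro p hp h
          rw [hp.1] at h
          cases h
      by_cases hgz : P.Good z
      · obtain ⟨g2, c', h1, h2, h3, _⟩ := copy q' z c hsub hgz
        rw [hx', hy', ← h3, hc.rest_tau D hsub.1.1 hsub.2.1 hgz k, ← rest g2 h1.1.1 h2]
        exact tau_mem k h1
      · have hqq : q' = q := by
          have hl : q'.len = q.len := by
            by_contra hne'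
            exact hgz (hc.long q' z c hsub (lt_of_le_of_ne hsub.2.2.1 fun h => hne' h.symm))
          obtain ⟨w, hw⟩ : z.Nonempty := by
            rw [nonempty_iff_ne_empty]
            intro h
            apply hgz
            rw [h]
            exact Good_empty D P
          refine Q_eq q' q hl (fun i => (c i).1 w) (hsub.1.2 w hw) ?_
          refine (ker_congr fun i hi => ?_).trans (hc.ob.2 w (hsub.2.1 hw))
          exact hsub.2.2.2 i hi w hw
        subst hqq
        have h3 : P.tau k q' z c = P.tau k q' e a := by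
          rw [tau_congr k (b := a) hsub.2.2.2]
          exact hc.min z hsub.1.1 hsub.2.1 hgz k
        rw [hx', hy', h3]
        have cez : P.Cl (e \ z) := cl_diff D P hc.ob.1 hsub.1.1
        by_cases hgr : P.Good (e \ z)
        · obtain ⟨g2, c', h1, h2, h4, h5⟩ := copy q' (e \ z) a (Sub_of_subset hc.ob cez sdiff_subset) hgr
          have h6 : (NX P q' e a hC X).tau k q' g2 c' = (NX P q' e a hC X).tau k q' g2 a' :=
            tau_congr k h1.2.2.2
          rw [← h4, h6, ← rest g2 h1.1.1 h2]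
          have h7 := tau_mem k (Sub_of_subset obg (cl_diff D _ hg h1.1.1)
            (sdiff_subset (s := g) (t := g2)))
          rw [sdiff_sdiff_cancel_left h1.2.1] at h7
          exact h7
        · rw [hc.min _ cez sdiff_subset hgr k]
          obtain ⟨z1, cz1, sz1, gz1, tz1⟩ := hc.acc k
          obtain ⟨g2, c', h1, h2, h4, h5⟩ := copy q' z1 a (Sub_of_subset hc.ob cz1 sz1) gz1
          have h7 := tau_mem k h1
          rw [h4, tz1, rest g2 h1.1.1 h2] at h7
          exact h7

end VCD
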