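import Pool.Agent.VCD.NXe
import Pool.Agent.VCD.Root

/-!
# VCD-NXf: good clopen sets of `N_X`; `N_X` is elementarily equivalent to the given algebra
-/

open Set FirstOrder

namespace VCD

variable {L : FirstOrder.Language.{0, 0}} {ι : Type} {S : ι → Type} [∀ i, L.Structure (S i)]
  {P : PA L S} {q : Q L S} {e : Set P.Ω} {a : ℕ → P.A} {J : Type} {C : Set (Set J)}
  {hC : BAS C} {X : Set J}

theorem NX_good (D : HasSw L S) [Finite ι] [∀ i, Finite (S i)] (hc : Crit P q e a)
    {g : Set (NX P q e a hC X).Ω} (hg : (NX P q e a hC X).Cl g) (hsome : ∀ p ∈ g, p.1.1 ≠ none) :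
    (NX P q e a hC X).Good g ↔ cm g = ∅ := by
  classical
  have hne := hc.exists_nonempty D
  constructor
  · intro hgood
    rw [← not_nonempty_iff_eq_empty]
    intro hcm
    obtain ⟨a', ha'⟩ := exists_bar (P := P) (q := q) (e := e) (a := a) (hC := hC) (X := X) D
    obtain ⟨k, hk⟩ := Good_tau D (Ob_bar hc.ob ha' hg hsome) hgood
    have h1 := hk P e a hc.ob (NX_tau D hc ha' k g hg hsome hcm)
    exact hc.bad (Good_of_V h1.1 hgood)
  · intro hcm
    have main : ∀ (F : Finset (J × GG P e × ℕ)) (g : Set (NX P q e a hC X).Ω),
        (NX P q e a hC X).Cl g → (∀ p ∈ g, p.1.1 ≠ none) →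
        (∀ u, (sl (some u) g).Nonempty → u ∈ F) → (NX P q e a hC X).Good g := by
      intro F
      induction F using Finset.induction_on with
      | empty =>
        intro g _ hsome hF
        have hg : g = ∅ := by
          refine eq_empty_of_forall_notMem fun p hp => ?_
          obtain ⟨⟨b, w⟩, h1, h2⟩ := p
          cases b with
          | none => exact hsome _ hp rfl
          | some u => simpa using hF u ⟨w, _, hp, rfl⟩
        rw [hg]
        exact Good_empty D _
      | insert u F hu ih =>
        intro g hg hsome hF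
        by_cases hb : okb X (some u)
        · obtain ⟨g1, hg1⟩ : ∃ g1, g1 = lft (a := a) (hC := hC) (X := X) (q := q) (some u)
              (sl (some u) g) := ⟨_, rfl⟩
          have cls := (NX_cl_spec D hc.ob hne hg).2.2 (some u)
          have cg1 : (NX P q e a hC X).Cl g1 := by
            rw [hg1]
            exact lft_cl D hb cls (sl_subset _ _)
          have sg1 : g1 ⊆ g := by
            rw [hg1]
            rintro p ⟨h1, p', hp', h2⟩
            have h3 : p' = p := Subtype.ext (h2.trans (Prod.ext h1.symm rfl))
            rwa [h3] at hp'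
          have hsl1 : sl (some u) g1 = sl (some u) g := by
            rw [hg1, sl_lft hb (sl_subset _ _)]
          have gu : P.Good u.2.1.1 := u.2.1.2.2.2
          have ss : sl (some u) g ⊆ u.2.1.1 := sl_subset (some u) g
          have good1 : (NX P q e a hC X).Good g1 := by
            rw [hg1]
            exact Good_of_V (NX_V D hc.ob hne hb (sl_subset _ _)) (Good_mono gu ss)
          have good2 : (NX P q e a hC X).Good (g \ g1) := by
            refine ih (g \ g1) (cl_diff D _ hg cg1) (fun p hp => hsome p hp.1) fun u' hu' => ?_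
            rcases Finset.mem_insert.1 (hF u' (hu'.mono (sl_mono _ sdiff_subset))) with h | h
            · exfalso
              subst h
              rw [sl_diff, hsl1, sdiff_self] at hu'
              exact Set.not_nonempty_empty hu'
            · exact h
          have h1 := Good_union D cg1 good1 good2
          rwa [union_sdiff_cancel sg1] at h1
        · refine ih g hg hsome fun u' hu' => ?_
          rcases Finset.mem_insert.1 (hF u' hu') with h | h
          · exfalso
            subst h
            rw [sl_eq_empty hb] at hu'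
            exact Set.not_nonempty_empty hu'
          · exact h
    have h1 := (NX_cl_spec D hc.ob hne hg).2.1
    refine main h1.toFinset g hg hsome fun u hu => ?_
    rw [Set.Finite.mem_toFinset]
    refine ⟨?_, fun h => ?_⟩
    · by_contra hX
      rw [sl_eq_empty (fun h => hX (h u rfl))] at hu
      exact Set.not_nonempty_empty hu
    · rw [h, hcm, std, if_neg (Set.notMem_empty _)] at hu
      exact Set.not_nonempty_empty hu

/-- the union of all blocks below `e` -/
def big (P : PA L S) (q : Q L S) (e : Set P.Ω) (a : ℕ → P.A) {J : Type} {C : Set (Set J)}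
    (hC : BAS C) (X : Set J) : Set (NX P q e a hC X).Ω := {p | p.1.1 ≠ none}

theorem okb_none : okb (P := P) (e := e) X none := fun _ h => by cases h

theorem big_eq : big P q e a hC X = univ \ lft none eᶜ := by
  ext p
  constructor
  · intro h
    exact ⟨mem_univ _, fun h' => h h'.1⟩
  · rintro ⟨_, h⟩ h'
    refine h ⟨h', ?_⟩
    have h1 := p.2.1
    rw [h'] at h1
    exact h1

theorem big_cl (D : HasSw L S) (ob : P.Ob q e a) : (NX P q e a hC X).Cl (big P q e a hC X) := by
  rw [big_eq]
  exact cl_diff D _ (cl_univ D _) (lft_cl D okb_none (cl_compl D P ob.1) Subset.rfl)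

theorem cm_big (hne : ∃ g : GG P e, g.1.Nonempty) : cm (big P q e a hC X) = X := by
  classical
  have h : cm (big P q e a hC X) = univ ∩ X := by
    apply cm_eq_of hne
    refine Set.finite_empty.subset ?_
    rintro u ⟨hu, hu'⟩
    apply hu'
    rw [std, if_pos (mem_univ _)]
    apply Subset.antisymm (sl_subset _ _)
    intro w hw
    have hb : okb X (some u) := by
      intro u' hu''
      rw [← Option.some.inj hu'']
      exact hu
    refine (mem_sl (b := some u) hw hb).2 ?_
    intro h
    cases h
  rw [h, univ_inter]

theorem NX_ER (D : HasSw L S) [Finite ι] [∀ i, Finite (S i)] (hc : Crit P q e a)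
    (hX : X.Nonempty) (k : ℕ) (c : ℕ → P.A) (d : ℕ → (NX P q e a hC X).A) :
    ER k 0 P (NX P q e a hC X) c d univ univ := by
  have hne := hc.exists_nonempty D
  obtain ⟨a', ha'⟩ := exists_bar (P := P) (q := q) (e := e) (a := a) (hC := hC) (X := X) D
  have hbig := big_cl (P := P) (q := q) (e := e) (a := a) (hC := hC) (X := X) D hc.ob
  have h1 : ER k 0 P (NX P q e a hC X) c d e (big P q e a hC X) := by
    have h2 := ER.of_tau D (k := k) q hc.ob (Ob_bar hc.ob ha' hbig fun p hp => hp)
      (NX_tau D hc ha' k _ hbig (fun p hp => hp) (by rw [cm_big hne]; exact hX)).symm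
    exact (h2.mono D le_rfl (Nat.zero_le _)).congr (fun j hj => absurd hj (Nat.not_lt_zero j))
      fun j hj => absurd hj (Nat.not_lt_zero j)
  have hce : P.Cl eᶜ := cl_compl D P hc.ob.1
  have h2 : ER k 0 P (NX P q e a hC X) c d eᶜ (lft none eᶜ) := by
    refine ER_root D c d hce (lft_cl D okb_none hce Subset.rfl) c d fun q0 hq0 => ?_
    have e1 : (lft none eᶜ ∩ {p : (NX P q e a hC X).Ω | ker L q0.len (fun j => (d j).1 p) = q0.ker}) =
        lft none (eᶜ ∩ {w | ker L q0.len (fun j => (c j).1 w) = q0.ker}) := by
      ext p
      have h3 : ker L q0.len (fun j => (d j).1 p) = ker L q0.len (fun j => (c j).1 p.1.2) :=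
        ker_congr fun j hj => by omega
      constructor
      · rintro ⟨⟨h4, h5⟩, h6⟩
        exact ⟨h4, h5, h3.symm.trans h6⟩
      · rintro ⟨h4, h5, h6⟩
        exact ⟨⟨h4, h5⟩, h3.trans h6⟩
    rw [e1]
    refine (NX_loc D hc.ob hne okb_none k q0 _ c d ⟨cl_inter D P hce (cl_ker D P _ _ _),
      fun w hw => hw.2⟩ inter_subset_left fun j hj => by omega).symm
  have h3 := h1.union h2 (Set.disjoint_left.2 fun w hw hw' => hw' hw)
    (Set.disjoint_left.2 fun p hp hp' => hp hp'.1)
  have e1 : big P q e a hC X ∪ lft none eᶜ = univ := by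
    rw [big_eq, sdiff_union_self, univ_union]
  rwa [union_compl_self, e1] at h3

end VCD
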