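import Pool.Agent.VCD.NXf
import Pool.Agent.VCD.CX

/-!
# VCD-PN: the invariants of the algebras `N_x`
-/

open Set FirstOrder

namespace VCD

variable {L : FirstOrder.Language.{0, 0}} {ι : Type} {S : ι → Type} [∀ i, L.Structure (S i)]

theorem Cl_RS (D : HasSw L S) (P : PA L S) : RS {g | P.Cl g} where
  empty := cl_empty D P
  union _ ha _ hb := cl_union D P ha hb
  diff _ ha _ hb := cl_diff D P ha hb

variable {P : PA L S} {q : Q L S} {e : Set P.Ω} {a : ℕ → P.A}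

theorem sl_empty {J : Type} {C : Set (Set J)} {hC : BAS C} {X : Set J}
    (b : Option (J × GG P e × ℕ)) : sl b (∅ : Set (NX P q e a hC X).Ω) = ∅ := by
  refine eq_empty_of_forall_notMem ?_
  rintro w ⟨p, hp, _⟩
  exact hp

theorem cm_PM (D : HasSw L S) [Finite ι] [∀ i, Finite (S i)] (hc : Crit P q e a) (x : ℕ → Bool) :
    PM (Bel {g | (NX P q e a Cinf_BAS (XX x)).Cl g} (big P q e a Cinf_BAS (XX x))) (BX x) cm := by
  classical
  have hne := hc.exists_nonempty D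
  refine ⟨?_, ?_, ?_, ?_⟩
  · rintro g ⟨hg, _⟩
    obtain ⟨⟨Y, hY, h1⟩, _⟩ := NX_cl_spec D hc.ob hne hg
    exact ⟨Y, hY, h1⟩
  · rintro g ⟨hg, _⟩ g' ⟨hg', _⟩
    exact cm_union D hc.ob hne hg hg'
  · rintro g ⟨hg, _⟩ g' ⟨hg', _⟩
    exact cm_diff D hc.ob hne hg hg'
  · rintro g ⟨hg, hgb⟩ _ ⟨Y, hY, rfl⟩ hsub
    obtain ⟨_, hfin, hcl⟩ := NX_cl_spec D hc.ob hne hg
    obtain ⟨g', hg'⟩ : ∃ g' : Set (NX P q e a Cinf_BAS (XX x)).Ω,
        g' = {p | p ∈ g ∧ ∀ u, p.1.1 = some u → u.1 ∈ Y} := ⟨_, rfl⟩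
    have hsl : ∀ u, sl (some u) g' = if u.1 ∈ Y then sl (some u) g else ∅ := by
      intro u
      by_cases hu : u.1 ∈ Y
      · rw [if_pos hu, hg']
        ext w
        constructor
        · rintro ⟨p, hp, hpe⟩
          exact ⟨p, hp.1, hpe⟩
        · rintro ⟨p, hp, hpe⟩
          refine ⟨p, ⟨hp, fun u' hu' => ?_⟩, hpe⟩
          rw [hpe] at hu'
          rw [← Option.some.inj hu']
          exact hu
      · rw [if_neg hu, hg']
        refine eq_empty_of_forall_notMem ?_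
        rintro w ⟨p, hp, hpe⟩
        exact hu (hp.2 u (congrArg Prod.fst hpe))
    have hsn : sl none g' = ∅ := by
      refine eq_empty_of_forall_notMem ?_
      rintro w ⟨p, hp, hpe⟩
      rw [hg'] at hp
      exact hgb hp.1 (congrArg Prod.fst hpe)
    have hfin' : {u : JJ × GG P e × ℕ | u.1 ∈ XX x ∧ sl (some u) g' ≠ std Y u}.Finite := by
      refine hfin.subset ?_
      rintro u ⟨hu, hu'⟩
      refine ⟨hu, fun h1 => hu' ?_⟩
      rw [hsl, h1, std, std]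
      by_cases hY' : u.1 ∈ Y
      · have : u.1 ∈ cm g := hsub ⟨hY', hu⟩
        simp [hY', this]
      · simp [hY']
    refine ⟨g', ⟨NX_cl_mk D hY hfin' fun b => ?_, fun p hp => hgb ?_⟩, ?_, cm_eq_of hne hfin'⟩
    · cases b with
      | none =>
        rw [hsn]
        exact cl_empty D P
      | some u =>
        rw [hsl]
        split_ifs
        · exact hcl (some u)
        · exact cl_empty D P
    · rw [hg'] at hp
      exact hp.1
    · rw [hg']
      exact fun p hp => hp.1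

theorem lft_PM (D : HasSw L S) [Finite ι] [∀ i, Finite (S i)] (hc : Crit P q e a) (x : ℕ → Bool) :
    PM {z | P.Cl z ∧ z ⊆ eᶜ} {g | (NX P q e a Cinf_BAS (XX x)).Cl g} (lft none) := by
  have hne := hc.exists_nonempty D
  refine ⟨?_, ?_, ?_, ?_⟩
  · rintro z ⟨hz, sz⟩
    exact lft_cl D okb_none hz sz
  · intro z _ z' _
    ext p
    constructor
    · rintro ⟨h1, h2 | h2⟩
      · exact Or.inl ⟨h1, h2⟩
      · exact Or.inr ⟨h1, h2⟩
    · rintro (⟨h1, h2⟩ | ⟨h1, h2⟩)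
      · exact ⟨h1, Or.inl h2⟩
      · exact ⟨h1, Or.inr h2⟩
  · intro z _ z' _
    exact lft_diff _ _ _
  · rintro z ⟨hz, sz⟩ g hg hsub
    refine ⟨sl none g, ⟨(NX_cl_spec D hc.ob hne hg).2.2 none, sl_subset none g⟩,
      sl_subset_of hsub, lft_sl fun p hp => (hsub hp).1⟩

theorem PN_pp (D : HasSw L S) [Finite ι] [∀ i, Finite (S i)] (hc : Crit P q e a) (x : ℕ → Bool)
    {g : Set (NX P q e a Cinf_BAS (XX x)).Ω} (hg : (NX P q e a Cinf_BAS (XX x)).Cl g) {Y : Set JJ}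
    (hY : Y ∈ Cinf) (hcm : cm g = Y ∩ XX x) (m : ℕ) :
    PP {g | (NX P q e a Cinf_BAS (XX x)).Cl g} (NX P q e a Cinf_BAS (XX x)).Good m g ↔
      (x m = true ∧ ∃ l, PP (CR (m + 1)) (fun v => v = ∅) m (sc m l Y)) ∨
        PP {z | P.Cl z ∧ z ⊆ eᶜ} P.Good m (sl none g) := by
  have hne := hc.exists_nonempty D
  have hb := big_cl (P := P) (q := q) (e := e) (a := a) (hC := Cinf_BAS) (X := XX x) D hc.ob
  obtain ⟨g2, hg2⟩ : ∃ g2, g2 = g \ big P q e a Cinf_BAS (XX x) := ⟨_, rfl⟩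
  obtain ⟨g1, hg1⟩ : ∃ g1, g1 = g \ g2 := ⟨_, rfl⟩
  have c2 : (NX P q e a Cinf_BAS (XX x)).Cl g2 := by
    rw [hg2]
    exact cl_diff D _ hg hb
  have c1 : (NX P q e a Cinf_BAS (XX x)).Cl g1 := by
    rw [hg1]
    exact cl_diff D _ hg c2
  have s1 : g1 ⊆ big P q e a Cinf_BAS (XX x) := by
    rw [hg1, hg2]
    rintro p ⟨h1, h2⟩
    by_contra h3
    exact h2 ⟨h1, h3⟩
  have hu : g = g1 ∪ g2 := by
    rw [hg1, sdiff_union_self]
    refine (union_eq_left.2 ?_).symm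
    rw [hg2]
    exact sdiff_subset
  have e2 : lft none (sl none g) = g2 := by
    rw [hg2]
    ext p
    constructor
    · rintro ⟨h1, h2⟩
      refine ⟨?_, fun h3 => h3 h1⟩
      rw [mem_iff_sl, h1]
      exact h2
    · rintro ⟨h1, h2⟩
      have h3 : p.1.1 = none := by
        by_contra h4
        exact h2 h4
      refine ⟨h3, ?_⟩
      rw [mem_iff_sl, h3] at h1
      exact h1
  have cm2 : cm g2 = ∅ := by
    rw [← e2]
    exact cm_lft hne _ _
  have cm1 : cm g1 = Y ∩ XX x := by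
    rw [hg1, cm_diff D hc.ob hne hg c2, cm2, sdiff_empty, hcm]
  have hRS := Cl_RS D (NX P q e a Cinf_BAS (XX x))
  have p1 : PP {g | (NX P q e a Cinf_BAS (XX x)).Cl g} (NX P q e a Cinf_BAS (XX x)).Good m g1 ↔
      x m = true ∧ ∃ l, PP (CR (m + 1)) (fun v => v = ∅) m (sc m l Y) := by
    rw [← CX_pp hY m, ← cm1]
    have h1 := (Bel_PM (B := {g | (NX P q e a Cinf_BAS (XX x)).Cl g})
      (big P q e a Cinf_BAS (XX x))).pp_iff (I := (NX P q e a Cinf_BAS (XX x)).Good)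
      (I' := (NX P q e a Cinf_BAS (XX x)).Good) (Bel_RS hRS _) hRS (Good_empty D _)
      (fun _ _ => Iff.rfl) m (x := g1) ⟨c1, s1⟩
    have h2 := (cm_PM D hc x).pp_iff (I := (NX P q e a Cinf_BAS (XX x)).Good)
      (I' := fun v => v = ∅) (Bel_RS hRS _) (BX_RS x) (Good_empty D _)
      (fun g' hg' => NX_good D hc hg'.1 fun p hp => hg'.2 hp) m (x := g1) ⟨c1, s1⟩
    exact h1.symm.trans h2
  have hZ : RS {z | P.Cl z ∧ z ⊆ eᶜ} := Bel_RS (Cl_RS D P) eᶜ
  have p2 : PP {g | (NX P q e a Cinf_BAS (XX x)).Cl g} (NX P q e a Cinf_BAS (XX x)).Good m g2 ↔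
      PP {z | P.Cl z ∧ z ⊆ eᶜ} P.Good m (sl none g) := by
    have h1 := (lft_PM D hc x).pp_iff (I := P.Good) (I' := (NX P q e a Cinf_BAS (XX x)).Good)
      hZ hRS (Good_empty D P) (fun z hz => ?_) m (x := sl none g)
      ⟨(NX_cl_spec D hc.ob hne hg).2.2 none, sl_subset none g⟩
    · rw [e2] at h1
      exact h1.symm
    · have h2 := NX_V (hC := Cinf_BAS) (X := XX x) D hc.ob hne okb_none hz.2
      exact ⟨fun h => Good_of_V h2 h, fun h => Good_of_V h2.symm h⟩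
  rw [hu, PP_union hRS c1, p1, p2]
  have e3 : sl none (g1 ∪ g2) = sl none g := by
    rw [← hu]
  rw [e3]

end VCD
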