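import Pool.Agent.VCD.PMl
import Pool.Agent.VCD.Simple

/-!
# VCD-RN: the Boolean algebras `CR n`
-/

open Set

namespace VCD

variable {J : Type}

/-- sets of pairs which are almost equal to `X × ℕ` for some `X` in `C` -/
def nextC (C : Set (Set J)) : Set (Set (J × ℕ)) := {Y | ∃ X ∈ C, {p | ¬ (p ∈ Y ↔ p.1 ∈ X)}.Finite}

/-- the first coordinates with infinitely many second coordinates -/
def lm (Y : Set (J × ℕ)) : Set J := {j | {l | (j, l) ∈ Y}.Infinite}

theorem lm_eq {Y : Set (J × ℕ)} {X : Set J} (h : {p | ¬ (p ∈ Y ↔ p.1 ∈ X)}.Finite) : lm Y = X := by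
  have hinj : ∀ j, {l : ℕ | (j, l) ∈ {p | ¬ (p ∈ Y ↔ p.1 ∈ X)}}.Finite := fun j =>
    h.preimage fun l _ l' _ hl => (Prod.ext_iff.1 hl).2
  ext j
  constructor
  · intro hj
    by_contra hX
    refine hj ((hinj j).subset ?_)
    intro l hl
    show ¬ ((j, l) ∈ Y ↔ j ∈ X)
    exact fun h1 => hX (h1.1 hl)
  · intro hX hfin
    refine Set.infinite_univ (α := ℕ) ((hfin.union (hinj j)).subset ?_)
    intro l _
    by_cases hl : (j, l) ∈ Y
    · exact Or.inl hl
    · right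
      show ¬ ((j, l) ∈ Y ↔ j ∈ X)
      exact fun h1 => hl (h1.2 hX)

theorem lm_spec {C : Set (Set J)} {Y : Set (J × ℕ)} (h : Y ∈ nextC C) :
    lm Y ∈ C ∧ {p | ¬ (p ∈ Y ↔ p.1 ∈ lm Y)}.Finite := by
  obtain ⟨X, hX, hfin⟩ := h
  rw [lm_eq hfin]
  exact ⟨hX, hfin⟩

theorem nextC_BAS {C : Set (Set J)} (hC : BAS C) : BAS (nextC C) where
  univ := ⟨univ, hC.univ, by simp⟩
  compl := by
    rintro Y ⟨X, hX, hfin⟩
    refine ⟨Xᶜ, hC.compl X hX, hfin.subset ?_⟩
    intro p hp hpp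
    apply hp
    rw [mem_compl_iff, mem_compl_iff, hpp]
  inter := by
    rintro Y ⟨X, hX, hfin⟩ Y' ⟨X', hX', hfin'⟩
    refine ⟨X ∩ X', hC.inter X hX X' hX', (hfin.union hfin').subset ?_⟩
    intro p hp
    by_contra hc
    rw [mem_union, not_or, mem_ofPred, mem_ofPred, not_not, not_not] at hc
    apply hp
    rw [mem_inter_iff, mem_inter_iff, hc.1, hc.2]

theorem BAS.RS {C : Set (Set J)} (hC : BAS C) : RS C where
  empty := hC.empty
  union _ ha _ hb := hC.union ha hb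
  diff _ ha _ hb := hC.diff ha hb

theorem nextC_countable [Countable J] {C : Set (Set J)} (hC : C.Countable) :
    (nextC C).Countable := by
  have h1 : (⋃ X ∈ C, {Y : Set (J × ℕ) | {p | ¬ (p ∈ Y ↔ p.1 ∈ X)}.Finite}).Countable := by
    refine hC.biUnion fun X _ => ?_
    have h2 := countable_modif (B := J × ℕ) (Y := Prop) (fun p => p.1 ∈ X)
    refine Set.MapsTo.countable_of_injOn (f := fun (Y : Set (J × ℕ)) (p : J × ℕ) => p ∈ Y) ?_ ?_ h2
    · intro Y hY
      have hY' : {p : J × ℕ | ¬ (p ∈ Y ↔ p.1 ∈ X)}.Finite := hY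
      refine hY'.subset ?_
      intro p hp hpp
      exact hp (propext hpp)
    · intro Y _ Y' _ h
      ext p
      exact iff_of_eq (congrFun h p)
  refine h1.mono ?_
  rintro Y ⟨X, hX, hfin⟩
  exact mem_iUnion₂.2 ⟨X, hX, hfin⟩

theorem finite_mem_nextC {C : Set (Set J)} (hC : BAS C) {Y : Set (J × ℕ)} (h : Y.Finite) :
    Y ∈ nextC C := by
  refine ⟨∅, hC.empty, h.subset ?_⟩
  intro p hp
  by_contra hpY
  exact hp ⟨fun h => (hpY h).elim, fun h => h.elim⟩

theorem lm_PM {C : Set (Set J)} (_ : BAS C) : PM (nextC C) C lm where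
  maps Y hY := (lm_spec hY).1
  union Y hY Y' hY' := by
    apply lm_eq
    refine ((lm_spec hY).2.union (lm_spec hY').2).subset ?_
    intro p hp
    by_contra hc
    rw [mem_union, not_or, mem_ofPred, mem_ofPred, not_not, not_not] at hc
    apply hp
    rw [mem_union, mem_union, hc.1, hc.2]
  diff Y hY Y' hY' := by
    apply lm_eq
    refine ((lm_spec hY).2.union (lm_spec hY').2).subset ?_
    intro p hp
    by_contra hc
    rw [mem_union, not_or, mem_ofPred, mem_ofPred, not_not, not_not] at hc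
    apply hp
    rw [mem_sdiff, mem_sdiff, hc.1, hc.2]
  lift Y hY X hX hXY := by
    have h1 : {p : J × ℕ | ¬ (p ∈ Y ∩ {p | p.1 ∈ X} ↔ p.1 ∈ X)}.Finite := by
      refine (lm_spec hY).2.subset ?_
      intro p hp hpp
      apply hp
      constructor
      · exact fun h => h.2
      · exact fun h => ⟨hpp.2 (hXY h), h⟩
    exact ⟨Y ∩ {p | p.1 ∈ X}, ⟨X, hX, h1⟩, inter_subset_left, lm_eq h1⟩

theorem lm_univ : lm (univ : Set (J × ℕ)) = univ := by
  apply lm_eq
  simp

theorem plus_nextC {C : Set (Set J)} (hC : BAS C) {Y : Set (J × ℕ)} (hY : Y ∈ nextC C) :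
    Plus (nextC C) (fun x => x = ∅) Y ↔ lm Y = ∅ := by
  have hfin : Plus (nextC C) (fun x => x = ∅) Y → Y.Finite := by
    intro h
    clear hY
    induction h with
    | base a _ h =>
      rw [show a = ∅ from h]
      exact Set.finite_empty
    | atom a h =>
      obtain ⟨h1, h2, h3⟩ := h
      obtain ⟨p, hp⟩ : a.Nonempty := nonempty_iff_ne_empty.2 h2
      rcases h3 {p} (finite_mem_nextC hC (Set.finite_singleton p)) (singleton_subset_iff.2 hp) with h | h
      · exact (Set.singleton_ne_empty p h).elim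
      · exact (Set.finite_singleton p).subset (sdiff_eq_empty.1 h)
    | sup a b _ _ h1 h2 => exact h1.union h2
  constructor
  · intro h
    have h1 := hfin h
    apply lm_eq
    refine h1.subset ?_
    intro p hp
    by_contra hpY
    exact hp ⟨fun h => (hpY h).elim, fun h => h.elim⟩
  · intro h
    have h1 := (lm_spec hY).2
    rw [h] at h1
    have h2 : Y.Finite := by
      refine h1.subset ?_
      intro p hp hpp
      exact (hpp.1 hp).elim
    clear h1 h hY hfin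
    induction Y, h2 using Set.Finite.induction_on with
    | empty => exact Plus.base _ (nextC_BAS hC).empty rfl
    | @insert p s hp hs ih =>
      rw [insert_eq]
      refine Plus.sup _ _ (Plus.atom _ ⟨finite_mem_nextC hC (Set.finite_singleton p),
        Set.singleton_ne_empty p, fun u _ hu => ?_⟩) ih
      rcases subset_singleton_iff_eq.1 hu with h | h
      · exact Or.inl h
      · right
        rw [h, sdiff_self]

theorem pp_succ {C : Set (Set J)} (hC : BAS C) (m : ℕ) {Y : Set (J × ℕ)} (hY : Y ∈ nextC C) :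
    PP (nextC C) (fun x => x = ∅) (m + 1) Y ↔ PP C (fun x => x = ∅) m (lm Y) :=
  (lm_PM hC).pp_iff (I := Plus (nextC C) (fun x => x = ∅)) (I' := fun x => x = ∅)
    (nextC_BAS hC).RS hC.RS (Plus.base _ (nextC_BAS hC).empty rfl)
    (fun _ hx => plus_nextC hC hx) m hY

theorem iter_succ {C : Set (Set J)} (hC : BAS C) (m : ℕ) {Y : Set (J × ℕ)} (hY : Y ∈ nextC C) :
    ((Plus (nextC C))^[m + 1] (fun x => x = ∅)) Y ↔ ((Plus C)^[m] (fun x => x = ∅)) (lm Y) :=
  ((lm_PM hC).iter (nextC_BAS hC).RS hC.RS m (Plus (nextC C) (fun x => x = ∅)) (fun x => x = ∅)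
    (Plus.base _ (nextC_BAS hC).empty rfl) (fun _ hx => plus_nextC hC hx)).2 Y hY

/-- no atoms -/
def Atomless (C : Set (Set J)) : Prop :=
  ∀ X ∈ C, X ≠ ∅ → ∃ X' ∈ C, X' ⊆ X ∧ X' ≠ ∅ ∧ X \ X' ≠ ∅

theorem atomless_plus {C : Set (Set J)} (hC : BAS C) (h : Atomless C) :
    Plus C (fun x => x = ∅) = fun x => x = ∅ := by
  funext x
  apply propext
  constructor
  · intro h1
    induction h1 with
    | base a _ h => exact h
    | atom a h1 =>
      obtain ⟨h1, h2, h3⟩ := h1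
      obtain ⟨u, hu, su, h4, h5⟩ := h a h1 h2
      rcases h3 u hu su with h6 | h6
      · exact (h4 h6).elim
      · exact (h5 h6).elim
    | sup a b _ _ h1 h2 =>
      rw [show a = ∅ from h1, show b = ∅ from h2, union_empty]
  · intro h1
    rw [show x = ∅ from h1]
    exact Plus.base _ hC.empty rfl

theorem atomless_iter {C : Set (Set J)} (hC : BAS C) (h : Atomless C) (m : ℕ) :
    (Plus C)^[m] (fun x => x = ∅) = fun x => x = ∅ := by
  induction m with
  | zero => rfl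
  | succ m ih =>
    rw [Function.iterate_succ_apply, atomless_plus hC h]
    exact ih

theorem atomless_pp {C : Set (Set J)} (hC : BAS C) (h : Atomless C) (m : ℕ) (X : Set J) :
    ¬ PP C (fun x => x = ∅) m X := by
  rintro ⟨y, hy, sy, h1, h2⟩
  rw [atomless_iter hC h] at h1 h2
  obtain ⟨_, t, st, ht⟩ := h2 y hy Subset.rfl h1
  obtain ⟨h3, h4, h5⟩ := ht
  obtain ⟨u, hu, su, h6, h7⟩ := h t h3 h4
  rcases h5 u hu su with h8 | h8
  · exact h6 h8
  · exact h7 h8

theorem atomless_next {C : Set (Set J)} (hC : BAS C) (h : Atomless C) (hne : Nonempty J) :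
    PP (nextC C) (fun x => x = ∅) 0 univ := by
  refine ⟨univ, (nextC_BAS hC).univ, Subset.rfl, ?_, ?_⟩
  · show ¬ Plus (nextC C) (fun x => x = ∅) univ
    rw [plus_nextC hC (nextC_BAS hC).univ, lm_univ]
    exact (nonempty_iff_ne_empty.1 univ_nonempty)
  · intro y hy _ h1
    have h1' : ¬ Plus (nextC C) (fun x => x = ∅) y := h1
    rw [plus_nextC hC hy] at h1'
    obtain ⟨X, hX, sX, h2, h3⟩ := h _ (lm_spec hy).1 h1'
    obtain ⟨u, hu, su, hux⟩ := (lm_PM hC).lift y hy X hX sX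
    refine ⟨⟨u, hu, su, ?_, ?_⟩, ?_⟩
    · show ¬ Plus (nextC C) (fun x => x = ∅) u
      rw [plus_nextC hC hu, hux]
      exact h2
    · show ¬ Plus (nextC C) (fun x => x = ∅) (y \ u)
      rw [plus_nextC hC ((nextC_BAS hC).diff hy hu), (lm_PM hC).diff y hy u hu, hux]
      exact h3
    · have h4 : y.Nonempty := by
        rw [nonempty_iff_ne_empty]
        intro h5
        apply h1'
        rw [h5]
        exact (lm_PM hC).empty (nextC_BAS hC).RS
      obtain ⟨p, hp⟩ := h4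
      refine ⟨{p}, singleton_subset_iff.2 hp, finite_mem_nextC hC (Set.finite_singleton p),
        Set.singleton_ne_empty p, fun u _ hu => ?_⟩
      rcases subset_singleton_iff_eq.1 hu with h | h
      · exact Or.inl h
      · right
        rw [h, sdiff_self]
        rfl

theorem atomic_next {C : Set (Set J)} (hC : BAS C) (h : ∀ j, {j} ∈ C) {Y : Set (J × ℕ)} :
    ¬ PP (nextC C) (fun x => x = ∅) 0 Y := by
  rintro ⟨y, hy, -, h1, h2⟩
  have h1' : ¬ Plus (nextC C) (fun x => x = ∅) y := h1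
  rw [plus_nextC hC hy] at h1'
  obtain ⟨j, hj⟩ := nonempty_iff_ne_empty.2 h1'
  obtain ⟨z, hz, sz, hzj⟩ := (lm_PM hC).lift y hy {j} (h j) (singleton_subset_iff.2 hj)
  have h3 : ¬ Plus (nextC C) (fun x => x = ∅) z := by
    rw [plus_nextC hC hz, hzj]
    exact Set.singleton_ne_empty j
  obtain ⟨⟨u, hu, su, h4, h5⟩, _⟩ := h2 z hz sz h3
  have h4' : ¬ Plus (nextC C) (fun x => x = ∅) u := h4
  have h5' : ¬ Plus (nextC C) (fun x => x = ∅) (z \ u) := h5
  rw [plus_nextC hC hu] at h4'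
  rw [plus_nextC hC ((nextC_BAS hC).diff hz hu), (lm_PM hC).diff z hz u hu, hzj] at h5'
  have h6 : lm u ⊆ {j} := by
    rw [← hzj]
    exact (lm_PM hC).mono (nextC_BAS hC).RS hu hz su
  rcases subset_singleton_iff_eq.1 h6 with h7 | h7
  · exact h4' h7
  · apply h5'
    rw [h7, sdiff_self]

/-- the index sets -/
def JR : ℕ → Type
  | 0 => ℕ
  | n + 1 => JR n × ℕ

/-- the Boolean algebras -/
def CR : ∀ n : ℕ, Set (Set (JR n))
  | 0 => {Y : Set ℕ | ∃ k : ℕ, ∀ m m' : ℕ, m % 2 ^ k = m' % 2 ^ k → (m ∈ Y ↔ m' ∈ Y)}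
  | n + 1 => nextC (CR n)

theorem CR_zero_BAS : BAS (CR 0) where
  univ := ⟨0, fun _ _ _ => ⟨fun _ => mem_univ _, fun _ => mem_univ _⟩⟩
  compl := by
    rintro Y ⟨k, hk⟩
    exact ⟨k, fun m m' h => not_congr (hk m m' h)⟩
  inter := by
    rintro Y ⟨k, hk⟩ Y' ⟨k', hk'⟩
    refine ⟨k + k', fun m m' h => ?_⟩
    have h1 : m % 2 ^ k = m' % 2 ^ k := by
      have h2 : 2 ^ k ∣ 2 ^ (k + k') := pow_dvd_pow 2 (Nat.le_add_right _ _)
      exact Nat.ModEq.of_dvd h2 h
    have h2 : m % 2 ^ k' = m' % 2 ^ k' := by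
      have h2 : 2 ^ k' ∣ 2 ^ (k + k') := pow_dvd_pow 2 (Nat.le_add_left _ _)
      exact Nat.ModEq.of_dvd h2 h
    exact and_congr (hk m m' h1) (hk' m m' h2)

theorem CR_BAS : ∀ n, BAS (CR n)
  | 0 => CR_zero_BAS
  | n + 1 => nextC_BAS (CR_BAS n)

instance JR_countable : ∀ n, Countable (JR n)
  | 0 => inferInstanceAs (Countable ℕ)
  | n + 1 => by
    have := JR_countable n
    exact inferInstanceAs (Countable (JR n × ℕ))

instance JR_nonempty : ∀ n, Nonempty (JR n)
  | 0 => inferInstanceAs (Nonempty ℕ)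
  | n + 1 => by
    have := JR_nonempty n
    exact inferInstanceAs (Nonempty (JR n × ℕ))

theorem CR_countable : ∀ n, (CR n).Countable
  | 0 => by
    have h1 : (⋃ k : ℕ, {Y : Set ℕ | ∀ m m' : ℕ, m % 2 ^ k = m' % 2 ^ k → (m ∈ Y ↔ m' ∈ Y)}).Countable := by
      refine Set.countable_iUnion fun k => ?_
      have h2 : {t : Set ℕ | t.Finite ∧ t ⊆ univ}.Countable :=
        Set.countable_ofPred_finite_subset Set.countable_univ
      refine Set.MapsTo.countable_of_injOn (f := fun Y : Set ℕ => Y ∩ {m | m < 2 ^ k}) ?_ ?_ h2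
      · intro Y _
        exact ⟨(Set.finite_lt_nat _).inter_of_right _, subset_univ _⟩
      · intro Y hY Y' hY' h
        have key : ∀ m, m ∈ Y ↔ m % 2 ^ k ∈ Y ∩ {m | m < 2 ^ k} := by
          intro m
          rw [hY m (m % 2 ^ k) (Nat.mod_mod _ _).symm]
          exact ⟨fun h => ⟨h, Nat.mod_lt _ (by positivity)⟩, fun h => h.1⟩
        have key' : ∀ m, m ∈ Y' ↔ m % 2 ^ k ∈ Y' ∩ {m | m < 2 ^ k} := by
          intro m
          rw [hY' m (m % 2 ^ k) (Nat.mod_mod _ _).symm]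
          exact ⟨fun h => ⟨h, Nat.mod_lt _ (by positivity)⟩, fun h => h.1⟩
        ext m
        have h' : Y ∩ {m | m < 2 ^ k} = Y' ∩ {m | m < 2 ^ k} := h
        rw [key, key', h']
    refine h1.mono ?_
    rintro Y ⟨k, hk⟩
    exact mem_iUnion.2 ⟨k, hk⟩
  | n + 1 => nextC_countable (CR_countable n)

private theorem c0_atomless : Atomless
    {Y : Set ℕ | ∃ k : ℕ, ∀ m m' : ℕ, m % 2 ^ k = m' % 2 ^ k → (m ∈ Y ↔ m' ∈ Y)} := by
  rintro Y ⟨k, hk⟩ hne
  obtain ⟨m, hm⟩ : Set.Nonempty Y := nonempty_iff_ne_empty.2 hne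
  have hmem : ∀ m' : ℕ, m' % 2 ^ k = m % 2 ^ k → m' ∈ Y := fun m' h => (hk m' m h).2 hm
  obtain ⟨m', hm'⟩ : ∃ m' : ℕ, m' = m + 2 ^ k := ⟨_, rfl⟩
  have h1 : m' % 2 ^ k = m % 2 ^ k := by
    rw [hm', Nat.add_mod_right]
  have h2 : m' % 2 ^ (k + 1) ≠ m % 2 ^ (k + 1) := by
    intro h
    have h3 : (2 ^ (k + 1) : ℕ) ∣ m' - m := (Nat.modEq_iff_dvd' (by omega)).1 h.symm
    rw [hm', Nat.add_sub_cancel_left] at h3
    have h5 : 0 < 2 ^ k := by positivity
    have h4 := Nat.le_of_dvd h5 h3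
    rw [pow_succ] at h4
    omega
  have hdvd : (2 ^ k : ℕ) ∣ 2 ^ (k + 1) := pow_dvd_pow 2 (Nat.le_succ k)
  refine ⟨{l : ℕ | l % 2 ^ (k + 1) = m % 2 ^ (k + 1)}, ⟨k + 1, fun a b h => ?_⟩, ?_, ?_, ?_⟩
  · show a % 2 ^ (k + 1) = m % 2 ^ (k + 1) ↔ b % 2 ^ (k + 1) = m % 2 ^ (k + 1)
    rw [h]
  · intro l hl
    exact hmem l (Nat.ModEq.of_dvd hdvd hl)
  · rw [← nonempty_iff_ne_empty]
    exact ⟨m, rfl⟩
  · rw [← nonempty_iff_ne_empty]
    exact ⟨m', hmem m' h1, h2⟩

theorem CR_zero_atomless : Atomless (CR 0) := c0_atomless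

theorem CR_singleton (n : ℕ) (j : JR (n + 1)) : {j} ∈ CR (n + 1) :=
  finite_mem_nextC (CR_BAS n) (Set.finite_singleton j)

theorem CR_only : ∀ (n m : ℕ) (Y : Set (JR (n + 1))), Y ∈ CR (n + 1) →
    PP (CR (n + 1)) (fun x => x = ∅) m Y → m = n
  | 0, 0, _, _, _ => rfl
  | 0, m + 1, Y, hY, h => by
    exfalso
    exact atomless_pp CR_zero_BAS CR_zero_atomless m _ ((pp_succ CR_zero_BAS m hY).1 h)
  | n + 1, 0, Y, hY, h => by
    exfalso
    exact atomic_next (CR_BAS (n + 1)) (CR_singleton n) h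
  | n + 1, m + 1, Y, hY, h => by
    have h1 := (pp_succ (CR_BAS (n + 1)) m hY).1 h
    rw [CR_only n m _ (lm_spec hY).1 h1]

theorem CR_full : ∀ n : ℕ, PP (CR (n + 1)) (fun x => x = ∅) n univ
  | 0 => atomless_next CR_zero_BAS CR_zero_atomless (JR_nonempty 0)
  | n + 1 => by
    refine (pp_succ (CR_BAS (n + 1)) n (nextC_BAS (CR_BAS (n + 1))).univ).2 ?_
    rw [lm_univ]
    exact CR_full n

theorem CR_not : ∀ (n m : ℕ), ¬ ((Plus (CR n))^[m] (fun x => x = ∅)) univ
  | 0, m => by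
    rw [atomless_iter CR_zero_BAS CR_zero_atomless]
    have := JR_nonempty 0
    exact nonempty_iff_ne_empty.1 univ_nonempty
  | n + 1, 0 => by
    have := JR_nonempty (n + 1)
    exact nonempty_iff_ne_empty.1 univ_nonempty
  | n + 1, m + 1 => by
    intro h
    have h1 := (iter_succ (CR_BAS n) m (nextC_BAS (CR_BAS n)).univ).1 h
    rw [lm_univ] at h1
    exact CR_not n m h1

end VCD
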